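import Pool.Agent.R807.Lists

/-!
The adjoint of a tangle diagram at the root of unity `v_N = exp (π i / N)`.
-/

set_option autoImplicit false

namespace Pool.Agent.R807

open Finset Matrix Pool.Agent.W709.QAT Pool.Agent.H550R3.Jones
open Pool.Agent.H927R2.J.SanYB (brf_ne)
open Pool.Agent.W715.VC (rt rt_ne prod_br conj_rt_zpow adm PP QQ sh sh_PP sh_QQ sh_mul)

variable {N : ℕ}

lemma brf_mul {k : ℕ} (hk : k < N) :
    brf (rt N) k * brf (rt N) (N - 1 - k) = brf (rt N) (N - 1) := by
  have h := prod_br (N := N) (by omega) (i := N - 1) (n := k) (by omega)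
  rw [← h, mul_comm]
  congr 1
  unfold brf
  refine prod_congr rfl fun t _ => ?_
  congr 1
  have : ((N - 1 : ℕ) : ℤ) = (N : ℤ) - 1 := by omega
  rw [this]; ring

lemma kap_rt {k : ℕ} (hk : k < N) : Pool.Agent.W709.QAT.kap N (rt N) k =
    (-1) ^ k * rt N ^ ((k : ℤ) * ((N : ℤ) - 2 - k)) := by
  unfold Pool.Agent.W709.QAT.kap
  rw [brf_mul hk, div_self (brf_ne (adm N) (by omega)), mul_one]

lemma kap_ne {k : ℕ} (hk : k < N) : Pool.Agent.W709.QAT.kap N (rt N) k ≠ 0 := by
  rw [kap_rt hk]
  exact mul_ne_zero (pow_ne_zero _ (by norm_num)) (zpow_ne_zero _ (rt_ne N))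

lemma conj_kap {k : ℕ} (hk : k < N) :
    (starRingEnd ℂ) (Pool.Agent.W709.QAT.kap N (rt N) k) =
      (Pool.Agent.W709.QAT.kap N (rt N) k)⁻¹ := by
  rw [kap_rt hk, map_mul, conj_rt_zpow, mul_inv, ← _root_.zpow_neg]
  congr 1
  rw [map_pow, map_neg, map_one]
  rcases Nat.even_or_odd k with h | h
  · rw [h.neg_one_pow]; norm_num
  · rw [h.neg_one_pow]; norm_num

lemma conj_cup (p : Fin N × Fin N) :
    (starRingEnd ℂ) (Pool.Agent.W709.QAT.cup N (rt N) (p.2, p.1)) =
      Pool.Agent.W709.QAT.cap N (rt N) p := by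
  unfold Pool.Agent.W709.QAT.cup Pool.Agent.W709.QAT.cap
  simp only
  by_cases h : (p.1 : ℕ) + p.2 = N - 1
  · rw [if_pos h, if_pos (by omega), conj_kap p.2.2]
  · rw [if_neg h, if_neg (by omega), map_zero]

lemma conj_cap (p : Fin N × Fin N) :
    (starRingEnd ℂ) (Pool.Agent.W709.QAT.cap N (rt N) (p.2, p.1)) =
      Pool.Agent.W709.QAT.cup N (rt N) p := by
  rw [← conj_cup (p.2, p.1), Complex.conj_conj]

/-- the crossing -/
noncomputable def cr (N : ℕ) (σ : Bool) : Matrix (Fin N × Fin N) (Fin N × Fin N) ℂ :=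
  if σ then crossP N (rt N) else crossN N (rt N)

lemma sh_cr (hN : 0 < N) (σ : Bool) : sh (cr N σ) = cr N (!σ) := by
  cases σ
  · exact sh_QQ hN
  · exact sh_PP hN

lemma sh_one : sh (1 : Matrix (Fin N × Fin N) (Fin N × Fin N) ℂ) = 1 := by
  ext p q
  simp only [sh, Matrix.one_apply]
  have : ((q.2, q.1) = (p.2, p.1)) ↔ p = q := by
    constructor
    · intro h
      have h1 := congrArg Prod.fst h
      have h2 := congrArg Prod.snd h
      exact Prod.ext h2.symm h1.symm
    · rintro rfl; rfl
  simp only [this]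
  split_ifs <;> simp

lemma sh_pow (A : Matrix (Fin N × Fin N) (Fin N × Fin N) ℂ) (m : ℕ) : sh (A ^ m) = sh A ^ m := by
  induction m with
  | zero => rw [pow_zero, pow_zero, sh_one]
  | succ m ih => rw [pow_succ, sh_mul, ih, ← pow_succ']

/-- the adjoint of a piece with `n` strands below it -/
def padj : Piece → ℕ → Piece
  | .cup i, n => .cap (n - i)
  | .cap i, n => .cup (n - 2 - i)
  | .twist i σ m, n => .twist (n - 2 - i) (!σ) m

/-- the adjoint of a diagram with `n` strands at the bottom -/
def adj : Diag → ℕ → Diag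
  | [], _ => []
  | P :: D, n => adj D ((P.strands n).getD 0) ++ [padj P n]

/-- `D` is a diagram with `n` strands at the bottom and `k` at the top -/
def Fits (D : Diag) (n k : ℕ) : Prop := D.foldl (fun n P => n.bind P.strands) (some n) = some k

lemma act_cup (v : ℂ) (i : ℕ) (f : List (Fin N) → ℂ) (l : List (Fin N)) (a b : Fin N)
    (r : List (Fin N)) (hl : l.length = i) :
    (Piece.cup i).act N v f (l ++ a :: b :: r) = Pool.Agent.W709.QAT.cup N v (a, b) * f (l ++ r) := by
  subst hl
  simp only [Piece.act, List.drop_left, List.take_left]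

lemma act_cap (v : ℂ) (i : ℕ) (f : List (Fin N) → ℂ) (l r : List (Fin N)) (hl : l.length = i) :
    (Piece.cap i).act N v f (l ++ r) =
      ∑ p : Fin N × Fin N, Pool.Agent.W709.QAT.cap N v p * f (l ++ p.1 :: p.2 :: r) := by
  subst hl
  simp only [Piece.act, List.drop_left, List.take_left]

lemma act_twist (i : ℕ) (σ : Bool) (m : ℕ) (f : List (Fin N) → ℂ) (l : List (Fin N))
    (a b : Fin N) (r : List (Fin N)) (hl : l.length = i) :
    (Piece.twist i σ m).act N (rt N) f (l ++ a :: b :: r) =
      ∑ p : Fin N × Fin N, (cr N σ ^ m) (a, b) p * f (l ++ p.1 :: p.2 :: r) := by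
  subst hl
  simp only [Piece.act, List.drop_left, List.take_left]
  rfl

lemma rev_mid (l r : List (Fin N)) (a b : Fin N) :
    (l ++ a :: b :: r).reverse = r.reverse ++ b :: a :: l.reverse := by simp

/-- adjointness of a piece -/
lemma padj_spec (hN : 0 < N) (P : Piece) {n k : ℕ} (hP : P.strands n = some k)
    (g f : List (Fin N) → ℂ) :
    Bf k (P.act N (rt N) g) f = Bf n g ((padj P n).act N (rt N) f) := by
  cases P with
  | cup i =>
    simp only [Piece.strands] at hP
    split_ifs at hP with hi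
    cases hP
    obtain ⟨r, rfl⟩ : ∃ r, n = i + r := ⟨n - i, by omega⟩
    have e : i + r + 2 = i + (2 + r) := by omega
    rw [e]
    unfold Bf
    rw [sl_mid, sl_add]
    refine sl_congr fun l hl => ?_
    rw [← sl_sum]
    refine sl_congr fun t ht => ?_
    have e1 : i + r - i = t.reverse.length := by rw [List.length_reverse, ht]; omega
    have e2 : (l ++ t).reverse = t.reverse ++ l.reverse := List.reverse_append
    simp only [padj]
    rw [e1, e2, act_cap _ _ _ _ _ rfl, mul_sum]
    rw [← Equiv.sum_comp (Equiv.prodComm (Fin N) (Fin N))]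
    refine sum_congr rfl fun p _ => ?_
    simp only [Equiv.prodComm_apply, Prod.fst_swap, Prod.snd_swap]
    rw [act_cup _ _ _ _ _ _ _ hl, map_mul, rev_mid, ← conj_cup]
    ring
  | cap i =>
    simp only [Piece.strands] at hP
    split_ifs at hP with hi
    cases hP
    obtain ⟨r, rfl⟩ : ∃ r, n = i + (2 + r) := ⟨n - 2 - i, by omega⟩
    have e : i + (2 + r) - 2 = i + r := by omega
    rw [e]
    unfold Bf
    rw [sl_mid, sl_add]
    refine sl_congr fun l hl => ?_
    rw [← sl_sum]
    refine sl_congr fun t ht => ?_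
    have e1 : i + (2 + r) - 2 - i = t.reverse.length := by rw [List.length_reverse, ht]; omega
    have e2 : (l ++ t).reverse = t.reverse ++ l.reverse := List.reverse_append
    simp only [padj]
    rw [act_cap _ _ _ _ _ hl, map_sum, sum_mul, e1, e2]
    refine sum_congr rfl fun p _ => ?_
    rw [rev_mid, act_cup _ _ _ _ _ _ _ rfl, map_mul]
    have := conj_cap (N := N) (p.2, p.1)
    simp only at this
    rw [← this]
    ring
  | twist i σ m =>
    simp only [Piece.strands] at hP
    split_ifs at hP with hi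
    cases hP
    obtain ⟨r, hr⟩ : ∃ r, n = i + (2 + r) := ⟨n - 2 - i, by omega⟩
    subst hr
    unfold Bf
    rw [sl_mid, sl_mid]
    refine sl_congr fun l hl => ?_
    rw [← sl_sum, ← sl_sum]
    refine sl_congr fun t ht => ?_
    have e1 : i + (2 + r) - 2 - i = t.reverse.length := by rw [List.length_reverse, ht]; omega
    simp only [padj]
    rw [e1]
    have h1 : ∀ p : Fin N × Fin N, (starRingEnd ℂ) ((Piece.twist i σ m).act N (rt N) g
        (l ++ p.1 :: p.2 :: t)) * f (l ++ p.1 :: p.2 :: t).reverse =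
        ∑ q : Fin N × Fin N, (starRingEnd ℂ) (g (l ++ q.1 :: q.2 :: t)) *
          ((starRingEnd ℂ) ((cr N σ ^ m) p q) * f (t.reverse ++ p.2 :: p.1 :: l.reverse)) := by
      intro p
      rw [act_twist _ _ _ _ _ _ _ _ hl, rev_mid, map_sum, sum_mul]
      refine sum_congr rfl fun q _ => ?_
      rw [map_mul]; ring
    rw [sum_congr rfl fun p _ => h1 p, sum_comm]
    refine sum_congr rfl fun q _ => ?_
    rw [← mul_sum]
    congr 1
    rw [rev_mid, act_twist _ _ _ _ _ _ _ _ rfl, ← Equiv.sum_comp (Equiv.prodComm (Fin N) (Fin N))]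
    refine sum_congr rfl fun p _ => ?_
    simp only [Equiv.prodComm_apply, Prod.fst_swap, Prod.snd_swap, Prod.swap]
    congr 1
    have h2 : sh (cr N σ ^ m) = cr N (!σ) ^ m := by rw [sh_pow, sh_cr hN]
    rw [← h2]
    rfl

lemma run_append (v : ℂ) (D E : Diag) (f : List (Fin N) → ℂ) :
    run N v (D ++ E) f = run N v E (run N v D f) := by
  unfold run; rw [List.foldl_append]

lemma fold_none (D : Diag) : D.foldl (fun n P => n.bind P.strands) none = none := by
  induction D with
  | nil => rfl
  | cons P D ih => rw [List.foldl_cons]; exact ih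

lemma fits_cons {P : Piece} {D : Diag} {n k : ℕ} (h : Fits (P :: D) n k) :
    ∃ m, P.strands n = some m ∧ Fits D m k := by
  unfold Fits at h
  rw [List.foldl_cons] at h
  change List.foldl (fun n P => n.bind P.strands) (P.strands n) D = some k at h
  cases hm : P.strands n with
  | none => rw [hm, fold_none] at h; exact absurd h (by simp)
  | some m => exact ⟨m, rfl, by rw [hm] at h; exact h⟩

/-- adjointness of a diagram -/
lemma adj_spec (hN : 0 < N) (D : Diag) {n k : ℕ} (hD : Fits D n k) (g f : List (Fin N) → ℂ) :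
    Bf k (run N (rt N) D g) f = Bf n g (run N (rt N) (adj D n) f) := by
  induction D generalizing n g f with
  | nil =>
    simp only [Fits, List.foldl_nil, Option.some.injEq] at hD
    subst hD
    rfl
  | cons P D ih =>
    obtain ⟨m, h1, h2⟩ := fits_cons hD
    have e1 : run N (rt N) (P :: D) g = run N (rt N) D (P.act N (rt N) g) := rfl
    rw [e1, ih h2, padj_spec hN P h1]
    simp only [adj]
    rw [h1, Option.getD_some, run_append]
    rfl

end Pool.Agent.R807
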