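import Pool.Agent.R807.Growth
import Pool.Agent.W719.BX.Mat
import Pool.Agent.W101.BX.Trb
import Pool.Agent.W52.BX.EigK
import Pool.Agent.W978.BX.PPA
import Pool.Agent.W571.BX.Bmt

/-!
The traces of the braids `(σ₁² σ₂⁻²)ⁿ`.
-/

set_option autoImplicit false

namespace Pool.Agent.R807.AxSq

open Finset Matrix Filter Topology Pool.Agent.W709.QAT Pool.Agent.H550R3.Jones
open Pool.Agent.W715.VC hiding kap
open scoped Real

variable {N : ℕ}

theorem s_trb : Pool.Agent.W719.BX.S_TRB :=
  Pool.Agent.W101.BX.trb Pool.Agent.W52.BX.EigK.eigk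
    (Pool.Agent.W719.BX.bm Pool.Agent.W978.BX.ppa) Pool.Agent.W571.BX.bmt

/-- `TT` is the absolute value of the entries of the matrix of `σ₁^A` -/
lemma TT_eq (A : ℕ) (hN : 2 ≤ N) {k n : ℕ} (hk : k ≤ n) (hn : n < N) :
    Pool.Agent.W719.BX.TT A N k n = ‖tt N (N - 1) (on12 (PP N ^ A) *ᵥ yv N (N - 1) k) n‖ := by
  have h := Pool.Agent.W719.BX.k12 Pool.Agent.W978.BX.ppa A N (N - 1) k hN (by omega) (by omega)
  rw [h, tt_sum]
  have h1 : ∀ i ∈ Icc k (N - 1), tt N (N - 1) ((Pool.Agent.W719.BX.II A N k (N - 1 - i) *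
      ∏ b ∈ Icc (k + 1) i, ((gg N (N - 1) (b : ℤ) : ℝ) : ℂ)) • yv N (N - 1) i) n =
      if i = n then Pool.Agent.W719.BX.II A N k (N - 1 - i) *
      ∏ b ∈ Icc (k + 1) i, ((gg N (N - 1) (b : ℤ) : ℝ) : ℂ) else 0 := by
    intro i hi
    rw [mem_Icc] at hi
    rw [tt_smul, tt_yv (by omega) hi.2]
    by_cases hin : i = n
    · rw [if_pos hin.symm, if_pos hin, mul_one]
    · rw [if_neg (fun h => hin h.symm), if_neg hin, mul_zero]
  rw [sum_congr rfl h1, sum_ite_eq' (Icc k (N - 1)) n, if_pos (by rw [mem_Icc]; omega), norm_mul,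
    Pool.Agent.W571.BX.II_norm]
  have h2 : ∏ b ∈ Icc (k + 1) n, ((gg N (N - 1) (b : ℤ) : ℝ) : ℂ) =
      ((Pool.Agent.W571.BX.Pg N (N - 1) k n : ℝ) : ℂ) := by
    unfold Pool.Agent.W571.BX.Pg
    push_cast
    rfl
  rw [h2, Pool.Agent.W571.BX.Pg_top (by omega) hk (by omega), Complex.norm_real,
    Real.norm_of_nonneg (by positivity)]
  unfold Pool.Agent.W719.BX.TT
  change (Pool.Agent.W571.BX.uu N n / Pool.Agent.W571.BX.uu N k) ^ 2 * _ = _
  ring

lemma SS_two (hN : 2 ≤ N) : Pool.Agent.W719.BX.SS 2 N = E2 N := by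
  unfold Pool.Agent.W719.BX.SS E2
  refine sum_congr rfl fun n hn => sum_congr rfl fun k hk => ?_
  rw [mem_range] at hn hk
  rw [TT_eq 2 hN (by omega) hn, tt_P2 (by omega) (yv_InK (by omega) k) (by omega)]
  have h1 : ∑ a ∈ range N, u2 N n a * tt N (N - 1) (yv N (N - 1) k) a = u2 N n k := by
    rw [sum_eq_single k]
    · rw [tt_yv (by omega) (by omega), if_pos rfl, mul_one]
    · intro a _ ha
      rw [tt_yv (by omega) (by omega), if_neg ha, mul_zero]
    · intro h
      exact absurd (mem_range.2 (by omega)) h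
  rw [h1, norm_u2 hn (by omega)]

/-! ### growth -/

open GapVol

lemma idx_lim (a b : ℕ) (hb : 0 < b) :
    Tendsto (fun N : ℕ => π * ((a * N / b : ℕ) : ℝ) / N) atTop (𝓝 (π * a / b)) := by
  have hpi := Real.pi_pos
  have hb0 : (0 : ℝ) < b := by exact_mod_cast hb
  have h1 : Tendsto (fun N : ℕ => (1 : ℝ) / N) atTop (𝓝 0) := tendsto_one_div_atTop_nhds_zero_nat
  have h2 : Tendsto (fun N : ℕ => π * a / b - π * (1 / (N : ℝ))) atTop (𝓝 (π * a / b - π * 0)) :=
    tendsto_const_nhds.sub (h1.const_mul π)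
  rw [mul_zero, sub_zero] at h2
  refine tendsto_of_tendsto_of_tendsto_of_le_of_le' h2 tendsto_const_nhds ?_ ?_
  · filter_upwards [eventually_gt_atTop 0] with N hN
    have hN0 : (0 : ℝ) < N := by exact_mod_cast hN
    have h3 : a * N < b * (a * N / b) + b := by
      have := Nat.div_add_mod (a * N) b
      have h5 := Nat.mod_lt (a * N) hb
      omega
    have h4 : (a : ℝ) * N < b * ((a * N / b : ℕ) : ℝ) + b := by exact_mod_cast h3
    rw [le_div_iff₀ hN0]
    have e : (π * a / b - π * (1 / (N : ℝ))) * N = π * ((a * N - b) / b) := by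
      field_simp
    rw [e]
    refine mul_le_mul_of_nonneg_left ?_ hpi.le
    rw [div_le_iff₀ hb0]
    linarith
  · filter_upwards [eventually_gt_atTop 0] with N hN
    have hN0 : (0 : ℝ) < N := by exact_mod_cast hN
    have h3 : b * (a * N / b) ≤ a * N := Nat.mul_div_le _ _
    have h4 : (b : ℝ) * ((a * N / b : ℕ) : ℝ) ≤ a * N := by exact_mod_cast h3
    rw [div_le_iff₀ hN0]
    have e : π * a / b * (N : ℝ) = π * (a * N / b) := by ring
    rw [e]
    refine mul_le_mul_of_nonneg_left ?_ hpi.le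
    rw [le_div_iff₀ hb0]
    linarith

lemma lob_half : lob (π / 2) = 0 := by
  have h := lob_pi_sub (π / 2)
  have e : π - π / 2 = π / 2 := by ring
  rw [e] at h
  linarith

lemma lob_three_four : lob (π * (3 : ℕ) / (4 : ℕ)) = -lob (π / 4) := by
  rw [← lob_pi_sub]
  congr 1
  push_cast
  ring

/-- the lower bound for the double crossing -/
theorem E2_ge {ε : ℝ} (hε : 0 < ε) : ∀ᶠ N : ℕ in atTop,
    Real.exp (N * (8 * lob (π / 4) / π - ε)) ≤ E2 N := by
  have hpi := Real.pi_pos
  have hi := idx_lim 3 4 (by norm_num)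
  have hj := idx_lim 1 4 (by norm_num)
  have hd := hi.sub hj
  have e0 : π * ((3 : ℕ) : ℝ) / ((4 : ℕ) : ℝ) - π * ((1 : ℕ) : ℝ) / ((4 : ℕ) : ℝ) = π / 2 := by
    push_cast; ring
  rw [e0] at hd
  have li := (GapVol.lob_cont.tendsto _).comp hi
  have lj := (GapVol.lob_cont.tendsto _).comp hj
  have ld := (GapVol.lob_cont.tendsto _).comp hd
  rw [lob_three_four] at li
  rw [lob_half] at ld
  have e1 : π * ((1 : ℕ) : ℝ) / ((4 : ℕ) : ℝ) = π / 4 := by push_cast; ring
  rw [e1] at lj
  have hlim := (((li.const_mul (-2)).add (lj.const_mul 2)).add ld)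
  have e2 : -2 * -lob (π / 4) + 2 * lob (π / 4) + 0 = 4 * lob (π / 4) := by ring
  rw [e2] at hlim
  have hev := hlim.eventually (lt_mem_nhds (show 4 * lob (π / 4) - π * (ε / 4) < 4 * lob (π / 4) by
    have : 0 < π * (ε / 4) := by positivity
    linarith))
  filter_upwards [Pool.Agent.W563.QAT.lb (ε / 20) (by positivity), hev, eventually_gt_atTop 4]
    with N hN h1 h2
  have hN0 : (0 : ℝ) < N := by exact_mod_cast (show 0 < N by omega)
  simp only [Function.comp_apply] at h1
  set i := 3 * N / 4 with hi'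
  set j := 1 * N / 4 with hj'
  have hij : j ≤ i := by omega
  have hiN : i < N := by omega
  have p1 := (Fa_pos (N := N) (k := i) hiN)
  have p2 := (Fa_pos (N := N) (k := j) (by omega))
  have p3 := bc_pos hiN hij
  have g1 := (abs_le.1 (hN i hiN).2).1
  have g2 := (abs_le.1 (hN j (by omega)).2).2
  have g3 := (abs_le.1 (hN (i - j) (by omega)).2).2
  have e3 : π * ((i - j : ℕ) : ℝ) / N = π * i / N - π * j / N := by
    rw [Nat.cast_sub hij]; ring
  rw [e3] at g3
  have hlogb : Real.log (b2 N i j) = 2 * Real.log (Fa N i) - 2 * Real.log (Fa N j) -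
      Real.log (Fa N (i - j)) := by
    unfold b2
    rw [Real.log_mul p3.ne' (by positivity), Real.log_div p1.ne' p2.ne', log_bc hiN hij]
    ring
  have h6 : (N : ℝ) * (4 * lob (π / 4) / π - ε / 2) ≤ Real.log (b2 N i j) := by
    have h7 := mul_le_mul_of_nonneg_left h1.le (show 0 ≤ (N : ℝ) / π by positivity)
    have e : (N : ℝ) / π * (4 * lob (π / 4) - π * (ε / 4)) =
        N * (4 * lob (π / 4) / π - ε / 2) + ε / 4 * N := by
      field_simp
      ring
    rw [e] at h7
    rw [hlogb]
    nlinarith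
  have h8 : Real.exp (N * (4 * lob (π / 4) / π - ε / 2)) ≤ b2 N i j := by
    rw [← Real.le_log_iff_exp_le (b2_pos hiN hij)]
    exact h6
  have h9 : b2 N i j ^ 2 ≤ E2 N := by
    unfold E2
    refine le_trans ?_ (single_le_sum (f := fun i => ∑ j ∈ range (i + 1), b2 N i j ^ 2)
      (fun i _ => sum_nonneg fun _ _ => by positivity) (mem_range.2 hiN))
    exact single_le_sum (f := fun j => b2 N i j ^ 2) (fun _ _ => by positivity)
      (mem_range.2 (by omega))
  refine le_trans (le_of_eq ?_) ((pow_le_pow_left₀ (Real.exp_pos _).le h8 2).trans h9)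
  rw [← Real.exp_nat_mul]
  congr 1
  push_cast
  ring

theorem E2_lim : Tendsto (fun N : ℕ => 2 * π / N * Real.log (E2 N)) atTop
    (𝓝 (16 * lob (π / 4))) := by
  have hpi := Real.pi_pos
  rw [Metric.tendsto_atTop]
  intro ε hε
  have hδ : 0 < ε / (4 * π) := by positivity
  obtain ⟨n₀, h0⟩ := eventually_atTop.1 ((E2_le hδ).and ((E2_ge hδ).and (eventually_gt_atTop 0)))
  refine ⟨n₀, fun N hN => ?_⟩
  obtain ⟨h1, h2, h3⟩ := h0 N hN
  have hN0 : (0 : ℝ) < N := by exact_mod_cast h3
  have hE : 0 < E2 N := (Real.exp_pos _).trans_le h2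
  rw [← Real.log_le_iff_le_exp hE] at h1
  rw [← Real.le_log_iff_exp_le hE] at h2
  have k1 := mul_le_mul_of_nonneg_left h1 (show 0 ≤ 2 * π / (N : ℝ) by positivity)
  have k2 := mul_le_mul_of_nonneg_left h2 (show 0 ≤ 2 * π / (N : ℝ) by positivity)
  have e1 : 2 * π / (N : ℝ) * (N * (8 * lob (π / 4) / π + ε / (4 * π))) =
      16 * lob (π / 4) + ε / 2 := by
    field_simp
    ring
  have e2 : 2 * π / (N : ℝ) * (N * (8 * lob (π / 4) / π - ε / (4 * π))) =
      16 * lob (π / 4) - ε / 2 := by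
    field_simp
    ring
  rw [e1] at k1
  rw [e2] at k2
  rw [Real.dist_eq, abs_lt]
  constructor <;> linarith

lemma vol_pos : 0 < 16 * lob (π / 4) := by
  have := EvenVol.LobIneq.lob_four_pos
  linarith

open Pool.Agent.W719.BX (uA) in
/-- the growth of the trace of `σ₁² σ₂⁻²` -/
theorem trace_growth : Tendsto (fun N : ℕ => 2 * Real.pi / N *
      Real.log ‖(rep3 N (uA 2 ++ dual (uA 2))).trace‖) atTop (𝓝 (16 * lob (π / 4))) := by
  set T : ℕ → ℝ := fun N => if N < 2 then 0 else E2 N with hT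
  set S : ℕ → ℝ := fun N => if N < 2 then 0 else ‖(rep3 N (uA 2 ++ dual (uA 2))).trace‖ with hS
  have hT2 : ∀ N, 2 ≤ N → T N = E2 N := fun N hN => if_neg (by omega)
  have hS2 : ∀ N, 2 ≤ N → S N = ‖(rep3 N (uA 2 ++ dual (uA 2))).trace‖ := fun N hN =>
    if_neg (by omega)
  have hT1 : ∀ N, N < 2 → T N = 0 := fun N hN => if_pos hN
  have hS1 : ∀ N, N < 2 → S N = 0 := fun N hN => if_pos hN
  have hT0 : ∀ N, 0 ≤ T N := fun N => by
    by_cases h : N < 2
    · rw [hT1 N h]
    · rw [hT2 N (by omega)]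
      exact E2_nonneg N
  have h := growth_abs (T := T) (S := S) hT0 (n := 1) one_ne_zero ?_ ?_ vol_pos ?_
  · rw [Nat.cast_one, one_mul] at h
    refine h.congr' ?_
    filter_upwards [eventually_ge_atTop 2] with N hN
    rw [hS2 N hN]
  · intro N hN
    rcases lt_or_ge N 2 with h2 | h2
    · rw [hT1 N h2, hS1 N h2]
      positivity
    · rw [hT2 N h2, hS2 N h2, pow_one]
      have h5 := (s_trb 2 N h2).1
      rw [SS_two h2] at h5
      refine h5.trans ?_
      have h3 : (2 : ℝ) ≤ N := by exact_mod_cast h2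
      apply mul_le_mul_of_nonneg_left _ (by positivity)
      have : 2 * (N : ℝ) ≤ (N : ℝ) ^ 3 := by
        have h4 : 0 ≤ (N : ℝ) ^ 2 - 2 := by nlinarith
        have h5 := mul_nonneg (show (0 : ℝ) ≤ N by linarith) h4
        nlinarith
      linarith
  · intro N hN
    rcases lt_or_ge N 2 with h2 | h2
    · rw [hT1 N h2, hS1 N h2, zero_div, pow_one, zero_add]
      positivity
    · rw [hT2 N h2, hS2 N h2, pow_one]
      have h3 := (s_trb 2 N h2).2
      rw [SS_two h2] at h3
      have h4 : (2 : ℝ) ≤ N := by exact_mod_cast h2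
      have h5 : E2 N / (N : ℝ) ^ 3 ≤ E2 N / N := by
        apply div_le_div_of_nonneg_left (E2_nonneg N) (by linarith)
        have h6 : 0 ≤ (N : ℝ) ^ 2 - 1 := by nlinarith
        have h7 := mul_nonneg (show (0 : ℝ) ≤ N by linarith) h6
        nlinarith
      linarith
  · refine E2_lim.congr' ?_
    filter_upwards [eventually_ge_atTop 2] with N hN
    rw [hT2 N hN]

open Pool.Agent.W719.BX (uA) in
theorem main {n : ℕ} (hn : 1 ≤ n) : Tendsto (fun N : ℕ => 2 * Real.pi / N *
      Real.log ‖(rep3 N (wpow (uA 2 ++ dual (uA 2)) n)).trace‖) atTop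
      (𝓝 (n * (16 * lob (π / 4)))) := by
  refine growth_pow (u := uA 2) ?_ (by omega) vol_pos trace_growth
  intro l hl
  unfold uA at hl
  rw [List.eq_of_mem_replicate hl]
  norm_num

/-! ### geometry -/

/-- first angle -/
noncomputable def gX (w : ℤ → ℝ) (i : ℤ) : ℝ :=
  if Even i then (w (i - 1) + w i - w (i + 1)) / 2 else (w (i - 1) + w (i + 1)) / 2

/-- second angle -/
noncomputable def gY (w : ℤ → ℝ) (i : ℤ) : ℝ :=
  if Even i then (-w (i - 1) + w i + w (i + 1)) / 2 else (2 * w i - w (i - 1) - w (i + 1)) / 2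

/-- third angle -/
noncomputable def gZ (w : ℤ → ℝ) (i : ℤ) : ℝ := π - w i

/-- angle structures -/
def gAngle (n : ℕ) (w : ℤ → ℝ) : Prop :=
  (∀ i, w (i + 4 * n) = w i) ∧ ∀ i, 0 < gX w i ∧ 0 < gY w i ∧ 0 < gZ w i

/-- volume -/
noncomputable def gvol (n : ℕ) (w : ℤ → ℝ) : ℝ :=
  ∑ i ∈ range (4 * n), 2 * (lob (gX w i) + lob (gY w i) + lob (gZ w i))

/-- the tangent plane at the regular octahedron -/
lemma tan_oct {x y z : ℝ} (hx : 0 ≤ x) (hy : 0 ≤ y) (hz : 0 ≤ z) (h : x + y + z = π) :
    lob x + lob y + lob z ≤ 2 * lob (π / 4) - Real.log 2 / 2 * (z - π / 2) := by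
  have hpi := Real.pi_pos
  have h1 := Pool.Agent.W120.VC.tet (π / 4) (π / 4) (π / 2) x y z
    (by linarith) (by linarith) (by linarith) (by ring) hx hy hz h
  have e4 : Real.log (2 * Real.sin (π / 4)) = Real.log 2 / 2 := by
    rw [Real.sin_pi_div_four]
    have : (2 : ℝ) * (√2 / 2) = √2 := by ring
    rw [this, Real.log_sqrt (by norm_num)]
  have e2 : Real.log (2 * Real.sin (π / 2)) = Real.log 2 := by
    rw [Real.sin_pi_div_two, mul_one]
  rw [e4, e2, lob_half] at h1
  have e5 : z = π - x - y := by linarith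
  subst e5
  linarith

/-- the sums over the period -/
lemma sum_pairs (F : ℕ → ℝ) (m : ℕ) :
    ∑ i ∈ range (2 * m), F i = ∑ j ∈ range m, (F (2 * j) + F (2 * j + 1)) := by
  induction m with
  | zero => simp
  | succ m ih =>
    rw [show 2 * (m + 1) = 2 * m + 1 + 1 by ring, sum_range_succ, sum_range_succ, ih,
      sum_range_succ (fun j => F (2 * j) + F (2 * j + 1))]
    ring

theorem greatest (n : ℕ) :
    IsGreatest {V : ℝ | ∃ w, gAngle n w ∧ gvol n w = V} (n * (16 * lob (π / 4))) := by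
  have hpi := Real.pi_pos
  constructor
  · refine ⟨fun i => if Even i then π / 2 else 3 * π / 4, ⟨fun i => ?_, fun i => ?_⟩, ?_⟩
    · have : Even (i + 4 * (n : ℤ)) ↔ Even i := by
        rw [Int.even_add]
        have : Even (4 * (n : ℤ)) := ⟨2 * n, by ring⟩
        simp [this]
      simp only [this]
    · unfold gX gY gZ
      by_cases h : Even i
      · have h1 : ¬ Even (i - 1) := by rw [Int.even_sub_one]; simpa using h
        have h2 : ¬ Even (i + 1) := by rw [Int.even_add_one]; simpa using h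
        simp only [if_pos h, if_neg h1, if_neg h2]
        refine ⟨?_, ?_, ?_⟩ <;> linarith
      · have h1 : Even (i - 1) := by rw [Int.even_sub_one]; exact h
        have h2 : Even (i + 1) := by rw [Int.even_add_one]; exact h
        simp only [if_neg h, if_pos h1, if_pos h2]
        refine ⟨?_, ?_, ?_⟩ <;> linarith
    · unfold gvol
      have h1 : ∀ i ∈ range (4 * n), 2 * (lob (gX (fun i : ℤ => if Even i then π / 2 else 3 * π / 4) i) +
          lob (gY (fun i : ℤ => if Even i then π / 2 else 3 * π / 4) i) +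
          lob (gZ (fun i : ℤ => if Even i then π / 2 else 3 * π / 4) i)) = 4 * lob (π / 4) := by
        intro k _
        unfold gX gY gZ
        by_cases h : Even (k : ℤ)
        · have h1 : ¬ Even ((k : ℤ) - 1) := by rw [Int.even_sub_one]; simpa using h
          have h2 : ¬ Even ((k : ℤ) + 1) := by rw [Int.even_add_one]; simpa using h
          simp only [if_pos h, if_neg h1, if_neg h2]
          have e1 : (3 * π / 4 + π / 2 - 3 * π / 4) / 2 = π / 4 := by ring
          have e2 : (-(3 * π / 4) + π / 2 + 3 * π / 4) / 2 = π / 4 := by ring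
          have e3 : π - π / 2 = π / 2 := by ring
          rw [e1, e2, e3, lob_half]
          ring
        · have h1 : Even ((k : ℤ) - 1) := by rw [Int.even_sub_one]; exact h
          have h2 : Even ((k : ℤ) + 1) := by rw [Int.even_add_one]; exact h
          simp only [if_neg h, if_pos h1, if_pos h2]
          have e1 : (π / 2 + π / 2) / 2 = π / 2 := by ring
          have e2 : (2 * (3 * π / 4) - π / 2 - π / 2) / 2 = π / 4 := by ring
          have e3 : π - 3 * π / 4 = π / 4 := by ring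
          rw [e1, e2, e3, lob_half]
          ring
      rw [sum_congr rfl h1, sum_const, card_range, nsmul_eq_mul]
      push_cast
      ring
  · rintro V ⟨w, ⟨hper, hw⟩, rfl⟩
    set D : ℕ → ℝ := fun i => if Even (i : ℤ) then π / 2 - w i
      else (w ((i : ℤ) - 1) + w ((i : ℤ) + 1)) / 2 - π / 2 with hD
    have h1 : ∀ i ∈ range (4 * n), 2 * (lob (gX w i) + lob (gY w i) + lob (gZ w i)) ≤
        4 * lob (π / 4) - Real.log 2 * D i := by
      intro i _
      obtain ⟨a1, a2, a3⟩ := hw i
      by_cases h : Even (i : ℤ)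
      · have hs : gX w i + gY w i + gZ w i = π := by
          unfold gX gY gZ
          rw [if_pos h, if_pos h]
          ring
        have h2 := tan_oct a1.le a2.le a3.le hs
        have h3 : D i = π / 2 - w i := if_pos h
        rw [h3]
        have h4 : gZ w i = π - w i := rfl
        rw [h4] at h2 ⊢
        linarith
      · have hs : gY w i + gZ w i + gX w i = π := by
          unfold gX gY gZ
          rw [if_neg h, if_neg h]
          ring
        have h2 := tan_oct a2.le a3.le a1.le hs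
        have h3 : D i = (w ((i : ℤ) - 1) + w ((i : ℤ) + 1)) / 2 - π / 2 := if_neg h
        rw [h3]
        have h4 : gX w i = (w ((i : ℤ) - 1) + w ((i : ℤ) + 1)) / 2 := by
          unfold gX
          rw [if_neg h]
        rw [h4] at h2 ⊢
        linarith
    unfold gvol
    refine (sum_le_sum h1).trans (le_of_eq ?_)
    rw [sum_sub_distrib, sum_const, card_range, nsmul_eq_mul, ← Finset.mul_sum]
    have h2 : ∑ i ∈ range (4 * n), D i = 0 := by
      rw [show 4 * n = 2 * (2 * n) by ring, sum_pairs]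
      have h3 : ∀ j ∈ range (2 * n), D (2 * j) + D (2 * j + 1) =
          (w (2 * ((j + 1 : ℕ) : ℤ)) - w (2 * (j : ℤ))) / 2 := by
        intro j _
        have e1 : D (2 * j) = π / 2 - w (2 * (j : ℤ)) := by
          rw [hD]
          simp only
          rw [if_pos (by push_cast; exact even_two_mul _)]
          push_cast
          rfl
        have e2 : D (2 * j + 1) = (w (2 * (j : ℤ)) + w (2 * ((j + 1 : ℕ) : ℤ))) / 2 - π / 2 := by
          rw [hD]
          simp only
          rw [if_neg (by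
            push_cast
            rw [Int.even_add_one]
            simp)]
          have e3 : (((2 * j + 1 : ℕ) : ℤ)) - 1 = 2 * (j : ℤ) := by push_cast; ring
          have e4 : (((2 * j + 1 : ℕ) : ℤ)) + 1 = 2 * ((j + 1 : ℕ) : ℤ) := by push_cast; ring
          rw [e3, e4]
        rw [e1, e2]
        ring
      rw [sum_congr rfl h3, ← sum_div, sum_range_sub (fun j : ℕ => w (2 * (j : ℤ)))]
      have h5 := hper 0
      have e5 : (2 : ℤ) * ((2 * n : ℕ) : ℤ) = 0 + 4 * n := by push_cast; ring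
      rw [e5, h5]
      simp
    rw [h2]
    push_cast
    ring

end Pool.Agent.R807.AxSq
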