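import Pool.Agent.R807.Adj
import Pool.Agent.W715.VC.UnitK

/-!
The operators of tangle diagrams commute with `E` and preserve the weight.
-/

set_option autoImplicit false

namespace Pool.Agent.R807

open Finset Matrix Pool.Agent.W709.QAT Pool.Agent.H550R3.Jones
open Pool.Agent.W715.VC (rt rt_ne adm PP QQ EE FF Eo Ko Fo Ki M1 PP_EE QQ_EE PP_wt QQ_wt Ko_sum Eo_sum
  Fo_sum_succ Fo_sum_zero br_refl Ki_sum sh sh_EE)

variable {N : ℕ}

/-- `K` on a list -/
noncomputable def kf (N : ℕ) (s : List (Fin N)) : ℂ :=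
  (s.map fun a => rt N ^ ((N : ℤ) - 1 - 2 * (a : ℕ))).prod

/-- `E` on a list -/
noncomputable def El (N : ℕ) : List (Fin N) → (List (Fin N) → ℂ) → ℂ
  | [], _ => 0
  | a :: s, f => kf N s * (∑ b, Eo N a b * f (b :: s)) + El N s (fun t => f (a :: t))

lemma kf_cons (a : Fin N) (s : List (Fin N)) :
    kf N (a :: s) = rt N ^ ((N : ℤ) - 1 - 2 * (a : ℕ)) * kf N s := by simp [kf]

lemma kf_append (l r : List (Fin N)) : kf N (l ++ r) = kf N l * kf N r := by simp [kf]

lemma kf_nil : kf N [] = 1 := rfl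

lemma El_cons (a : Fin N) (s : List (Fin N)) (f : List (Fin N) → ℂ) :
    El N (a :: s) f = kf N s * (∑ b, Eo N a b * f (b :: s)) + El N s (fun t => f (a :: t)) := rfl

lemma El_congr {s : List (Fin N)} {f g : List (Fin N) → ℂ}
    (h : ∀ t, t.length = s.length → f t = g t) : El N s f = El N s g := by
  induction s generalizing f g with
  | nil => rfl
  | cons a s ih =>
    rw [El_cons, El_cons, ih fun t ht => h _ (by simp [ht])]
    congr 2
    exact sum_congr rfl fun b _ => by rw [h _ (by simp)]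

lemma El_mul (c : ℂ) (s : List (Fin N)) (f : List (Fin N) → ℂ) :
    El N s (fun t => c * f t) = c * El N s f := by
  induction s generalizing f with
  | nil => simp [El]
  | cons a s ih =>
    rw [El_cons, El_cons, ih fun t => f (a :: t), mul_add, mul_sum, mul_sum, mul_sum]
    congr 1
    exact sum_congr rfl fun b _ => by ring

lemma El_sum {ι : Type} (S : Finset ι) (s : List (Fin N)) (f : ι → List (Fin N) → ℂ) :
    El N s (fun t => ∑ i ∈ S, f i t) = ∑ i ∈ S, El N s (f i) := by
  induction s generalizing f with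
  | nil => simp [El]
  | cons a s ih =>
    simp only [El_cons]
    rw [ih fun i t => f i (a :: t), sum_add_distrib]
    congr 1
    rw [← mul_sum]
    congr 1
    rw [sum_comm]
    exact sum_congr rfl fun b _ => by rw [mul_sum]

lemma El_append (l r : List (Fin N)) (f : List (Fin N) → ℂ) :
    El N (l ++ r) f = kf N r * El N l (fun t => f (t ++ r)) + El N r (fun t => f (l ++ t)) := by
  induction l generalizing f with
  | nil => simp [El]
  | cons a l ih =>
    rw [List.cons_append, El_cons, El_cons, ih fun t => f (a :: t), kf_append]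
    simp only [List.cons_append]
    ring

lemma one_sum (a : Fin N) (g : Fin N → ℂ) : ∑ a', (1 : M1 N) a a' * g a' = g a := by
  rw [sum_eq_single a]
  · simp
  · intro b _ hb; rw [Matrix.one_apply_ne (Ne.symm hb)]; ring
  · intro h; exact absurd (mem_univ _) h

lemma El_two (a b : Fin N) (g : Fin N × Fin N → ℂ) (f : List (Fin N) → ℂ)
    (h : ∀ p, f [p.1, p.2] = g p) : El N [a, b] f = ∑ q : Fin N × Fin N, EE N (a, b) q * g q := by
  have h' : ∀ x y, f [x, y] = g (x, y) := fun x y => h (x, y)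
  have e1 : ∑ q : Fin N × Fin N, EE N (a, b) q * g q =
      ∑ x, Eo N a x * ∑ y, Ko N b y * g (x, y) + ∑ x, (1 : M1 N) a x * ∑ y, Eo N b y * g (x, y) := by
    rw [Fintype.sum_prod_type, ← sum_add_distrib]
    refine sum_congr rfl fun x _ => ?_
    rw [mul_sum, mul_sum, ← sum_add_distrib]
    refine sum_congr rfl fun y _ => ?_
    simp only [EE, Matrix.add_apply, Matrix.kroneckerMap_apply]
    ring
  rw [e1, one_sum]
  simp only [El, kf_cons, kf_nil, h']
  have e2 : ∑ x, Eo N a x * ∑ y, Ko N b y * g (x, y) =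
      rt N ^ ((N : ℤ) - 1 - 2 * (b : ℕ)) * ∑ x, Eo N a x * g (x, b) := by
    rw [mul_sum]
    refine sum_congr rfl fun x _ => ?_
    rw [Ko_sum]; ring
  rw [e2]; ring

/-- `E` on a list with two marked letters -/
lemma El_mid (l r : List (Fin N)) (a b : Fin N) (f : List (Fin N) → ℂ) :
    El N (l ++ a :: b :: r) f =
      kf N [a, b] * kf N r * El N l (fun t => f (t ++ a :: b :: r)) +
      kf N r * (∑ q : Fin N × Fin N, EE N (a, b) q * f (l ++ q.1 :: q.2 :: r)) +
      El N r (fun t => f (l ++ a :: b :: t)) := by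
  have e : l ++ a :: b :: r = l ++ ([a, b] ++ r) := rfl
  rw [e, El_append, El_append, kf_append, El_two a b (fun p => f (l ++ p.1 :: p.2 :: r)) _
    (fun p => rfl)]
  simp only [List.cons_append, List.nil_append]
  ring

/-- a weight preserving matrix -/
def Wp (A : Matrix (Fin N × Fin N) (Fin N × Fin N) ℂ) : Prop :=
  ∀ p q, A p q ≠ 0 → (p.1 : ℕ) + p.2 = q.1 + q.2

lemma Wp_one : Wp (1 : Matrix (Fin N × Fin N) (Fin N × Fin N) ℂ) := by
  intro p q h
  by_cases hpq : p = q
  · rw [hpq]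
  · exact absurd (Matrix.one_apply_ne hpq) h

lemma Wp_mul {A B : Matrix (Fin N × Fin N) (Fin N × Fin N) ℂ} (hA : Wp A) (hB : Wp B) :
    Wp (A * B) := by
  intro p q h
  rw [Matrix.mul_apply] at h
  obtain ⟨r, _, hr⟩ := exists_ne_zero_of_sum_ne_zero h
  have h1 := hA _ _ (left_ne_zero_of_mul hr)
  have h2 := hB _ _ (right_ne_zero_of_mul hr)
  omega

lemma Wp_pow {A : Matrix (Fin N × Fin N) (Fin N × Fin N) ℂ} (hA : Wp A) (m : ℕ) : Wp (A ^ m) := by
  induction m with
  | zero => rw [pow_zero]; exact Wp_one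
  | succ m ih => rw [pow_succ]; exact Wp_mul ih hA

lemma Wp_cr (σ : Bool) : Wp (cr N σ) := by
  cases σ
  · exact QQ_wt
  · exact PP_wt

lemma cr_EE (σ : Bool) : cr N σ * EE N = EE N * cr N σ := by
  cases σ
  · exact QQ_EE
  · exact PP_EE

lemma pow_EE (σ : Bool) (m : ℕ) : cr N σ ^ m * EE N = EE N * cr N σ ^ m :=
  (Commute.pow_left (cr_EE σ) m : Commute _ _)

lemma kf_two (p : Fin N × Fin N) :
    kf N [p.1, p.2] = rt N ^ (2 * (N : ℤ) - 2 - 2 * (((p.1 : ℕ) + p.2 : ℕ) : ℤ)) := by
  rw [kf_cons, kf_cons, kf_nil, mul_one, ← zpow_add₀ (rt_ne N)]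
  congr 1
  push_cast; ring

lemma El_twist (i : ℕ) (σ : Bool) (m : ℕ) (f : List (Fin N) → ℂ) (l : List (Fin N)) (a b : Fin N)
    (r : List (Fin N)) (hl : l.length = i) :
    El N (l ++ a :: b :: r) ((Piece.twist i σ m).act N (rt N) f) =
      ∑ q : Fin N × Fin N, (cr N σ ^ m) (a, b) q * El N (l ++ q.1 :: q.2 :: r) f := by
  set A := cr N σ ^ m with hA
  rw [El_mid]
  have e1 : El N l (fun t => (Piece.twist i σ m).act N (rt N) f (t ++ a :: b :: r)) =
      ∑ q : Fin N × Fin N, A (a, b) q * El N l (fun t => f (t ++ q.1 :: q.2 :: r)) := by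
    have : El N l (fun t => (Piece.twist i σ m).act N (rt N) f (t ++ a :: b :: r)) =
        El N l (fun t => ∑ q : Fin N × Fin N, A (a, b) q * f (t ++ q.1 :: q.2 :: r)) :=
      El_congr fun t ht => act_twist _ _ _ _ _ _ _ _ (by rw [ht, hl])
    rw [this, El_sum]
    exact sum_congr rfl fun q _ => El_mul _ _ _
  have e3 : El N r (fun t => (Piece.twist i σ m).act N (rt N) f (l ++ a :: b :: t)) =
      ∑ q : Fin N × Fin N, A (a, b) q * El N r (fun t => f (l ++ q.1 :: q.2 :: t)) := by
    have : El N r (fun t => (Piece.twist i σ m).act N (rt N) f (l ++ a :: b :: t)) =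
        El N r (fun t => ∑ q : Fin N × Fin N, A (a, b) q * f (l ++ q.1 :: q.2 :: t)) :=
      El_congr fun t _ => act_twist _ _ _ _ _ _ _ _ hl
    rw [this, El_sum]
    exact sum_congr rfl fun q _ => El_mul _ _ _
  have e2 : ∑ q : Fin N × Fin N, EE N (a, b) q *
      (Piece.twist i σ m).act N (rt N) f (l ++ q.1 :: q.2 :: r) =
      ∑ q : Fin N × Fin N, A (a, b) q * ∑ p : Fin N × Fin N, EE N q p *
        f (l ++ p.1 :: p.2 :: r) := by
    have h1 : ∀ q : Fin N × Fin N, (Piece.twist i σ m).act N (rt N) f (l ++ q.1 :: q.2 :: r) =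
        ∑ p : Fin N × Fin N, A q p * f (l ++ p.1 :: p.2 :: r) := fun q =>
      act_twist _ _ _ _ _ _ _ _ hl
    simp only [h1, mul_sum]
    rw [sum_comm, sum_comm (s := univ) (t := univ)
      (f := fun q p => A (a, b) q * (EE N q p * f (l ++ p.1 :: p.2 :: r)))]
    refine sum_congr rfl fun p _ => ?_
    have h2 := congrFun (congrFun (pow_EE (N := N) σ m) (a, b)) p
    rw [Matrix.mul_apply, Matrix.mul_apply] at h2
    have h3 : ∑ x, EE N (a, b) x * (A x p * f (l ++ p.1 :: p.2 :: r)) =
        (∑ x, EE N (a, b) x * A x p) * f (l ++ p.1 :: p.2 :: r) := by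
      rw [sum_mul]; exact sum_congr rfl fun x _ => by ring
    have h4 : ∑ x, A (a, b) x * (EE N x p * f (l ++ p.1 :: p.2 :: r)) =
        (∑ x, A (a, b) x * EE N x p) * f (l ++ p.1 :: p.2 :: r) := by
      rw [sum_mul]; exact sum_congr rfl fun x _ => by ring
    rw [h3, h4, h2]
  rw [e1, e2, e3, mul_sum, mul_sum, ← sum_add_distrib, ← sum_add_distrib]
  refine sum_congr rfl fun q _ => ?_
  rw [El_mid]
  by_cases h : A (a, b) q = 0
  · rw [h]; ring
  · have h5 := Wp_pow (Wp_cr (N := N) σ) m _ _ h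
    have h6 : kf N [a, b] = kf N [q.1, q.2] := by
      rw [kf_two (a, b), kf_two q, h5]
    rw [h6]; ring

/-! ### the cup and the cap -/

lemma cup_wt {p : Fin N × Fin N} (h : Pool.Agent.W709.QAT.cup N (rt N) p ≠ 0) :
    (p.1 : ℕ) + p.2 = N - 1 := by
  by_contra h1
  apply h
  unfold Pool.Agent.W709.QAT.cup
  rw [if_neg h1]

lemma cap_wt {p : Fin N × Fin N} (h : Pool.Agent.W709.QAT.cap N (rt N) p ≠ 0) :
    (p.1 : ℕ) + p.2 = N - 1 := by
  by_contra h1
  apply h
  unfold Pool.Agent.W709.QAT.cap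
  rw [if_neg h1]

lemma EE_sum (a b : Fin N) (g : Fin N × Fin N → ℂ) : ∑ q : Fin N × Fin N, EE N (a, b) q * g q =
    rt N ^ ((N : ℤ) - 1 - 2 * (b : ℕ)) * ∑ x, Eo N a x * g (x, b) + ∑ y, Eo N b y * g (a, y) := by
  rw [← El_two a b g (fun s => match s with | [x, y] => g (x, y) | _ => 0) (fun p => rfl)]
  simp only [El, kf_cons, kf_nil, mul_one, one_mul, add_zero]

lemma FF_sum (a b : Fin N) (g : Fin N × Fin N → ℂ) : ∑ q : Fin N × Fin N, FF N (a, b) q * g q =
    ∑ x, Fo N a x * g (x, b) +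
      rt N ^ (-((N : ℤ) - 1 - 2 * (a : ℕ))) * ∑ y, Fo N b y * g (a, y) := by
  have e1 : ∑ q : Fin N × Fin N, FF N (a, b) q * g q =
      ∑ x, Fo N a x * ∑ y, (1 : M1 N) b y * g (x, y) + ∑ x, Ki N a x * ∑ y, Fo N b y * g (x, y) := by
    rw [Fintype.sum_prod_type, ← sum_add_distrib]
    refine sum_congr rfl fun x _ => ?_
    rw [mul_sum, mul_sum, ← sum_add_distrib]
    refine sum_congr rfl fun y _ => ?_
    simp only [FF, Matrix.add_apply, Matrix.kroneckerMap_apply]
    ring
  rw [e1, Ki_sum]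
  simp only [one_sum]

lemma EE_cup (hN : 0 < N) (a b : Fin N) :
    ∑ q : Fin N × Fin N, EE N (a, b) q * Pool.Agent.W709.QAT.cup N (rt N) q = 0 := by
  rw [EE_sum, Eo_sum hN a.1 a.2, Eo_sum hN b.1 b.2]
  unfold Pool.Agent.W709.QAT.cup
  simp only
  by_cases h : (a : ℕ) + b + 1 = N - 1
  · have ha : (a : ℕ) + 1 < N := by omega
    have hb : (b : ℕ) + 1 < N := by omega
    rw [dif_pos ha, dif_pos hb, if_pos (by omega), if_pos (by omega), kap_rt ha, kap_rt (by omega)]
    have e1 : br (rt N) (((b : ℕ) : ℤ) + 1) = br (rt N) (((a : ℕ) : ℤ) + 1) := by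
      rw [← br_refl hN]; congr 1; omega
    have e2 : rt N ^ ((N : ℤ) - 1 - 2 * ((b : ℕ) : ℤ)) *
        rt N ^ ((((a : ℕ) + 1 : ℕ) : ℤ) * ((N : ℤ) - 2 - (((a : ℕ) + 1 : ℕ) : ℤ))) =
        rt N ^ (((a : ℕ) : ℤ) * ((N : ℤ) - 2 - ((a : ℕ) : ℤ))) := by
      rw [← zpow_add₀ (rt_ne N)]
      congr 1
      have : ((b : ℕ) : ℤ) = (N : ℤ) - 2 - (a : ℕ) := by omega
      rw [this]; push_cast; ring
    rw [e1, pow_succ]
    linear_combination -(br (rt N) (((a : ℕ) : ℤ) + 1) * (-1) ^ (a : ℕ)) * e2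
  · have h1 : ∀ h : (a : ℕ) + 1 < N, ¬ ((a : ℕ) + 1 + (b : ℕ) = N - 1) := fun _ => by omega
    have h2 : ∀ h : (b : ℕ) + 1 < N, ¬ ((a : ℕ) + ((b : ℕ) + 1) = N - 1) := fun _ => by omega
    split_ifs with h3 h4 <;> simp_all

lemma FF_cup (hN : 0 < N) (a b : Fin N) :
    ∑ q : Fin N × Fin N, FF N (a, b) q * Pool.Agent.W709.QAT.cup N (rt N) q = 0 := by
  rw [FF_sum]
  obtain ⟨a, ha⟩ := a
  obtain ⟨b, hb⟩ := b
  by_cases h : a + b = N
  · obtain ⟨a, rfl⟩ : ∃ c, a = c + 1 := ⟨a - 1, by omega⟩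
    obtain ⟨b, rfl⟩ : ∃ c, b = c + 1 := ⟨b - 1, by omega⟩
    rw [Fo_sum_succ, Fo_sum_succ]
    unfold Pool.Agent.W709.QAT.cup
    simp only
    rw [if_pos (by omega), if_pos (by omega), kap_rt (by omega), kap_rt (by omega)]
    have e1 : br (rt N) (((b : ℕ) : ℤ) + 1) = br (rt N) (((a : ℕ) : ℤ) + 1) := by
      rw [← br_refl hN]; congr 1; omega
    have e2 : rt N ^ (-((N : ℤ) - 1 - 2 * (((a + 1 : ℕ)) : ℤ))) *
        rt N ^ (((a + 1 : ℕ) : ℤ) * ((N : ℤ) - 2 - ((a + 1 : ℕ) : ℤ))) =
        rt N ^ ((a : ℤ) * ((N : ℤ) - 2 - (a : ℤ))) := by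
      rw [← zpow_add₀ (rt_ne N)]
      congr 1
      push_cast; ring
    rw [e1, pow_succ]
    linear_combination -(br (rt N) (((a : ℕ) : ℤ) + 1) * (-1) ^ a) * e2
  · have h1 : ∑ x, Fo N ⟨a, ha⟩ x * Pool.Agent.W709.QAT.cup N (rt N) (x, ⟨b, hb⟩) = 0 := by
      refine sum_eq_zero fun x _ => ?_
      by_contra h2
      have h3 := Pool.Agent.W715.VC.Fo_ne (left_ne_zero_of_mul h2)
      have h4 := cup_wt (right_ne_zero_of_mul h2)
      simp only at h3 h4
      omega
    have h2 : ∑ y, Fo N ⟨b, hb⟩ y * Pool.Agent.W709.QAT.cup N (rt N) (⟨a, ha⟩, y) = 0 := by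
      refine sum_eq_zero fun x _ => ?_
      by_contra h2
      have h3 := Pool.Agent.W715.VC.Fo_ne (left_ne_zero_of_mul h2)
      have h4 := cup_wt (right_ne_zero_of_mul h2)
      simp only at h3 h4
      omega
    rw [h1, h2, mul_zero, add_zero]

lemma cap_EE (hN : 0 < N) (q : Fin N × Fin N) :
    ∑ p : Fin N × Fin N, Pool.Agent.W709.QAT.cap N (rt N) p * EE N p q = 0 := by
  have h := FF_cup hN q.2 q.1
  have h1 := congrArg (starRingEnd ℂ) h
  rw [map_zero, map_sum] at h1
  have h2 : ∀ p : Fin N × Fin N, (starRingEnd ℂ) (FF N (q.2, q.1) (p.2, p.1)) = - EE N p q := by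
    intro p
    have h3 := congrFun (congrFun (Pool.Agent.W715.VC.sh_EE hN) (q.2, q.1)) (p.2, p.1)
    simp only [sh, Matrix.neg_apply] at h3
    have h4 := congrArg (starRingEnd ℂ) h3
    rw [Complex.conj_conj, map_neg] at h4
    rw [h4, neg_neg]
  rw [← Equiv.sum_comp (Equiv.prodComm (Fin N) (Fin N))] at h1
  have h5 : ∑ p : Fin N × Fin N, -(Pool.Agent.W709.QAT.cap N (rt N) p * EE N p q) = 0 := by
    rw [← h1]
    refine sum_congr rfl fun p _ => ?_
    simp only [Equiv.prodComm_apply, Prod.swap]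
    rw [map_mul, h2 p, conj_cup]
    ring
  rw [sum_neg_distrib, neg_eq_zero] at h5
  exact h5

lemma El_cup (hN : 0 < N) (i : ℕ) (f : List (Fin N) → ℂ) (l : List (Fin N)) (a b : Fin N)
    (r : List (Fin N)) (hl : l.length = i) :
    El N (l ++ a :: b :: r) ((Piece.cup i).act N (rt N) f) =
      Pool.Agent.W709.QAT.cup N (rt N) (a, b) * El N (l ++ r) f := by
  rw [El_mid]
  have e1 : El N l (fun t => (Piece.cup i).act N (rt N) f (t ++ a :: b :: r)) =
      Pool.Agent.W709.QAT.cup N (rt N) (a, b) * El N l (fun t => f (t ++ r)) := by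
    rw [← El_mul]
    exact El_congr fun t ht => act_cup _ _ _ _ _ _ _ (by rw [ht, hl])
  have e3 : El N r (fun t => (Piece.cup i).act N (rt N) f (l ++ a :: b :: t)) =
      Pool.Agent.W709.QAT.cup N (rt N) (a, b) * El N r (fun t => f (l ++ t)) := by
    rw [← El_mul]
    exact El_congr fun t _ => act_cup _ _ _ _ _ _ _ hl
  have e2 : ∑ q : Fin N × Fin N, EE N (a, b) q *
      (Piece.cup i).act N (rt N) f (l ++ q.1 :: q.2 :: r) = 0 := by
    have h1 : ∀ q : Fin N × Fin N, EE N (a, b) q *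
        (Piece.cup i).act N (rt N) f (l ++ q.1 :: q.2 :: r) =
        (EE N (a, b) q * Pool.Agent.W709.QAT.cup N (rt N) q) * f (l ++ r) := by
      intro q
      rw [act_cup _ _ _ _ _ _ _ hl]
      ring
    rw [sum_congr rfl fun q _ => h1 q, ← sum_mul, EE_cup hN, zero_mul]
  rw [e1, e2, e3, El_append]
  by_cases h : Pool.Agent.W709.QAT.cup N (rt N) (a, b) = 0
  · rw [h]; ring
  · have h5 := cup_wt h
    have h6 : kf N [a, b] = 1 := by
      rw [kf_two (a, b)]
      have : 2 * (N : ℤ) - 2 - 2 * ((((a, b) : Fin N × Fin N).1 + ((a, b) : Fin N × Fin N).2 : ℕ) : ℤ) = 0 := by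
        simp only at h5 ⊢
        omega
      rw [this, zpow_zero]
    rw [h6]; ring

lemma El_cap (hN : 0 < N) (i : ℕ) (f : List (Fin N) → ℂ) (l r : List (Fin N))
    (hl : l.length = i) :
    El N (l ++ r) ((Piece.cap i).act N (rt N) f) =
      ∑ p : Fin N × Fin N, Pool.Agent.W709.QAT.cap N (rt N) p * El N (l ++ p.1 :: p.2 :: r) f := by
  rw [El_append]
  have e1 : El N l (fun t => (Piece.cap i).act N (rt N) f (t ++ r)) =
      ∑ p : Fin N × Fin N, Pool.Agent.W709.QAT.cap N (rt N) p *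
        El N l (fun t => f (t ++ p.1 :: p.2 :: r)) := by
    have : El N l (fun t => (Piece.cap i).act N (rt N) f (t ++ r)) =
        El N l (fun t => ∑ p : Fin N × Fin N, Pool.Agent.W709.QAT.cap N (rt N) p *
          f (t ++ p.1 :: p.2 :: r)) :=
      El_congr fun t ht => act_cap _ _ _ _ _ (by rw [ht, hl])
    rw [this, El_sum]
    exact sum_congr rfl fun q _ => El_mul _ _ _
  have e3 : El N r (fun t => (Piece.cap i).act N (rt N) f (l ++ t)) =
      ∑ p : Fin N × Fin N, Pool.Agent.W709.QAT.cap N (rt N) p *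
        El N r (fun t => f (l ++ p.1 :: p.2 :: t)) := by
    have : El N r (fun t => (Piece.cap i).act N (rt N) f (l ++ t)) =
        El N r (fun t => ∑ p : Fin N × Fin N, Pool.Agent.W709.QAT.cap N (rt N) p *
          f (l ++ p.1 :: p.2 :: t)) :=
      El_congr fun t _ => act_cap _ _ _ _ _ hl
    rw [this, El_sum]
    exact sum_congr rfl fun q _ => El_mul _ _ _
  have e2 : ∑ p : Fin N × Fin N, Pool.Agent.W709.QAT.cap N (rt N) p *
      (∑ q : Fin N × Fin N, EE N p q * f (l ++ q.1 :: q.2 :: r)) = 0 := by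
    simp only [mul_sum]
    rw [sum_comm]
    refine sum_eq_zero fun q _ => ?_
    have h3 : ∑ x, Pool.Agent.W709.QAT.cap N (rt N) x * (EE N x q * f (l ++ q.1 :: q.2 :: r)) =
        (∑ x, Pool.Agent.W709.QAT.cap N (rt N) x * EE N x q) * f (l ++ q.1 :: q.2 :: r) := by
      rw [sum_mul]; exact sum_congr rfl fun x _ => by ring
    rw [h3, cap_EE hN, zero_mul]
  have e4 : ∑ p : Fin N × Fin N, Pool.Agent.W709.QAT.cap N (rt N) p *
      El N (l ++ p.1 :: p.2 :: r) f = ∑ p : Fin N × Fin N, (kf N r *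
        (Pool.Agent.W709.QAT.cap N (rt N) p * El N l (fun t => f (t ++ p.1 :: p.2 :: r))) +
      kf N r * (Pool.Agent.W709.QAT.cap N (rt N) p *
      (∑ q : Fin N × Fin N, EE N p q * f (l ++ q.1 :: q.2 :: r))) +
      Pool.Agent.W709.QAT.cap N (rt N) p * El N r (fun t => f (l ++ p.1 :: p.2 :: t))) := by
    refine sum_congr rfl fun p _ => ?_
    by_cases h : Pool.Agent.W709.QAT.cap N (rt N) p = 0
    · rw [h]; ring
    · have h5 := cap_wt h
      have h6 : kf N [p.1, p.2] = 1 := by
        rw [kf_two p]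
        have : 2 * (N : ℤ) - 2 - 2 * (((p.1 : ℕ) + p.2 : ℕ) : ℤ) = 0 := by omega
        rw [this, zpow_zero]
      rw [El_mid, h6]; ring
  rw [e4, sum_add_distrib, sum_add_distrib, ← mul_sum, ← mul_sum, e2, e1, e3]
  ring

/-! ### invariant functions -/

/-- killed by `E`, and of the right weight -/
structure Inv (n : ℕ) (f : List (Fin N) → ℂ) : Prop where
  E : ∀ s : List (Fin N), s.length = n → El N s f = 0
  wt : ∀ s : List (Fin N), s.length = n → f s ≠ 0 →
    2 * (s.map fun a : Fin N => (a : ℕ)).sum + (N - 1) = n * (N - 1)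

lemma exists_mid {s : List (Fin N)} {i n : ℕ} (hs : s.length = n) (hi : i + 2 ≤ n) :
    ∃ l a b r, s = l ++ a :: b :: r ∧ l.length = i := by
  have h1 : (s.drop i).length = n - i := by rw [List.length_drop, hs]
  rcases h : s.drop i with _ | ⟨a, _ | ⟨b, r⟩⟩
  · rw [h] at h1; simp only [List.length_nil] at h1; omega
  · rw [h] at h1; simp only [List.length_cons, List.length_nil] at h1; omega
  · refine ⟨s.take i, a, b, r, ?_, ?_⟩
    · rw [← h, List.take_append_drop]
    · rw [List.length_take]; omega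

lemma Inv_act (hN : 0 < N) (P : Piece) {n k : ℕ} (hP : P.strands n = some k)
    {f : List (Fin N) → ℂ} (hf : Inv n f) : Inv k (P.act N (rt N) f) := by
  cases P with
  | cup i =>
    simp only [Piece.strands] at hP
    split_ifs at hP with hi
    cases hP
    constructor
    · intro s hs
      obtain ⟨l, a, b, r, rfl, hl⟩ := exists_mid hs (i := i) (by omega)
      rw [El_cup hN _ _ _ _ _ _ hl, hf.E, mul_zero]
      simp only [List.length_append, List.length_cons] at hs ⊢
      omega
    · intro s hs h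
      obtain ⟨l, a, b, r, rfl, hl⟩ := exists_mid hs (i := i) (by omega)
      rw [act_cup _ _ _ _ _ _ _ hl] at h
      have h1 := cup_wt (left_ne_zero_of_mul h)
      have h2 := hf.wt (l ++ r) (by
        simp only [List.length_append, List.length_cons] at hs ⊢
        omega) (right_ne_zero_of_mul h)
      simp only [List.map_append, List.map_cons, List.sum_append, List.sum_cons] at h2 ⊢
      simp only at h1
      have : (n + 2) * (N - 1) = n * (N - 1) + 2 * (N - 1) := by ring
      omega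
  | cap i =>
    simp only [Piece.strands] at hP
    split_ifs at hP with hi
    cases hP
    constructor
    · intro s hs
      have e : s = s.take i ++ s.drop i := (List.take_append_drop i s).symm
      rw [e, El_cap hN _ _ _ _ (by rw [List.length_take]; omega)]
      refine sum_eq_zero fun p _ => ?_
      rw [hf.E, mul_zero]
      simp only [List.length_append, List.length_cons, List.length_take, List.length_drop]
      omega
    · intro s hs h
      have e : s = s.take i ++ s.drop i := (List.take_append_drop i s).symm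
      rw [e, act_cap _ _ _ _ _ (by rw [List.length_take]; omega)] at h
      obtain ⟨p, _, hp⟩ := exists_ne_zero_of_sum_ne_zero h
      have h1 := cap_wt (left_ne_zero_of_mul hp)
      have h2 := hf.wt _ (by
        simp only [List.length_append, List.length_cons, List.length_take, List.length_drop]
        omega) (right_ne_zero_of_mul hp)
      rw [e]
      simp only [List.map_append, List.map_cons, List.sum_append, List.sum_cons] at h2 ⊢
      have : n * (N - 1) = (n - 2) * (N - 1) + 2 * (N - 1) := by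
        rw [← add_mul]; congr 1; omega
      omega
  | twist i σ m =>
    simp only [Piece.strands] at hP
    split_ifs at hP with hi
    cases hP
    constructor
    · intro s hs
      obtain ⟨l, a, b, r, rfl, hl⟩ := exists_mid hs (i := i) (by omega)
      rw [El_twist _ _ _ _ _ _ _ _ hl]
      refine sum_eq_zero fun q _ => ?_
      rw [hf.E, mul_zero]
      simp only [List.length_append, List.length_cons] at hs ⊢
      omega
    · intro s hs h
      obtain ⟨l, a, b, r, rfl, hl⟩ := exists_mid hs (i := i) (by omega)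
      rw [act_twist _ _ _ _ _ _ _ _ hl] at h
      obtain ⟨p, _, hp⟩ := exists_ne_zero_of_sum_ne_zero h
      have h1 := Wp_pow (Wp_cr (N := N) σ) m _ _ (left_ne_zero_of_mul hp)
      have h2 := hf.wt _ (by
        simp only [List.length_append, List.length_cons] at hs ⊢
        omega) (right_ne_zero_of_mul hp)
      simp only [List.map_append, List.map_cons, List.sum_append, List.sum_cons] at h2 ⊢
      simp only at h1
      omega

lemma Inv_run (hN : 0 < N) (D : Diag) {n k : ℕ} (hD : Fits D n k) {f : List (Fin N) → ℂ}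
    (hf : Inv n f) : Inv k (run N (rt N) D f) := by
  induction D generalizing n f with
  | nil =>
    simp only [Fits, List.foldl_nil, Option.some.injEq] at hD
    subst hD
    exact hf
  | cons P D ih =>
    obtain ⟨m, h1, h2⟩ := fits_cons hD
    exact ih h2 (Inv_act hN P h1 hf)

/-- the highest weight vector on one strand -/
noncomputable def hw (N : ℕ) (hN : 0 < N) : List (Fin N) → ℂ := fun s => if s = [⟨0, hN⟩] then 1 else 0

lemma Inv_hw (hN : 0 < N) : Inv 1 (hw N hN) := by
  constructor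
  · intro s hs
    obtain ⟨a, rfl⟩ := List.length_eq_one_iff.1 hs
    simp only [El, kf_nil, add_zero, one_mul]
    refine sum_eq_zero fun b _ => ?_
    by_contra h
    have h1 := Pool.Agent.W715.VC.Eo_ne (left_ne_zero_of_mul h)
    have h2 := right_ne_zero_of_mul h
    unfold hw at h2
    split_ifs at h2 with h3
    · have : b = ⟨0, hN⟩ := by simpa using h3
      rw [this] at h1
      simp at h1
    · exact h2 rfl
  · intro s hs h
    unfold hw at h
    split_ifs at h with h1
    · rw [h1]; simp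
    · exact absurd rfl h

end Pool.Agent.R807
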