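import Pool.Agent.W709.QAT.Fin

/-!
# The growth of the Kashaev invariant of a link diagram: following the two ends of the open strand

The entry of the operator of a (1,1)-tangle at the highest weight vector `e_0`: as long as the lower
end of the strand passes over, its label stays `0` and the crossings are trivial; the first crossing
where it passes under has growth rate at most `2 v_3` instead of `v_8`.  The same holds for the
upper end, downwards, with over and under exchanged.
-/

set_option autoImplicit false

namespace Pool.Agent.R807.Cut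

open Finset Matrix Filter Topology Pool.Agent.H550R3.Jones Pool.Agent.W715.VC Pool.Agent.W709.QAT
open Pool.Agent.W28.QAT (sum_bound norm_cup_le norm_cap_le wt wt_pos rate_nonneg)
open GapVol (lob)
open scoped Real

/-- the growth rate of a crossing with one label `0` -/
noncomputable def half : ℝ := 4 * lob (π / 6)

/-- the rate of a piece -/
noncomputable def prate : Piece → ℝ
  | .twist _ _ m => rate m
  | _ => 0

/-- following a strand upwards; the growth rate of the piece -/
noncomputable def up : Option ℕ → Piece → Option ℕ × ℝ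
  | none, P => (none, prate P)
  | some p, .cup i => (some (if i ≤ p then p + 2 else p), 0)
  | some p, .cap i => (if i + 1 < p then some (p - 2) else if p < i then some p else none, 0)
  | some p, .twist i σ m =>
      if i + 1 < p ∨ p < i then (some p, rate m)
      else if m = 1 then
        (if p = i then (if σ then (some (i + 1), 0) else (none, half))
        else (if σ then (none, half) else (some i, 0)))
      else (none, rate m)

/-- following a strand downwards; the growth rate of the piece -/
noncomputable def down : Option ℕ → Piece → Option ℕ × ℝ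
  | none, P => (none, prate P)
  | some p, .cup i => (if i + 1 < p then some (p - 2) else if p < i then some p else none, 0)
  | some p, .cap i => (some (if i ≤ p then p + 2 else p), 0)
  | some p, .twist i σ m =>
      if i + 1 < p ∨ p < i then (some p, rate m)
      else if m = 1 then
        (if p = i then (if σ then (some (i + 1), 0) else (none, half))
        else (if σ then (none, half) else (some i, 0)))
      else (none, rate m)

/-- the label of the strand is `0` -/
def Z {N : ℕ} (o : Option ℕ) (s : List (Fin N)) : Prop :=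
  ∀ p, o = some p → ∃ x : Fin N, s[p]? = some x ∧ (x : ℕ) = 0

/-- the constant of a piece -/
def kon : Piece → ℝ
  | .twist _ _ m => ((m : ℝ) + 1) ^ 2
  | _ => 1

lemma kon_ge (P : Piece) : 1 ≤ kon P := by
  cases P with
  | cup i => exact le_rfl
  | cap i => exact le_rfl
  | twist i σ m =>
    unfold kon
    have : (0 : ℝ) ≤ m := Nat.cast_nonneg m
    nlinarith

/-- the cost of a piece, given its rate -/
noncomputable def cst (N : ℕ) (ε : ℝ) (P : Piece) (ρ : ℝ) : ℝ :=
  (N : ℝ) ^ 2 * (kon P * Real.exp (N * (ρ / (2 * π) + ε)))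

lemma cst_nonneg (N : ℕ) (ε : ℝ) (P : Piece) (ρ : ℝ) : 0 ≤ cst N ε P ρ := by
  have := kon_ge P
  unfold cst
  positivity

/-- bounds of the crossings -/
def Bd (N : ℕ) (ε : ℝ) : Prop :=
  (∀ m : ℕ, ∀ p q : Fin N × Fin N, ‖(PP N ^ m) p q‖ ≤ wt N ε m ∧ ‖(QQ N ^ m) p q‖ ≤ wt N ε m) ∧
  (∀ p q : Fin N × Fin N, (q.1 : ℕ) = 0 → ‖PP N p q‖ ≤ 1 ∧ (PP N p q ≠ 0 → (p.2 : ℕ) = 0)) ∧
  (∀ p q : Fin N × Fin N, (p.1 : ℕ) = 0 → ‖PP N p q‖ ≤ 1 ∧ (PP N p q ≠ 0 → (q.2 : ℕ) = 0)) ∧
  (∀ p q : Fin N × Fin N, (q.2 : ℕ) = 0 → ‖PP N p q‖ ≤ Real.exp (N * (half / (2 * π) + ε))) ∧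
  (∀ p q : Fin N × Fin N, (p.2 : ℕ) = 0 → ‖PP N p q‖ ≤ Real.exp (N * (half / (2 * π) + ε))) ∧
  (∀ p q : Fin N × Fin N, (q.2 : ℕ) = 0 → ‖QQ N p q‖ ≤ 1 ∧ (QQ N p q ≠ 0 → (p.1 : ℕ) = 0)) ∧
  (∀ p q : Fin N × Fin N, (p.2 : ℕ) = 0 → ‖QQ N p q‖ ≤ 1 ∧ (QQ N p q ≠ 0 → (q.1 : ℕ) = 0)) ∧
  (∀ p q : Fin N × Fin N, (q.1 : ℕ) = 0 → ‖QQ N p q‖ ≤ Real.exp (N * (half / (2 * π) + ε))) ∧
  (∀ p q : Fin N × Fin N, (p.1 : ℕ) = 0 → ‖QQ N p q‖ ≤ Real.exp (N * (half / (2 * π) + ε)))

lemma Fa_pos {N k : ℕ} (hk : k < N) : 0 < Fa N k := by
  unfold Fa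
  exact norm_pos_iff.2 (Pool.Agent.H927R2.J.SanYB.brf_ne (adm N) hk)

lemma Fa_zero (N : ℕ) : Fa N 0 = 1 := by
  unfold Fa
  simp [brf]

lemma pp_zero {N : ℕ} {p q : Fin N × Fin N} (h : PP N p q ≠ 0) :
    (p.1 : ℕ) + p.2 = q.1 + q.2 ∧ (q.2 : ℕ) ≤ p.1 := by
  by_contra hc
  apply h
  unfold PP crossP
  rw [if_neg hc]

/-- a window product -/
lemma win {N : ℕ} {ε : ℝ} (hN : 1 ≤ N) (hL : ∀ k : ℕ, k < N →
    0 < Fa N k ∧ |Real.log (Fa N k) + N / π * lob (π * k / N)| ≤ ε / 2 * N) {a b : ℕ}
    (ha : a < N) (hb : b < N) :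
    Fa N a / Fa N b ≤ Real.exp (N * (half / (2 * π) + ε)) := by
  have hpi := Real.pi_pos
  obtain ⟨a1, b1⟩ := hL a ha
  obtain ⟨a2, b2⟩ := hL b hb
  rw [← Real.log_le_iff_le_exp (by positivity), Real.log_div a1.ne' a2.ne']
  have hNr : (0 : ℝ) < N := by exact_mod_cast hN
  have c1 := lob_max (π * b / N)
  have c2 := lob_max (-(π * a / N))
  rw [EvenVol.LobIneq.lob_neg] at c2
  have c3 : N / π * (lob (π * b / N) - lob (π * a / N)) ≤ N / π * (2 * lob (π / 6)) := by
    apply mul_le_mul_of_nonneg_left _ (by positivity)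
    linarith
  have e3 : (N : ℝ) * (half / (2 * π) + ε) = N / π * (2 * lob (π / 6)) + ε * N := by
    unfold half
    field_simp
    ring
  rw [e3]
  have g1 := (abs_le.1 b1).2
  have g2 := (abs_le.1 b2).1
  nlinarith

lemma norm_QQ {N : ℕ} (hN : 0 < N) (p q : Fin N × Fin N) :
    ‖QQ N p q‖ = ‖PP N (q.2, q.1) (p.2, p.1)‖ := by
  have h := congrFun (congrFun (sh_PP (N := N) (by omega)) p) q
  rw [← h]
  unfold sh
  rw [RCLike.norm_conj]

lemma bd (ε : ℝ) (hε : 0 < ε) : ∀ᶠ N : ℕ in atTop, Bd N ε := by
  filter_upwards [tw ε hε, Pool.Agent.W563.QAT.lb (ε / 2) (by positivity),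
    eventually_ge_atTop 1] with N h1 h2 hN
  have one_le : (1 : ℝ) ≤ 1 := le_rfl
  have A1 : ∀ p q : Fin N × Fin N, (q.1 : ℕ) = 0 →
      ‖PP N p q‖ ≤ 1 ∧ (PP N p q ≠ 0 → (p.2 : ℕ) = 0) := by
    intro p q hq
    have k : PP N p q ≠ 0 → (p.2 : ℕ) = 0 := fun h => by
      obtain ⟨e1, e2⟩ := pp_zero h
      omega
    refine ⟨?_, k⟩
    by_cases h : PP N p q = 0
    · rw [h, norm_zero]; exact zero_le_one
    · obtain ⟨e1, e2⟩ := pp_zero h
      have e3 := k h
      have e4 : (p.1 : ℕ) = q.2 := by omega
      rw [norm_PP p q e1 e2, e4, hq, e3, Nat.sub_self, Fa_zero]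
      have := (Fa_pos q.2.2).ne'
      field_simp
      exact le_rfl
  have A2 : ∀ p q : Fin N × Fin N, (p.1 : ℕ) = 0 →
      ‖PP N p q‖ ≤ 1 ∧ (PP N p q ≠ 0 → (q.2 : ℕ) = 0) := by
    intro p q hp
    have k : PP N p q ≠ 0 → (q.2 : ℕ) = 0 := fun h => by
      obtain ⟨e1, e2⟩ := pp_zero h
      omega
    refine ⟨?_, k⟩
    by_cases h : PP N p q = 0
    · rw [h, norm_zero]; exact zero_le_one
    · obtain ⟨e1, e2⟩ := pp_zero h
      have e3 := k h
      have e4 : (p.2 : ℕ) = q.1 := by omega
      rw [norm_PP p q e1 e2, e4, hp, e3, Nat.sub_self, Fa_zero]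
      have := (Fa_pos q.1.2).ne'
      field_simp
      exact le_rfl
  have A3 : ∀ p q : Fin N × Fin N, (q.2 : ℕ) = 0 →
      ‖PP N p q‖ ≤ Real.exp (N * (half / (2 * π) + ε)) := by
    intro p q hq
    by_cases h : PP N p q = 0
    · rw [h, norm_zero]; exact (Real.exp_pos _).le
    · obtain ⟨e1, e2⟩ := pp_zero h
      rw [norm_PP p q e1 e2, hq, Nat.sub_zero, Fa_zero, one_mul, div_self (Fa_pos p.1.2).ne',
        one_mul]
      exact win hN h2 q.1.2 p.2.2
  have A4 : ∀ p q : Fin N × Fin N, (p.2 : ℕ) = 0 →
      ‖PP N p q‖ ≤ Real.exp (N * (half / (2 * π) + ε)) := by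
    intro p q hp
    by_cases h : PP N p q = 0
    · rw [h, norm_zero]; exact (Real.exp_pos _).le
    · obtain ⟨e1, e2⟩ := pp_zero h
      have e4 : (p.1 : ℕ) - q.2 = q.1 := by omega
      have e5 : Fa N p.1 / (Fa N q.2 * Fa N q.1) * (Fa N q.1 / 1) = Fa N p.1 / Fa N q.2 := by
        have g1 := (Fa_pos q.1.2).ne'
        have g2 := (Fa_pos q.2.2).ne'
        field_simp
      rw [norm_PP p q e1 e2, hp, e4, Fa_zero, e5]
      exact win hN h2 p.1.2 q.2.2
  have hQ := norm_QQ (N := N) (by omega)
  have hz : ∀ p q : Fin N × Fin N, QQ N p q ≠ 0 → PP N (q.2, q.1) (p.2, p.1) ≠ 0 := by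
    intro p q h
    rw [← norm_ne_zero_iff, ← hQ]
    exact norm_ne_zero_iff.2 h
  refine ⟨h1, A1, A2, A3, A4, fun p q hq => ⟨?_, fun h => ?_⟩, fun p q hp => ⟨?_, fun h => ?_⟩,
    fun p q hq => ?_, fun p q hp => ?_⟩
  · rw [hQ]; exact (A2 (q.2, q.1) (p.2, p.1) hq).1
  · exact (A2 (q.2, q.1) (p.2, p.1) hq).2 (hz p q h)
  · rw [hQ]; exact (A1 (q.2, q.1) (p.2, p.1) hp).1
  · exact (A1 (q.2, q.1) (p.2, p.1) hp).2 (hz p q h)
  · rw [hQ]; exact A4 (q.2, q.1) (p.2, p.1) hq
  · rw [hQ]; exact A3 (q.2, q.1) (p.2, p.1) hp

/-! ### Lists -/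

lemma app_l {α : Type*} {u x : List α} {p : ℕ} (h : p < u.length) : (u ++ x)[p]? = u[p]? :=
  List.getElem?_append_left h

lemma app_r {α : Type*} {u x : List α} {i p : ℕ} (hu : u.length = i) (h : i ≤ p) :
    (u ++ x)[p]? = x[p - i]? := by
  rw [List.getElem?_append_right (by omega), hu]

lemma spl {α : Type*} {s : List α} {i : ℕ} {a b : α} {r : List α} (h : s.drop i = a :: b :: r) :
    ∃ u : List α, u.length = i ∧ s.take i = u ∧ s = u ++ a :: b :: r := by
  have h1 : (s.drop i).length = r.length + 2 := by rw [h]; rfl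
  rw [List.length_drop] at h1
  refine ⟨s.take i, ?_, rfl, ?_⟩
  · rw [List.length_take]
    omega
  · rw [← h, List.take_append_drop]

lemma one_le_exp {N : ℕ} {ε ρ : ℝ} (hε : 0 ≤ ε) (hρ : 0 ≤ ρ) :
    1 ≤ Real.exp (N * (ρ / (2 * π) + ε)) := by
  have := Real.pi_pos
  apply Real.one_le_exp
  positivity

lemma half_nonneg : 0 ≤ half := by
  have h := EvenVol.LobIneq.lob_nonneg (x := π / 6) (by positivity) (by linarith [Real.pi_pos])
  unfold half
  linarith

/-- cups and caps -/
lemma one_cst {N : ℕ} {ε ρ : ℝ} (hN : 1 ≤ N) (hε : 0 ≤ ε) (hρ : 0 ≤ ρ) (P : Piece) {B : ℝ}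
    (hB : 0 ≤ B) : B ≤ B * cst N ε P ρ := by
  have h1 := one_le_exp (N := N) hε hρ
  have h2 := kon_ge P
  have h3 : (1 : ℝ) ≤ (N : ℝ) ^ 2 := by
    have : (1 : ℝ) ≤ N := by exact_mod_cast hN
    nlinarith
  have h4 : 1 ≤ kon P * Real.exp (N * (ρ / (2 * π) + ε)) := by nlinarith
  have h5 : 1 ≤ cst N ε P ρ := by unfold cst; nlinarith
  nlinarith

/-- sums over two labels -/
lemma sum_cst {N : ℕ} {ε ρ : ℝ} (P : Piece) {B : ℝ} {g : Fin N × Fin N → ℂ}
    (h : ∀ q, ‖g q‖ ≤ kon P * Real.exp (N * (ρ / (2 * π) + ε)) * B) :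
    ‖∑ q : Fin N × Fin N, g q‖ ≤ B * cst N ε P ρ := by
  refine (sum_bound h).trans (le_of_eq ?_)
  unfold cst
  ring

lemma le_kon {N : ℕ} {ε ρ x B : ℝ} (P : Piece) (hB : 0 ≤ B)
    (hx : x ≤ Real.exp (N * (ρ / (2 * π) + ε))) :
    x * B ≤ kon P * Real.exp (N * (ρ / (2 * π) + ε)) * B := by
  have h2 := kon_ge P
  have h3 := (Real.exp_pos (N * (ρ / (2 * π) + ε))).le
  apply mul_le_mul_of_nonneg_right _ hB
  nlinarith

/-- a twist region, with the state below -/
lemma tw_sum {N i m : ℕ} {σ : Bool} (g : List (Fin N) → ℂ) {s : List (Fin N)} {a b : Fin N}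
    {r u : List (Fin N)} (h : s.drop i = a :: b :: r) (hu : s.take i = u) :
    (Piece.twist i σ m).act N (rt N) g s = ∑ q : Fin N × Fin N,
      ((if σ then PP N else QQ N) ^ m) (a, b) q * g (u ++ q.1 :: q.2 :: r) := by
  simp only [Piece.act, h, hu]
  rfl

lemma act_low {N n n' : ℕ} {ε : ℝ} (hN : 1 ≤ N) (hB : Bd N ε) (hε : 0 ≤ ε) (o : Option ℕ)
    (P : Piece) (hP : P.strands n = some n') (g : List (Fin N) → ℂ) (B : ℝ) (hB0 : 0 ≤ B)
    (hg : ∀ s, g s ≠ 0 → s.length = n ∧ Z o s) (hb : ∀ s, ‖g s‖ ≤ B) :
    (∀ s, P.act N (rt N) g s ≠ 0 → s.length = n' ∧ Z (up o P).1 s) ∧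
      ∀ s, ‖P.act N (rt N) g s‖ ≤ B * cst N ε P (up o P).2 := by
  obtain ⟨b0, b1, b2, b3, b4, b5, b6, b7, b8⟩ := hB
  rcases P with i | i | ⟨i, σ, m⟩
  · -- cup
    simp only [Piece.strands] at hP
    split_ifs at hP with hi
    simp only [Option.some.injEq] at hP
    constructor
    · intro s hs
      rcases h : s.drop i with _ | ⟨a, _ | ⟨b, r⟩⟩
      · simp only [Piece.act, h, ne_eq, not_true_eq_false] at hs
      · simp only [Piece.act, h, ne_eq, not_true_eq_false] at hs
      · obtain ⟨u, hu, hus, rfl⟩ := spl h
        simp only [Piece.act, h, hus] at hs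
        obtain ⟨g1, g2⟩ := hg _ (right_ne_zero_of_mul hs)
        refine ⟨by simp only [List.length_append, List.length_cons] at g1 ⊢; omega, ?_⟩
        intro p' hp'
        rcases o with _ | p
        · simp [up] at hp'
        simp only [up, Option.some.injEq] at hp'
        obtain ⟨x, e1, e2⟩ := g2 p rfl
        refine ⟨x, ?_, e2⟩
        split_ifs at hp' with hip
        · rw [app_r hu hip] at e1
          rw [← hp', app_r hu (by omega), ← e1]
          have : p + 2 - i = (p - i) + 2 := by omega
          rw [this, List.getElem?_cons_succ, List.getElem?_cons_succ]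
        · rw [app_l (by omega)] at e1
          rw [← hp', app_l (by omega)]
          exact e1
    · intro s
      have hr : (up o (Piece.cup i)).2 = 0 := by cases o <;> rfl
      rw [hr]
      refine le_trans ?_ (one_cst hN hε le_rfl _ hB0)
      rcases h : s.drop i with _ | ⟨a, _ | ⟨b, r⟩⟩
      · simpa only [Piece.act, h, norm_zero] using hB0
      · simpa only [Piece.act, h, norm_zero] using hB0
      · simp only [Piece.act, h]
        rw [norm_mul]
        calc _ ≤ 1 * B := mul_le_mul (norm_cup_le _) (hb _) (norm_nonneg _) zero_le_one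
          _ = B := one_mul B
  · -- cap
    simp only [Piece.strands] at hP
    split_ifs at hP with hi
    simp only [Option.some.injEq] at hP
    constructor
    · intro s hs
      simp only [Piece.act] at hs
      obtain ⟨q, -, hq⟩ := Finset.exists_ne_zero_of_sum_ne_zero hs
      obtain ⟨g1, g2⟩ := hg _ (right_ne_zero_of_mul hq)
      have hl : s.length = n' := by
        simp only [List.length_append, List.length_cons, List.length_take, List.length_drop] at g1
        omega
      refine ⟨hl, ?_⟩
      intro p' hp'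
      rcases o with _ | p
      · simp [up] at hp'
      simp only [up] at hp'
      obtain ⟨x, e1, e2⟩ := g2 p rfl
      refine ⟨x, ?_, e2⟩
      have hu : (s.take i).length = i := by rw [List.length_take]; omega
      split_ifs at hp' with h1 h2
      · simp only [Option.some.injEq] at hp'
        rw [app_r hu (by omega)] at e1
        have e3 : p - i = (p - 2 - i) + 2 := by omega
        rw [e3, List.getElem?_cons_succ, List.getElem?_cons_succ, List.getElem?_drop] at e1
        rw [← e1, ← hp']
        congr 1
        omega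
      · simp only [Option.some.injEq] at hp'
        rw [app_l (by omega), List.getElem?_take_of_lt h2] at e1
        rw [← hp', ← e1]
    · intro s
      have hr : (up o (Piece.cap i)).2 = 0 := by cases o <;> rfl
      rw [hr]
      simp only [Piece.act]
      apply sum_cst
      intro q
      rw [norm_mul]
      refine le_trans (mul_le_mul (norm_cap_le _) (hb _) (norm_nonneg _) zero_le_one) ?_
      exact le_kon _ hB0 (one_le_exp hε le_rfl)
  · -- twist
    simp only [Piece.strands] at hP
    split_ifs at hP with hi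
    simp only [Option.some.injEq] at hP
    rw [← forall_and]
    intro s
    rcases h : s.drop i with _ | ⟨a, _ | ⟨b, r⟩⟩
    · have h0 : (Piece.twist i σ m).act N (rt N) g s = 0 := by simp only [Piece.act, h]
      rw [h0, norm_zero]
      exact ⟨fun h => absurd rfl h, mul_nonneg hB0 (cst_nonneg _ _ _ _)⟩
    · have h0 : (Piece.twist i σ m).act N (rt N) g s = 0 := by simp only [Piece.act, h]
      rw [h0, norm_zero]
      exact ⟨fun h => absurd rfl h, mul_nonneg hB0 (cst_nonneg _ _ _ _)⟩
    obtain ⟨u, hu, hus, hs⟩ := spl h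
    rw [tw_sum g h hus]
    have hlen : ∀ q : Fin N × Fin N, (u ++ q.1 :: q.2 :: r).length = s.length := by
      intro q
      rw [hs]
      simp
    -- the generic bound
    have gen : ‖∑ q : Fin N × Fin N, ((if σ then PP N else QQ N) ^ m) (a, b) q *
        g (u ++ q.1 :: q.2 :: r)‖ ≤ B * cst N ε (Piece.twist i σ m) (rate m) := by
      apply sum_cst
      intro q
      rw [norm_mul]
      refine mul_le_mul ?_ (hb _) (norm_nonneg _) (by
        have := kon_ge (Piece.twist i σ m); positivity)
      rcases σ with _ | _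
      · exact (b0 m (a, b) q).2
      · exact (b0 m (a, b) q).1
    have gl : ∑ q : Fin N × Fin N, ((if σ then PP N else QQ N) ^ m) (a, b) q *
        g (u ++ q.1 :: q.2 :: r) ≠ 0 → s.length = n' := by
      intro hne
      obtain ⟨q, -, hq⟩ := Finset.exists_ne_zero_of_sum_ne_zero hne
      have := (hg _ (right_ne_zero_of_mul hq)).1
      rw [hlen q] at this
      omega
    rcases o with _ | p
    · exact ⟨fun hne => ⟨gl hne, fun p' hp' => by simp [up] at hp'⟩, gen⟩
    by_cases hf : i + 1 < p ∨ p < i
    · have e : up (some p) (Piece.twist i σ m) = (some p, rate m) := by simp only [up, if_pos hf]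
      rw [e]
      refine ⟨fun hne => ⟨gl hne, ?_⟩, gen⟩
      obtain ⟨q, -, hq⟩ := Finset.exists_ne_zero_of_sum_ne_zero hne
      obtain ⟨x, e1, e2⟩ := (hg _ (right_ne_zero_of_mul hq)).2 p rfl
      intro p' hp'
      simp only [Option.some.injEq] at hp'
      rw [← hp', hs]
      refine ⟨x, ?_, e2⟩
      rcases hf with hf | hf
      · rw [app_r hu (by omega)] at e1 ⊢
        have e3 : p - i = (p - 2 - i) + 2 := by omega
        rw [e3, List.getElem?_cons_succ, List.getElem?_cons_succ] at e1 ⊢
        exact e1
      · rw [app_l (by omega)] at e1 ⊢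
        exact e1
    by_cases hm : m = 1
    swap
    · have e : up (some p) (Piece.twist i σ m) = (none, rate m) := by
        simp only [up, if_neg hf, if_neg hm]
      rw [e]
      exact ⟨fun hne => ⟨gl hne, fun p' hp' => by simp at hp'⟩, gen⟩
    subst hm
    by_cases hp : p = i
    · subst hp
      have z1 : ∀ q : Fin N × Fin N, g (u ++ q.1 :: q.2 :: r) ≠ 0 → (q.1 : ℕ) = 0 := by
        intro q hq
        obtain ⟨x, e1, e2⟩ := (hg _ hq).2 p rfl
        rw [app_r hu le_rfl, Nat.sub_self, List.getElem?_cons_zero, Option.some.injEq] at e1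
        rw [e1]; exact e2
      rcases σ with _ | _
      · have e : up (some p) (Piece.twist p false 1) = (none, half) := by
          simp [up]
        rw [e]
        refine ⟨fun hne => ⟨gl hne, fun p' hp' => by simp at hp'⟩, ?_⟩
        apply sum_cst
        intro q
        rw [norm_mul]
        by_cases hq : g (u ++ q.1 :: q.2 :: r) = 0
        · rw [hq, norm_zero, mul_zero]
          have := kon_ge (Piece.twist p false 1)
          positivity
        · have h5 := b7 (a, b) q (z1 q hq)
          simp only [pow_one, Bool.false_eq_true, if_false]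
          refine le_trans (mul_le_mul h5 (hb _) (norm_nonneg _) (Real.exp_pos _).le) ?_
          exact le_kon _ hB0 le_rfl
      · have e : up (some p) (Piece.twist p true 1) = (some (p + 1), 0) := by
          simp [up]
        rw [e]
        refine ⟨fun hne => ⟨gl hne, ?_⟩, ?_⟩
        · obtain ⟨q, -, hq⟩ := Finset.exists_ne_zero_of_sum_ne_zero hne
          have hq1 := left_ne_zero_of_mul hq
          simp only [pow_one, if_true] at hq1
          have h6 := (b1 (a, b) q (z1 q (right_ne_zero_of_mul hq))).2 hq1
          intro p' hp'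
          simp only [Option.some.injEq] at hp'
          refine ⟨b, ?_, h6⟩
          rw [← hp', hs, app_r hu (by omega)]
          have : p + 1 - p = 0 + 1 := by omega
          rw [this, List.getElem?_cons_succ, List.getElem?_cons_zero]
        · apply sum_cst
          intro q
          rw [norm_mul]
          by_cases hq : g (u ++ q.1 :: q.2 :: r) = 0
          · rw [hq, norm_zero, mul_zero]
            have := kon_ge (Piece.twist p true 1)
            positivity
          · have h5 := (b1 (a, b) q (z1 q hq)).1
            simp only [pow_one, if_true]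
            refine le_trans (mul_le_mul h5 (hb _) (norm_nonneg _) zero_le_one) ?_
            exact le_kon _ hB0 (one_le_exp hε le_rfl)
    · have hp1 : p = i + 1 := by omega
      subst hp1
      have z2 : ∀ q : Fin N × Fin N, g (u ++ q.1 :: q.2 :: r) ≠ 0 → (q.2 : ℕ) = 0 := by
        intro q hq
        obtain ⟨x, e1, e2⟩ := (hg _ hq).2 (i + 1) rfl
        rw [app_r hu (by omega)] at e1
        have e3 : i + 1 - i = 0 + 1 := by omega
        rw [e3, List.getElem?_cons_succ, List.getElem?_cons_zero, Option.some.injEq] at e1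
        rw [e1]; exact e2
      rcases σ with _ | _
      · have e : up (some (i + 1)) (Piece.twist i false 1) = (some i, 0) := by
          simp [up]
        rw [e]
        refine ⟨fun hne => ⟨gl hne, ?_⟩, ?_⟩
        · obtain ⟨q, -, hq⟩ := Finset.exists_ne_zero_of_sum_ne_zero hne
          have hq1 := left_ne_zero_of_mul hq
          simp only [pow_one, Bool.false_eq_true, if_false] at hq1
          have h6 := (b5 (a, b) q (z2 q (right_ne_zero_of_mul hq))).2 hq1
          intro p' hp'
          simp only [Option.some.injEq] at hp'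
          refine ⟨a, ?_, h6⟩
          rw [← hp', hs, app_r hu le_rfl, Nat.sub_self, List.getElem?_cons_zero]
        · apply sum_cst
          intro q
          rw [norm_mul]
          by_cases hq : g (u ++ q.1 :: q.2 :: r) = 0
          · rw [hq, norm_zero, mul_zero]
            have := kon_ge (Piece.twist i false 1)
            positivity
          · have h5 := (b5 (a, b) q (z2 q hq)).1
            simp only [pow_one, Bool.false_eq_true, if_false]
            refine le_trans (mul_le_mul h5 (hb _) (norm_nonneg _) zero_le_one) ?_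
            exact le_kon _ hB0 (one_le_exp hε le_rfl)
      · have e : up (some (i + 1)) (Piece.twist i true 1) = (none, half) := by
          simp [up]
        rw [e]
        refine ⟨fun hne => ⟨gl hne, fun p' hp' => by simp at hp'⟩, ?_⟩
        apply sum_cst
        intro q
        rw [norm_mul]
        by_cases hq : g (u ++ q.1 :: q.2 :: r) = 0
        · rw [hq, norm_zero, mul_zero]
          have := kon_ge (Piece.twist i true 1)
          positivity
        · have h5 := b3 (a, b) q (z2 q hq)
          simp only [pow_one, if_true]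
          refine le_trans (mul_le_mul h5 (hb _) (norm_nonneg _) (Real.exp_pos _).le) ?_
          exact le_kon _ hB0 le_rfl

lemma act_high {N n n' : ℕ} {ε : ℝ} (hN : 1 ≤ N) (hB : Bd N ε) (hε : 0 ≤ ε) (o : Option ℕ)
    (P : Piece) (hP : P.strands n = some n') (g : List (Fin N) → ℂ) (B : ℝ) (hB0 : 0 ≤ B)
    (hb : ∀ t, t.length = n → Z (down o P).1 t → ‖g t‖ ≤ B) :
    ∀ s, s.length = n' → Z o s → ‖P.act N (rt N) g s‖ ≤ B * cst N ε P (down o P).2 := by
  obtain ⟨b0, b1, b2, b3, b4, b5, b6, b7, b8⟩ := hB
  intro s hsl hZ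
  rcases P with i | i | ⟨i, σ, m⟩
  · -- cup
    simp only [Piece.strands] at hP
    split_ifs at hP with hi
    simp only [Option.some.injEq] at hP
    have hr : (down o (Piece.cup i)).2 = 0 := by cases o <;> rfl
    rw [hr]
    refine le_trans ?_ (one_cst hN hε le_rfl _ hB0)
    rcases h : s.drop i with _ | ⟨a, _ | ⟨b, r⟩⟩
    · simpa only [Piece.act, h, norm_zero] using hB0
    · simpa only [Piece.act, h, norm_zero] using hB0
    · obtain ⟨u, hu, hus, hs⟩ := spl h
      simp only [Piece.act, h, hus]
      rw [norm_mul]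
      have hlen : (u ++ r).length = n := by
        rw [hs] at hsl
        simp only [List.length_append, List.length_cons] at hsl ⊢
        omega
      have hZ' : Z (down o (Piece.cup i)).1 (u ++ r) := by
        intro p' hp'
        rcases o with _ | p
        · simp [down] at hp'
        simp only [down] at hp'
        obtain ⟨x, e1, e2⟩ := hZ p rfl
        rw [hs] at e1
        refine ⟨x, ?_, e2⟩
        split_ifs at hp' with h1 h2
        · simp only [Option.some.injEq] at hp'
          rw [app_r hu (by omega)] at e1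
          rw [← hp', app_r hu (by omega), ← e1]
          have : p - i = (p - 2 - i) + 2 := by omega
          rw [this, List.getElem?_cons_succ, List.getElem?_cons_succ]
        · simp only [Option.some.injEq] at hp'
          rw [app_l (by omega)] at e1
          rw [← hp', app_l (by omega)]
          exact e1
      calc _ ≤ 1 * B := mul_le_mul (norm_cup_le _) (hb _ hlen hZ') (norm_nonneg _) zero_le_one
        _ = B := one_mul B
  · -- cap
    simp only [Piece.strands] at hP
    split_ifs at hP with hi
    simp only [Option.some.injEq] at hP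
    have hr : (down o (Piece.cap i)).2 = 0 := by cases o <;> rfl
    rw [hr]
    simp only [Piece.act]
    apply sum_cst
    intro q
    have hu : (s.take i).length = i := by rw [List.length_take]; omega
    have hlen : (s.take i ++ q.1 :: q.2 :: s.drop i).length = n := by
      simp only [List.length_append, List.length_cons, List.length_take, List.length_drop]
      omega
    have hZ' : Z (down o (Piece.cap i)).1 (s.take i ++ q.1 :: q.2 :: s.drop i) := by
      intro p' hp'
      rcases o with _ | p
      · simp [down] at hp'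
      simp only [down, Option.some.injEq] at hp'
      obtain ⟨x, e1, e2⟩ := hZ p rfl
      refine ⟨x, ?_, e2⟩
      split_ifs at hp' with h1
      · rw [← hp', app_r hu (by omega)]
        have e3 : p + 2 - i = (p - i) + 2 := by omega
        rw [e3, List.getElem?_cons_succ, List.getElem?_cons_succ, List.getElem?_drop, ← e1]
        congr 1
        omega
      · rw [← hp', app_l (by omega), List.getElem?_take_of_lt (by omega)]
        exact e1
    rw [norm_mul]
    refine le_trans (mul_le_mul (norm_cap_le _) (hb _ hlen hZ') (norm_nonneg _) zero_le_one) ?_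
    exact le_kon _ hB0 (one_le_exp hε le_rfl)
  · -- twist
    simp only [Piece.strands] at hP
    split_ifs at hP with hi
    simp only [Option.some.injEq] at hP
    rcases h : s.drop i with _ | ⟨a, _ | ⟨b, r⟩⟩
    · have h0 : (Piece.twist i σ m).act N (rt N) g s = 0 := by simp only [Piece.act, h]
      rw [h0, norm_zero]
      exact mul_nonneg hB0 (cst_nonneg _ _ _ _)
    · have h0 : (Piece.twist i σ m).act N (rt N) g s = 0 := by simp only [Piece.act, h]
      rw [h0, norm_zero]
      exact mul_nonneg hB0 (cst_nonneg _ _ _ _)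
    obtain ⟨u, hu, hus, hs⟩ := spl h
    rw [tw_sum g h hus]
    have hlen : ∀ q : Fin N × Fin N, (u ++ q.1 :: q.2 :: r).length = n := by
      intro q
      rw [hs] at hsl
      simp only [List.length_append, List.length_cons] at hsl ⊢
      omega
    -- the generic bound
    have gen : (∀ q : Fin N × Fin N, ‖g (u ++ q.1 :: q.2 :: r)‖ ≤ B) →
        ‖∑ q : Fin N × Fin N, ((if σ then PP N else QQ N) ^ m) (a, b) q *
        g (u ++ q.1 :: q.2 :: r)‖ ≤ B * cst N ε (Piece.twist i σ m) (rate m) := by
      intro hq
      apply sum_cst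
      intro q
      rw [norm_mul]
      refine mul_le_mul ?_ (hq q) (norm_nonneg _) (by
        have := kon_ge (Piece.twist i σ m); positivity)
      rcases σ with _ | _
      · exact (b0 m (a, b) q).2
      · exact (b0 m (a, b) q).1
    rcases o with _ | p
    · exact gen fun q => hb _ (hlen q) (fun p' hp' => by simp [down] at hp')
    obtain ⟨x, e1, e2⟩ := hZ p rfl
    rw [hs] at e1
    by_cases hf : i + 1 < p ∨ p < i
    · have e : down (some p) (Piece.twist i σ m) = (some p, rate m) := by
        simp only [down, if_pos hf]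
      rw [e] at hb ⊢
      refine gen fun q => hb _ (hlen q) ?_
      intro p' hp'
      simp only [Option.some.injEq] at hp'
      rw [← hp']
      refine ⟨x, ?_, e2⟩
      rcases hf with hf | hf
      · rw [app_r hu (by omega)] at e1 ⊢
        have e3 : p - i = (p - 2 - i) + 2 := by omega
        rw [e3, List.getElem?_cons_succ, List.getElem?_cons_succ] at e1 ⊢
        exact e1
      · rw [app_l (by omega)] at e1 ⊢
        exact e1
    by_cases hm : m = 1
    swap
    · have e : down (some p) (Piece.twist i σ m) = (none, rate m) := by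
        simp only [down, if_neg hf, if_neg hm]
      rw [e] at hb ⊢
      exact gen fun q => hb _ (hlen q) (fun p' hp' => by simp at hp')
    subst hm
    by_cases hp : p = i
    · subst hp
      have z1 : (a : ℕ) = 0 := by
        rw [app_r hu le_rfl, Nat.sub_self, List.getElem?_cons_zero, Option.some.injEq] at e1
        rw [e1]; exact e2
      rcases σ with _ | _
      · have e : down (some p) (Piece.twist p false 1) = (none, half) := by
          simp [down]
        rw [e] at hb ⊢
        apply sum_cst
        intro q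
        rw [norm_mul]
        have h5 := b8 (a, b) q z1
        simp only [pow_one, Bool.false_eq_true, if_false]
        refine le_trans (mul_le_mul h5 (hb _ (hlen q) (fun p' hp' => by simp at hp'))
          (norm_nonneg _) (Real.exp_pos _).le) ?_
        exact le_kon _ hB0 le_rfl
      · have e : down (some p) (Piece.twist p true 1) = (some (p + 1), 0) := by
          simp [down]
        rw [e] at hb ⊢
        apply sum_cst
        intro q
        simp only [pow_one, if_true]
        by_cases hq : PP N (a, b) q = 0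
        · rw [hq, zero_mul, norm_zero]
          have := kon_ge (Piece.twist p true 1)
          positivity
        · obtain ⟨h5, h6⟩ := b2 (a, b) q z1
          rw [norm_mul]
          refine le_trans (mul_le_mul h5 (hb _ (hlen q) ?_) (norm_nonneg _) zero_le_one) ?_
          · intro p' hp'
            simp only [Option.some.injEq] at hp'
            refine ⟨q.2, ?_, h6 hq⟩
            rw [← hp', app_r hu (by omega)]
            have : p + 1 - p = 0 + 1 := by omega
            rw [this, List.getElem?_cons_succ, List.getElem?_cons_zero]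
          · exact le_kon _ hB0 (one_le_exp hε le_rfl)
    · have hp1 : p = i + 1 := by omega
      subst hp1
      have z2 : (b : ℕ) = 0 := by
        rw [app_r hu (by omega)] at e1
        have e3 : i + 1 - i = 0 + 1 := by omega
        rw [e3, List.getElem?_cons_succ, List.getElem?_cons_zero, Option.some.injEq] at e1
        rw [e1]; exact e2
      rcases σ with _ | _
      · have e : down (some (i + 1)) (Piece.twist i false 1) = (some i, 0) := by
          simp [down]
        rw [e] at hb ⊢
        apply sum_cst
        intro q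
        simp only [pow_one, Bool.false_eq_true, if_false]
        by_cases hq : QQ N (a, b) q = 0
        · rw [hq, zero_mul, norm_zero]
          have := kon_ge (Piece.twist i false 1)
          positivity
        · obtain ⟨h5, h6⟩ := b6 (a, b) q z2
          rw [norm_mul]
          refine le_trans (mul_le_mul h5 (hb _ (hlen q) ?_) (norm_nonneg _) zero_le_one) ?_
          · intro p' hp'
            simp only [Option.some.injEq] at hp'
            refine ⟨q.1, ?_, h6 hq⟩
            rw [← hp', app_r hu le_rfl, Nat.sub_self, List.getElem?_cons_zero]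
          · exact le_kon _ hB0 (one_le_exp hε le_rfl)
      · have e : down (some (i + 1)) (Piece.twist i true 1) = (none, half) := by
          simp [down]
        rw [e] at hb ⊢
        apply sum_cst
        intro q
        rw [norm_mul]
        have h5 := b4 (a, b) q z2
        simp only [pow_one, if_true]
        refine le_trans (mul_le_mul h5 (hb _ (hlen q) (fun p' hp' => by simp at hp'))
          (norm_nonneg _) (Real.exp_pos _).le) ?_
        exact le_kon _ hB0 le_rfl

/-! ### Diagrams -/

/-- the growth rate of the lower part of a diagram -/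
noncomputable def low : Option ℕ → Diag → ℝ
  | _, [] => 0
  | o, P :: D => (up o P).2 + low (up o P).1 D

/-- the growth rate of the upper part of a diagram (reversed) -/
noncomputable def high : Option ℕ → Diag → ℝ
  | _, [] => 0
  | o, P :: D => (down o P).2 + high (down o P).1 D

/-- `D` has `n` strands below and `m` strands above -/
def Valid (n : ℕ) (D : Diag) (m : ℕ) : Prop :=
  D.foldl (fun n P => n.bind P.strands) (some n) = some m

lemma foldl_none (D : Diag) :
    D.foldl (fun n P => n.bind P.strands) (none : Option ℕ) = none := by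
  induction D with
  | nil => rfl
  | cons P D ih => simpa using ih

lemma valid_cons {n m : ℕ} {P : Piece} {D : Diag} (h : Valid n (P :: D) m) :
    ∃ k, P.strands n = some k ∧ Valid k D m := by
  unfold Valid at h
  rw [List.foldl_cons, Option.bind_some] at h
  rcases hk : P.strands n with _ | k
  · rw [hk, foldl_none] at h
    cases h
  · rw [hk] at h
    exact ⟨k, rfl, h⟩

lemma valid_app {n m : ℕ} {A C : Diag} (h : Valid n (A ++ C) m) :
    ∃ k, Valid n A k ∧ Valid k C m := by
  unfold Valid at h
  rw [List.foldl_append] at h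
  rcases hk : A.foldl (fun n P => n.bind P.strands) (some n) with _ | k
  · rw [hk, foldl_none] at h
    cases h
  · rw [hk] at h
    exact ⟨k, hk, h⟩

/-- the constants -/
noncomputable def kons (D : Diag) : ℝ := (D.map kon).prod

lemma kons_pos (D : Diag) : 0 < kons D := by
  unfold kons
  apply List.prod_pos
  intro x hx
  obtain ⟨P, -, rfl⟩ := List.mem_map.1 hx
  have := kon_ge P
  linarith

/-- the bound of a diagram -/
noncomputable def bound (N : ℕ) (ε : ℝ) (D : Diag) (ρ : ℝ) : ℝ :=
  (N : ℝ) ^ (2 * D.length) * (kons D * Real.exp (N * (ρ / (2 * π) + D.length * ε)))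

lemma bound_nil (N : ℕ) (ε : ℝ) : bound N ε [] 0 = 1 := by
  simp [bound, kons]

lemma bound_nonneg (N : ℕ) (ε : ℝ) (D : Diag) (ρ : ℝ) : 0 ≤ bound N ε D ρ := by
  have := kons_pos D
  unfold bound
  positivity

lemma bound_cons (N : ℕ) (ε : ℝ) (P : Piece) (D : Diag) (a b : ℝ) :
    cst N ε P a * bound N ε D b = bound N ε (P :: D) (a + b) := by
  unfold cst bound kons
  rw [List.map_cons, List.prod_cons, List.length_cons]
  have e1 : (N : ℝ) ^ (2 * (D.length + 1)) = (N : ℝ) ^ 2 * (N : ℝ) ^ (2 * D.length) := by
    rw [← pow_add]; congr 1; ring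
  have e2 : (N : ℝ) * ((a + b) / (2 * π) + ((D.length + 1 : ℕ) : ℝ) * ε) =
      N * (a / (2 * π) + ε) + N * (b / (2 * π) + D.length * ε) := by
    push_cast
    ring
  rw [e1, e2, Real.exp_add]
  ring

lemma bound_rev (N : ℕ) (ε : ℝ) (D : Diag) (ρ : ℝ) :
    bound N ε D.reverse ρ = bound N ε D ρ := by
  unfold bound kons
  rw [List.length_reverse, List.map_reverse, List.prod_reverse]

lemma run_low {N : ℕ} {ε : ℝ} (hN : 1 ≤ N) (hB : Bd N ε) (hε : 0 ≤ ε) (D : Diag) :
    ∀ (n m : ℕ) (o : Option ℕ) (g : List (Fin N) → ℂ) (B : ℝ), Valid n D m → 0 ≤ B →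
    (∀ s, g s ≠ 0 → s.length = n ∧ Z o s) → (∀ s, ‖g s‖ ≤ B) →
    ∀ s, ‖run N (rt N) D g s‖ ≤ B * bound N ε D (low o D) := by
  induction D with
  | nil =>
    intro n m o g B _ _ _ hb s
    unfold low
    rw [bound_nil, mul_one]
    exact hb s
  | cons P D ih =>
    intro n m o g B hV hB0 hg hb s
    obtain ⟨k, hk, hV'⟩ := valid_cons hV
    obtain ⟨h1, h2⟩ := act_low hN hB hε o P hk g B hB0 hg hb
    have h3 := ih k m (up o P).1 (P.act N (rt N) g) (B * cst N ε P (up o P).2) hV'
      (mul_nonneg hB0 (cst_nonneg _ _ _ _)) h1 h2 s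
    unfold low
    rw [← bound_cons, ← mul_assoc]
    exact h3

lemma run_high {N : ℕ} {ε : ℝ} (hN : 1 ≤ N) (hB : Bd N ε) (hε : 0 ≤ ε) (D : Diag) :
    ∀ (n m : ℕ) (o : Option ℕ) (g : List (Fin N) → ℂ) (B : ℝ), Valid n D m → 0 ≤ B →
    (∀ t, t.length = n → ‖g t‖ ≤ B) →
    ∀ s, s.length = m → Z o s →
      ‖run N (rt N) D g s‖ ≤ B * bound N ε D (high o D.reverse) := by
  induction D using List.reverseRecOn with
  | nil =>
    intro n m o g B hV _ hb s hs _
    unfold Valid at hV
    simp only [List.foldl_nil, Option.some.injEq] at hV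
    rw [List.reverse_nil]
    unfold high
    rw [bound_nil, mul_one]
    exact hb s (by omega)
  | append_singleton D P ih =>
    intro n m o g B hV hB0 hb s hs hZ
    obtain ⟨k, hV', hV2⟩ := valid_app hV
    obtain ⟨m', hP, hV3⟩ := valid_cons hV2
    unfold Valid at hV3
    simp only [List.foldl_nil, Option.some.injEq] at hV3
    subst hV3
    have h1 : ∀ t, t.length = k → Z (down o P).1 t → ‖run N (rt N) D g t‖ ≤
        B * bound N ε D (high (down o P).1 D.reverse) := fun t ht hZt =>
      ih n k (down o P).1 g B hV' hB0 hb t ht hZt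
    have h2 := act_high hN hB hε o P hP (run N (rt N) D g) _
      (mul_nonneg hB0 (bound_nonneg _ _ _ _)) h1 s hs hZ
    have e : run N (rt N) (D ++ [P]) g = P.act N (rt N) (run N (rt N) D g) := by
      unfold run
      rw [List.foldl_append]
      rfl
    rw [e, List.reverse_append, List.reverse_singleton, List.singleton_append]
    refine h2.trans (le_of_eq ?_)
    show _ = B * bound N ε (D ++ [P]) ((down o P).2 + high (down o P).1 D.reverse)
    rw [← bound_rev N ε (D ++ [P]), List.reverse_append, List.reverse_singleton,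
      List.singleton_append, ← bound_cons, bound_rev]
    ring

/-- the bound of the state sum -/
theorem jones_bound {N : ℕ} {ε : ℝ} (hN : 1 ≤ N) (hB : Bd N ε) (hε : 0 ≤ ε) (A C : Diag)
    (hV : Closed (A ++ C)) : ‖jones N (A ++ C) (rt N)‖ ≤
      bound N ε A (low (some 0) A) * bound N ε C (high (some 0) C.reverse) := by
  have h0 : 0 < N := hN
  obtain ⟨k, hA, hC⟩ := valid_app (n := 1) (m := 1) hV
  unfold jones
  rw [dif_pos h0]
  have e : run N (rt N) (A ++ C) (fun s => if s = [(⟨0, h0⟩ : Fin N)] then (1 : ℂ) else 0) =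
      run N (rt N) C (run N (rt N) A
        (fun s => if s = [(⟨0, h0⟩ : Fin N)] then (1 : ℂ) else 0)) := by
    unfold run
    rw [List.foldl_append]
  rw [e]
  have hz : Z (some 0) [(⟨0, h0⟩ : Fin N)] := by
    intro p hp
    simp only [Option.some.injEq] at hp
    subst hp
    exact ⟨⟨0, h0⟩, by simp, rfl⟩
  have h1 := run_low hN hB hε A 1 k (some 0)
    (fun s => if s = [(⟨0, h0⟩ : Fin N)] then (1 : ℂ) else 0) 1 hA zero_le_one (by
      intro s hs
      have : s = [(⟨0, h0⟩ : Fin N)] := by
        by_contra hc
        exact hs (if_neg hc)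
      rw [this]
      exact ⟨rfl, hz⟩) (by
      intro s
      show ‖(if s = [(⟨0, h0⟩ : Fin N)] then (1 : ℂ) else 0)‖ ≤ 1
      split_ifs <;> simp)
  rw [one_mul] at h1
  exact run_high hN hB hε C k 1 (some 0) _ _ hC (bound_nonneg _ _ _ _) (fun t _ => h1 t) _ rfl hz

lemma up_nonneg (o : Option ℕ) (P : Piece) : 0 ≤ (up o P).2 := by
  have h := half_nonneg
  cases o with
  | none =>
    cases P with
    | cup i => exact le_rfl
    | cap i => exact le_rfl
    | twist i σ m => exact rate_nonneg m
  | some p =>
    cases P with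
    | cup i => exact le_rfl
    | cap i => exact le_rfl
    | twist i σ m =>
      have := rate_nonneg m
      simp only [up]
      split_ifs <;> first | exact this | exact h | exact le_rfl

lemma down_nonneg (o : Option ℕ) (P : Piece) : 0 ≤ (down o P).2 := by
  have h := half_nonneg
  cases o with
  | none =>
    cases P with
    | cup i => exact le_rfl
    | cap i => exact le_rfl
    | twist i σ m => exact rate_nonneg m
  | some p =>
    cases P with
    | cup i => exact le_rfl
    | cap i => exact le_rfl
    | twist i σ m =>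
      have := rate_nonneg m
      simp only [down]
      split_ifs <;> first | exact this | exact h | exact le_rfl

lemma low_nonneg (D : Diag) : ∀ o, 0 ≤ low o D := by
  induction D with
  | nil => intro o; exact le_rfl
  | cons P D ih => intro o; unfold low; exact add_nonneg (up_nonneg o P) (ih _)

lemma high_nonneg (D : Diag) : ∀ o, 0 ≤ high o D := by
  induction D with
  | nil => intro o; exact le_rfl
  | cons P D ih => intro o; unfold high; exact add_nonneg (down_nonneg o P) (ih _)

/-- the growth rate -/
theorem lim_cut (A C : Diag) (hV : Closed (A ++ C)) (ε : ℝ) (hε : 0 < ε) : ∀ᶠ N : ℕ in atTop,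
    2 * π / N * Real.log ‖jones N (A ++ C) (rt N)‖ ≤
      low (some 0) A + high (some 0) C.reverse + ε := by
  have hpi := Real.pi_pos
  set L : ℝ := ((A.length : ℝ) + C.length) with hL
  have hL0 : 0 ≤ L := by positivity
  set R : ℝ := low (some 0) A + high (some 0) C.reverse with hR
  have hR0 : 0 ≤ R := add_nonneg (low_nonneg _ _) (high_nonneg _ _)
  set ε' : ℝ := ε / (4 * π * (L + 1)) with hε'
  have hε'0 : 0 < ε' := by positivity
  set K : ℝ := Real.log (kons A * kons C) with hK
  have hlim : Tendsto (fun N : ℕ => 2 * π / N * (2 * L * Real.log N + K)) atTop (𝓝 0) := by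
    have h1 : Tendsto (fun N : ℕ => Real.log (N : ℝ) / (N : ℝ)) atTop (𝓝 0) :=
      (Real.isLittleO_log_id_atTop.tendsto_div_nhds_zero).comp tendsto_natCast_atTop_atTop
    have h2 : Tendsto (fun N : ℕ => (1 : ℝ) / (N : ℝ)) atTop (𝓝 0) :=
      tendsto_one_div_atTop_nhds_zero_nat
    have h3 := ((h1.const_mul (2 * π * (2 * L))).add (h2.const_mul (2 * π * K)))
    rw [mul_zero, mul_zero, add_zero] at h3
    refine h3.congr ?_
    intro N
    ring
  have hev : ∀ᶠ N : ℕ in atTop, 2 * π / N * (2 * L * Real.log N + K) < ε / 2 :=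
    hlim.eventually_lt_const (by positivity)
  filter_upwards [bd ε' hε'0, hev, eventually_ge_atTop 1] with N hB h2 hN1
  have hNpos : (0 : ℝ) < N := by exact_mod_cast hN1
  by_cases hj : jones N (A ++ C) (rt N) = 0
  · rw [hj, norm_zero, Real.log_zero, mul_zero]
    positivity
  · have h1 := jones_bound hN1 hB hε'0.le A C hV
    have hpos : 0 < ‖jones N (A ++ C) (rt N)‖ := norm_pos_iff.2 hj
    have hA := kons_pos A
    have hC := kons_pos C
    have e : bound N ε' A (low (some 0) A) * bound N ε' C (high (some 0) C.reverse) =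
        (N : ℝ) ^ (2 * (A.length + C.length)) * (kons A * kons C) *
          Real.exp (N * (R / (2 * π) + L * ε')) := by
      unfold bound
      have e1 : (N : ℝ) ^ (2 * (A.length + C.length)) =
          (N : ℝ) ^ (2 * A.length) * (N : ℝ) ^ (2 * C.length) := by
        rw [← pow_add]; congr 1; ring
      have e2 : (N : ℝ) * (R / (2 * π) + L * ε') =
          N * (low (some 0) A / (2 * π) + A.length * ε') +
          N * (high (some 0) C.reverse / (2 * π) + C.length * ε') := by
        rw [hR, hL]
        ring
      rw [e1, e2, Real.exp_add]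
      ring
    rw [e] at h1
    have h3 := Real.log_le_log hpos h1
    rw [Real.log_mul (by positivity) (Real.exp_pos _).ne', Real.log_exp,
      Real.log_mul (by positivity) (by positivity), Real.log_pow, ← hK] at h3
    have h5 : 2 * π / N * Real.log ‖jones N (A ++ C) (rt N)‖ ≤ 2 * π / N *
        (((2 * (A.length + C.length) : ℕ) : ℝ) * Real.log N + K + N * (R / (2 * π) + L * ε')) :=
      mul_le_mul_of_nonneg_left h3 (by positivity)
    have h6 : 2 * π / N * (((2 * (A.length + C.length) : ℕ) : ℝ) * Real.log N + K +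
        N * (R / (2 * π) + L * ε')) =
        2 * π / N * (2 * L * Real.log N + K) + R + 2 * π * ε' * L := by
      rw [hL]
      push_cast
      field_simp
      ring
    have h7 : 2 * π * ε' * L ≤ ε / 2 := by
      rw [hε']
      have h8 : 2 * π * (ε / (4 * π * (L + 1))) * L = ε / 2 * (L / (L + 1)) := by
        field_simp
        ring
      rw [h8]
      have h9 : L / (L + 1) ≤ 1 := by
        rw [div_le_one (by positivity)]
        linarith
      nlinarith
    linarith

end Pool.Agent.R807.Cut
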