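import Pool.Agent.R807.Cut

/-!
# The growth of the Kashaev invariant of a link diagram in terms of the number of crossings
-/

set_option autoImplicit false

namespace Pool.Agent.R807.Cut

open Finset Matrix Filter Topology Pool.Agent.H550R3.Jones Pool.Agent.W715.VC Pool.Agent.W709.QAT
open Pool.Agent.W28.QAT (rate_nonneg)
open GapVol (lob)
open scoped Real

/-- the number of crossings -/
def cr (D : Diag) : ℕ := (D.filterMap Piece.size).sum

/-- the numbers of crossings at which a strand passes over, then under, upwards -/
def overs : ℕ → Diag → ℕ × ℕ
  | _, [] => (0, 0)
  | p, .cup i :: D => overs (if i ≤ p then p + 2 else p) D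
  | p, .cap i :: D => if i + 1 < p then overs (p - 2) D else if p < i then overs p D else (0, 0)
  | p, .twist i σ m :: D =>
      if i + 1 < p ∨ p < i then overs p D
      else if m = 1 then
        (if p = i then (if σ then ((overs (i + 1) D).1 + 1, (overs (i + 1) D).2) else (0, 1))
        else (if σ then (0, 1) else ((overs i D).1 + 1, (overs i D).2)))
      else (0, 0)

/-- the numbers of crossings at which a strand passes under, then over, downwards -/
def unders : ℕ → Diag → ℕ × ℕ
  | _, [] => (0, 0)
  | p, .cup i :: D => if i + 1 < p then unders (p - 2) D else if p < i then unders p D else (0, 0)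
  | p, .cap i :: D => unders (if i ≤ p then p + 2 else p) D
  | p, .twist i σ m :: D =>
      if i + 1 < p ∨ p < i then unders p D
      else if m = 1 then
        (if p = i then (if σ then ((unders (i + 1) D).1 + 1, (unders (i + 1) D).2) else (0, 1))
        else (if σ then (0, 1) else ((unders i D).1 + 1, (unders i D).2)))
      else (0, 0)

noncomputable def v8 : ℝ := 8 * lob (π / 4)

lemma rate_le (m : ℕ) : rate m ≤ m * v8 := min_le_left _ _

lemma cr_cup (i : ℕ) (D : Diag) : cr (.cup i :: D) = cr D := rfl
lemma cr_cap (i : ℕ) (D : Diag) : cr (.cap i :: D) = cr D := rfl
lemma cr_twist (i m : ℕ) (σ : Bool) (D : Diag) : cr (.twist i σ m :: D) = m + cr D := by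
  unfold cr
  rw [List.filterMap_cons]
  simp [Piece.size]

lemma low_none (D : Diag) : low none D ≤ cr D * v8 := by
  induction D with
  | nil => simp [low, cr]
  | cons P D ih =>
    rcases P with i | i | ⟨i, σ, m⟩
    · rw [cr_cup]; simpa [low, up, prate] using ih
    · rw [cr_cap]; simpa [low, up, prate] using ih
    · rw [cr_twist]
      have := rate_le m
      simp only [low, up, prate]
      push_cast
      linarith

lemma high_none (D : Diag) : high none D ≤ cr D * v8 := by
  induction D with
  | nil => simp [high, cr]
  | cons P D ih =>
    rcases P with i | i | ⟨i, σ, m⟩
    · rw [cr_cup]; simpa [high, down, prate] using ih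
    · rw [cr_cap]; simpa [high, down, prate] using ih
    · rw [cr_twist]
      have := rate_le m
      simp only [high, down, prate]
      push_cast
      linarith

/-- the bound in terms of crossings -/
noncomputable def bnd (c : ℕ) (a : ℕ × ℕ) : ℝ := ((c : ℝ) - a.1 - a.2) * v8 + a.2 * half

lemma low_le (D : Diag) : ∀ p : ℕ, low (some p) D ≤ bnd (cr D) (overs p D) := by
  induction D with
  | nil => intro p; simp [low, cr, overs, bnd]
  | cons P D ih =>
    intro p
    rcases P with i | i | ⟨i, σ, m⟩
    · rw [cr_cup]
      simp only [low, up, overs, zero_add]
      exact ih _
    · rw [cr_cap]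
      simp only [low, up, overs, zero_add]
      split_ifs with h1 h2
      · exact ih _
      · exact ih _
      · have := low_none D
        simpa [bnd] using this
    · rw [cr_twist]
      simp only [low, up, overs]
      have hr := rate_le m
      have hn := low_none D
      split_ifs with h1 h2 h3 h4 h5
      · have := ih p
        unfold bnd at this ⊢
        push_cast
        linarith
      · have := ih (i + 1)
        unfold bnd at this ⊢
        subst h2
        push_cast
        linarith
      · subst h2
        unfold bnd
        push_cast
        linarith
      · subst h2
        unfold bnd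
        push_cast
        linarith
      · have := ih i
        unfold bnd at this ⊢
        subst h2
        push_cast
        linarith
      · unfold bnd
        push_cast
        linarith

lemma high_le (D : Diag) : ∀ p : ℕ, high (some p) D ≤ bnd (cr D) (unders p D) := by
  induction D with
  | nil => intro p; simp [high, cr, unders, bnd]
  | cons P D ih =>
    intro p
    rcases P with i | i | ⟨i, σ, m⟩
    · rw [cr_cup]
      simp only [high, down, unders, zero_add]
      split_ifs with h1 h2
      · exact ih _
      · exact ih _
      · have := high_none D
        simpa [bnd] using this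
    · rw [cr_cap]
      simp only [high, down, unders, zero_add]
      exact ih _
    · rw [cr_twist]
      simp only [high, down, unders]
      have hr := rate_le m
      have hn := high_none D
      split_ifs with h1 h2 h3 h4 h5
      · have := ih p
        unfold bnd at this ⊢
        push_cast
        linarith
      · have := ih (i + 1)
        unfold bnd at this ⊢
        subst h2
        push_cast
        linarith
      · subst h2
        unfold bnd
        push_cast
        linarith
      · subst h2
        unfold bnd
        push_cast
        linarith
      · have := ih i
        unfold bnd at this ⊢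
        subst h2
        push_cast
        linarith
      · unfold bnd
        push_cast
        linarith

lemma cr_app (A C : Diag) : cr (A ++ C) = cr A + cr C := by
  unfold cr
  rw [List.filterMap_append, List.sum_append]

lemma cr_rev (A : Diag) : cr A.reverse = cr A := by
  unfold cr
  rw [List.filterMap_reverse, List.sum_reverse]

/-- the growth rate in terms of crossings -/
theorem lim_cr (A C : Diag) (hV : Closed (A ++ C)) (ε : ℝ) (hε : 0 < ε) : ∀ᶠ N : ℕ in atTop,
    2 * π / N * Real.log ‖jones N (A ++ C) (rt N)‖ ≤
      ((cr (A ++ C) : ℝ) - (overs 0 A).1 - (overs 0 A).2 - (unders 0 C.reverse).1 -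
        (unders 0 C.reverse).2) * v8 +
      (((overs 0 A).2 : ℝ) + (unders 0 C.reverse).2) * half + ε := by
  filter_upwards [lim_cut A C hV ε hε] with N hN
  refine hN.trans ?_
  have h1 := low_le A 0
  have h2 := high_le C.reverse 0
  rw [cr_rev] at h2
  unfold bnd at h1 h2
  rw [cr_app]
  push_cast
  linarith

end Pool.Agent.R807.Cut
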