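import Pool.Agent.R807.Fin
import Pool.Agent.W613.QAT.Cont

/-!
Powers of palindromic tangles: superadditivity and two families of two-bridge links.
-/

set_option autoImplicit false

namespace Pool.Agent.R807

open Finset Matrix Filter Topology Pool.Agent.W709.QAT Pool.Agent.H550R3.Jones GapVol
open Pool.Agent.W715.VC hiding kap
open scoped Real

variable {N : ℕ}

/-- replacing a part of a diagram -/
lemma jones_congr {A X Y B : Diag} (hA : Fits A 1 3) (hX : Fits X 3 3) (hB : Fits B 3 1)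
    (h : ∀ (f : List (Fin N) → ℂ) (s : List (Fin N)), s.length = 3 →
      run N (rt N) X f s = run N (rt N) Y f s) :
    Pool.Agent.W709.QAT.jones N (A ++ X ++ B) (rt N) =
      Pool.Agent.W709.QAT.jones N (A ++ Y ++ B) (rt N) := by
  unfold Pool.Agent.W709.QAT.jones
  split_ifs with hN
  · rw [run_append, run_append, run_append, run_append]
    exact run_local B hB (h _) _ rfl
  · rfl

lemma merge0 (f : List (Fin N) → ℂ) (s : List (Fin N)) (hs : s.length = 3) :
    run N (rt N) [.twist 0 true 1, .twist 0 true 1] f s = run N (rt N) [.twist 0 true 2] f s :=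
  Pool.Agent.W613.QAT.pow N (rt N) f 0 1 true s (by omega)

lemma merge1 (f : List (Fin N) → ℂ) (s : List (Fin N)) (hs : s.length = 3) :
    run N (rt N) [.twist 1 false 1, .twist 1 false 1] f s = run N (rt N) [.twist 1 false 2] f s :=
  Pool.Agent.W613.QAT.pow N (rt N) f 1 1 false s (by omega)

/-- the general inequalities -/
theorem super (hN : 0 < N) {T R : Diag} (hT : Fits T 1 3) (hR : Fits R 3 3) :
    ∃ x : ℕ → ℝ, (∀ n, 0 ≤ x n ∧
      Pool.Agent.W709.QAT.jones N (T ++ pw (R ++ adj R 3) n ++ adj T 1) (rt N) = ((x n : ℝ) : ℂ)) ∧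
      (∀ m n, x m * x n ≤ x 0 * x (m + n)) ∧ ∀ n, x (n + 1) ^ 2 ≤ x n * x (n + 2) := by
  obtain ⟨μ, w, hμ, hw, h⟩ := moments hN hT hR
  refine ⟨fun n => ∑ k, w k * μ k ^ n, fun n => ⟨?_, h n⟩, fun m n => ?_, fun n => ?_⟩
  · exact sum_nonneg fun k _ => mul_nonneg (hw k) (pow_nonneg (hμ k) n)
  · have := cheb hμ hw m n
    simpa using this
  · exact logconv hμ hw n

lemma syl_even (n : ℕ) (c : ℕ) : syl true (List.replicate (2 * n) c) =
    pw [.twist 0 true c, .twist 1 false c] n := by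
  induction n with
  | zero => rfl
  | succ n ih =>
    have e : List.replicate (2 * (n + 1)) c = List.replicate (2 * n) c ++ [c, c] := by
      have : [c, c] = List.replicate 2 c := rfl
      rw [this, List.replicate_append_replicate]
      congr 1
    rw [e, syl_append, ih, pw, if_pos (by simp)]
    rfl

/-- the invariants of `C(2, …, 2)` -/
noncomputable def kn (N n : ℕ) : ℂ := Pool.Agent.W709.QAT.jones N
  (.cup 1 :: syl true (List.replicate (2 * n) 2) ++ [.cap 0]) (rt N)

lemma kn_eq (n : ℕ) : kn N n = Pool.Agent.W709.QAT.jones N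
    ([.cup 1] ++ pw ([.twist 0 true 2] ++ adj [.twist 0 true 2] 3) n ++ adj [.cup 1] 1) (rt N) := by
  unfold kn
  rw [syl_even]
  rfl

lemma kn_zero (hN : 0 < N) : kn N 0 = 1 := jones_one hN

lemma kn_one (hN : 0 < N) : kn N 1 = ((∑ i ∈ range N, Fa N i ^ 2 : ℝ) : ℂ) := by
  have e : kn N 1 = Pool.Agent.W709.QAT.jones N (T0 ++ adj T0 1) (rt N) := rfl
  rw [e, jones_glue hN fits_T0, Hf_self hN (xv_InK hN fits_T0), nq_T0 hN]

lemma SF_one (hN : 0 < N) : 1 ≤ ∑ i ∈ range N, Fa N i ^ 2 := by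
  have h := single_le_sum (f := fun i => Fa N i ^ 2) (fun i _ => by positivity) (mem_range.2 hN)
  simp only [Fa_zero] at h
  linarith

/-- the invariants of `C(2, …, 2)` are positive and supermultiplicative -/
theorem kn_super (hN : 0 < N) : ∃ x : ℕ → ℝ, (∀ n, kn N n = ((x n : ℝ) : ℂ)) ∧
    (∀ m n, x m * x n ≤ x (m + n)) ∧ (∀ n, x (n + 1) ^ 2 ≤ x n * x (n + 2)) ∧
    ∀ n, (∑ i ∈ range N, Fa N i ^ 2) ^ n ≤ x n := by
  obtain ⟨x, h1, h2, h3⟩ := super (N := N) hN (T := [.cup 1]) (R := [.twist 0 true 2]) rfl rfl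
  have h4 : ∀ n, kn N n = ((x n : ℝ) : ℂ) := fun n => by rw [kn_eq]; exact (h1 n).2
  have h0 : x 0 = 1 := by
    have := h4 0
    rw [kn_zero hN] at this
    exact_mod_cast this.symm
  have h5 : x 1 = ∑ i ∈ range N, Fa N i ^ 2 := by
    have := h4 1
    rw [kn_one hN] at this
    exact_mod_cast this.symm
  have h6 : ∀ m n, x m * x n ≤ x (m + n) := fun m n => by
    have := h2 m n
    rwa [h0, one_mul] at this
  refine ⟨x, h4, h6, h3, fun n => ?_⟩
  induction n with
  | zero => rw [pow_zero, h0]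
  | succ n ih =>
    rw [pow_succ]
    refine le_trans ?_ (h6 n 1)
    rw [h5]
    exact mul_le_mul_of_nonneg_right ih (sum_nonneg fun i _ => by positivity)

/-- the invariants of `C(2, 1, …, 1, 2)` -/
noncomputable def kn' (N m : ℕ) : ℂ := Pool.Agent.W709.QAT.jones N
  (.cup 1 :: syl true (2 :: List.replicate (2 * m) 1 ++ [2]) ++ [.cap 0]) (rt N)

lemma pw_shift (P Q : Piece) (m : ℕ) : pw [P, Q] m ++ [P] = P :: pw [Q, P] m := by
  induction m with
  | zero => rfl
  | succ m ih =>
    rw [pw, pw, List.append_assoc]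
    have : ([P, Q] ++ [P] : Diag) = [P] ++ [Q, P] := rfl
    rw [this, ← List.append_assoc, ih]
    rfl

lemma syl_odd (m : ℕ) : syl false (List.replicate (2 * m) 1) =
    pw [.twist 1 false 1, .twist 0 true 1] m := by
  induction m with
  | zero => rfl
  | succ n ih =>
    have e : List.replicate (2 * (n + 1)) 1 = List.replicate (2 * n) 1 ++ [1, 1] := by
      have : [1, 1] = List.replicate 2 1 := rfl
      rw [this, List.replicate_append_replicate]
      congr 1
    rw [e, syl_append, ih, pw, if_pos (by simp)]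
    rfl

lemma kn'_eq (m : ℕ) : kn' N m = Pool.Agent.W709.QAT.jones N
    ([.cup 1, .twist 0 true 1] ++ pw ([.twist 0 true 1] ++ adj [.twist 0 true 1] 3) (m + 1) ++
      adj [.cup 1, .twist 0 true 1] 1) (rt N) := by
  unfold kn'
  have hW : Fits [.twist 1 false 1, .twist 0 true 1] 3 3 := rfl
  have e1 : (.cup 1 :: syl true (2 :: List.replicate (2 * m) 1 ++ [2]) ++ [.cap 0] : Diag) =
      [.cup 1] ++ [.twist 0 true 2] ++
        (pw [.twist 1 false 1, .twist 0 true 1] m ++ [.twist 1 false 2, .cap 0]) := by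
    have h0 : (2 :: List.replicate (2 * m) 1 ++ [2] : List ℕ) =
        2 :: (List.replicate (2 * m) 1 ++ [2]) := rfl
    rw [h0]
    simp only [syl]
    rw [syl_append, syl_odd, if_pos (by simp)]
    simp [syl]
  have e2 : ([.cup 1, .twist 0 true 1] ++
      pw ([.twist 0 true 1] ++ adj [.twist 0 true 1] 3) (m + 1) ++
      adj [.cup 1, .twist 0 true 1] 1 : Diag) =
      [.cup 1] ++ [.twist 0 true 1, .twist 0 true 1] ++
        (pw [.twist 1 false 1, .twist 0 true 1] m ++
          [.twist 1 false 1, .twist 1 false 1, .cap 0]) := by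
    have h1 : ([.twist 0 true 1] ++ adj [.twist 0 true 1] 3 : Diag) =
        [.twist 0 true 1, .twist 1 false 1] := rfl
    have h2 : adj [.cup 1, .twist 0 true 1] 1 = [.twist 1 false 1, .cap 0] := rfl
    rw [h1, h2, pw]
    have h3 : ([.twist 0 true 1, .twist 1 false 1] : Diag) =
        [.twist 0 true 1] ++ [.twist 1 false 1] := rfl
    have h4 : pw [.twist 0 true 1, .twist 1 false 1] m ++ [.twist 0 true 1, .twist 1 false 1] =
        (.twist 0 true 1 :: pw [.twist 1 false 1, .twist 0 true 1] m) ++ [.twist 1 false 1] := by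
      rw [← pw_shift, List.append_assoc]
      rfl
    rw [h4]
    simp
  rw [e1, e2]
  have hB : Fits (pw [.twist 1 false 1, .twist 0 true 1] m ++ [.twist 1 false 2, .cap 0]) 3 1 :=
    fits_append (fits_pw hW m) rfl
  have s1 := jones_congr (N := N) (A := [.cup 1]) (X := [.twist 0 true 2])
    (Y := [.twist 0 true 1, .twist 0 true 1]) rfl rfl hB (fun f s hs => (merge0 f s hs).symm)
  rw [s1]
  have hA : Fits ([.cup 1] ++ [.twist 0 true 1, .twist 0 true 1] ++
      pw [.twist 1 false 1, .twist 0 true 1] m) 1 3 :=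
    fits_append rfl (fits_pw hW m)
  have s2 := jones_congr (N := N) (X := [.twist 1 false 2])
    (Y := [.twist 1 false 1, .twist 1 false 1]) (B := [.cap 0]) hA rfl rfl
    (fun f s hs => (merge1 f s hs).symm)
  simp only [List.append_assoc] at s2 ⊢
  exact s2

/-- `C(1, 1)` is the Hopf link -/
lemma hopf (hN : 0 < N) : Pool.Agent.W709.QAT.jones N
    ([.cup 1, .twist 0 true 1] ++ adj [.cup 1, .twist 0 true 1] 1) (rt N) = ((N : ℝ) : ℂ) := by
  rw [jones_self hN (T := [.cup 1, .twist 0 true 1]) rfl]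
  congr 1
  have h : ∀ i : Fin N, ‖cv hN [.cup 1, .twist 0 true 1] i‖ ^ 2 = 1 := by
    intro i
    have e : cv hN ([.cup 1] ++ [.twist 0 true 1]) = _ :=
      cv_append hN (T := [.cup 1]) (R := [.twist 0 true 1]) rfl rfl
    have e2 : cv hN [.cup 1, .twist 0 true 1] i = uu N i 0 := by
      have := congrFun e i
      rw [Matrix.mulVec, dotProduct, sum_eq_single (⟨0, hN⟩ : Fin N)] at this
      · rw [AR_P hN, cv_cup1 hN, if_pos rfl, mul_one] at this
        exact this
      · intro b _ hb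
        rw [cv_cup1 hN, if_neg, mul_zero]
        intro h0
        exact hb (Fin.ext h0)
      · intro h0; exact absurd (mem_univ _) h0
    rw [e2, norm_uu (by omega), bc_zero_right i.2, one_pow]
  rw [sum_congr rfl fun i _ => h i]
  simp

lemma fits_T1 : Fits [.cup 1, .twist 0 true 1] 1 3 := rfl

/-- the invariants of `C(2, 1, …, 1, 2)` are positive and almost supermultiplicative -/
theorem kn'_super (hN : 0 < N) : ∃ x : ℕ → ℝ, (∀ m, kn' N m = ((x m : ℝ) : ℂ)) ∧
    (∀ m n, x m * x n ≤ N * x (m + n + 1)) ∧ (∀ n, x (n + 1) ^ 2 ≤ x n * x (n + 2)) ∧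
    ∀ m, (∑ i ∈ range N, Fa N i ^ 2) ^ (m + 1) ≤ N ^ m * x m := by
  obtain ⟨x, h1, h2, h3⟩ := super (N := N) hN (T := [.cup 1, .twist 0 true 1])
    (R := [.twist 0 true 1]) rfl rfl
  have h4 : ∀ n, kn' N n = ((x (n + 1) : ℝ) : ℂ) := fun n => by rw [kn'_eq]; exact (h1 (n + 1)).2
  have h0 : x 0 = N := by
    have := (h1 0).2
    have e : ([.cup 1, .twist 0 true 1] ++
      pw ([.twist 0 true 1] ++ adj [.twist 0 true 1] 3) 0 ++
      adj [.cup 1, .twist 0 true 1] 1 : Diag) =
      [.cup 1, .twist 0 true 1] ++ adj [.cup 1, .twist 0 true 1] 1 := rfl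
    rw [e, hopf hN] at this
    exact_mod_cast this.symm
  have h5 : x 1 = ∑ i ∈ range N, Fa N i ^ 2 := by
    have := h4 0
    have e : kn' N 0 = kn N 1 := rfl
    rw [e, kn_one hN] at this
    exact_mod_cast this.symm
  refine ⟨fun n => x (n + 1), h4, fun m n => ?_, fun n => h3 (n + 1), fun m => ?_⟩
  · have := h2 (m + 1) (n + 1)
    rw [h0] at this
    have e : m + 1 + (n + 1) = m + n + 1 + 1 := by ring
    rwa [e] at this
  · induction m with
    | zero => simp [h5]
    | succ n ih =>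
      have h6 := h2 (n + 1) 1
      rw [h0, h5] at h6
      rw [pow_succ]
      calc (∑ i ∈ range N, Fa N i ^ 2) ^ (n + 1) * ∑ i ∈ range N, Fa N i ^ 2 ≤
          (N ^ n * x (n + 1)) * ∑ i ∈ range N, Fa N i ^ 2 :=
            mul_le_mul_of_nonneg_right ih (sum_nonneg fun i _ => by positivity)
        _ = N ^ n * (x (n + 1) * ∑ i ∈ range N, Fa N i ^ 2) := by ring
        _ ≤ N ^ n * (N * x (n + 1 + 1)) := mul_le_mul_of_nonneg_left h6 (by positivity)
        _ = N ^ (n + 1) * x (n + 1 + 1) := by ring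

/-- lower bound for the growth of `C(2, …, 2)` -/
theorem kn_lower (n : ℕ) {ε : ℝ} (hε : 0 < ε) : ∀ᶠ N : ℕ in atTop,
    Real.exp (N * (n * (2 * lob (π / 6) / π) - ε)) ≤ ‖kn N n‖ := by
  have hc : (0 : ℝ) < n + 1 := by positivity
  filter_upwards [SF_ge (ε := ε / (n + 1)) (by positivity), eventually_gt_atTop 0] with N h1 hN
  obtain ⟨x, h2, -, -, h3⟩ := kn_super (N := N) hN
  have h4 := h3 n
  have h5 := pow_le_pow_left₀ (Real.exp_pos _).le h1 n
  have hS : 0 ≤ (∑ i ∈ range N, Fa N i ^ 2) ^ n := by positivity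
  rw [h2, Complex.norm_real, Real.norm_of_nonneg (hS.trans h4)]
  refine le_trans ?_ (h5.trans h4)
  rw [← Real.exp_nat_mul, Real.exp_le_exp]
  have hNr : (0 : ℝ) < N := by exact_mod_cast hN
  have e : (n : ℝ) * (N * (2 * lob (π / 6) / π - ε / (n + 1))) =
      N * (n * (2 * lob (π / 6) / π) - ε * (n / (n + 1))) := by
    field_simp
  rw [e]
  refine mul_le_mul_of_nonneg_left ?_ hNr.le
  have : (n : ℝ) / (n + 1) ≤ 1 := by rw [div_le_one hc]; linarith
  nlinarith

/-- lower bound for the growth of `C(2, 1, …, 1, 2)` -/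
theorem kn'_lower (m : ℕ) {ε : ℝ} (hε : 0 < ε) : ∀ᶠ N : ℕ in atTop,
    Real.exp (N * ((m + 1) * (2 * lob (π / 6) / π) - ε)) ≤ ‖kn' N m‖ := by
  have hc : (0 : ℝ) < m + 1 := by positivity
  filter_upwards [SF_ge (ε := ε / (2 * (m + 1))) (by positivity), eventually_gt_atTop 0,
    poly_le m (ε := ε / 2) (by positivity)] with N h1 hN hp
  obtain ⟨x, h2, -, -, h3⟩ := kn'_super (N := N) hN
  have h4 := h3 m
  have h5 := pow_le_pow_left₀ (Real.exp_pos _).le h1 (m + 1)
  have hNr : (0 : ℝ) < N := by exact_mod_cast hN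
  have hS : 0 < (∑ i ∈ range N, Fa N i ^ 2) ^ (m + 1) :=
    pow_pos (lt_of_lt_of_le one_pos (SF_one hN)) _
  have hx : 0 < x m := by
    by_contra h
    rw [not_lt] at h
    have : (N : ℝ) ^ m * x m ≤ 0 := mul_nonpos_of_nonneg_of_nonpos (by positivity) h
    linarith
  rw [h2, Complex.norm_real, Real.norm_of_nonneg hx.le]
  have h6 : Real.exp (N * (ε / 2)) * x m ≥ Real.exp ((m + 1 : ℕ) *
      (N * (2 * lob (π / 6) / π - ε / (2 * (m + 1))))) := by
    have e0 : Real.exp ((m + 1 : ℕ) * (N * (2 * lob (π / 6) / π - ε / (2 * (m + 1))))) =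
        Real.exp (N * (2 * lob (π / 6) / π - ε / (2 * (m + 1)))) ^ (m + 1) :=
      Real.exp_nat_mul _ _
    rw [e0]
    exact (h5.trans h4).trans (mul_le_mul_of_nonneg_right hp hx.le)
  have h7 : Real.exp (N * ((m + 1) * (2 * lob (π / 6) / π) - ε)) * Real.exp (N * (ε / 2)) =
      Real.exp ((m + 1 : ℕ) * (N * (2 * lob (π / 6) / π - ε / (2 * (m + 1))))) := by
    rw [← Real.exp_add]
    congr 1
    push_cast
    field_simp
    ring
  rw [← h7, mul_comm (Real.exp (N * (ε / 2)))] at h6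
  exact le_of_mul_le_mul_right h6 (Real.exp_pos _)

/-- upper bound for the growth of `C(2, …, 2)`, `n ≥ 1` -/
theorem kn_upper (n : ℕ) {ε : ℝ} (hε : 0 < ε) : ∀ᶠ N : ℕ in atTop,
    ‖kn N (n + 1)‖ ≤ Real.exp (N * ((4 * lob (π / 6) + 2 * n * (8 * lob (π / 4))) / (2 * π) + ε)) := by
  filter_upwards [tb_growth 0 (List.replicate (2 * n) 2) 0 hε] with N h
  have e1 : tbl 0 (List.replicate (2 * n) 2) 0 =
      .cup 1 :: syl true (List.replicate (2 * (n + 1)) 2) ++ [.cap 0] := by
    unfold tbl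
    rw [if_pos (by simp)]
    have : (2 + 0) :: List.replicate (2 * n) 2 ++ [2 + 0] = List.replicate (2 * (n + 1)) 2 := by
      have h1 : (2 + 0) :: List.replicate (2 * n) 2 = List.replicate (2 * n + 1) 2 := rfl
      have h2 : [2 + 0] = List.replicate 1 2 := rfl
      rw [h1, h2, List.replicate_append_replicate]
      congr 1
    rw [this]
  have e2 : tbr 0 (List.replicate (2 * n) 2) 0 = 4 * lob (π / 6) + 2 * n * (8 * lob (π / 4)) := by
    unfold tbr
    rw [List.map_replicate, List.sum_replicate]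
    simp [rte]
  rw [e1, e2] at h
  exact h

/-- upper bound for the growth of `C(2, 1, …, 1, 2)` -/
theorem kn'_upper (m : ℕ) {ε : ℝ} (hε : 0 < ε) : ∀ᶠ N : ℕ in atTop,
    ‖kn' N m‖ ≤ Real.exp (N * (((2 * m + 1) * (4 * lob (π / 6))) / (2 * π) + ε)) := by
  filter_upwards [tb_growth 0 (List.replicate (2 * m) 1) 0 hε] with N h
  have e1 : tbl 0 (List.replicate (2 * m) 1) 0 =
      .cup 1 :: syl true (2 :: List.replicate (2 * m) 1 ++ [2]) ++ [.cap 0] := by
    unfold tbl
    rw [if_pos (by simp)]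
  have e2 : tbr 0 (List.replicate (2 * m) 1) 0 = (2 * m + 1) * (4 * lob (π / 6)) := by
    unfold tbr
    rw [List.map_replicate, List.sum_replicate]
    simp [rte]
    ring
  rw [e1, e2] at h
  exact h

end Pool.Agent.R807
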