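import Pool.Agent.R807.Growth

/-!
The statements for the results: positivity, moments, two-bridge links.
-/

set_option autoImplicit false

namespace Pool.Agent.R807

open Finset Matrix Filter Topology Pool.Agent.W709.QAT Pool.Agent.H550R3.Jones GapVol
open Pool.Agent.W715.VC hiding kap
open scoped Real

variable {N : ℕ}

lemma jones_one (hN : 0 < N) : Pool.Agent.W709.QAT.jones N ([.cup 1] ++ adj [.cup 1] 1) (rt N) = 1 := by
  have h := jones_self hN (T := [.cup 1]) rfl
  rw [h, sum_eq_single (⟨0, hN⟩ : Fin N)]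
  · have : cv hN [.cup 1] ⟨0, hN⟩ = 1 := by
      have := tt_x0 (N := N) hN (a := 0) (by omega)
      rw [if_pos rfl] at this
      exact this
    rw [this]; simp
  · intro b _ hb
    have : cv hN [.cup 1] b = 0 := by
      have := tt_x0 (N := N) hN (a := b) (by omega)
      rw [if_neg (fun h => hb (Fin.ext h))] at this
      exact this
    rw [this]; simp
  · intro h; exact absurd (mem_univ _) h

/-! ### the matrices of the crossings -/

lemma AR_P (hN : 0 < N) (i a : Fin N) : AR N [.twist 0 true 1] i a = uu N i a := by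
  have h : AR N [.twist 0 true 1] i a =
      tt N (N - 1) (vec3 ((Piece.twist 0 true 1).act N (rt N) (lift (yv N (N - 1) (a : ℕ))))) i := rfl
  rw [h, vec3_twist0, vec3_lift, pow_one]
  exact tt_P_yv hN (by omega) (by omega)

lemma AR_Q (hN : 0 < N) (i a : Fin N) :
    AR N [.twist 0 false 1] i a = (starRingEnd ℂ) (uu N i a) := by
  have h : AR N [.twist 0 false 1] i a =
      tt N (N - 1) (vec3 ((Piece.twist 0 false 1).act N (rt N) (lift (yv N (N - 1) (a : ℕ))))) i :=
    rfl
  rw [h, vec3_twist0, vec3_lift, pow_one]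
  exact tt_Q_yv hN (by omega) (by omega)

lemma AR_Q23 (hN : 0 < N) (i a : Fin N) :
    AR N [.twist 1 false 1] i a = (starRingEnd ℂ) (uu N a i) := by
  have h : AR N (adj [.twist 0 true 1] 3) = _ := AR_adj hN (R := [.twist 0 true 1]) rfl
  have h2 := congrFun (congrFun h i) a
  rw [Matrix.conjTranspose_apply, AR_P hN] at h2
  exact h2

lemma AR_P23 (hN : 0 < N) (i a : Fin N) : AR N [.twist 1 true 1] i a = uu N a i := by
  have h : AR N (adj [.twist 0 false 1] 3) = _ := AR_adj hN (R := [.twist 0 false 1]) rfl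
  have h2 := congrFun (congrFun h i) a
  rw [Matrix.conjTranspose_apply, AR_Q hN] at h2
  rw [show AR N [.twist 1 true 1] i a = _ from h2]
  simp

lemma cv_cup1 (hN : 0 < N) (i : Fin N) : cv hN [.cup 1] i = if (i : ℕ) = 0 then 1 else 0 :=
  tt_x0 (N := N) hN (a := i) (by omega)

lemma cv_cup0 (hN : 0 < N) : (∀ i : Fin N, (i : ℕ) < N - 1 → cv hN [.cup 0] i = 0) ∧
    ∀ i : Fin N, (i : ℕ) = N - 1 → ‖cv hN [.cup 0] i‖ = 1 := by
  refine ⟨fun i hi => tt_x1 hN hi, fun i hi => ?_⟩
  have := norm_tt_x1 (N := N) hN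
  unfold cv
  rw [hi]
  exact this

/-! ### moments -/

/-- Chebyshev's inequality for the moments of a measure on `[0, ∞)` -/
lemma cheb {ι : Type} [Fintype ι] {μ w : ι → ℝ} (hμ : ∀ k, 0 ≤ μ k) (hw : ∀ k, 0 ≤ w k) (m n : ℕ) :
    (∑ k, w k * μ k ^ m) * (∑ k, w k * μ k ^ n) ≤ (∑ k, w k) * ∑ k, w k * μ k ^ (m + n) := by
  have h : 0 ≤ ∑ k, ∑ l, w k * w l * ((μ k ^ m - μ l ^ m) * (μ k ^ n - μ l ^ n)) := by
    refine sum_nonneg fun k _ => sum_nonneg fun l _ => ?_
    refine mul_nonneg (mul_nonneg (hw k) (hw l)) ?_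
    rcases le_total (μ k) (μ l) with h1 | h1
    · exact mul_nonneg_of_nonpos_of_nonpos
        (sub_nonpos.2 (pow_le_pow_left₀ (hμ k) h1 m)) (sub_nonpos.2 (pow_le_pow_left₀ (hμ k) h1 n))
    · exact mul_nonneg (sub_nonneg.2 (pow_le_pow_left₀ (hμ l) h1 m))
        (sub_nonneg.2 (pow_le_pow_left₀ (hμ l) h1 n))
  have e : ∑ k, ∑ l, w k * w l * ((μ k ^ m - μ l ^ m) * (μ k ^ n - μ l ^ n)) =
      2 * ((∑ k, w k) * ∑ k, w k * μ k ^ (m + n)) -
        2 * ((∑ k, w k * μ k ^ m) * (∑ k, w k * μ k ^ n)) := by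
    have e1 : ∀ k l, w k * w l * ((μ k ^ m - μ l ^ m) * (μ k ^ n - μ l ^ n)) =
        w l * (w k * μ k ^ (m + n)) + w k * (w l * μ l ^ (m + n)) -
          (w k * μ k ^ m) * (w l * μ l ^ n) - (w l * μ l ^ m) * (w k * μ k ^ n) := by
      intro k l
      rw [pow_add, pow_add]; ring
    simp only [e1, sum_sub_distrib, sum_add_distrib]
    have e2 : ∑ k, ∑ l, w l * (w k * μ k ^ (m + n)) = (∑ k, w k) * ∑ k, w k * μ k ^ (m + n) := by
      rw [sum_comm, sum_mul_sum]
    have e3 : ∑ k, ∑ l, w k * (w l * μ l ^ (m + n)) = (∑ k, w k) * ∑ k, w k * μ k ^ (m + n) := by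
      rw [sum_mul_sum]
    have e4 : ∑ k, ∑ l, (w k * μ k ^ m) * (w l * μ l ^ n) =
        (∑ k, w k * μ k ^ m) * (∑ k, w k * μ k ^ n) := by
      rw [sum_mul_sum]
    have e5 : ∑ k, ∑ l, (w l * μ l ^ m) * (w k * μ k ^ n) =
        (∑ k, w k * μ k ^ m) * (∑ k, w k * μ k ^ n) := by
      rw [sum_comm, sum_mul_sum]
    rw [e2, e3, e4, e5]
    ring
  rw [e] at h
  linarith

/-- log-convexity of the moments -/
lemma logconv {ι : Type} [Fintype ι] {μ w : ι → ℝ} (hμ : ∀ k, 0 ≤ μ k) (hw : ∀ k, 0 ≤ w k) (n : ℕ) :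
    (∑ k, w k * μ k ^ (n + 1)) ^ 2 ≤ (∑ k, w k * μ k ^ n) * ∑ k, w k * μ k ^ (n + 2) := by
  have h := sum_mul_sq_le_sq_mul_sq univ (fun k => √(w k * μ k ^ n)) (fun k => √(w k * μ k ^ (n + 2)))
  have e1 : ∀ k, √(w k * μ k ^ n) * √(w k * μ k ^ (n + 2)) = w k * μ k ^ (n + 1) := by
    intro k
    have h0 := hμ k
    have h1 := hw k
    rw [← Real.sqrt_mul (by positivity)]
    have : w k * μ k ^ n * (w k * μ k ^ (n + 2)) = (w k * μ k ^ (n + 1)) ^ 2 := by ring
    rw [this, Real.sqrt_sq (by positivity)]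
  have e2 : ∀ k m, √(w k * μ k ^ m) ^ 2 = w k * μ k ^ m := by
    intro k m
    have h0 := hμ k
    have h1 := hw k
    exact Real.sq_sqrt (by positivity)
  simp only [e1, e2] at h
  exact h

/-- the invariants of the tangles `(R* R)^n` closed by `T` and `T*` -/
theorem moments (hN : 0 < N) {T R : Diag} (hT : Fits T 1 3) (hR : Fits R 3 3) :
    ∃ μ w : Fin N → ℝ, (∀ k, 0 ≤ μ k) ∧ (∀ k, 0 ≤ w k) ∧ ∀ n : ℕ,
      Pool.Agent.W709.QAT.jones N (T ++ pw (R ++ adj R 3) n ++ adj T 1) (rt N) =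
        ((∑ k, w k * μ k ^ n : ℝ) : ℂ) := by
  obtain ⟨μ, hμ, τ, h⟩ := moment hN hR
  refine ⟨μ, fun k => ‖τ T k‖ ^ 2, hμ, fun k => by positivity, fun n => ?_⟩
  rw [h T T hT hT n, Complex.ofReal_sum]
  refine sum_congr rfl fun k _ => ?_
  rw [Complex.conj_mul']
  push_cast
  ring

/-! ### two-bridge links -/

/-- the syllables of a two-bridge link -/
def syl : Bool → List ℕ → Diag
  | _, [] => []
  | true, a :: l => .twist 0 true a :: syl false l
  | false, a :: l => .twist 1 false a :: syl true l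

lemma syl_braid (b : Bool) (l : List ℕ) : IsBraid (syl b l) := by
  induction l generalizing b with
  | nil => intro P hP; cases b <;> simp [syl] at hP
  | cons a l ih =>
    intro P hP
    cases b
    · simp only [syl, List.mem_cons] at hP
      rcases hP with rfl | hP
      · exact ⟨false, a, Or.inr rfl⟩
      · exact ih _ P hP
    · simp only [syl, List.mem_cons] at hP
      rcases hP with rfl | hP
      · exact ⟨true, a, Or.inl rfl⟩
      · exact ih _ P hP

lemma cost_syl (b : Bool) (l : List ℕ) : cost N (syl b l) = (l.map (EE' N)).prod := by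
  induction l generalizing b with
  | nil => cases b <;> rfl
  | cons a l ih =>
    cases b
    · have := ih true
      simp only [cost, syl, List.map_cons, List.prod_cons] at this ⊢
      rw [List.filterMap_cons_some (f := Piece.size) (b := a) rfl, List.map_cons, List.prod_cons, this]
    · have := ih false
      simp only [cost, syl, List.map_cons, List.prod_cons] at this ⊢
      rw [List.filterMap_cons_some (f := Piece.size) (b := a) rfl, List.map_cons, List.prod_cons, this]

/-- the clasp and the first twist region -/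
lemma nq_first (hN : 0 < N) (a : ℕ) : InK (N - 1) (xv hN [.cup 1, .twist 0 true (2 + a)]) ∧
    nq N (xv hN [.cup 1, .twist 0 true (2 + a)]) ≤ EE' N a * ∑ i ∈ range N, Fa N i ^ 2 := by
  have e : xv hN [.cup 1, .twist 0 true (2 + a)] = on12 (cr N true ^ a) *ᵥ xv hN T0 := by
    have e1 : xv hN [.cup 1, .twist 0 true (2 + a)] =
        on12 (cr N true ^ (2 + a)) *ᵥ vec3 (x0 N hN) := vec3_twist0 true (2 + a) (x0 N hN)
    have e2 : xv hN T0 = on12 (cr N true ^ 2) *ᵥ vec3 (x0 N hN) := vec3_twist0 true 2 (x0 N hN)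
    rw [e1, e2, Matrix.mulVec_mulVec, on12_mul, ← pow_add, add_comm a 2]
  have h := nq_tw0 hN true a (xv_InK hN (T := T0) fits_T0)
  rw [e]
  exact ⟨h.1, by rw [← nq_T0 hN]; exact h.2⟩

lemma nq_last (hN : 0 < N) (a : ℕ) : InK (N - 1) (xv hN [.cup 0, .twist 1 false (2 + a)]) ∧
    nq N (xv hN [.cup 0, .twist 1 false (2 + a)]) ≤ EE' N a * ∑ i ∈ range N, Fa N i ^ 2 := by
  have e : xv hN [.cup 0, .twist 1 false (2 + a)] = on23 (cr N false ^ a) *ᵥ xv hN S0 := by
    have e1 : xv hN [.cup 0, .twist 1 false (2 + a)] =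
        on23 (cr N false ^ (2 + a)) *ᵥ vec3 (x1 N hN) := vec3_twist1 false (2 + a) (x1 N hN)
    have e2 : xv hN S0 = on23 (cr N false ^ 2) *ᵥ vec3 (x1 N hN) := vec3_twist1 false 2 (x1 N hN)
    rw [e1, e2, Matrix.mulVec_mulVec, on23_mul, ← pow_add, add_comm a 2]
  have h := nq_tw1 hN false a (xv_InK hN (T := S0) fits_S0)
  rw [e]
  exact ⟨h.1, by rw [← nq_S0 hN]; exact h.2⟩

/-- the two-bridge link with the twist regions `a + 2`, `l`, `b + 2` -/
def tbl (a : ℕ) (l : List ℕ) (b : ℕ) : Diag :=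
  .cup 1 :: syl true ((2 + a) :: l ++ [2 + b]) ++ [if Even l.length then .cap 0 else .cap 1]

lemma syl_append (b : Bool) (l l' : List ℕ) :
    syl b (l ++ l') = syl b l ++ syl (if Even l.length then b else !b) l' := by
  induction l generalizing b with
  | nil => simp [syl]
  | cons a l ih =>
    cases b
    · simp only [List.cons_append, syl, ih, List.length_cons, Nat.even_add_one]
      by_cases h : Even l.length <;> simp [h]
    · simp only [List.cons_append, syl, ih, List.length_cons, Nat.even_add_one]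
      by_cases h : Even l.length <;> simp [h]

/-- **the bound for two-bridge links** -/
theorem tb_bound (hN : 0 < N) (a : ℕ) (l : List ℕ) (b : ℕ) :
    ‖Pool.Agent.W709.QAT.jones N (tbl a l b) (rt N)‖ ^ 2 ≤
      EE' N a * (l.map (EE' N)).prod * EE' N b * (∑ i ∈ range N, Fa N i ^ 2) ^ 2 := by
  set F := ∑ i ∈ range N, Fa N i ^ 2 with hF
  have hF0 : 0 ≤ F := sum_nonneg fun i _ => by positivity
  have key : ∀ S : Diag, Fits S 1 3 → nq N (xv hN S) ≤ EE' N b * F →
      ‖Pool.Agent.W709.QAT.jones N (([.cup 1, .twist 0 true (2 + a)] ++ syl false l) ++ adj S 1)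
        (rt N)‖ ^ 2 ≤ EE' N a * (l.map (EE' N)).prod * EE' N b * F ^ 2 := by
    intro S hS hS2
    have e1 : xv hN ([.cup 1, .twist 0 true (2 + a)] ++ syl false l) =
        vec3 (run N (rt N) (syl false l) (run N (rt N) [.cup 1, .twist 0 true (2 + a)]
          (hw N hN))) := by
      unfold xv; rw [run_append]
    have h1 := nq_first hN a
    have h2 := nq_run2 hN (syl false l) (syl_braid false l) _ h1.1
    rw [jones_glue hN hS, e1]
    refine (Hf_cs hN (xv_InK hN hS) h2.1).trans ?_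
    rw [cost_syl] at h2
    have hc : 0 ≤ (l.map (EE' N)).prod := by
      rw [← cost_syl (N := N) false]; exact cost_nonneg N _
    have h3 : nq N (vec3 (run N (rt N) (syl false l) (run N (rt N) [.cup 1, .twist 0 true (2 + a)]
          (hw N hN)))) ≤ (l.map (EE' N)).prod * (EE' N a * F) :=
      h2.2.trans (mul_le_mul_of_nonneg_left h1.2 hc)
    refine (mul_le_mul hS2 h3 (nq_nonneg _) (mul_nonneg (EE'_nonneg N b) hF0)).trans (le_of_eq ?_)
    ring
  unfold tbl
  have e : syl true ((2 + a) :: l ++ [2 + b]) =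
      .twist 0 true (2 + a) :: (syl false l ++
        [if Even l.length then .twist 1 false (2 + b) else .twist 0 true (2 + b)]) := by
    rw [List.cons_append]
    simp only [syl]
    rw [syl_append]
    by_cases h : Even l.length <;> simp [h, syl]
  rw [e]
  by_cases h : Even l.length
  · have e2 : (Piece.cup 1 :: (.twist 0 true (2 + a) :: (syl false l ++
        [if Even l.length then .twist 1 false (2 + b) else .twist 0 true (2 + b)])) ++
        [if Even l.length then .cap 0 else .cap 1]) =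
        ([.cup 1, .twist 0 true (2 + a)] ++ syl false l) ++
          adj [.cup 1, .twist 0 true (2 + b)] 1 := by
      simp [h, adj, padj, Piece.strands]
    rw [e2]
    exact key _ rfl (nq_first hN b).2
  · have e2 : (Piece.cup 1 :: (.twist 0 true (2 + a) :: (syl false l ++
        [if Even l.length then .twist 1 false (2 + b) else .twist 0 true (2 + b)])) ++
        [if Even l.length then .cap 0 else .cap 1]) =
        ([.cup 1, .twist 0 true (2 + a)] ++ syl false l) ++
          adj [.cup 0, .twist 1 false (2 + b)] 1 := by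
      simp [h, adj, padj, Piece.strands]
    rw [e2]
    exact key _ rfl (nq_last hN b).2

/-- the rate of a twist region -/
noncomputable def rte (m : ℕ) : ℝ :=
  ((m / 2 : ℕ) : ℝ) * (8 * lob (π / 4)) + ((m % 2 : ℕ) : ℝ) * (4 * lob (π / 6))

lemma EE'_le {ε : ℝ} (hε : 0 < ε) : ∀ᶠ N : ℕ in atTop, ∀ m : ℕ,
    EE' N m ≤ Real.exp (N * (rte m / π + ε * m)) := by
  filter_upwards [EN_le hε, E2_le hε] with N h1 h2 m
  unfold EE'
  have h3 : E2 N ^ (m / 2) ≤ Real.exp (N * (8 * lob (π / 4) / π + ε)) ^ (m / 2) :=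
    pow_le_pow_left₀ (E2_nonneg N) h2 _
  have h4 : EN N ^ (m % 2) ≤ Real.exp (N * (4 * lob (π / 6) / π + ε)) ^ (m % 2) :=
    pow_le_pow_left₀ (EN_nonneg N) h1 _
  refine (mul_le_mul h3 h4 (pow_nonneg (EN_nonneg N) _) (by positivity)).trans ?_
  rw [← Real.exp_nat_mul, ← Real.exp_nat_mul, ← Real.exp_add, Real.exp_le_exp]
  have e : ((m / 2 : ℕ) : ℝ) + ((m % 2 : ℕ) : ℝ) ≤ m := by exact_mod_cast (by omega)
  unfold rte
  have hN : (0 : ℝ) ≤ N := Nat.cast_nonneg N
  have h5 : (N : ℝ) * (ε * (((m / 2 : ℕ) : ℝ) + ((m % 2 : ℕ) : ℝ))) ≤ N * (ε * m) :=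
    mul_le_mul_of_nonneg_left (mul_le_mul_of_nonneg_left e hε.le) hN
  have e2 : (N : ℝ) * ((((m / 2 : ℕ) : ℝ) * (8 * lob (π / 4)) +
      ((m % 2 : ℕ) : ℝ) * (4 * lob (π / 6))) / π + ε * m) =
      (m / 2 : ℕ) * (N * (8 * lob (π / 4) / π)) + (m % 2 : ℕ) * (N * (4 * lob (π / 6) / π)) +
        N * (ε * m) := by ring
  rw [e2]
  nlinarith

/-- the bound of the growth rate of a two-bridge link -/
noncomputable def tbr (a : ℕ) (l : List ℕ) (b : ℕ) : ℝ :=
  4 * lob (π / 6) + rte a + (l.map rte).sum + rte b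

lemma prod_le {ε : ℝ} (hε : 0 < ε) {N : ℕ} (h : ∀ m : ℕ, EE' N m ≤
    Real.exp (N * (rte m / π + ε * m))) (l : List ℕ) :
    (l.map (EE' N)).prod ≤ Real.exp (N * ((l.map rte).sum / π + ε * l.sum)) := by
  induction l with
  | nil => simp
  | cons a l ih =>
    simp only [List.map_cons, List.prod_cons, List.sum_cons]
    have hc : 0 ≤ (l.map (EE' N)).prod := by
      rw [← cost_syl (N := N) false]; exact cost_nonneg N _
    refine (mul_le_mul (h a) ih hc (Real.exp_pos _).le).trans (le_of_eq ?_)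
    rw [← Real.exp_add]
    congr 1
    push_cast
    ring

/-- **the growth of the invariants of two-bridge links** -/
theorem tb_growth (a : ℕ) (l : List ℕ) (b : ℕ) {ε : ℝ} (hε : 0 < ε) : ∀ᶠ N : ℕ in atTop,
    ‖Pool.Agent.W709.QAT.jones N (tbl a l b) (rt N)‖ ≤
      Real.exp (N * (tbr a l b / (2 * π) + ε)) := by
  have hpi := Real.pi_pos
  set c : ℝ := (a : ℝ) + l.sum + b + 2 with hc
  have hc0 : 0 < c := by positivity
  filter_upwards [EE'_le (ε := ε / c) (by positivity), SF_le (ε := ε / c) (by positivity),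
    eventually_gt_atTop 0] with N h1 h2 hN
  have h3 := tb_bound hN a l b
  have hF0 : 0 ≤ ∑ i ∈ range N, Fa N i ^ 2 := sum_nonneg fun i _ => by positivity
  have hl := prod_le (ε := ε / c) (by positivity) h1 l
  have hcl : 0 ≤ (l.map (EE' N)).prod := by
    rw [← cost_syl (N := N) false]; exact cost_nonneg N _
  have h4 : EE' N a * (l.map (EE' N)).prod * EE' N b * (∑ i ∈ range N, Fa N i ^ 2) ^ 2 ≤
      Real.exp (N * (rte a / π + ε / c * a)) * Real.exp (N * ((l.map rte).sum / π + ε / c * l.sum)) *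
        Real.exp (N * (rte b / π + ε / c * b)) *
        Real.exp (N * (2 * lob (π / 6) / π + ε / c)) ^ 2 := by
    refine mul_le_mul (mul_le_mul (mul_le_mul (h1 a) hl hcl (Real.exp_pos _).le) (h1 b)
      (EE'_nonneg N b) (by positivity)) (pow_le_pow_left₀ hF0 h2 2) (by positivity) (by positivity)
  have h5 := h3.trans h4
  have e : Real.exp (N * (rte a / π + ε / c * a)) *
      Real.exp (N * ((l.map rte).sum / π + ε / c * l.sum)) *
        Real.exp (N * (rte b / π + ε / c * b)) *
        Real.exp (N * (2 * lob (π / 6) / π + ε / c)) ^ 2 ≤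
      Real.exp (N * (tbr a l b / (2 * π) + ε)) ^ 2 := by
    rw [← Real.exp_nat_mul, ← Real.exp_nat_mul, ← Real.exp_add, ← Real.exp_add, ← Real.exp_add,
      Real.exp_le_exp]
    unfold tbr
    have e2 : ε / c * a + ε / c * l.sum + ε / c * b + 2 * (ε / c) = ε := by
      have : ε / c * a + ε / c * l.sum + ε / c * b + 2 * (ε / c) = ε / c * c := by rw [hc]; ring
      rw [this]; field_simp
    have hNr : (0 : ℝ) < N := by exact_mod_cast hN
    have e3 : (N : ℝ) * (rte a / π + ε / c * a) + N * ((l.map rte).sum / π + ε / c * l.sum) +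
        N * (rte b / π + ε / c * b) + (2 : ℕ) * (N * (2 * lob (π / 6) / π + ε / c)) =
        N * ((4 * lob (π / 6) + rte a + (l.map rte).sum + rte b) / π) +
          N * (ε / c * a + ε / c * l.sum + ε / c * b + 2 * (ε / c)) := by
      push_cast; ring
    rw [e3, e2]
    have e4 : ((2 : ℕ) : ℝ) * (N * ((4 * lob (π / 6) + rte a + (l.map rte).sum + rte b) /
        (2 * π) + ε)) = N * ((4 * lob (π / 6) + rte a + (l.map rte).sum + rte b) / π) +
          N * (2 * ε) := by
      push_cast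
      field_simp
    rw [e4]
    have := mul_pos hNr hε
    linarith
  exact (abs_le_of_sq_le_sq' (h5.trans e) (Real.exp_pos _).le).2

lemma rte_le (m : ℕ) : rte m ≤ m * (4 * lob (π / 6)) := by
  unfold rte
  have h1 : lob (π / 4) ≤ lob (π / 6) := lob_max _
  have e : (m : ℝ) = 2 * ((m / 2 : ℕ) : ℝ) + ((m % 2 : ℕ) : ℝ) := by
    exact_mod_cast (by omega)
  have h0 : (0 : ℝ) ≤ ((m / 2 : ℕ) : ℝ) := Nat.cast_nonneg _
  rw [e]
  nlinarith

/-- at most `2 v_3 (c - 3)` -/
lemma tbr_le (a : ℕ) (l : List ℕ) (b : ℕ) :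
    tbr a l b ≤ ((a : ℝ) + l.sum + b + 1) * (4 * lob (π / 6)) := by
  unfold tbr
  have h : (l.map rte).sum ≤ l.sum * (4 * lob (π / 6)) := by
    induction l with
    | nil => simp
    | cons x l ih =>
      simp only [List.map_cons, List.sum_cons]
      have := rte_le x
      rw [Nat.cast_add]
      nlinarith
  have h1 := rte_le a
  have h2 := rte_le b
  nlinarith

end Pool.Agent.R807
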