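import Pool.Agent.R807.Comm

/-!
The positive definite form on the highest weight vectors of weight `N - 1` on three strands, and the
vector of a (1,3)-tangle.
-/

set_option autoImplicit false

namespace Pool.Agent.R807

open Finset Matrix Pool.Agent.W709.QAT Pool.Agent.H550R3.Jones
open Pool.Agent.W715.VC hiding kap

variable {N : ℕ}

lemma nu_top (hN : 0 < N) {k : ℕ} (hk : 0 < k) : nu N (N - 1) k = 0 := by
  unfold nu
  have h : sn N (((N - 1 : ℕ) : ℤ) + (0 : ℕ) + 1) = 0 := by
    have : ((N - 1 : ℕ) : ℤ) + (0 : ℕ) + 1 = N := by omega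
    rw [this, sn_N hN]
  rw [prod_eq_zero (mem_range.2 hk) (by rw [h, zero_div]), mul_zero]

lemma LL_top (hN : 0 < N) {i : ℕ} (hi : i ≤ N - 1) (x : I3 N → ℂ) :
    LL N (N - 1) i x = tt N (N - 1) x i := by
  unfold LL
  rw [sum_eq_single i]
  · unfold nut
    rw [if_pos le_rfl, Nat.sub_self, nu_zero]; simp
  · intro a _ ha
    unfold nut
    split_ifs with h
    · rw [nu_top hN (by omega)]; simp
    · simp
  · intro h
    exact absurd (mem_range.2 (by omega)) h

lemma DD_top (hN : 0 < N) {i : ℕ} (hi : i ≤ N - 1) : DD N (N - 1) i = 1 := by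
  unfold DD
  rw [Nat.sub_self, if_neg (by omega), Nat.sub_zero]
  refine prod_eq_one fun l hl => ?_
  rw [mem_range] at hl
  have h1 : sn N (((N - 1 : ℕ) : ℤ) - ((0 : ℕ) : ℤ) - l) = sn N ((l : ℤ) + 1) := by
    have h2 := sn_sub_N hN (((N - 1 : ℕ) : ℤ) - ((0 : ℕ) : ℤ) - l)
    have h3 : ((N - 1 : ℕ) : ℤ) - ((0 : ℕ) : ℤ) - l - N = -((l : ℤ) + 1) := by omega
    rw [h3, sn_neg] at h2
    linarith
  rw [h1, div_self (sn_pos (by omega) (by omega)).ne']

/-- the vector of a function on the lists with three letters -/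
def vec3 (f : List (Fin N) → ℂ) : I3 N → ℂ := fun p => f [p.1, p.2.1, p.2.2]

lemma Hf_vec3 (g f : List (Fin N) → ℂ) : Hf (vec3 g) (vec3 f) = Bf 3 g f := by
  unfold Hf Bf
  simp only [sl_succ, sl_zero, Fintype.sum_prod_type]
  rfl

lemma hat_vec3 (f : List (Fin N) → ℂ) {a b c : ℕ} (ha : a < N) (hb : b < N) (hc : c < N) :
    hat (vec3 f) a b c = f [⟨a, ha⟩, ⟨b, hb⟩, ⟨c, hc⟩] := by
  unfold hat
  rw [dif_pos ⟨ha, hb, hc⟩]
  rfl

lemma vec3_InK (hN : 0 < N) {f : List (Fin N) → ℂ} (hf : Inv 3 f) : InK (N - 1) (vec3 f) := by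
  constructor
  · intro a b c h
    by_cases h1 : a < N ∧ b < N ∧ c < N
    · rw [hat_vec3 f h1.1 h1.2.1 h1.2.2] at h
      have := hf.wt _ rfl h
      simp only [List.map_cons, List.map_nil, List.sum_cons, List.sum_nil] at this
      omega
    · exact absurd (hat_out _ h1) h
  · apply hat_ext
    intro a b c
    rw [hat_zero]
    by_cases h1 : a < N ∧ b < N ∧ c < N
    · obtain ⟨ha, hb, hc⟩ := h1
      rw [hat_Et hN]
      have h := hf.E [⟨a, ha⟩, ⟨b, hb⟩, ⟨c, hc⟩] rfl
      simp only [El, kf_cons, kf_nil, mul_one, one_mul, add_zero] at h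
      rw [Eo_sum hN a ha, Eo_sum hN b hb, Eo_sum hN c hc] at h
      have e1 : hat (vec3 f) (a + 1) b c =
          if h : a + 1 < N then f [⟨a + 1, h⟩, ⟨b, hb⟩, ⟨c, hc⟩] else 0 := by
        split_ifs with h2
        · exact hat_vec3 f h2 hb hc
        · exact hat_out _ (by omega)
      have e2 : hat (vec3 f) a (b + 1) c =
          if h : b + 1 < N then f [⟨a, ha⟩, ⟨b + 1, h⟩, ⟨c, hc⟩] else 0 := by
        split_ifs with h2
        · exact hat_vec3 f ha h2 hc
        · exact hat_out _ (by omega)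
      have e3 : hat (vec3 f) a b (c + 1) =
          if h : c + 1 < N then f [⟨a, ha⟩, ⟨b, hb⟩, ⟨c + 1, h⟩] else 0 := by
        split_ifs with h2
        · exact hat_vec3 f ha hb h2
        · exact hat_out _ (by omega)
      have e4 : rt N ^ (2 * (N : ℤ) - 2 - 2 * b - 2 * c) =
          rt N ^ ((N : ℤ) - 1 - 2 * b) * rt N ^ ((N : ℤ) - 1 - 2 * c) := by
        rw [← zpow_add₀ (rt_ne N)]; congr 1; ring
      rw [e1, e2, e3, e4]
      linear_combination h
    · exact hat_out _ h1

/-! ### the base vector -/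

/-- the cup to the right of a strand -/
noncomputable def x0 (N : ℕ) (hN : 0 < N) : List (Fin N) → ℂ :=
  run N (rt N) [Piece.cup 1] (hw N hN)

lemma fits0 : Fits [Piece.cup 1] 1 3 := rfl

lemma x0_val (hN : 0 < N) (a b c : Fin N) :
    x0 N hN [a, b, c] = Pool.Agent.W709.QAT.cup N (rt N) (b, c) * (if a = ⟨0, hN⟩ then 1 else 0) := by
  have h : x0 N hN [a, b, c] = (Piece.cup 1).act N (rt N) (hw N hN) ([a] ++ b :: c :: []) := rfl
  rw [h, act_cup (rt N) 1 (hw N hN) [a] b c [] rfl]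
  congr 1
  unfold hw
  simp

lemma x0_InK (hN : 0 < N) : InK (N - 1) (vec3 (x0 N hN)) :=
  vec3_InK hN (Inv_run hN _ fits0 (Inv_hw hN))

lemma tt_x0 (hN : 0 < N) {a : ℕ} (ha : a ≤ N - 1) :
    tt N (N - 1) (vec3 (x0 N hN)) a = if a = 0 then 1 else 0 := by
  unfold tt
  have ha' : a < N := by omega
  have hc : N - 1 - a < N := by omega
  rw [hat_vec3 _ ha' hN hc, x0_val]
  by_cases h : a = 0
  · subst h
    rw [if_pos rfl, if_pos rfl]
    unfold Pool.Agent.W709.QAT.cup
    simp only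
    rw [if_pos (by omega), kap_rt hN]
    simp
  · rw [if_neg (by simpa [Fin.ext_iff] using h), if_neg h, mul_zero, mul_zero]

lemma Hf_x0 (hN : 0 < N) : Hf (vec3 (x0 N hN)) (vec3 (x0 N hN)) = 1 := by
  unfold Hf
  have hl : N - 1 < N := by omega
  rw [sum_eq_single ((⟨0, hN⟩, (⟨N - 1, hl⟩, ⟨0, hN⟩)) : I3 N)]
  · simp only [vec3, rv]
    rw [x0_val, if_pos rfl, mul_one]
    unfold Pool.Agent.W709.QAT.cup
    simp only
    rw [if_pos (by omega), conj_kap hl, inv_mul_cancel₀ (kap_ne hl)]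
  · rintro ⟨a, b, c⟩ _ hp
    simp only [vec3, rv]
    rw [x0_val, x0_val]
    by_cases h1 : a = ⟨0, hN⟩
    · by_cases h2 : c = ⟨0, hN⟩
      · subst h1 h2
        unfold Pool.Agent.W709.QAT.cup
        simp only
        have h3 : ¬ ((b : ℕ) + 0 = N - 1) := by
          intro h4
          apply hp
          have : b = ⟨N - 1, hl⟩ := Fin.ext (by simpa using h4)
          rw [this]
        rw [if_neg h3]
        simp
      · rw [if_neg h2]; simp
    · rw [if_neg h1]; simp
  · intro h; exact absurd (mem_univ _) h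

/-- **the form is the standard positive definite form in the normalised coordinates** -/
theorem Hf_eq (hN : 0 < N) {x y : I3 N → ℂ} (hx : InK (N - 1) x) (hy : InK (N - 1) y) :
    Hf x y = ∑ i ∈ range N, (starRingEnd ℂ) (tt N (N - 1) x i) * tt N (N - 1) y i := by
  obtain ⟨c, hc⟩ := semi (N := N) (m := N - 1) (by omega) (by omega)
  have key : ∀ x y : I3 N → ℂ, InK (N - 1) x → InK (N - 1) y → Hf x y =
      c * ∑ i ∈ range N, (starRingEnd ℂ) (tt N (N - 1) x i) * tt N (N - 1) y i := by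
    intro x y hx hy
    rw [hc x y hx hy]
    congr 1
    have e : N - 1 + 1 = N := by omega
    rw [e]
    refine sum_congr rfl fun i hi => ?_
    rw [mem_range] at hi
    rw [DD_top hN (by omega), LL_top hN (by omega), LL_top hN (by omega)]
    simp
  have h0 := key _ _ (x0_InK hN) (x0_InK hN)
  rw [Hf_x0, sum_eq_single 0] at h0
  · rw [tt_x0 hN (by omega), if_pos rfl, map_one, mul_one, mul_one] at h0
    rw [key x y hx hy, ← h0, one_mul]
  · intro a ha h
    rw [mem_range] at ha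
    rw [tt_x0 hN (by omega), if_neg h]; simp
  · intro h; exact absurd (mem_range.2 hN) h

end Pool.Agent.R807
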