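import Mathlib

/-!
Powers of a matrix and its eigenvalues.
-/

set_option autoImplicit false

namespace Pool.Agent.R807.Gelf

open Filter Topology Matrix

attribute [local instance] Matrix.linftyOpNormedRing Matrix.linftyOpNormedAlgebra

variable {ι : Type} [Fintype ι] [DecidableEq ι]

/-- the powers of a matrix grow at most like the powers of a bound for the eigenvalues -/
theorem pow_bound (A : Matrix ι ι ℂ) {ρ : ℝ} (hρ : 0 ≤ ρ)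
    (h : ∀ a : ℂ, A.charpoly.IsRoot a → ‖a‖ ≤ ρ) {ρ' : ℝ} (hρ' : ρ < ρ') (z : ι → ℂ) :
    ∃ C : ℝ, 0 ≤ C ∧ ∃ n₀ : ℕ, ∀ n : ℕ, n₀ ≤ n → ∀ p, ‖((A ^ n) *ᵥ z) p‖ ≤ C * ρ' ^ n := by
  have h1 := spectrum.pow_norm_pow_one_div_tendsto_nhds_spectralRadius A
  have h2 : spectralRadius ℂ A ≤ ENNReal.ofReal ρ := by
    refine iSup₂_le fun k hk => ?_
    rw [Matrix.mem_spectrum_iff_isRoot_charpoly] at hk
    have h3 := h k hk
    rw [← ENNReal.ofReal_coe_nnreal]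
    exact ENNReal.ofReal_le_ofReal (by simpa using h3)
  have h3 : spectralRadius ℂ A < ENNReal.ofReal ρ' :=
    lt_of_le_of_lt h2 ((ENNReal.ofReal_lt_ofReal_iff (by linarith)).2 hρ')
  obtain ⟨n₀, hn₀⟩ := eventually_atTop.1 (h1.eventually (gt_mem_nhds h3))
  refine ⟨‖z‖, norm_nonneg _, n₀ + 1, fun n hn p => ?_⟩
  have h4 := hn₀ n (by omega)
  have h5 : ‖A ^ n‖ ^ (1 / n : ℝ) < ρ' := (ENNReal.ofReal_lt_ofReal_iff (by linarith)).1 h4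
  have hn0 : (0 : ℝ) < n := by exact_mod_cast (show 0 < n by omega)
  have h6 : ‖A ^ n‖ ≤ ρ' ^ n := by
    have h7 : (‖A ^ n‖ ^ (1 / n : ℝ)) ^ n ≤ ρ' ^ n :=
      pow_le_pow_left₀ (by positivity) h5.le n
    rwa [← Real.rpow_natCast (‖A ^ n‖ ^ (1 / n : ℝ)) n, ← Real.rpow_mul (norm_nonneg _),
      one_div_mul_cancel hn0.ne', Real.rpow_one] at h7
  calc ‖((A ^ n) *ᵥ z) p‖ ≤ ‖(A ^ n) *ᵥ z‖ := norm_le_pi_norm _ p
    _ ≤ ‖A ^ n‖ * ‖z‖ := Matrix.linfty_opNorm_mulVec _ _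
    _ ≤ ρ' ^ n * ‖z‖ := mul_le_mul_of_nonneg_right h6 (norm_nonneg _)
    _ = ‖z‖ * ρ' ^ n := mul_comm _ _

end Pool.Agent.R807.Gelf
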