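import Pool.Agent.R807.Form

/-!
The invariant of two (1,3)-tangles glued together is an inner product.
-/

set_option autoImplicit false

namespace Pool.Agent.R807

open Finset Matrix Pool.Agent.W709.QAT Pool.Agent.H550R3.Jones
open Pool.Agent.W715.VC hiding kap

variable {N : ℕ}

/-- the vector of a diagram with one strand at the bottom and three at the top -/
noncomputable def xv (hN : 0 < N) (T : Diag) : I3 N → ℂ := vec3 (run N (rt N) T (hw N hN))

lemma xv_InK (hN : 0 < N) {T : Diag} (hT : Fits T 1 3) : InK (N - 1) (xv hN T) :=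
  vec3_InK hN (Inv_run hN _ hT (Inv_hw hN))

/-- gluing is the form -/
lemma jones_glue (hN : 0 < N) {S : Diag} (hS : Fits S 1 3) (T : Diag) :
    Pool.Agent.W709.QAT.jones N (T ++ adj S 1) (rt N) = Hf (xv hN S) (xv hN T) := by
  unfold xv
  rw [Hf_vec3, adj_spec hN S hS, ← run_append]
  unfold Bf
  rw [sl_succ]
  simp only [sl_zero, List.reverse_cons, List.reverse_nil, List.nil_append]
  rw [sum_eq_single (⟨0, hN⟩ : Fin N)]
  · unfold Pool.Agent.W709.QAT.jones hw
    rw [dif_pos hN, if_pos rfl, map_one, one_mul]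
  · intro b _ hb
    have : hw N hN [b] = 0 := by
      unfold hw
      rw [if_neg]
      simpa using hb
    rw [this, map_zero, zero_mul]
  · intro h; exact absurd (mem_univ _) h

/-- the coordinates of the vector of a (1,3)-tangle -/
noncomputable def cv (hN : 0 < N) (T : Diag) (i : Fin N) : ℂ := tt N (N - 1) (xv hN T) i

lemma jones_inner (hN : 0 < N) {S T : Diag} (hS : Fits S 1 3) (hT : Fits T 1 3) :
    Pool.Agent.W709.QAT.jones N (T ++ adj S 1) (rt N) =
      ∑ i : Fin N, (starRingEnd ℂ) (cv hN S i) * cv hN T i := by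
  rw [jones_glue hN hS, Hf_eq hN (xv_InK hN hS) (xv_InK hN hT)]
  exact (Fin.sum_univ_eq_sum_range (fun i => (starRingEnd ℂ) (tt N (N - 1) (xv hN S) i) *
    tt N (N - 1) (xv hN T) i) N).symm

/-- **the Gram matrix of (1,3)-tangles is positive semidefinite** -/
theorem gram {ι : Type} [Fintype ι] (hN : 0 < N) (T : ι → Diag) (hT : ∀ i, Fits (T i) 1 3)
    (c : ι → ℂ) : ∑ i, ∑ j, (starRingEnd ℂ) (c i) * c j *
      Pool.Agent.W709.QAT.jones N (T j ++ adj (T i) 1) (rt N) =
      ((∑ k : Fin N, ‖∑ j, c j * cv hN (T j) k‖ ^ 2 : ℝ) : ℂ) := by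
  have h1 : ∀ i j, (starRingEnd ℂ) (c i) * c j *
      Pool.Agent.W709.QAT.jones N (T j ++ adj (T i) 1) (rt N) =
      ∑ k : Fin N, (starRingEnd ℂ) (c i * cv hN (T i) k) * (c j * cv hN (T j) k) := by
    intro i j
    rw [jones_inner hN (hT i) (hT j), mul_sum]
    exact sum_congr rfl fun k _ => by rw [map_mul]; ring
  simp only [h1]
  rw [sum_congr rfl fun i _ => sum_comm, sum_comm, Complex.ofReal_sum]
  refine sum_congr rfl fun k _ => ?_
  rw [Complex.ofReal_pow, ← Complex.conj_mul', map_sum, sum_mul_sum]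

/-- the square of the norm of the vector of a tangle -/
lemma jones_self (hN : 0 < N) {T : Diag} (hT : Fits T 1 3) :
    Pool.Agent.W709.QAT.jones N (T ++ adj T 1) (rt N) =
      ((∑ i : Fin N, ‖cv hN T i‖ ^ 2 : ℝ) : ℂ) := by
  rw [jones_inner hN hT hT, Complex.ofReal_sum]
  exact sum_congr rfl fun i _ => by rw [Complex.ofReal_pow, ← Complex.conj_mul']

/-- Cauchy-Schwarz -/
theorem cs (hN : 0 < N) {S T : Diag} (hS : Fits S 1 3) (hT : Fits T 1 3) :
    ‖Pool.Agent.W709.QAT.jones N (T ++ adj S 1) (rt N)‖ ^ 2 ≤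
      ‖Pool.Agent.W709.QAT.jones N (S ++ adj S 1) (rt N)‖ *
        ‖Pool.Agent.W709.QAT.jones N (T ++ adj T 1) (rt N)‖ := by
  rw [jones_self hN hS, jones_self hN hT, jones_inner hN hS hT, Complex.norm_real,
    Complex.norm_real, Real.norm_of_nonneg (sum_nonneg fun i _ => by positivity),
    Real.norm_of_nonneg (sum_nonneg fun i _ => by positivity)]
  have h1 : ‖∑ i : Fin N, (starRingEnd ℂ) (cv hN S i) * cv hN T i‖ ≤
      ∑ i : Fin N, ‖cv hN S i‖ * ‖cv hN T i‖ := by
    refine (_root_.norm_sum_le _ _).trans (le_of_eq ?_)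
    exact sum_congr rfl fun i _ => by rw [norm_mul, RCLike.norm_conj]
  exact (pow_le_pow_left₀ (norm_nonneg _) h1 2).trans (sum_mul_sq_le_sq_mul_sq _ _ _)

end Pool.Agent.R807
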