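import Pool.Agent.R807.Star
import Pool.Agent.W563.QAT.Fe
import Pool.Agent.W973.VcVc
import Pool.Agent.W709.QAT.Calc
import Pool.Agent.H776R3.EvenVol.TaskL

/-!
The exponential growth of the constants.
-/

set_option autoImplicit false

namespace Pool.Agent.R807

open Finset Matrix Filter Topology Pool.Agent.W709.QAT GapVol
open scoped Real

/-! ### inequalities for Lobachevsky's function -/

lemma tri_ineq {a b c : ℝ} (ha : 0 ≤ a) (hb : 0 ≤ b) (hc : 0 ≤ c) (h : a + b + c = π) :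
    lob a + lob b + lob c ≤ 2 * lob (π / 6) := by
  have hpi := Real.pi_pos
  have h1 := Pool.Agent.W120.VC.tet (π / 3) (π / 3) (π / 3) a b c
    (by linarith) (by linarith) (by linarith) (by ring) ha hb hc h
  have h3 := GapVol.lob_dup
  have e : a - π / 3 + (b - π / 3) + (c - π / 3) = 0 := by linarith
  nlinarith [congrArg (fun t => t * Real.log (2 * Real.sin (π / 3))) e]

lemma oct_ineq {a b c : ℝ} (ha : 0 ≤ a) (hb : 0 ≤ b) (hc : 0 ≤ c) (h : a + b + c = π) :
    2 * lob a + 2 * lob b + lob c ≤ 4 * lob (π / 4) := by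
  have hpi := Real.pi_pos
  have h0 : 0 < lob (π / 4) := EvenVol.LobIneq.lob_four_pos
  rcases hc.eq_or_lt with hc0 | hc0
  · have e : b = π - a := by linarith
    rw [e, lob_pi_sub, ← hc0, GapVol.lob_zero]
    linarith
  · set s := (a + b) / 2 with hs
    have h1 : lob a + lob b ≤ 2 * lob s := conc ha hb (by linarith)
    have e : c = π - 2 * s := by rw [hs]; linarith
    have h2 := Pool.Agent.W973.VcVc.lob_dup2 s
    have e2 : lob (π / 2 + s) = -lob (π / 2 - s) := by
      rw [← lob_pi_sub]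
      congr 1
      ring
    have h3 := Pool.Agent.W120.VC.tet (π / 4) (π / 4) (π / 2) s (π / 2 - s) (π / 2)
      (by linarith) (by linarith) (by linarith) (by ring) (by rw [hs]; linarith)
      (by rw [hs]; linarith) (by linarith) (by ring)
    rw [e, lob_pi_sub, h2, e2]
    nlinarith

/-! ### growth of the factorials -/

lemma Fa_le {ε : ℝ} (hε : 0 < ε) : ∀ᶠ N : ℕ in atTop, ∀ k : ℕ, k < N →
    Fa N k ≤ Real.exp (N * (lob (π / 6) / π + ε)) := by
  have hpi := Real.pi_pos
  filter_upwards [Pool.Agent.W563.QAT.lb ε hε] with N hN k hk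
  obtain ⟨h1, h2⟩ := hN k hk
  rw [← Real.log_le_iff_le_exp h1]
  have h3 := (abs_le.1 h2).2
  have h4 := lob_max (π - π * k / N)
  rw [lob_pi_sub] at h4
  have h5 : (N : ℝ) / π * (-lob (π * k / N)) ≤ N / π * lob (π / 6) :=
    mul_le_mul_of_nonneg_left h4 (by positivity)
  have e : (N : ℝ) * (lob (π / 6) / π + ε) = N / π * lob (π / 6) + ε * N := by
    field_simp
  rw [e]
  linarith

lemma log_bc {N i j : ℕ} (hi : i < N) (hj : j ≤ i) : Real.log (bc N i j) =
    Real.log (Fa N i) - Real.log (Fa N j) - Real.log (Fa N (i - j)) := by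
  have p1 := (Fa_pos (N := N) (k := i) hi)
  have p2 := (Fa_pos (N := N) (k := j) (by omega))
  have p3 := (Fa_pos (N := N) (k := i - j) (by omega))
  rw [bc_Fa hi hj, Real.log_div p1.ne' (by positivity), Real.log_mul p2.ne' p3.ne']
  ring

lemma bc_le {ε : ℝ} (hε : 0 < ε) : ∀ᶠ N : ℕ in atTop, ∀ i j : ℕ, i < N → j ≤ i →
    bc N i j ≤ Real.exp (N * (2 * lob (π / 6) / π + ε)) := by
  have hpi := Real.pi_pos
  filter_upwards [Pool.Agent.W563.QAT.lb (ε / 3) (by positivity)] with N hN i j hi hj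
  have hN0 : (0 : ℝ) < N := by exact_mod_cast (show 0 < N by omega)
  rw [← Real.log_le_iff_le_exp (bc_pos hi hj), log_bc hi hj]
  have h1 := (abs_le.1 (hN i hi).2).2
  have h2 := (abs_le.1 (hN j (by omega)).2).1
  have h3 := (abs_le.1 (hN (i - j) (by omega)).2).1
  have e1 : π * ((i - j : ℕ) : ℝ) / N = π * i / N - π * j / N := by
    rw [Nat.cast_sub hj]; ring
  rw [e1] at h3
  have hj' : (j : ℝ) ≤ i := by exact_mod_cast hj
  have hi' : (i : ℝ) ≤ N := by exact_mod_cast hi.le
  have k1 : 0 ≤ π * (j : ℝ) / N := by positivity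
  have k2 : 0 ≤ π * (i : ℝ) / N - π * j / N := by
    rw [← sub_div, ← mul_sub]
    exact div_nonneg (mul_nonneg hpi.le (by linarith)) hN0.le
  have k3 : 0 ≤ π - π * (i : ℝ) / N := by
    have : π * (i : ℝ) / N ≤ π := by
      rw [div_le_iff₀ hN0]
      exact mul_le_mul_of_nonneg_left hi' hpi.le
    linarith
  have h4 := tri_ineq k1 k2 k3 (by ring)
  rw [lob_pi_sub] at h4
  have h5 := mul_le_mul_of_nonneg_left h4 (show 0 ≤ (N : ℝ) / π by positivity)
  have e : (N : ℝ) * (2 * lob (π / 6) / π + ε) = N / π * (2 * lob (π / 6)) + ε * N := by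
    field_simp
  rw [e]
  linarith

lemma b2_pos {N i j : ℕ} (hi : i < N) (hj : j ≤ i) : 0 < b2 N i j := by
  unfold b2
  have p1 := (Fa_pos (N := N) (k := i) hi)
  have p2 := (Fa_pos (N := N) (k := j) (by omega))
  have p3 := bc_pos hi hj
  positivity

lemma b2_le {ε : ℝ} (hε : 0 < ε) : ∀ᶠ N : ℕ in atTop, ∀ i j : ℕ, i < N → j ≤ i →
    b2 N i j ≤ Real.exp (N * (4 * lob (π / 4) / π + ε)) := by
  have hpi := Real.pi_pos
  filter_upwards [Pool.Agent.W563.QAT.lb (ε / 5) (by positivity)] with N hN i j hi hj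
  have hN0 : (0 : ℝ) < N := by exact_mod_cast (show 0 < N by omega)
  have p1 := (Fa_pos (N := N) (k := i) hi)
  have p2 := (Fa_pos (N := N) (k := j) (by omega))
  have p3 := bc_pos hi hj
  rw [← Real.log_le_iff_le_exp (b2_pos hi hj)]
  unfold b2
  rw [Real.log_mul p3.ne' (by positivity), Real.log_div p1.ne' p2.ne', log_bc hi hj]
  have h1 := (abs_le.1 (hN i hi).2).2
  have h2 := (abs_le.1 (hN j (by omega)).2).1
  have h3 := (abs_le.1 (hN (i - j) (by omega)).2).1
  have e1 : π * ((i - j : ℕ) : ℝ) / N = π * i / N - π * j / N := by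
    rw [Nat.cast_sub hj]; ring
  rw [e1] at h3
  have hj' : (j : ℝ) ≤ i := by exact_mod_cast hj
  have hi' : (i : ℝ) ≤ N := by exact_mod_cast hi.le
  have k1 : 0 ≤ π * (j : ℝ) / N := by positivity
  have k2 : 0 ≤ π * (i : ℝ) / N - π * j / N := by
    rw [← sub_div, ← mul_sub]
    exact div_nonneg (mul_nonneg hpi.le (by linarith)) hN0.le
  have k3 : 0 ≤ π - π * (i : ℝ) / N := by
    have : π * (i : ℝ) / N ≤ π := by
      rw [div_le_iff₀ hN0]
      exact mul_le_mul_of_nonneg_left hi' hpi.le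
    linarith
  have h4 := oct_ineq k1 k3 k2 (by ring)
  rw [lob_pi_sub] at h4
  have h5 := mul_le_mul_of_nonneg_left h4 (show 0 ≤ (N : ℝ) / π by positivity)
  have e : (N : ℝ) * (4 * lob (π / 4) / π + ε) = N / π * (4 * lob (π / 4)) + ε * N := by
    field_simp
  rw [e]
  linarith

lemma poly_le (k : ℕ) {ε : ℝ} (hε : 0 < ε) : ∀ᶠ N : ℕ in atTop, (N : ℝ) ^ k ≤
    Real.exp (N * ε) := by
  have h := (isLittleO_pow_exp_pos_mul_atTop (k := k) hε).def one_pos
  filter_upwards [tendsto_natCast_atTop_atTop.eventually h] with N hN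
  rw [Real.norm_of_nonneg (by positivity), Real.norm_of_nonneg (Real.exp_pos _).le, one_mul,
    mul_comm ε] at hN
  exact hN

lemma double_sum_le {N : ℕ} {f : ℕ → ℕ → ℝ} {B : ℝ} (hf0 : ∀ i j, i < N → j ≤ i → 0 ≤ f i j)
    (h : ∀ i j, i < N → j ≤ i → f i j ≤ B) :
    ∑ i ∈ range N, ∑ j ∈ range (i + 1), f i j ^ 2 ≤ (N : ℝ) ^ 2 * B ^ 2 := by
  rcases Nat.eq_zero_or_pos N with hN | hN
  · subst hN; simp
  have hB : 0 ≤ B := (hf0 0 0 hN le_rfl).trans (h 0 0 hN le_rfl)
  have h1 : ∀ i ∈ range N, ∑ j ∈ range (i + 1), f i j ^ 2 ≤ N * B ^ 2 := by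
    intro i hi
    rw [mem_range] at hi
    have h2 : ∀ j ∈ range (i + 1), f i j ^ 2 ≤ B ^ 2 := by
      intro j hj
      rw [mem_range] at hj
      exact pow_le_pow_left₀ (hf0 i j hi (by omega)) (h i j hi (by omega)) 2
    refine (sum_le_sum h2).trans ?_
    rw [sum_const, card_range, nsmul_eq_mul]
    refine mul_le_mul_of_nonneg_right ?_ (by positivity)
    exact_mod_cast (show i + 1 ≤ N by omega)
  refine (sum_le_sum h1).trans (le_of_eq ?_)
  rw [sum_const, card_range, nsmul_eq_mul]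
  ring

/-- **growth of the norm of a crossing**: `4 v_3` for the square -/
theorem EN_le {ε : ℝ} (hε : 0 < ε) : ∀ᶠ N : ℕ in atTop,
    EN N ≤ Real.exp (N * (4 * lob (π / 6) / π + ε)) := by
  filter_upwards [bc_le (ε := ε / 4) (by positivity), poly_le 2 (ε := ε / 2) (by positivity)]
    with N h1 h2
  have h3 := double_sum_le (fun i j hi hj => (bc_pos hi hj).le) (fun i j hi hj => h1 i j hi hj)
  refine h3.trans ?_
  refine (mul_le_mul_of_nonneg_right h2 (by positivity)).trans (le_of_eq ?_)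
  rw [← Real.exp_nat_mul, ← Real.exp_add]
  congr 1
  push_cast
  ring

/-- **growth of the norm of a double crossing**: `2 v_8` for the square -/
theorem E2_le {ε : ℝ} (hε : 0 < ε) : ∀ᶠ N : ℕ in atTop,
    E2 N ≤ Real.exp (N * (8 * lob (π / 4) / π + ε)) := by
  filter_upwards [b2_le (ε := ε / 4) (by positivity), poly_le 2 (ε := ε / 2) (by positivity)]
    with N h1 h2
  have h3 := double_sum_le (fun i j hi hj => (b2_pos hi hj).le) (fun i j hi hj => h1 i j hi hj)
  refine h3.trans ?_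
  refine (mul_le_mul_of_nonneg_right h2 (by positivity)).trans (le_of_eq ?_)
  rw [← Real.exp_nat_mul, ← Real.exp_add]
  congr 1
  push_cast
  ring

/-- **growth of the invariant of the figure eight knot**: at most `2 v_3` -/
theorem SF_le {ε : ℝ} (hε : 0 < ε) : ∀ᶠ N : ℕ in atTop,
    ∑ i ∈ range N, Fa N i ^ 2 ≤ Real.exp (N * (2 * lob (π / 6) / π + ε)) := by
  filter_upwards [Fa_le (ε := ε / 4) (by positivity), poly_le 1 (ε := ε / 2) (by positivity)]
    with N h1 h2
  have h3 : ∀ i ∈ range N, Fa N i ^ 2 ≤ Real.exp (N * (lob (π / 6) / π + ε / 4)) ^ 2 := by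
    intro i hi
    rw [mem_range] at hi
    exact pow_le_pow_left₀ (Fa_pos hi).le (h1 i hi) 2
  refine (sum_le_sum h3).trans ?_
  rw [sum_const, card_range, nsmul_eq_mul]
  rw [pow_one] at h2
  refine (mul_le_mul_of_nonneg_right h2 (by positivity)).trans (le_of_eq ?_)
  rw [← Real.exp_nat_mul, ← Real.exp_add]
  congr 1
  push_cast
  ring

/-- **growth of the invariant of the figure eight knot**: at least `2 v_3` -/
theorem SF_ge {ε : ℝ} (hε : 0 < ε) : ∀ᶠ N : ℕ in atTop,
    Real.exp (N * (2 * lob (π / 6) / π - ε)) ≤ ∑ i ∈ range N, Fa N i ^ 2 := by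
  have hpi := Real.pi_pos
  -- the index `⌊5 N / 6⌋`
  have hidx : Tendsto (fun N : ℕ => π * (((5 * N / 6 : ℕ) : ℕ) : ℝ) / N) atTop (𝓝 (5 * π / 6)) := by
    have h1 : Tendsto (fun N : ℕ => (1 : ℝ) / N) atTop (𝓝 0) := tendsto_one_div_atTop_nhds_zero_nat
    have h2 : Tendsto (fun N : ℕ => 5 * π / 6 - π * (1 / (N : ℝ))) atTop (𝓝 (5 * π / 6 - π * 0)) :=
      tendsto_const_nhds.sub (h1.const_mul π)
    rw [mul_zero, sub_zero] at h2
    refine tendsto_of_tendsto_of_tendsto_of_le_of_le' h2 tendsto_const_nhds ?_ ?_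
    · filter_upwards [eventually_gt_atTop 0] with N hN
      have hN0 : (0 : ℝ) < N := by exact_mod_cast hN
      have h3 : 5 * N < 6 * (5 * N / 6) + 6 := by omega
      have h4 : 5 * (N : ℝ) < 6 * ((5 * N / 6 : ℕ) : ℝ) + 6 := by exact_mod_cast h3
      rw [le_div_iff₀ hN0]
      have e : (5 * π / 6 - π * (1 / (N : ℝ))) * N = π * (5 * N / 6 - 1) := by
        field_simp
      rw [e]
      exact mul_le_mul_of_nonneg_left (by linarith) hpi.le
    · filter_upwards [eventually_gt_atTop 0] with N hN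
      have hN0 : (0 : ℝ) < N := by exact_mod_cast hN
      have h3 : 6 * (5 * N / 6) ≤ 5 * N := by omega
      have h4 : 6 * ((5 * N / 6 : ℕ) : ℝ) ≤ 5 * N := by exact_mod_cast h3
      rw [div_le_iff₀ hN0]
      have e : 5 * π / 6 * (N : ℝ) = π * (5 * N / 6) := by ring
      rw [e]
      exact mul_le_mul_of_nonneg_left (by linarith) hpi.le
  have hlob := (GapVol.lob_cont.tendsto (5 * π / 6)).comp hidx
  have e5 : lob (5 * π / 6) = -lob (π / 6) := by
    rw [← lob_pi_sub]; congr 1; ring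
  rw [e5] at hlob
  have hev := hlob.eventually (gt_mem_nhds (show -lob (π / 6) < -lob (π / 6) + π * (ε / 4) by
    have : 0 < π * (ε / 4) := by positivity
    linarith))
  filter_upwards [Pool.Agent.W563.QAT.lb (ε / 4) (by positivity), hev, eventually_gt_atTop 0]
    with N hN h1 h2
  have hN0 : (0 : ℝ) < N := by exact_mod_cast h2
  simp only [Function.comp_apply] at h1
  have hk : 5 * N / 6 < N := by omega
  obtain ⟨h3, h4⟩ := hN _ hk
  have h5 := (abs_le.1 h4).1
  have h6 : (N : ℝ) * (lob (π / 6) / π - ε / 2) ≤ Real.log (Fa N (5 * N / 6)) := by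
    have h7 := mul_le_mul_of_nonneg_left h1.le (show 0 ≤ (N : ℝ) / π by positivity)
    have e : (N : ℝ) / π * (-lob (π / 6) + π * (ε / 4)) =
        -(N * (lob (π / 6) / π - ε / 2)) - ε / 4 * N := by
      field_simp
      ring
    rw [e] at h7
    linarith
  have h8 : Real.exp (N * (lob (π / 6) / π - ε / 2)) ≤ Fa N (5 * N / 6) := by
    rw [← Real.le_log_iff_exp_le h3]
    exact h6
  have h9 : Fa N (5 * N / 6) ^ 2 ≤ ∑ i ∈ range N, Fa N i ^ 2 :=
    single_le_sum (f := fun i => Fa N i ^ 2) (fun i _ => by positivity) (mem_range.2 hk)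
  refine le_trans (le_of_eq ?_) ((pow_le_pow_left₀ (Real.exp_pos _).le h8 2).trans h9)
  rw [← Real.exp_nat_mul]
  congr 1
  push_cast
  ring

end Pool.Agent.R807
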