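import Pool.Agent.W715.VC.Growth
import Pool.Agent.R807.Gelf

/-!
An inequality of Hölder type for the traces of products of 3-braids at the root of unity.
-/

set_option autoImplicit false

namespace Pool.Agent.R807.Holder

open Matrix Finset Filter Topology Pool.Agent.H550R3.Jones
open Pool.Agent.W715.VC

variable {N : ℕ}

/-- the Cauchy-Schwarz inequality on the highest weight vectors of high weight -/
lemma cs {m : ℕ} (hm : m < N) (h2 : N ≤ 2 * m + 1) {x y : I3 N → ℂ} (hx : InK m x)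
    (hy : InK m y) : ‖Hf x y‖ ^ 2 ≤ ‖Hf x x‖ * ‖Hf y y‖ := by
  obtain ⟨c, hc⟩ := semi hm h2
  have hS : ∀ z, InK m z → ‖Hf z z‖ =
      |c| * ∑ i ∈ range (m + 1), DD N m i * ‖LL N m i z‖ ^ 2 := by
    intro z hz
    have e : Hf z z = ((c * ∑ i ∈ range (m + 1), DD N m i * ‖LL N m i z‖ ^ 2 : ℝ) : ℂ) := by
      rw [hc z z hz hz]
      push_cast
      congr 1
      refine sum_congr rfl fun i _ => ?_
      rw [Complex.conj_mul']
    rw [e, Complex.norm_real, Real.norm_eq_abs, abs_mul, abs_of_nonneg (a := ∑ i ∈ range (m + 1),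
      DD N m i * ‖LL N m i z‖ ^ 2)]
    refine sum_nonneg fun i hi => ?_
    rw [mem_range] at hi
    exact mul_nonneg (DD_nonneg hm (by omega)) (by positivity)
  rw [hS x hx, hS y hy, hc x y hx hy, norm_mul, Complex.norm_real, Real.norm_eq_abs, mul_pow]
  have h1 : ‖∑ i ∈ range (m + 1), ((DD N m i : ℝ) : ℂ) *
      ((starRingEnd ℂ) (LL N m i x) * LL N m i y)‖ ≤
      ∑ i ∈ range (m + 1), (Real.sqrt (DD N m i) * ‖LL N m i x‖) *
        (Real.sqrt (DD N m i) * ‖LL N m i y‖) := by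
    refine (_root_.norm_sum_le _ _).trans (le_of_eq ?_)
    refine sum_congr rfl fun i hi => ?_
    rw [mem_range] at hi
    have h3 := DD_nonneg hm (by omega : i ≤ m)
    rw [norm_mul, norm_mul, RCLike.norm_conj, Complex.norm_real, Real.norm_of_nonneg h3]
    have h4 := Real.mul_self_sqrt h3
    calc DD N m i * (‖LL N m i x‖ * ‖LL N m i y‖)
        = (Real.sqrt (DD N m i) * Real.sqrt (DD N m i)) * (‖LL N m i x‖ * ‖LL N m i y‖) := by
          rw [h4]
      _ = _ := by ring
  have h3 : (∑ i ∈ range (m + 1), (Real.sqrt (DD N m i) * ‖LL N m i x‖) *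
        (Real.sqrt (DD N m i) * ‖LL N m i y‖)) ^ 2 ≤
      (∑ i ∈ range (m + 1), DD N m i * ‖LL N m i x‖ ^ 2) *
        ∑ i ∈ range (m + 1), DD N m i * ‖LL N m i y‖ ^ 2 := by
    refine (sum_mul_sq_le_sq_mul_sq _ _ _).trans (le_of_eq ?_)
    congr 1
    · refine sum_congr rfl fun i hi => ?_
      rw [mem_range] at hi
      rw [mul_pow, Real.sq_sqrt (DD_nonneg hm (by omega : i ≤ m))]
    · refine sum_congr rfl fun i hi => ?_
      rw [mem_range] at hi
      rw [mul_pow, Real.sq_sqrt (DD_nonneg hm (by omega : i ≤ m))]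
  have h4 := (pow_le_pow_left₀ (norm_nonneg _) h1 2).trans h3
  calc |c| ^ 2 * _ ≤ |c| ^ 2 * ((∑ i ∈ range (m + 1), DD N m i * ‖LL N m i x‖ ^ 2) *
        ∑ i ∈ range (m + 1), DD N m i * ‖LL N m i y‖ ^ 2) :=
        mul_le_mul_of_nonneg_left h4 (by positivity)
    _ = _ := by ring

/-- the bound -/
noncomputable def tau (N : ℕ) (w : List (ℕ × Bool)) : ℝ :=
  ‖(rep3 N (w ++ dual w)).trace‖ + (N : ℝ) ^ 3

lemma tau_nonneg (w : List (ℕ × Bool)) : 0 ≤ tau N w := by unfold tau; positivity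

lemma one_le_tau (hN : 0 < N) (w : List (ℕ × Bool)) : 1 ≤ tau N w := by
  unfold tau
  have h : (1 : ℝ) ≤ (N : ℝ) ^ 3 := by exact_mod_cast Nat.one_le_pow 3 N hN
  have := norm_nonneg (rep3 N (w ++ dual w)).trace
  linarith

/-- the roots of the characteristic polynomial are bounded by the trace -/
lemma root_le (hN : 0 < N) {w : List (ℕ × Bool)} (hw : ∀ l ∈ w, l.1 < 2) {a : ℂ}
    (ha : (rep3 N (w ++ dual w)).charpoly.IsRoot a) : ‖a‖ ≤ tau N w := by
  set B := rep3 N (w ++ dual w) with hB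
  have hne : B.charpoly ≠ 0 := (Matrix.charpoly_monic B).ne_zero
  have ha' : a ∈ B.charpoly.roots := (Polynomial.mem_roots hne).2 ha
  have hs : ∀ a ∈ B.charpoly.roots, (∃ r : ℝ, 0 < r ∧ a = r) ∨ ‖a‖ = 1 := fun a ha => by
    obtain ⟨m, hm⟩ := eig_of_root (good_rep3 _) ha
    exact eig_main hN hw hm
  obtain ⟨M, hM1, hM2, hM3⟩ := exists_radius _ hs
  have hcard : B.charpoly.roots.card = N ^ 3 := by
    rw [card_roots' B]
    simp only [I3, Fintype.card_prod, Fintype.card_fin]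
    ring
  have hN3 : (1 : ℝ) ≤ (N : ℝ) ^ 3 := by exact_mod_cast Nat.one_le_pow 3 N hN
  have key : M ≤ ‖B.charpoly.roots.sum‖ + B.charpoly.roots.card := by
    rcases hM3 with h | h
    · rw [h, hcard]
      have := norm_nonneg (B.charpoly.roots.sum)
      push_cast
      linarith
    · obtain ⟨t, ht⟩ := Multiset.exists_cons_of_mem h
      rw [ht] at hs ⊢
      have h1 := re_sum_ge t (fun a ha => hs a (Multiset.mem_cons_of_mem ha)) 1
      have h2 := Complex.re_le_norm (((M : ℂ) ::ₘ t).sum)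
      rw [Multiset.sum_cons, Complex.add_re, Complex.ofReal_re] at h2
      rw [Multiset.sum_cons, Multiset.card_cons]
      simp only [pow_one, Multiset.map_id'] at h1
      push_cast at h2 ⊢
      linarith
  rw [hcard, ← Matrix.trace_eq_sum_roots_charpoly B] at key
  refine (hM2 a ha').trans (key.trans (le_of_eq ?_))
  unfold tau
  push_cast
  rfl

lemma hadj_hadj (A : M3 N) : hadj (hadj A) = A := by
  ext p q
  simp only [hadj, Complex.conj_conj, rv_rv]

lemma hadj_pow (A : M3 N) (n : ℕ) : hadj (A ^ n) = hadj A ^ n := by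
  induction n with
  | zero => rw [pow_zero, pow_zero, hadj_one]
  | succ n ih => rw [pow_succ, hadj_mul, ih, ← pow_succ']

lemma good_pow {A : M3 N} (hA : Good A) (n : ℕ) : Good (A ^ n) := by
  induction n with
  | zero => rw [pow_zero]; exact Good.one
  | succ n ih => rw [pow_succ]; exact ih.mul hA

lemma norm_Hf_le (z y : I3 N → ℂ) {C : ℝ} (hy : ∀ p, ‖y p‖ ≤ C) :
    ‖Hf z y‖ ≤ (∑ p, ‖z p‖) * C := by
  unfold Hf
  rw [sum_mul]
  refine (_root_.norm_sum_le _ _).trans (sum_le_sum fun p _ => ?_)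
  rw [norm_mul, RCLike.norm_conj]
  exact mul_le_mul_of_nonneg_left (hy _) (norm_nonneg _)

/-- a real number whose powers `2 ^ k` grow at most like those of `ρ` -/
lemma le_of_pow {β ρ C : ℝ} (hρ : 0 < ρ) (h : ∃ k₀ : ℕ, ∀ k : ℕ, k₀ ≤ k → β ^ 2 ^ k ≤ C * ρ ^ 2 ^ k) :
    β ≤ ρ := by
  by_contra hlt
  push Not at hlt
  obtain ⟨k₀, hk₀⟩ := h
  have h1 : 1 < β / ρ := (one_lt_div hρ).2 hlt
  have h2 : Tendsto (fun k : ℕ => (β / ρ) ^ 2 ^ k) atTop atTop :=
    (tendsto_pow_atTop_atTop_of_one_lt h1).comp (tendsto_pow_atTop_atTop_of_one_lt (by norm_num))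
  obtain ⟨k, hk1, hk2⟩ := ((h2.eventually (eventually_gt_atTop C)).and
    (eventually_ge_atTop k₀)).exists
  have h3 := hk₀ k hk2
  rw [div_pow, lt_div_iff₀ (by positivity)] at hk1
  linarith

/-- **the norm of a 3-braid on the highest weight vectors of high weight** -/
theorem step (hN : 0 < N) {w : List (ℕ × Bool)} (hw : ∀ l ∈ w, l.1 < 2) {m : ℕ} (hm : m < N)
    (h2 : N ≤ 2 * m + 1) {z : I3 N → ℂ} (hz : InK m z) :
    ‖Hf (rep3 N w *ᵥ z) (rep3 N w *ᵥ z)‖ ≤ tau N w * ‖Hf z z‖ := by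
  set T := rep3 N w with hT
  have hadjT : hadj T = rep3 N (dual w) := hadj_rep3 hN hw
  set H := hadj T * T with hH
  have hself : hadj H = H := by rw [hH, hadj_mul, hadj_hadj]
  have hG : Good H := by rw [hH, hadjT]; exact (good_rep3 _).mul (good_rep3 _)
  have hroot : ∀ a : ℂ, H.charpoly.IsRoot a → ‖a‖ ≤ tau N w := by
    intro a ha
    have e : H.charpoly = (rep3 N (w ++ dual w)).charpoly := by
      rw [hH, hadjT, rep3_append, Matrix.charpoly_mul_comm]
    rw [e] at ha
    exact root_le hN hw ha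
  have e0 : Hf (T *ᵥ z) (T *ᵥ z) = Hf z (H *ᵥ z) := by
    rw [Hf_adj, Matrix.mulVec_mulVec]
  have hkey : ∀ k : ℕ, ‖Hf z (H ^ 2 ^ k *ᵥ z)‖ ^ 2 ≤ ‖Hf z z‖ * ‖Hf z (H ^ 2 ^ (k + 1) *ᵥ z)‖ := by
    intro k
    have h3 := cs hm h2 hz ((good_pow hG (2 ^ k)).InK hz)
    refine h3.trans (le_of_eq ?_)
    rw [Hf_adj, hadj_pow, hself, Matrix.mulVec_mulVec, ← pow_add, ← two_mul, ← pow_succ']
  rw [e0]
  rcases (norm_nonneg (Hf z z)).eq_or_lt with h0 | h0
  · have h3 := hkey 0
    rw [← h0, zero_mul, pow_zero, pow_one] at h3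
    have h4 : ‖Hf z (H *ᵥ z)‖ = 0 := by
      have h5 := norm_nonneg (Hf z (H *ᵥ z))
      nlinarith
    rw [h4, ← h0, mul_zero]
  · set b : ℕ → ℝ := fun k => ‖Hf z (H ^ 2 ^ k *ᵥ z)‖ / ‖Hf z z‖ with hb
    have hb0 : ∀ k, 0 ≤ b k := fun k => by positivity
    have hb1 : ∀ k, b k ^ 2 ≤ b (k + 1) := by
      intro k
      simp only [hb]
      rw [div_pow, div_le_div_iff₀ (by positivity) h0]
      have := hkey k
      nlinarith [norm_nonneg (Hf z (H ^ 2 ^ (k + 1) *ᵥ z))]
    have hb2 : ∀ k, b 0 ^ 2 ^ k ≤ b k := by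
      intro k
      induction k with
      | zero => simp
      | succ k ih =>
        rw [pow_succ, pow_mul]
        exact (pow_le_pow_left₀ (pow_nonneg (hb0 0) _) ih 2).trans (hb1 k)
    have hfin : b 0 ≤ tau N w := by
      refine le_of_forall_gt_imp_ge_of_dense fun ρ hρ => ?_
      have htau := tau_nonneg (N := N) w
      obtain ⟨C, hC, n₀, hn₀⟩ := Gelf.pow_bound H htau hroot hρ z
      refine le_of_pow (C := (∑ p, ‖z p‖) * C / ‖Hf z z‖) (by linarith) ⟨n₀, fun k hk => ?_⟩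
      refine (hb2 k).trans ?_
      have h3 : n₀ ≤ 2 ^ k := hk.trans Nat.lt_two_pow_self.le
      have h4 := norm_Hf_le z (H ^ 2 ^ k *ᵥ z) (hn₀ (2 ^ k) h3)
      simp only [hb]
      rw [div_mul_eq_mul_div, div_le_div_iff_of_pos_right h0]
      refine h4.trans (le_of_eq ?_)
      ring
    simp only [hb, pow_zero, pow_one] at hfin
    rwa [div_le_iff₀ h0] at hfin

/-- the product of the bounds -/
noncomputable def ptau (N : ℕ) (ws : List (List (ℕ × Bool))) : ℝ := (ws.map (tau N)).prod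

lemma one_le_ptau (hN : 0 < N) (ws : List (List (ℕ × Bool))) : 1 ≤ ptau N ws := by
  induction ws with
  | nil => simp [ptau]
  | cons w ws ih =>
    have e : ptau N (w :: ws) = tau N w * ptau N ws := by simp [ptau]
    rw [e]
    have := one_le_tau hN w
    nlinarith

lemma steps (hN : 0 < N) {ws : List (List (ℕ × Bool))} (hw : ∀ w ∈ ws, ∀ l ∈ w, l.1 < 2) {m : ℕ}
    (hm : m < N) (h2 : N ≤ 2 * m + 1) {z : I3 N → ℂ} (hz : InK m z) :
    ‖Hf (rep3 N ws.flatten *ᵥ z) (rep3 N ws.flatten *ᵥ z)‖ ≤ ptau N ws * ‖Hf z z‖ := by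
  induction ws with
  | nil => simp [ptau, rep3_nil]
  | cons w ws ih =>
    have e : ptau N (w :: ws) = tau N w * ptau N ws := by simp [ptau]
    rw [List.flatten_cons, rep3_append, ← Matrix.mulVec_mulVec, e]
    have h3 := ih fun w' hw' => hw w' (List.mem_cons_of_mem _ hw')
    have h4 := step hN (hw w List.mem_cons_self) hm h2 ((good_rep3 (N := N) ws.flatten).InK hz)
    refine h4.trans ?_
    rw [mul_assoc]
    exact mul_le_mul_of_nonneg_left h3 (tau_nonneg _)

/-- **the eigenvalues of a 3-braid at the root of unity** -/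
theorem eig_gen (hN : 0 < N) {W : List (ℕ × Bool)} {C : ℝ} (hC : 1 ≤ C)
    (hs : ∀ m, m < N → N ≤ 2 * m + 1 → ∀ z : I3 N → ℂ, InK m z →
      ‖Hf (rep3 N W *ᵥ z) (rep3 N W *ᵥ z)‖ ≤ C * ‖Hf z z‖)
    {lam : ℂ} {m0 : ℕ} (h0 : Eig (rep3 N W) lam m0) : ‖lam‖ ^ 2 ≤ C := by
  classical
  set B := rep3 N W with hB
  have hG : Good B := good_rep3 _
  have hex : ∃ m, Eig B lam m := ⟨m0, h0⟩
  obtain ⟨x, hx0, hxW, hx⟩ := Nat.find_spec hex
  have hmin : ∀ k, k < Nat.find hex → ¬ Eig B lam k := fun k hk => Nat.find_min hex hk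
  set m := Nat.find hex with hm
  have hxE : Et N *ᵥ x = 0 := by
    by_contra hE
    have h1 : B *ᵥ (Et N *ᵥ x) = lam • (Et N *ᵥ x) := by
      rw [Matrix.mulVec_mulVec, hG.e, ← Matrix.mulVec_mulVec, hx, Matrix.mulVec_smul]
    cases hmm : m with
    | zero =>
      apply hE
      rw [← wp_of_InW hxW, hmm, lower_zero (Et_wt hN)]
    | succ k =>
      refine hmin k (by omega) ⟨_, hE, ?_, h1⟩
      have h2 := wp_lower (Et_wt hN) k x
      rw [← hmm, wp_of_InW hxW] at h2
      rw [← h2]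
      exact wp_InW _ _
  have hK : InK m x := ⟨hxW, hxE⟩
  have hmN : m < N := by
    by_contra hge
    obtain ⟨y, hyW, hy⟩ := ker_Et hN hK
    have hcomm : B * Et N ^ (N - 1) = Et N ^ (N - 1) * B :=
      (Commute.pow_right (show Commute B (Et N) from hG.e) (N - 1))
    have h1 := eig_symm hN _ (eig_push hG hcomm hx0 hx hyW hy)
    exact hmin _ (by omega) h1
  have hnd : ∃ y, InK m y ∧ Hf y x ≠ 0 := by
    by_contra hno
    push Not at hno
    obtain ⟨z, hz⟩ := range_Ft hN hxW hno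
    cases hmm : m with
    | zero =>
      apply hx0
      rw [← wp_of_InW hxW, hmm, ← hz, wp_raise_zero (Ft_wt hN)]
    | succ k =>
      have h1 : Ft N *ᵥ wp k z = x := by
        rw [← wp_raise (Ft_wt hN), hz, ← hmm, wp_of_InW hxW]
      exact hmin k (by omega) (eig_push hG hG.f hx0 hx (wp_InW k z) h1)
  rcases Nat.lt_or_ge (2 * m + 1) N with h2 | h2
  · have h3 := QK_rep3 (by omega) W hK
    rw [← hB, hx, QK_smul] at h3
    have h4 := QK_pos (by omega) hK hx0
    have h5 : ‖lam‖ ^ 2 = 1 := by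
      have h6 : (‖lam‖ ^ 2 - 1) * QK N m x = 0 := by linear_combination h3
      have := (mul_eq_zero.1 h6).resolve_right h4.ne'
      linarith
    rw [h5]
    exact hC
  · obtain ⟨y, hyK, hyx⟩ := hnd
    have h3 := cs hmN h2 hyK hK
    have h4 : 0 < ‖Hf x x‖ := by
      rcases (norm_nonneg (Hf x x)).eq_or_lt with h | h
      · exfalso
        rw [← h, mul_zero] at h3
        have h5 : 0 < ‖Hf y x‖ := norm_pos_iff.2 hyx
        nlinarith
      · exact h
    have h5 := hs m hmN h2 x hK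
    rw [hx, Hf_smul_left, Hf_smul_right, norm_mul, norm_mul, RCLike.norm_conj, ← mul_assoc,
      ← sq] at h5
    exact le_of_mul_le_mul_right h5 h4

/-- the trace of a 3-braid at the root of unity -/
theorem trace_gen (hN : 0 < N) {W : List (ℕ × Bool)} {C : ℝ} (hC : 1 ≤ C)
    (hs : ∀ m, m < N → N ≤ 2 * m + 1 → ∀ z : I3 N → ℂ, InK m z →
      ‖Hf (rep3 N W *ᵥ z) (rep3 N W *ᵥ z)‖ ≤ C * ‖Hf z z‖) :
    ‖(rep3 N W).trace‖ ^ 2 ≤ (N : ℝ) ^ 6 * C := by
  set B := rep3 N W with hB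
  have hcard : B.charpoly.roots.card = N ^ 3 := by
    rw [card_roots' B]
    simp only [I3, Fintype.card_prod, Fintype.card_fin]
    ring
  have h1 : ∀ a ∈ B.charpoly.roots, ‖a‖ ≤ Real.sqrt C := by
    intro a ha
    obtain ⟨m, hm⟩ := eig_of_root (good_rep3 _) ha
    exact Real.le_sqrt_of_sq_le (eig_gen hN hC hs hm)
  have h2 := norm_sum_le B.charpoly.roots h1 1
  simp only [pow_one, Multiset.map_id'] at h2
  rw [← Matrix.trace_eq_sum_roots_charpoly B, hcard] at h2
  have h3 := pow_le_pow_left₀ (norm_nonneg _) h2 2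
  refine h3.trans (le_of_eq ?_)
  rw [mul_pow, Real.sq_sqrt (by linarith)]
  push_cast
  ring

/-- **the inequality of Hölder type** -/
theorem holder (hN : 0 < N) {ws : List (List (ℕ × Bool))} (hw : ∀ w ∈ ws, ∀ l ∈ w, l.1 < 2) :
    ‖(rep3 N ws.flatten).trace‖ ^ 2 ≤ (N : ℝ) ^ 6 * ptau N ws :=
  trace_gen hN (one_le_ptau hN ws) fun _ hm h2 _ hz => steps hN hw hm h2 hz

/-! ### half twists -/

/-- `k` half twists -/
def htw : ℤ → List (ℕ × Bool)
  | .ofNat k => (List.replicate k [((0, true) : ℕ × Bool), (1, true), (0, true)]).flatten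
  | .negSucc k => (List.replicate (k + 1) [((0, false) : ℕ × Bool), (1, false), (0, false)]).flatten

lemma unit_word (hN : 0 < N) (b : Bool) (z y : I3 N → ℂ) :
    Hf (rep3 N [(0, b), (1, b), (0, b)] *ᵥ z) (rep3 N [(0, b), (1, b), (0, b)] *ᵥ y) = Hf z y := by
  have hw : ∀ l ∈ [((0, b) : ℕ × Bool), (1, b), (0, b)], l.1 < 2 := by
    intro l hl
    simp only [List.mem_cons, List.not_mem_nil, or_false] at hl
    rcases hl with rfl | rfl | rfl <;> norm_num
  rw [Hf_adj, Matrix.mulVec_mulVec, hadj_rep3 hN hw, ← rep3_append]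
  have e : dual [((0, b) : ℕ × Bool), (1, b), (0, b)] ++ [((0, b) : ℕ × Bool), (1, b), (0, b)] =
      [(1, !b), (0, !b), (1, !b), (0, b), (1, b), (0, b)] := rfl
  have h : rep3 N [(1, !b), (0, !b), (1, !b), (0, b), (1, b), (0, b)] = 1 := by
    cases b
    · simp only [rep3_cons, rep3_nil, mul_one, g3, Bool.not_false, if_true, if_false,
        Bool.false_eq_true, one_ne_zero]
      have h1 : on12 (QQ N) * (on23 (QQ N) * on12 (QQ N)) =
          on23 (QQ N) * (on12 (QQ N) * on23 (QQ N)) := by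
        have q12 : on12 (PP N) * on12 (QQ N) = 1 := by rw [on12_mul, PP_QQ, on12_one]
        have q23 : on23 (PP N) * on23 (QQ N) = 1 := by rw [on23_mul, PP_QQ, on23_one]
        have q12' : on12 (QQ N) * on12 (PP N) = 1 := by rw [on12_mul, QQ_PP, on12_one]
        have q23' : on23 (QQ N) * on23 (PP N) = 1 := by rw [on23_mul, QQ_PP, on23_one]
        have hy := YB3 (N := N)
        have a1 : (on12 (QQ N) * (on23 (QQ N) * on12 (QQ N))) *
            (on12 (PP N) * on23 (PP N) * on12 (PP N)) = 1 := by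
          calc _ = on12 (QQ N) * (on23 (QQ N) * (on12 (QQ N) * on12 (PP N)) * on23 (PP N)) *
                on12 (PP N) := by noncomm_ring
            _ = 1 := by rw [q12', mul_one, q23', mul_one, q12']
        have a2 : (on23 (PP N) * on12 (PP N) * on23 (PP N)) *
            (on23 (QQ N) * (on12 (QQ N) * on23 (QQ N))) = 1 := by
          calc _ = on23 (PP N) * (on12 (PP N) * (on23 (PP N) * on23 (QQ N)) * on12 (QQ N)) *
                on23 (QQ N) := by noncomm_ring
            _ = 1 := by rw [q23, mul_one, q12, mul_one, q23]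
        rw [← hy] at a2
        calc _ = (on12 (QQ N) * (on23 (QQ N) * on12 (QQ N))) *
              ((on12 (PP N) * on23 (PP N) * on12 (PP N)) *
                (on23 (QQ N) * (on12 (QQ N) * on23 (QQ N)))) := by rw [a2, mul_one]
          _ = _ := by rw [← mul_assoc, a1, one_mul]
      rw [h1]
      calc _ = on23 (PP N) * (on12 (PP N) * (on23 (PP N) * on23 (QQ N)) * on12 (QQ N)) *
                on23 (QQ N) := by noncomm_ring
        _ = 1 := by
          rw [on23_mul, PP_QQ, on23_one, mul_one, on12_mul, PP_QQ, on12_one, mul_one, on23_mul,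
            PP_QQ, on23_one]
    · simp only [rep3_cons, rep3_nil, mul_one, g3, Bool.not_true, if_true, if_false,
        Bool.false_eq_true, one_ne_zero]
      have h1 : on12 (PP N) * (on23 (PP N) * on12 (PP N)) =
          on23 (PP N) * (on12 (PP N) * on23 (PP N)) := by
        rw [← mul_assoc, ← mul_assoc, YB3]
      rw [h1]
      calc _ = on23 (QQ N) * (on12 (QQ N) * (on23 (QQ N) * on23 (PP N)) * on12 (PP N)) *
                on23 (PP N) := by noncomm_ring
        _ = 1 := by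
          rw [on23_mul, QQ_PP, on23_one, mul_one, on12_mul, QQ_PP, on12_one, mul_one, on23_mul,
            QQ_PP, on23_one]
  rw [e, h, Matrix.one_mulVec]

lemma unit_rep (hN : 0 < N) (b : Bool) (k : ℕ) (z y : I3 N → ℂ) :
    Hf (rep3 N (List.replicate k [((0, b) : ℕ × Bool), (1, b), (0, b)]).flatten *ᵥ z)
      (rep3 N (List.replicate k [((0, b) : ℕ × Bool), (1, b), (0, b)]).flatten *ᵥ y) = Hf z y := by
  induction k with
  | zero => simp [rep3_nil]
  | succ k ih =>
    rw [List.replicate_succ, List.flatten_cons, rep3_append, ← Matrix.mulVec_mulVec,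
      ← Matrix.mulVec_mulVec, unit_word hN, ih]

lemma unit_htw (hN : 0 < N) (k : ℤ) (z y : I3 N → ℂ) :
    Hf (rep3 N (htw k) *ᵥ z) (rep3 N (htw k) *ᵥ y) = Hf z y := by
  cases k with
  | ofNat k => exact unit_rep hN true k z y
  | negSucc k => exact unit_rep hN false (k + 1) z y

/-- **the inequality of Hölder type, with half twists** -/
theorem holder_htw (hN : 0 < N) (k : ℤ) {ws : List (List (ℕ × Bool))}
    (hw : ∀ w ∈ ws, ∀ l ∈ w, l.1 < 2) :
    ‖(rep3 N (htw k ++ ws.flatten)).trace‖ ^ 2 ≤ (N : ℝ) ^ 6 * ptau N ws := by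
  refine trace_gen hN (one_le_ptau hN ws) fun m hm h2 z hz => ?_
  rw [rep3_append, ← Matrix.mulVec_mulVec, unit_htw hN]
  exact steps hN hw hm h2 hz

end Pool.Agent.R807.Holder
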