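import Pool.Agent.R807.Holder
import Pool.Agent.R807.AxSq
import Pool.Agent.W719.BX.GeoN
import Pool.Agent.W715.VC.Axis
import Pool.Agent.W715.VC.Base
import Pool.Agent.H112R4.VL.B
import Pool.Agent.H112R4.VL.D
import Pool.Agent.H8R3.VL.TaskC
import Pool.Agent.H180R3.EV.Quant

/-!
The growth of the traces of arbitrary 3-braids is bounded by the volumes of the syllables.
-/

set_option autoImplicit false

namespace Pool.Agent.R807.HolderLim

open Matrix Finset Filter Topology Pool.Agent.H550R3.Jones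
open Pool.Agent.W715.VC Pool.Agent.R807.Holder
open Pool.Agent.W719.BX (uA)
open scoped Real

variable {N : ℕ}

lemma rep3_replicate (l : ℕ × Bool) (a : ℕ) : rep3 N (List.replicate a l) = g3 N l ^ a := by
  induction a with
  | zero => rfl
  | succ a ih => rw [List.replicate_succ, rep3_cons, ih, pow_succ']

lemma dual_replicate (l : ℕ × Bool) (a : ℕ) :
    dual (List.replicate a l) = List.replicate a (dl l) := by
  unfold dual
  rw [List.map_replicate, List.reverse_replicate]

lemma Dl_inv : (on12 (QQ N) * on23 (QQ N) * on12 (QQ N)) * Dl N = 1 := by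
  unfold Dl
  have q1 : on12 (QQ N) * on12 (PP N) = 1 := by rw [on12_mul, QQ_PP, Pool.Agent.W715.VC.on12_one]
  have q2 : on23 (QQ N) * on23 (PP N) = 1 := by rw [on23_mul, QQ_PP, Pool.Agent.W715.VC.on23_one]
  calc on12 (QQ N) * on23 (QQ N) * on12 (QQ N) * (on12 (PP N) * on23 (PP N) * on12 (PP N))
      = on12 (QQ N) * (on23 (QQ N) * (on12 (QQ N) * on12 (PP N)) * on23 (PP N)) * on12 (PP N) := by
        noncomm_ring
    _ = 1 := by rw [q1, mul_one, q2, mul_one, q1]

lemma semiconj_pow {D A B : M3 N} (h : D * A = B * D) (a : ℕ) : D * A ^ a = B ^ a * D := by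
  induction a with
  | zero => simp
  | succ a ih =>
    rw [pow_succ, pow_succ]
    calc D * (A ^ a * A) = (D * A ^ a) * A := by noncomm_ring
      _ = B ^ a * (D * A) := by rw [ih]; noncomm_ring
      _ = B ^ a * B * D := by rw [h]; noncomm_ring

lemma trace_flip (a : ℕ) : (on12 (PP N) ^ a * on23 (QQ N) ^ a).trace =
    (on23 (PP N) ^ a * on12 (QQ N) ^ a).trace := by
  have h1 : Dl N * (on12 (PP N) ^ a * on23 (QQ N) ^ a) =
      (on23 (PP N) ^ a * on12 (QQ N) ^ a) * Dl N := by
    have e1 := semiconj_pow (D := Dl N) (Dl_P12 (N := N)) a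
    have e2 := semiconj_pow (D := Dl N) (Dl_Q23 (N := N)) a
    calc Dl N * (on12 (PP N) ^ a * on23 (QQ N) ^ a)
        = (Dl N * on12 (PP N) ^ a) * on23 (QQ N) ^ a := by noncomm_ring
      _ = on23 (PP N) ^ a * (Dl N * on23 (QQ N) ^ a) := by rw [e1]; noncomm_ring
      _ = (on23 (PP N) ^ a * on12 (QQ N) ^ a) * Dl N := by rw [e2]; noncomm_ring
  set D' := on12 (QQ N) * on23 (QQ N) * on12 (QQ N) with hD'
  have h2 : D' * Dl N = 1 := Dl_inv
  calc (on12 (PP N) ^ a * on23 (QQ N) ^ a).trace
      = (D' * (Dl N * (on12 (PP N) ^ a * on23 (QQ N) ^ a))).trace := by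
        rw [← mul_assoc, h2, one_mul]
    _ = (Dl N * D' * (on23 (PP N) ^ a * on12 (QQ N) ^ a)).trace := by
        rw [h1, ← mul_assoc, Matrix.trace_mul_comm, ← mul_assoc]
    _ = _ := by rw [mul_eq_one_comm.1 h2, one_mul]

/-- the bound of a syllable depends only on the exponent -/
lemma tau_syl {l : ℕ × Bool} (hl : l.1 < 2) (a : ℕ) :
    tau N (List.replicate a l) = tau N (uA a) := by
  unfold tau uA
  congr 2
  rw [dual_replicate, dual_replicate, rep3_append, rep3_append, rep3_replicate, rep3_replicate,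
    rep3_replicate, rep3_replicate]
  obtain ⟨k, b⟩ := l
  have hk : k = 0 ∨ k = 1 := by simp only at hl; omega
  rcases hk with rfl | rfl <;> cases b
  · simp only [dl, g3, Bool.not_false, if_true, if_false, Bool.false_eq_true, Nat.sub_zero,
      one_ne_zero, Bool.not_true]
    rw [trace_flip, Matrix.trace_mul_comm]
  · rfl
  · simp only [dl, g3, Bool.not_false, if_true, if_false, Bool.false_eq_true, Nat.sub_zero,
      one_ne_zero, Bool.not_true, Nat.sub_self]
    rw [Matrix.trace_mul_comm]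
  · simp only [dl, g3, if_true, if_false, Bool.false_eq_true, Nat.sub_zero,
      one_ne_zero, Bool.not_true, Nat.sub_self]
    rw [trace_flip]

/-- `tau` of the syllable of length `a` grows at most with the rate `L` -/
def GrowthLe (L : ℝ) (a : ℕ) : Prop :=
  ∀ ε : ℝ, 0 < ε → ∀ᶠ N : ℕ in atTop, tau N (uA a) ≤ Real.exp (N * ((L + ε) / (2 * π)))

/-- polynomials are smaller than exponentials -/
lemma poly_le {ε : ℝ} (hε : 0 < ε) (C : ℝ) (d : ℕ) :
    ∀ᶠ N : ℕ in atTop, C * (N : ℝ) ^ d ≤ Real.exp (N * ε) := by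
  have h1 : Tendsto (fun x : ℝ => x ^ d * Real.exp (-ε * x)) atTop (𝓝 0) := by
    have := tendsto_rpow_mul_exp_neg_mul_atTop_nhds_zero d ε hε
    refine this.congr' ?_
    filter_upwards with x
    rw [Real.rpow_natCast]
  have h2 : Tendsto (fun N : ℕ => C * ((N : ℝ) ^ d * Real.exp (-ε * N))) atTop (𝓝 (C * 0)) :=
    (h1.comp tendsto_natCast_atTop_atTop).const_mul C
  rw [mul_zero] at h2
  filter_upwards [h2.eventually (gt_mem_nhds (show (0 : ℝ) < 1 by norm_num))] with N hN
  have h3 : Real.exp (-ε * N) = (Real.exp (N * ε))⁻¹ := by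
    rw [← Real.exp_neg]
    congr 1
    ring
  rw [h3, ← mul_assoc, ← div_eq_mul_inv, div_lt_one (Real.exp_pos _)] at hN
  exact hN.le

lemma growthLe_of_tendsto {L : ℝ} (hL : 0 ≤ L) {a : ℕ}
    (h : Tendsto (fun N : ℕ => 2 * Real.pi / N * Real.log ‖(rep3 N (uA a ++ dual (uA a))).trace‖)
      atTop (𝓝 L)) : GrowthLe L a := by
  intro ε hε
  have hpi := Real.pi_pos
  have h1 := h.eventually (gt_mem_nhds (show L < L + ε / 2 by linarith))
  filter_upwards [h1, poly_le (ε := ε / 2 / (2 * π)) (by positivity) 2 3, eventually_ge_atTop 1]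
    with N h2 h3 h4
  have hN : (0 : ℝ) < N := by exact_mod_cast (show 0 < N by omega)
  have hN1 : (1 : ℝ) ≤ N := by exact_mod_cast h4
  have h5 : ‖(rep3 N (uA a ++ dual (uA a))).trace‖ ≤
      Real.exp (N * ((L + ε / 2) / (2 * π))) := by
    rcases (norm_nonneg (rep3 N (uA a ++ dual (uA a))).trace).eq_or_lt with h6 | h6
    · rw [← h6]; exact (Real.exp_pos _).le
    · rw [← Real.log_le_iff_le_exp h6]
      have h7 := mul_le_mul_of_nonneg_left h2.le (show 0 ≤ (N : ℝ) / (2 * π) by positivity)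
      have e1 : (N : ℝ) / (2 * π) * (2 * π / N * Real.log ‖(rep3 N (uA a ++ dual (uA a))).trace‖) =
          Real.log ‖(rep3 N (uA a ++ dual (uA a))).trace‖ := by
        field_simp
      rw [e1] at h7
      refine h7.trans (le_of_eq ?_)
      ring
  have h6 : (1 : ℝ) ≤ Real.exp (N * ((L + ε / 2) / (2 * π))) := Real.one_le_exp (by positivity)
  have h7 : (1 : ℝ) ≤ (N : ℝ) ^ 3 := one_le_pow₀ hN1
  have e2 : Real.exp (N * ((L + ε) / (2 * π))) =
      Real.exp (N * ((L + ε / 2) / (2 * π))) * Real.exp (N * (ε / 2 / (2 * π))) := by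
    rw [← Real.exp_add]
    congr 1
    ring
  rw [e2]
  unfold tau
  calc ‖(rep3 N (uA a ++ dual (uA a))).trace‖ + (N : ℝ) ^ 3
      ≤ Real.exp (N * ((L + ε / 2) / (2 * π))) * (N : ℝ) ^ 3 +
        Real.exp (N * ((L + ε / 2) / (2 * π))) * (N : ℝ) ^ 3 := by
        refine add_le_add (h5.trans ?_) ?_
        · exact le_mul_of_one_le_right (by positivity) h7
        · exact le_mul_of_one_le_left (by positivity) h6
    _ = Real.exp (N * ((L + ε / 2) / (2 * π))) * (2 * (N : ℝ) ^ 3) := by ring
    _ ≤ _ := mul_le_mul_of_nonneg_left h3 (Real.exp_pos _).le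

lemma hu_rep {l : ℕ × Bool} (hl : l.1 < 2) (a : ℕ) : ∀ x ∈ List.replicate a l, x.1 < 2 := by
  intro x hx
  rw [List.eq_of_mem_replicate hx]
  exact hl

/-- the bound for a product of two powers -/
lemma tau_add (hN : 0 < N) (a b : ℕ) :
    tau N (uA (a + b)) ≤ 2 * (N : ℝ) ^ 3 * (tau N (uA a) * tau N (uA b)) := by
  have h1 : uA (a + b) ++ dual (uA (a + b)) =
      ([uA a, uA b, List.replicate b (1, false), List.replicate a (1, false)] :
        List (List (ℕ × Bool))).flatten := by
    unfold uA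
    rw [dual_replicate]
    have e : dl ((0, true) : ℕ × Bool) = (1, false) := rfl
    have e2 : List.replicate (a + b) ((1, false) : ℕ × Bool) =
        List.replicate b (1, false) ++ List.replicate a (1, false) := by
      rw [← List.replicate_add, add_comm]
    have e3 : List.replicate (a + b) ((0, true) : ℕ × Bool) =
        List.replicate a (0, true) ++ List.replicate b (0, true) := by
      rw [← List.replicate_add]
    rw [e, e2, e3]
    simp only [List.flatten_cons, List.flatten_nil, List.append_nil, List.append_assoc]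
  have h2 := holder hN (ws := [uA a, uA b, List.replicate b (1, false),
    List.replicate a (1, false)]) (by
      intro w hw
      simp only [List.mem_cons, List.not_mem_nil, or_false] at hw
      rcases hw with rfl | rfl | rfl | rfl
      · exact hu_rep (by norm_num) a
      · exact hu_rep (by norm_num) b
      · exact hu_rep (by norm_num) b
      · exact hu_rep (by norm_num) a)
  rw [← h1] at h2
  have h3 : ptau N [uA a, uA b, List.replicate b (1, false), List.replicate a (1, false)] =
      (tau N (uA a) * tau N (uA b)) ^ 2 := by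
    simp only [ptau, List.map_cons, List.map_nil, List.prod_cons, List.prod_nil, mul_one]
    rw [tau_syl (l := (1, false)) (by norm_num) a, tau_syl (l := (1, false)) (by norm_num) b]
    ring
  rw [h3] at h2
  have h4 : ‖(rep3 N (uA (a + b) ++ dual (uA (a + b)))).trace‖ ≤
      (N : ℝ) ^ 3 * (tau N (uA a) * tau N (uA b)) := by
    have h5 : 0 ≤ (N : ℝ) ^ 3 * (tau N (uA a) * tau N (uA b)) :=
      mul_nonneg (by positivity) (mul_nonneg (tau_nonneg _) (tau_nonneg _))
    refine le_of_sq_le_sq ?_ h5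
    refine h2.trans (le_of_eq ?_)
    ring
  have h5 : (N : ℝ) ^ 3 ≤ (N : ℝ) ^ 3 * (tau N (uA a) * tau N (uA b)) := by
    refine le_mul_of_one_le_right (by positivity) ?_
    exact one_le_mul_of_one_le_of_one_le (one_le_tau hN _) (one_le_tau hN _)
  conv_lhs => unfold tau
  linarith

lemma GrowthLe.add {L L' : ℝ} {a b : ℕ} (h : GrowthLe L a) (h' : GrowthLe L' b) :
    GrowthLe (L + L') (a + b) := by
  intro ε hε
  have hpi := Real.pi_pos
  filter_upwards [h (ε / 3) (by positivity), h' (ε / 3) (by positivity),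
    poly_le (ε := ε / 3 / (2 * π)) (by positivity) 2 3, eventually_gt_atTop 0] with N h1 h2 h3 h4
  refine (tau_add h4 a b).trans ?_
  have e : Real.exp (N * ((L + L' + ε) / (2 * π))) = Real.exp (N * (ε / 3 / (2 * π))) *
      (Real.exp (N * ((L + ε / 3) / (2 * π))) * Real.exp (N * ((L' + ε / 3) / (2 * π)))) := by
    rw [← Real.exp_add, ← Real.exp_add]
    congr 1
    ring
  rw [e]
  refine mul_le_mul h3 ?_ (mul_nonneg (tau_nonneg _) (tau_nonneg _)) (Real.exp_pos _).le
  exact mul_le_mul h1 h2 (tau_nonneg _) (Real.exp_pos _).le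

/-- a syllable: the generator, the sign, the exponent -/
def syl (s : ℕ × Bool × ℕ) : List (ℕ × Bool) := List.replicate s.2.2 (s.1, s.2.1)

lemma ptau_le {V : ℕ → ℝ} (hV : ∀ a, 1 ≤ a → GrowthLe (V a) a) (s : List (ℕ × Bool × ℕ))
    (hs : ∀ x ∈ s, x.1 < 2 ∧ 1 ≤ x.2.2) {ε : ℝ} (hε : 0 < ε) :
    ∀ᶠ N : ℕ in atTop, ptau N (s.map syl) ≤
      Real.exp (N * (((s.map fun x => V x.2.2).sum + s.length * ε) / (2 * π))) := by
  induction s with
  | nil => simp [ptau]
  | cons x s ih =>
    have h1 := ih fun y hy => hs y (List.mem_cons_of_mem _ hy)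
    obtain ⟨h2, h3⟩ := hs x List.mem_cons_self
    filter_upwards [h1, hV _ h3 ε hε] with N h4 h5
    have e : ptau N ((x :: s).map syl) = tau N (uA x.2.2) * ptau N (s.map syl) := by
      simp only [ptau, List.map_cons, List.prod_cons]
      congr 1
      exact tau_syl (l := (x.1, x.2.1)) h2 _
    have e2 : Real.exp (N * ((((x :: s).map fun x => V x.2.2).sum +
        (x :: s).length * ε) / (2 * π))) = Real.exp (N * ((V x.2.2 + ε) / (2 * π))) *
        Real.exp (N * (((s.map fun x => V x.2.2).sum + s.length * ε) / (2 * π))) := by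
      rw [← Real.exp_add]
      congr 1
      rw [List.map_cons, List.sum_cons, List.length_cons]
      push_cast
      ring
    rw [e, e2]
    refine mul_le_mul h5 h4 ?_ (Real.exp_pos _).le
    unfold ptau
    refine List.prod_nonneg fun y hy => ?_
    rw [List.mem_map] at hy
    obtain ⟨w, -, rfl⟩ := hy
    exact tau_nonneg w

/-- **the upper bound for the growth** -/
theorem growth {V : ℕ → ℝ} (hV0 : ∀ a, 1 ≤ a → 0 ≤ V a) (hV : ∀ a, 1 ≤ a → GrowthLe (V a) a)
    (k : ℤ) (s : List (ℕ × Bool × ℕ)) (hs : ∀ x ∈ s, x.1 < 2 ∧ 1 ≤ x.2.2) {ε : ℝ} (hε : 0 < ε) :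
    ∀ᶠ N : ℕ in atTop, 2 * π / N * Real.log ‖(rep3 N (htw k ++ (s.map syl).flatten)).trace‖ ≤
      (s.map fun x => V x.2.2).sum / 2 + ε := by
  have hpi := Real.pi_pos
  have hsum : 0 ≤ (s.map fun x => V x.2.2).sum := by
    refine List.sum_nonneg fun y hy => ?_
    rw [List.mem_map] at hy
    obtain ⟨x, hx, rfl⟩ := hy
    exact hV0 _ (hs x hx).2
  set δ : ℝ := ε / (s.length + 1) with hδ
  have hlen : (0 : ℝ) < s.length + 1 := by positivity
  have hδ0 : 0 < δ := by positivity
  have hδ1 : s.length * δ ≤ ε := by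
    rw [hδ, ← mul_div_assoc, div_le_iff₀ hlen]
    nlinarith
  filter_upwards [ptau_le hV s hs hδ0, poly_le (ε := ε / (2 * π)) (by positivity) 1 6,
    eventually_gt_atTop 0] with N h1 h2 h3
  have hN : (0 : ℝ) < N := by exact_mod_cast h3
  rcases (norm_nonneg (rep3 N (htw k ++ (s.map syl).flatten)).trace).eq_or_lt with h4 | h4
  · rw [← h4, Real.log_zero, mul_zero]
    linarith
  · have h5 := holder_htw h3 k (ws := s.map syl) (by
      intro w hw
      rw [List.mem_map] at hw
      obtain ⟨x, hx, rfl⟩ := hw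
      exact hu_rep (l := (x.1, x.2.1)) (hs x hx).1 _)
    rw [one_mul] at h2
    have h6 := h5.trans (mul_le_mul h2 h1 (by linarith [one_le_ptau h3 (s.map syl)])
      (Real.exp_pos _).le)
    rw [← Real.exp_add] at h6
    have h7 := (Real.log_le_iff_le_exp (by positivity)).2 h6
    rw [Real.log_pow] at h7
    push_cast at h7
    have h8 := mul_le_mul_of_nonneg_left h7 (show 0 ≤ π / (N : ℝ) by positivity)
    have e1 : π / (N : ℝ) * (2 * Real.log ‖(rep3 N (htw k ++ (s.map syl).flatten)).trace‖) =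
        2 * π / N * Real.log ‖(rep3 N (htw k ++ (s.map syl).flatten)).trace‖ := by ring
    have e2 : π / (N : ℝ) * (N * (ε / (2 * π)) +
        N * (((s.map fun x => V x.2.2).sum + s.length * δ) / (2 * π))) =
        (s.map fun x => V x.2.2).sum / 2 + (ε + s.length * δ) / 2 := by
      field_simp
      ring
    rw [e1, e2] at h8
    linarith

/-! ### the volumes of the syllables -/

lemma lob_six_pos : 0 < GapVol.lob (π / 6) := by
  have h1 : 0 < 2 / Real.pi * GapVol.lob (Real.pi / 6) := Pool.Agent.H180R3.EV.V4_pos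
  exact (mul_pos_iff_of_pos_left (div_pos two_pos Real.pi_pos)).1 h1

lemma growth_one : GrowthLe (8 * GapVol.lob (π / 6)) 1 := by
  refine growthLe_of_tendsto (by have := lob_six_pos; linarith) ?_
  refine (Pool.Agent.H112R4.VL.taskD Pool.Agent.H112R4.VL.taskB
    Pool.Agent.H8R3.VL.taskC).congr' ?_
  filter_upwards [eventually_gt_atTop 0] with N hN
  have h4 : uA 1 ++ dual (uA 1) = [(0, true), (1, false)] := rfl
  rw [h4, Pool.Agent.W715.VC.trace_base hN, Complex.norm_real, Real.norm_eq_abs, abs_of_nonneg]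
  exact Finset.sum_nonneg (fun n _ => by positivity)

lemma growth_two : GrowthLe (16 * GapVol.lob (π / 4)) 2 :=
  growthLe_of_tendsto Pool.Agent.R807.AxSq.vol_pos.le Pool.Agent.R807.AxSq.trace_growth

lemma growth_three : GrowthLe (8 * GapVol.lob (π / 6) + 16 * GapVol.lob (π / 4)) 3 := by
  have h := growth_one.add growth_two
  have e : (1 : ℕ) + 2 = 3 := rfl
  rwa [e] at h

open Pool.Agent.W719.BX in
lemma growth_four {a : ℕ} (ha : 4 ≤ a) : ∃ V : ℝ,
    IsGreatest {W : ℝ | ∃ w, bAngleN a 1 w ∧ bvolN a 1 w = W} V ∧ 0 ≤ V ∧ GrowthLe V a := by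
  obtain ⟨V, h1, h2, h3⟩ := mainN ha le_rfl
  have h4 := lob_six_pos
  have hV : 0 ≤ V := by
    rw [Nat.cast_one, one_mul] at h2
    linarith
  refine ⟨V, h1, hV, growthLe_of_tendsto hV ?_⟩
  refine h3.congr' ?_
  filter_upwards with N
  rw [rep3_wpow, pow_one]

end Pool.Agent.R807.HolderLim
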