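import Pool.Agent.TH98.ZT.Amen

set_option autoImplicit false
set_option linter.unusedSectionVars false

open scoped Matrix ENNReal

namespace Pool.Agent.R807.IP

open Pool.Agent.TH98.ZT (bd coact adjoint_L_apply hasSum_norm_sq)
open Pool.Agent.H919R4.ZS (FinRes RedC toRed L lregL lregL_apply L_single valR act coe_toRed L2)

noncomputable section

variable {G : Type} [Group G]

/-! ### vectors -/

lemma act_bound {a b : ℕ} (S : Matrix (Fin a) (Fin b) (L2 G →L[ℂ] L2 G)) (v : Fin b → L2 G) :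
    ∑ k, ‖act S v k‖ ^ 2 ≤ (∑ k, ∑ l, ‖S k l‖ ^ 2) * ∑ l, ‖v l‖ ^ 2 := by
  rw [Finset.sum_mul]
  refine Finset.sum_le_sum fun k _ => ?_
  have e1 : ‖act S v k‖ ≤ ∑ l, ‖S k l‖ * ‖v l‖ :=
    (norm_sum_le _ _).trans (Finset.sum_le_sum fun l _ => ContinuousLinearMap.le_opNorm _ _)
  refine (pow_le_pow_left₀ (norm_nonneg _) e1 2).trans ?_
  exact Finset.sum_mul_sq_le_sq_mul_sq _ _ _

lemma inner_bound {n : ℕ} (x y : Fin n → L2 G) {t : ℝ} (ht : 0 < t) :
    (∑ k, inner ℂ (x k) (y k)).re ≤ t⁻¹ * ∑ k, ‖x k‖ ^ 2 + t * ∑ k, ‖y k‖ ^ 2 := by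
  rw [Complex.re_sum, Finset.mul_sum, Finset.mul_sum, ← Finset.sum_add_distrib]
  refine Finset.sum_le_sum fun k _ => ?_
  have h1 : (inner ℂ (x k) (y k)).re ≤ ‖x k‖ * ‖y k‖ :=
    (Complex.re_le_norm _).trans (norm_inner_le_norm _ _)
  have h2 : t⁻¹ * ‖x k‖ ^ 2 + t * ‖y k‖ ^ 2 - 2 * (‖x k‖ * ‖y k‖) =
      t⁻¹ * (‖x k‖ - t * ‖y k‖) ^ 2 := by
    field_simp
    ring
  have h3 : 0 ≤ t⁻¹ * (‖x k‖ - t * ‖y k‖) ^ 2 := by positivity
  have h4 : 0 ≤ ‖x k‖ * ‖y k‖ := by positivity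
  linarith

lemma sum_inner_act {m a : ℕ} (P : Matrix (Fin m) (Fin a) (L2 G →L[ℂ] L2 G)) (u : Fin m → L2 G)
    (v : Fin a → L2 G) :
    ∑ j, inner ℂ (u j) (act P v j) = ∑ k, inner ℂ (coact P u k) (v k) := by
  calc ∑ j, inner ℂ (u j) (act P v j) = ∑ j, ∑ k, inner ℂ (u j) (P j k (v k)) := by
        refine Finset.sum_congr rfl fun j _ => ?_
        change inner ℂ (u j) (∑ k, P j k (v k)) = _
        rw [inner_sum]
    _ = ∑ k, ∑ j, inner ℂ (u j) (P j k (v k)) := Finset.sum_comm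
    _ = ∑ k, inner ℂ (coact P u k) (v k) := by
        refine Finset.sum_congr rfl fun k _ => ?_
        rw [coact, sum_inner]
        refine Finset.sum_congr rfl fun j _ => ?_
        rw [ContinuousLinearMap.adjoint_inner_left]

/-- the inequality on vectors -/
lemma vec_ineq {m a b : ℕ} (P : Matrix (Fin m) (Fin a) (L2 G →L[ℂ] L2 G))
    (S' : Matrix (Fin a) (Fin m) (L2 G →L[ℂ] L2 G)) (S : Matrix (Fin m) (Fin b) (L2 G →L[ℂ] L2 G))
    (R : Matrix (Fin b) (Fin m) (L2 G →L[ℂ] L2 G)) (h : P * S' + S * R = 1) :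
    ∃ K : ℝ, 0 ≤ K ∧ ∀ (u w : Fin m → L2 G) (t : ℝ), 0 < t →
      (∑ j, inner ℂ (u j) (w j)).re ≤ K * (t * (∑ j, ‖u j‖ ^ 2 + ∑ j, ‖w j‖ ^ 2) +
        t⁻¹ * (∑ k, ‖coact P u k‖ ^ 2 + ∑ k, ‖act R w k‖ ^ 2)) := by
  set K1 : ℝ := ∑ k, ∑ l, ‖S' k l‖ ^ 2 with hK1
  set K2 : ℝ := ∑ k, ∑ l, ‖S k l‖ ^ 2 with hK2
  have hK10 : 0 ≤ K1 := Finset.sum_nonneg fun _ _ => Finset.sum_nonneg fun _ _ => by positivity
  have hK20 : 0 ≤ K2 := Finset.sum_nonneg fun _ _ => Finset.sum_nonneg fun _ _ => by positivity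
  refine ⟨1 + K1 + K2, by positivity, ?_⟩
  intro u w t ht
  have hti : 0 < t⁻¹ := inv_pos.2 ht
  have h1 : ∀ j, w j = act P (act S' w) j + act S (act R w) j := by
    intro j
    have e1 := congrArg (fun M => act M w) h
    change act (P * S' + S * R) w = act 1 w at e1
    rw [Pool.Agent.H919R4.ZS.act_add, Pool.Agent.H919R4.ZS.act_mul, Pool.Agent.H919R4.ZS.act_mul,
      Pool.Agent.H919R4.ZS.act_one] at e1
    exact (congrFun e1 j).symm
  have h2 : ∑ j, inner ℂ (u j) (w j) = ∑ k, inner ℂ (coact P u k) (act S' w k) +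
      ∑ j, inner ℂ (u j) (act S (act R w) j) := by
    rw [← sum_inner_act, ← Finset.sum_add_distrib]
    refine Finset.sum_congr rfl fun j _ => ?_
    rw [← inner_add_right, ← h1]
  have h3 := inner_bound (coact P u) (act S' w) ht
  have h4 := inner_bound u (act S (act R w)) hti
  rw [inv_inv] at h4
  have h5 := act_bound S' w
  have h6 := act_bound S (act R w)
  rw [← hK1] at h5
  rw [← hK2] at h6
  rw [h2, Complex.add_re]
  set A := ∑ j, ‖u j‖ ^ 2 with hA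
  set B := ∑ j, ‖w j‖ ^ 2 with hB
  set E := ∑ k, ‖coact P u k‖ ^ 2 with hE
  set F := ∑ k, ‖act R w k‖ ^ 2 with hF
  have hA0 : 0 ≤ A := Finset.sum_nonneg fun _ _ => by positivity
  have hB0 : 0 ≤ B := Finset.sum_nonneg fun _ _ => by positivity
  have hE0 : 0 ≤ E := Finset.sum_nonneg fun _ _ => by positivity
  have hF0 : 0 ≤ F := Finset.sum_nonneg fun _ _ => by positivity
  have h7 : t * ∑ k, ‖act S' w k‖ ^ 2 ≤ t * (K1 * B) := mul_le_mul_of_nonneg_left h5 ht.le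
  have h8 : t⁻¹ * ∑ k, ‖act S (act R w) k‖ ^ 2 ≤ t⁻¹ * (K2 * F) :=
    mul_le_mul_of_nonneg_left h6 hti.le
  have e : (1 + K1 + K2) * (t * (A + B) + t⁻¹ * (E + F)) =
      (t⁻¹ * E + t * (K1 * B)) + (t * A + t⁻¹ * (K2 * F)) +
      (t * B + t⁻¹ * F + (K1 + K2) * (t * A) + K2 * (t * B) + (K1 + K2) * (t⁻¹ * E) +
        K1 * (t⁻¹ * F)) := by ring
  have h9 : 0 ≤ t * B + t⁻¹ * F + (K1 + K2) * (t * A) + K2 * (t * B) + (K1 + K2) * (t⁻¹ * E) +
        K1 * (t⁻¹ * F) := by positivity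
  rw [e]
  linarith

/-! ### evaluation of elements of the group ring -/

/-- the action of an element of the group ring from the right -/
def rt {W : Type} [AddCommGroup W] (a : MonoidAlgebra ℤ G) (F : G → W) (x : G) : W :=
  ∑ g ∈ a.coeff.support, a.coeff g • F (x * g⁻¹)

lemma bd_eq {W : Type} [AddCommGroup W] {a b : ℕ}
    (D : Matrix (Fin a) (Fin b) (MonoidAlgebra ℤ G)) (f : Fin a → G → W) (k : Fin b) (x : G) :
    bd D f k x = ∑ j, rt (D j k) (f j) x := rfl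

lemma rt_zero {W : Type} [AddCommGroup W] (F : G → W) (x : G) :
    rt (0 : MonoidAlgebra ℤ G) F x = 0 := by
  simp [rt]

lemma rt_single {W : Type} [AddCommGroup W] (g : G) (c : ℤ) (F : G → W) (x : G) :
    rt (MonoidAlgebra.single g c) F x = c • F (x * g⁻¹) := by
  rw [rt]
  exact Finsupp.sum_single_index (h := fun g (c : ℤ) => c • F (x * g⁻¹)) (zero_smul _ _)

/-- the involution of the group ring -/
def iv (a : MonoidAlgebra ℤ G) : MonoidAlgebra ℤ G :=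
  MonoidAlgebra.mapDomain (fun g : G => g⁻¹) a

lemma rt_iv {W : Type} [AddCommGroup W] (a : MonoidAlgebra ℤ G) (F : G → W) (x : G) :
    rt (iv a) F x = ∑ g ∈ a.coeff.support, a.coeff g • F (x * g) := by
  have h := Finsupp.sum_mapDomain_index (f := fun g : G => g⁻¹) (s := a.coeff)
    (h := fun g (c : ℤ) => c • F (x * g⁻¹)) (fun _ => zero_smul _ _) (fun _ _ _ => add_smul _ _ _)
  rw [Finsupp.sum, Finsupp.sum] at h
  simp only [inv_inv] at h
  exact h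

end

end Pool.Agent.R807.IP
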