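import Pool.Agent.R807.IP1

set_option autoImplicit false
set_option linter.unusedSectionVars false

open scoped Matrix ENNReal

namespace Pool.Agent.R807.IP

open Pool.Agent.TH98.ZT (bd coact adjoint_L_apply hasSum_norm_sq)
open Pool.Agent.H919R4.ZS (FinRes RedC toRed L lregL lregL_apply L_single valR act coe_toRed L2)

noncomputable section

variable {G : Type} [Group G] {m a b : ℕ}

/-- The coboundary: `(cobd D f) j x = ∑_k ∑_g (D j k)_g • f k (x g)`, where `D j k = ∑_g (D j k)_g g`.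
It is the adjoint of `bd D` for the pairing of chains. -/
def cobd {W : Type} [AddCommGroup W] {a b : ℕ} (D : Matrix (Fin a) (Fin b) (MonoidAlgebra ℤ G))
    (f : Fin b → G → W) : Fin a → G → W :=
  fun j x => ∑ k, ∑ g ∈ (D j k).coeff.support, (D j k).coeff g • f k (x * g)

/-- sums of the two parts -/
def ep (G : Type) [Group G] (m : ℕ) : Matrix (Fin (m + m)) (Fin m) (MonoidAlgebra ℤ G) := fun p k =>
  Fin.addCases (fun j => if j = k then MonoidAlgebra.single 1 1 else 0)
    (fun j => if j = k then MonoidAlgebra.single 1 1 else 0) p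

/-- differences of the two parts -/
def em (G : Type) [Group G] (m : ℕ) : Matrix (Fin (m + m)) (Fin m) (MonoidAlgebra ℤ G) := fun p k =>
  Fin.addCases (fun j => if j = k then MonoidAlgebra.single 1 1 else 0)
    (fun j => if j = k then MonoidAlgebra.single 1 (-1) else 0) p

/-- a matrix acting on the first part -/
def lft (D : Matrix (Fin m) (Fin a) (MonoidAlgebra ℤ G)) :
    Matrix (Fin (m + m)) (Fin a) (MonoidAlgebra ℤ G) := fun p k =>
  Fin.addCases (fun j => D j k) (fun _ => 0) p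

/-- the adjoint matrix acting on the second part -/
def rgt (R : Matrix (Fin b) (Fin m) (MonoidAlgebra ℤ G)) :
    Matrix (Fin (m + m)) (Fin b) (MonoidAlgebra ℤ G) := fun p k =>
  Fin.addCases (fun _ => 0) (fun j => iv (R k j)) p

section

variable {W : Type} [AddCommGroup W] (F : Fin (m + m) → G → W)

lemma bd_ep (k : Fin m) (x : G) :
    bd (ep G m) F k x = F (Fin.castAdd m k) x + F (Fin.natAdd m k) x := by
  rw [bd_eq, Fin.sum_univ_add]
  congr 1
  · rw [Finset.sum_eq_single k]
    · simp only [ep, Fin.addCases_left, if_true]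
      rw [rt_single, one_smul, inv_one, mul_one]
    · intro j _ hj
      simp only [ep, Fin.addCases_left, if_neg hj]
      exact rt_zero _ _
    · intro h; exact absurd (Finset.mem_univ k) h
  · rw [Finset.sum_eq_single k]
    · simp only [ep, Fin.addCases_right, if_true]
      rw [rt_single, one_smul, inv_one, mul_one]
    · intro j _ hj
      simp only [ep, Fin.addCases_right, if_neg hj]
      exact rt_zero _ _
    · intro h; exact absurd (Finset.mem_univ k) h

lemma bd_em (k : Fin m) (x : G) :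
    bd (em G m) F k x = F (Fin.castAdd m k) x - F (Fin.natAdd m k) x := by
  rw [bd_eq, Fin.sum_univ_add, sub_eq_add_neg]
  congr 1
  · rw [Finset.sum_eq_single k]
    · simp only [em, Fin.addCases_left, if_true]
      rw [rt_single, one_smul, inv_one, mul_one]
    · intro j _ hj
      simp only [em, Fin.addCases_left, if_neg hj]
      exact rt_zero _ _
    · intro h; exact absurd (Finset.mem_univ k) h
  · rw [Finset.sum_eq_single k]
    · simp only [em, Fin.addCases_right, if_true]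
      rw [rt_single, neg_smul, one_smul, inv_one, mul_one]
    · intro j _ hj
      simp only [em, Fin.addCases_right, if_neg hj]
      exact rt_zero _ _
    · intro h; exact absurd (Finset.mem_univ k) h

lemma bd_lft (D : Matrix (Fin m) (Fin a) (MonoidAlgebra ℤ G)) (k : Fin a) (x : G) :
    bd (lft D) F k x = bd D (fun j => F (Fin.castAdd m j)) k x := by
  rw [bd_eq, bd_eq, Fin.sum_univ_add]
  have h : ∑ i : Fin m, rt (lft D (Fin.natAdd m i) k) (F (Fin.natAdd m i)) x = 0 :=
    Finset.sum_eq_zero fun j _ => by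
      simp only [lft, Fin.addCases_right]
      exact rt_zero _ _
  rw [h, add_zero]
  refine Finset.sum_congr rfl fun j _ => ?_
  simp only [lft, Fin.addCases_left]

lemma bd_rgt (R : Matrix (Fin b) (Fin m) (MonoidAlgebra ℤ G)) (k : Fin b) (x : G) :
    bd (rgt R) F k x = cobd R (fun j => F (Fin.natAdd m j)) k x := by
  rw [bd_eq, cobd, Fin.sum_univ_add]
  have h : ∑ i : Fin m, rt (rgt R (Fin.castAdd m i) k) (F (Fin.castAdd m i)) x = 0 :=
    Finset.sum_eq_zero fun j _ => by
      simp only [rgt, Fin.addCases_left]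
      exact rt_zero _ _
  rw [h, zero_add]
  refine Finset.sum_congr rfl fun j _ => ?_
  simp only [rgt, Fin.addCases_right]
  exact rt_iv _ _ _

end

lemma norm_of {v : L2 G} {φ : G → ℂ} {c : ℝ} (hv : ∀ x, v x = φ x⁻¹)
    (hc : HasSum (fun x => ‖φ x‖ ^ 2) c) : ‖v‖ ^ 2 = c := by
  have e1 : (fun x => ‖v x‖ ^ 2) = (fun x => ‖φ x‖ ^ 2) ∘ (Equiv.inv G) := by
    funext x
    rw [hv]
    rfl
  exact (hasSum_norm_sq v).unique (e1 ▸ (Equiv.inv G).hasSum_iff.2 hc)

lemma exists_vec {φ : G → ℂ} {c : ℝ} (hc : HasSum (fun x => ‖φ x‖ ^ 2) c) :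
    ∃ v : L2 G, ∀ x, v x = φ x⁻¹ := by
  have hmem : Memℓp (fun x : G => φ x⁻¹) 2 := by
    have h1 : Summable fun x => ‖φ x⁻¹‖ ^ 2 := (Equiv.inv G).summable_iff.2 hc.summable
    refine memℓp_gen ?_
    have h4 : (2 : ENNReal).toReal = ((2 : ℕ) : ℝ) := by norm_num
    simp only [h4, Real.rpow_natCast]
    exact h1
  exact ⟨⟨fun x => φ x⁻¹, hmem⟩, fun x => rfl⟩

lemma L_apply (c : MonoidAlgebra ℤ G) (v : L2 G) (x : G) :
    L c v x = ∑ g ∈ c.coeff.support, c.coeff g • v (g⁻¹ * x) := by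
  have h1 : L c = ∑ g ∈ c.coeff.support, (c.coeff g : ℂ) • lregL g := by
    conv_lhs => rw [← MonoidAlgebra.sum_coeff_single c]
    rw [Finsupp.sum, map_sum]
    refine Finset.sum_congr rfl fun g _ => ?_
    rw [L_single, Int.cast_smul_eq_zsmul]
  rw [h1, sum_apply, lp.coeFn_sum, Finset.sum_apply]
  refine Finset.sum_congr rfl fun g _ => ?_
  rw [smul_apply, lp.coeFn_smul, Pi.smul_apply, lregL_apply]
  simp

/-- **the inequality for functions on `G`** -/
theorem bound2 (P : Matrix (Fin m) (Fin a) (MonoidAlgebra ℤ G))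
    (R : Matrix (Fin b) (Fin m) (MonoidAlgebra ℤ G)) (S' : Matrix (Fin a) (Fin m) (RedC G))
    (S : Matrix (Fin m) (Fin b) (RedC G))
    (h : P.map (toRed G) * S' + S * R.map (toRed G) = 1) :
    ∃ K : ℝ, 0 ≤ K ∧ ∀ t : ℝ, 0 < t → ∀ (F : Fin (m + m) → G → ℂ) (α : Fin (m + m) → ℝ)
      (βp βm : Fin m → ℝ) (γ : Fin a → ℝ) (δ : Fin b → ℝ),
      (∀ j, HasSum (fun x => ‖F j x‖ ^ 2) (α j)) →
      (∀ k, HasSum (fun x => ‖bd (ep G m) F k x‖ ^ 2) (βp k)) →
      (∀ k, HasSum (fun x => ‖bd (em G m) F k x‖ ^ 2) (βm k)) →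
      (∀ k, HasSum (fun x => ‖bd (lft P) F k x‖ ^ 2) (γ k)) →
      (∀ k, HasSum (fun x => ‖bd (rgt R) F k x‖ ^ 2) (δ k)) →
      ∑ k, βp k - ∑ k, βm k ≤ K * (t * ∑ j, α j + t⁻¹ * (∑ k, γ k + ∑ k, δ k)) := by
  have key1 : (P.map (toRed G)).map (valR (G := G)) = P.map (L (G := G)) := by
    refine funext fun j => funext fun k => ?_
    exact coe_toRed (P j k)
  have key2 : (R.map (toRed G)).map (valR (G := G)) = R.map (L (G := G)) := by
    refine funext fun j => funext fun k => ?_
    exact coe_toRed (R j k)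
  have f0 := Pool.Agent.H919R4.ZS.map_ident (valR (G := G)) _ _ _ _ h
  rw [key1, key2] at f0
  obtain ⟨K, hK, hineq⟩ := vec_ineq _ _ _ _ f0
  refine ⟨4 * K, by positivity, ?_⟩
  intro t ht F α βp βm γ δ hα hβp hβm hγ hδ
  choose v hv using fun j => exists_vec (hα j)
  set u : Fin m → L2 G := fun j => v (Fin.castAdd m j) with hu
  set w : Fin m → L2 G := fun j => v (Fin.natAdd m j) with hw
  have h1 : ∀ j, ‖v j‖ ^ 2 = α j := fun j => norm_of (hv j) (hα j)
  have h2 : ∀ k, ‖u k + w k‖ ^ 2 = βp k := fun k => norm_of (fun x => by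
    rw [bd_ep, lp.coeFn_add, Pi.add_apply, hu, hw]
    simp only [hv]) (hβp k)
  have h3 : ∀ k, ‖u k - w k‖ ^ 2 = βm k := fun k => norm_of (fun x => by
    rw [bd_em, lp.coeFn_sub, Pi.sub_apply, hu, hw]
    simp only [hv]) (hβm k)
  have h4 : ∀ k, ‖coact (P.map (L (G := G))) u k‖ ^ 2 = γ k := fun k => norm_of (fun x => by
    rw [bd_lft, coact, lp.coeFn_sum, Finset.sum_apply, bd]
    refine Finset.sum_congr rfl fun j _ => ?_
    rw [Matrix.map_apply, adjoint_L_apply]
    refine Finset.sum_congr rfl fun g _ => ?_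
    rw [hu]
    simp only [hv, mul_inv_rev]) (hγ k)
  have h5 : ∀ k, ‖act (R.map (L (G := G))) w k‖ ^ 2 = δ k := fun k => norm_of (fun x => by
    rw [bd_rgt, act, lp.coeFn_sum, Finset.sum_apply, cobd]
    refine Finset.sum_congr rfl fun j _ => ?_
    rw [Matrix.map_apply, L_apply]
    refine Finset.sum_congr rfl fun g _ => ?_
    rw [hw]
    simp only [hv, mul_inv_rev, inv_inv]) (hδ k)
  have h6 := hineq u w t ht
  simp only [h4, h5] at h6
  have h7 : ∑ j, ‖u j‖ ^ 2 + ∑ j, ‖w j‖ ^ 2 = ∑ j, α j := by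
    rw [Fin.sum_univ_add]
    simp only [hu, hw, h1]
  rw [h7, Complex.re_sum] at h6
  have h8 : ∑ k, βp k - ∑ k, βm k = 4 * ∑ k, (inner ℂ (u k) (w k) : ℂ).re := by
    rw [← Finset.sum_sub_distrib, Finset.mul_sum]
    refine Finset.sum_congr rfl fun k _ => ?_
    rw [← h2, ← h3, @norm_add_sq ℂ, @norm_sub_sq ℂ]
    simp only [RCLike.re_eq_complex_re]
    ring
  rw [h8]
  linarith

end

end Pool.Agent.R807.IP
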