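import Pool.Agent.R807.IP2

set_option autoImplicit false
set_option linter.unusedSectionVars false

open scoped Matrix ENNReal

namespace Pool.Agent.R807.IP

open Pool.Agent.TH98.ZT (bd AA BB AA_ker BB_ker ker ext eq_ext ext_equi ext_supp ext_at exists_reps
  exists_reps_bd hasSum_orbit bd_ext_equi reg URep Tempered regCoef IsChn transl)
open Pool.Agent.H919R4.ZS (FinRes RedC toRed)

noncomputable section

variable {G : Type} [Group G] {C : Subgroup G} {m a b : ℕ} {T T' : Finset G}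

lemma hasSum_bd (x : Fin a × T → Pool.Agent.TH98.ZT.L2 C)
    (D : Matrix (Fin a) (Fin b) (MonoidAlgebra ℤ G))
    (hT' : ∀ t ∈ T', ∀ t' ∈ T', t * t'⁻¹ ∈ C → t = t')
    (hTT : ∀ (k : Fin b) (y : G), bd D (ext reg x) k y ≠ 0 → ∃ t ∈ T', y * t⁻¹ ∈ C) (k : Fin b) :
    HasSum (fun y => ‖bd D (fun j y => ext reg x j y 1) k y‖ ^ 2)
      (∑ y ∈ T', ‖bd D (ext reg x) k y‖ ^ 2) := by
  have h2 := hasSum_orbit (bd D (ext reg x) k)
    (fun c y => bd_ext_equi reg D (ext reg x) (fun j c y => ext_equi reg x j c y) k c y) T' hT'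
    (hTT k)
  have e : (fun y => ‖bd D (fun j y => ext reg x j y 1) k y‖ ^ 2) =
      fun y => ‖bd D (ext reg x) k y 1‖ ^ 2 := by
    funext y
    congr 2
    rw [bd, bd, lp.coeFn_sum, Finset.sum_apply]
    refine Finset.sum_congr rfl fun j _ => ?_
    rw [lp.coeFn_sum, Finset.sum_apply]
    refine Finset.sum_congr rfl fun g _ => ?_
    rfl
  rw [e]
  exact h2

lemma supp_ep {W : Type} [AddCommGroup W] (f : Fin (m + m) → G → W)
    (hs : ∀ (j : Fin (m + m)) (x : G), f j x ≠ 0 → ∃ t ∈ T, x * t⁻¹ ∈ C) (k : Fin m) (x : G)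
    (h : bd (ep G m) f k x ≠ 0) : ∃ t ∈ T, x * t⁻¹ ∈ C := by
  rw [bd_ep] at h
  by_cases h1 : f (Fin.castAdd m k) x = 0
  · by_cases h2 : f (Fin.natAdd m k) x = 0
    · rw [h1, h2, add_zero] at h
      exact absurd rfl h
    · exact hs _ _ h2
  · exact hs _ _ h1

lemma supp_em {W : Type} [AddCommGroup W] (f : Fin (m + m) → G → W)
    (hs : ∀ (j : Fin (m + m)) (x : G), f j x ≠ 0 → ∃ t ∈ T, x * t⁻¹ ∈ C) (k : Fin m) (x : G)
    (h : bd (em G m) f k x ≠ 0) : ∃ t ∈ T, x * t⁻¹ ∈ C := by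
  rw [bd_em] at h
  by_cases h1 : f (Fin.castAdd m k) x = 0
  · by_cases h2 : f (Fin.natAdd m k) x = 0
    · rw [h1, h2, sub_zero] at h
      exact absurd rfl h
    · exact hs _ _ h2
  · exact hs _ _ h1

/-- the inequality for the regular representation -/
lemma reg_ineq2 {K t : ℝ} (P : Matrix (Fin m) (Fin a) (MonoidAlgebra ℤ G))
    (R : Matrix (Fin b) (Fin m) (MonoidAlgebra ℤ G))
    (hK : ∀ (F : Fin (m + m) → G → ℂ) (α : Fin (m + m) → ℝ)
      (βp βm : Fin m → ℝ) (γ : Fin a → ℝ) (δ : Fin b → ℝ),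
      (∀ j, HasSum (fun x => ‖F j x‖ ^ 2) (α j)) →
      (∀ k, HasSum (fun x => ‖bd (ep G m) F k x‖ ^ 2) (βp k)) →
      (∀ k, HasSum (fun x => ‖bd (em G m) F k x‖ ^ 2) (βm k)) →
      (∀ k, HasSum (fun x => ‖bd (lft P) F k x‖ ^ 2) (γ k)) →
      (∀ k, HasSum (fun x => ‖bd (rgt R) F k x‖ ^ 2) (δ k)) →
      ∑ k, βp k - ∑ k, βm k ≤ K * (t * ∑ j, α j + t⁻¹ * (∑ k, γ k + ∑ k, δ k)))
    {T1 T2 : Finset G}
    (hT : ∀ t ∈ T, ∀ t' ∈ T, t * t'⁻¹ ∈ C → t = t')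
    (hT1 : ∀ t ∈ T1, ∀ t' ∈ T1, t * t'⁻¹ ∈ C → t = t')
    (hT2 : ∀ t ∈ T2, ∀ t' ∈ T2, t * t'⁻¹ ∈ C → t = t')
    (x : Fin (m + m) × T → Pool.Agent.TH98.ZT.L2 C)
    (hTT1 : ∀ (k : Fin a) (y : G), bd (lft P) (ext reg x) k y ≠ 0 → ∃ t ∈ T1, y * t⁻¹ ∈ C)
    (hTT2 : ∀ (k : Fin b) (y : G), bd (rgt R) (ext reg x) k y ≠ 0 → ∃ t ∈ T2, y * t⁻¹ ∈ C) :
    (BB C T T (ep G m) (ker reg x)).re - (BB C T T (em G m) (ker reg x)).re ≤
      K * (t * (AA C T (m + m) (ker reg x)).re +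
        t⁻¹ * ((BB C T T1 (lft P) (ker reg x)).re + (BB C T T2 (rgt R) (ker reg x)).re)) := by
  rw [AA_ker, BB_ker, BB_ker, BB_ker, BB_ker, Complex.ofReal_re, Complex.ofReal_re,
    Complex.ofReal_re, Complex.ofReal_re, Complex.ofReal_re]
  have h1 := hK (fun j y => ext reg x j y 1) (fun j => ∑ t ∈ T, ‖ext reg x j t‖ ^ 2)
    (fun k => ∑ y ∈ T, ‖bd (ep G m) (ext reg x) k y‖ ^ 2)
    (fun k => ∑ y ∈ T, ‖bd (em G m) (ext reg x) k y‖ ^ 2)
    (fun k => ∑ y ∈ T1, ‖bd (lft P) (ext reg x) k y‖ ^ 2)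
    (fun k => ∑ y ∈ T2, ‖bd (rgt R) (ext reg x) k y‖ ^ 2)
    (fun j => hasSum_orbit (ext reg x j) (fun c y => ext_equi reg x j c y) T hT
      (fun y hy => ext_supp reg x j y hy))
    (hasSum_bd x _ hT (supp_ep _ fun j y hy => ext_supp reg x j y hy))
    (hasSum_bd x _ hT (supp_em _ fun j y hy => ext_supp reg x j y hy))
    (hasSum_bd x _ hT1 hTT1) (hasSum_bd x _ hT2 hTT2)
  have h3 : ∀ j, ∑ t : T, ‖x (j, t)‖ ^ 2 = ∑ t ∈ T, ‖ext reg x j t‖ ^ 2 := by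
    intro j
    rw [← Finset.sum_coe_sort T]
    refine Finset.sum_congr rfl fun t _ => ?_
    rw [ext_at reg hT x j t]
  simp only [h3]
  exact h1

/-- **the inequality for tempered representations** -/
theorem tempered_ineq (P : Matrix (Fin m) (Fin a) (MonoidAlgebra ℤ G))
    (R : Matrix (Fin b) (Fin m) (MonoidAlgebra ℤ G)) (S' : Matrix (Fin a) (Fin m) (RedC G))
    (S : Matrix (Fin m) (Fin b) (RedC G))
    (h : P.map (toRed G) * S' + S * R.map (toRed G) = 1) :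
    ∃ K : ℝ, 0 ≤ K ∧ ∀ (C : Subgroup G) (V : Type) [NormedAddCommGroup V] [InnerProductSpace ℂ V]
      (π : URep C V), Tempered π → ∀ (t : ℝ), 0 < t → ∀ (T T1 T2 : Finset G),
      (∀ t ∈ T, ∀ t' ∈ T, t * t'⁻¹ ∈ C → t = t') →
      (∀ t ∈ T1, ∀ t' ∈ T1, t * t'⁻¹ ∈ C → t = t') →
      (∀ t ∈ T2, ∀ t' ∈ T2, t * t'⁻¹ ∈ C → t = t') →
      (∀ f : Fin (m + m) → G → Pool.Agent.TH98.ZT.L2 C,
        (∀ (j : Fin (m + m)) (x : G), f j x ≠ 0 → ∃ t ∈ T, x * t⁻¹ ∈ C) →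
        ∀ (k : Fin a) (x : G), bd (lft P) f k x ≠ 0 → ∃ t ∈ T1, x * t⁻¹ ∈ C) →
      (∀ f : Fin (m + m) → G → Pool.Agent.TH98.ZT.L2 C,
        (∀ (j : Fin (m + m)) (x : G), f j x ≠ 0 → ∃ t ∈ T, x * t⁻¹ ∈ C) →
        ∀ (k : Fin b) (x : G), bd (rgt R) f k x ≠ 0 → ∃ t ∈ T2, x * t⁻¹ ∈ C) →
      ∀ f : Fin (m + m) → G → V,
      (∀ (j : Fin (m + m)) (c : C) (x : G), f j (c * x) = π.hom c (f j x)) →
      (∀ (j : Fin (m + m)) (x : G), f j x ≠ 0 → ∃ t ∈ T, x * t⁻¹ ∈ C) →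
      (∑ k, ∑ y ∈ T, ‖bd (ep G m) f k y‖ ^ 2) - ∑ k, ∑ y ∈ T, ‖bd (em G m) f k y‖ ^ 2 ≤
        K * (t * ∑ j, ∑ y ∈ T, ‖f j y‖ ^ 2 + t⁻¹ * ((∑ k, ∑ y ∈ T1, ‖bd (lft P) f k y‖ ^ 2) +
          ∑ k, ∑ y ∈ T2, ‖bd (rgt R) f k y‖ ^ 2)) := by
  obtain ⟨K, hK0, hK⟩ := bound2 P R S' S h
  refine ⟨K, hK0, ?_⟩
  intro C V _ _ π hπ t ht T T1 T2 hT hT1 hT2 hTT1 hTT2 f hf hs
  have hfe := eq_ext π.hom hT f hf hs
  set v : Fin (m + m) × T → V := fun p => f p.1 p.2 with hv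
  have h1 : ker π.hom v ∈ closure {κ : (Fin (m + m) × T) × (Fin (m + m) × T) × C → ℂ |
      ∃ (N : ℕ) (w : Fin (m + m) × T → Fin N → Pool.Agent.TH98.ZT.L2 C), κ = regCoef w} :=
    hπ (Fin (m + m) × T) v
  have h2 : IsClosed {κ : (Fin (m + m) × T) × (Fin (m + m) × T) × C → ℂ |
      (BB C T T (ep G m) κ).re - (BB C T T (em G m) κ).re ≤
      K * (t * (AA C T (m + m) κ).re +
        t⁻¹ * ((BB C T T1 (lft P) κ).re + (BB C T T2 (rgt R) κ).re))} := by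
    refine isClosed_le ?_ ?_
    · exact (Complex.continuous_re.comp (BB C T T (ep G m)).continuous).sub
        (Complex.continuous_re.comp (BB C T T (em G m)).continuous)
    · refine continuous_const.mul ?_
      refine (continuous_const.mul (Complex.continuous_re.comp (AA C T (m + m)).continuous)).add ?_
      exact continuous_const.mul ((Complex.continuous_re.comp (BB C T T1 (lft P)).continuous).add
        (Complex.continuous_re.comp (BB C T T2 (rgt R)).continuous))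
  have h3 : ker π.hom v ∈ {κ : (Fin (m + m) × T) × (Fin (m + m) × T) × C → ℂ |
      (BB C T T (ep G m) κ).re - (BB C T T (em G m) κ).re ≤
      K * (t * (AA C T (m + m) κ).re +
        t⁻¹ * ((BB C T T1 (lft P) κ).re + (BB C T T2 (rgt R) κ).re))} := by
    refine closure_minimal ?_ h2 h1
    rintro _ ⟨N, w, rfl⟩
    have e1 : regCoef w = ∑ a, ker reg (fun q => w q a) := by
      funext p
      rw [Finset.sum_apply]
      rfl
    change (BB C T T (ep G m) _).re - (BB C T T (em G m) _).re ≤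
      K * (t * (AA C T (m + m) _).re +
        t⁻¹ * ((BB C T T1 (lft P) _).re + (BB C T T2 (rgt R) _).re))
    rw [e1, map_sum, map_sum, map_sum, map_sum, map_sum, Complex.re_sum, Complex.re_sum,
      Complex.re_sum, Complex.re_sum, Complex.re_sum, ← Finset.sum_sub_distrib,
      ← Finset.sum_add_distrib, Finset.mul_sum, Finset.mul_sum, ← Finset.sum_add_distrib,
      Finset.mul_sum]
    refine Finset.sum_le_sum fun c _ => ?_
    exact reg_ineq2 P R (hK t ht) hT hT1 hT2 (fun q => w q c)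
      (hTT1 _ fun j y hy => ext_supp reg _ j y hy) (hTT2 _ fun j y hy => ext_supp reg _ j y hy)
  change (BB C T T (ep G m) (ker π.hom v)).re - (BB C T T (em G m) (ker π.hom v)).re ≤
      K * (t * (AA C T (m + m) (ker π.hom v)).re +
        t⁻¹ * ((BB C T T1 (lft P) (ker π.hom v)).re + (BB C T T2 (rgt R) (ker π.hom v)).re)) at h3
  rw [AA_ker, BB_ker, BB_ker, BB_ker, BB_ker, Complex.ofReal_re, Complex.ofReal_re,
    Complex.ofReal_re, Complex.ofReal_re, Complex.ofReal_re, ← hfe] at h3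
  have h4 : ∀ j, ∑ t : T, ‖v (j, t)‖ ^ 2 = ∑ t ∈ T, ‖f j t‖ ^ 2 := by
    intro j
    rw [← Finset.sum_coe_sort T]
  simp only [h4] at h3
  exact h3

end

end Pool.Agent.R807.IP
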