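import Pool.Agent.R807.IP3

set_option autoImplicit false
set_option linter.unusedSectionVars false

open scoped Matrix ENNReal

namespace Pool.Agent.R807.IP

open Pool.Agent.TH98.ZT (bd exists_reps exists_reps_bd URep Tempered IsChn cyc chains bdHom)
open Pool.Agent.H919R4.ZS (FinRes RedC toRed)

noncomputable section

variable {G : Type} [Group G]

section defs

variable {V : Type} [NormedAddCommGroup V] [InnerProductSpace ℂ V]

/-- The pairing of two tuples of equivariant functions `z j, y j : G → V`, one of which vanishes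
outside finitely many cosets `C x`: the sum `∑_j ∑_q ⟪z j x, y j x⟫` over the cosets `q = C x` of `C`
in `G`, i.e. over all cells of the covering `M_C`. -/
def pairing (C : Subgroup G) {m : ℕ} (z y : Fin m → G → V) : ℂ :=
  ∑ j, ∑ᶠ q : Quotient (QuotientGroup.rightRel C),
    @inner ℂ V InnerProductSpace.toInner (z j q.out) (y j q.out)

/-- The square of the norm of a tuple of equivariant functions: the sum of `‖z j x‖ ^ 2` over `j` and
over the cosets `C x` of `C` in `G`. -/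
def nsq (C : Subgroup G) {m : ℕ} (z : Fin m → G → V) : ℝ :=
  ∑ j, ∑ᶠ q : Quotient (QuotientGroup.rightRel C), ‖z j q.out‖ ^ 2

/-- The square of the norm of the boundary of an `i`-chain (zero for `i = 0`). -/
def bsq (X : FinRes G) (C : Subgroup G) : ∀ i : ℕ, (Fin (X.n i) → G → V) → ℝ
  | 0, _ => 0
  | i + 1, z => nsq C (bd (X.d i) z)

/-- The tuple `y` is an `i`-cocycle with finite support of the covering `M_C` with fundamental group
`C`, with values in the local system of `π`: it consists of `π`-equivariant functions, which vanish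
outside finitely many cosets `C x`, and its coboundary is zero. -/
def IsCocyc (X : FinRes G) {C : Subgroup G} (π : URep C V) (i : ℕ) (y : Fin (X.n i) → G → V) :
    Prop :=
  IsChn π y ∧ cobd (X.d i) y = 0

/-- Zero is in the spectrum of the Laplace operator on the square-integrable `i`-chains of `M_C` with
coefficients in `π`: for every `ε > 0` there is a chain `z` with finite support and
`‖∂z‖² + ‖δz‖² < ε ‖z‖²`. -/
def ZeroInSpec (X : FinRes G) {C : Subgroup G} (π : URep C V) (i : ℕ) : Prop :=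
  ∀ ε : ℝ, 0 < ε → ∃ z : Fin (X.n i) → G → V, IsChn π z ∧
    bsq X C i z + nsq C (cobd (X.d i) z) < ε * nsq C z

end defs

variable {C : Subgroup G} {m a b : ℕ} {T T' : Finset G}

lemma out_mem (C : Subgroup G) (g : G) :
    (Quotient.mk (QuotientGroup.rightRel C) g).out * g⁻¹ ∈ C := by
  have h1 : Quotient.mk (QuotientGroup.rightRel C) (Quotient.mk (QuotientGroup.rightRel C) g).out =
      Quotient.mk (QuotientGroup.rightRel C) g := Quotient.out_eq _
  have h2 := Quotient.exact h1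
  have h3 := (QuotientGroup.rightRel_apply).1 h2
  have e : (Quotient.mk (QuotientGroup.rightRel C) g).out * g⁻¹ =
      (g * (Quotient.mk (QuotientGroup.rightRel C) g).out⁻¹)⁻¹ := by group
  rw [e]
  exact C.inv_mem h3

/-- sums over the cosets -/
lemma finsum_cosets {β : Type} [AddCommMonoid β] (φ : G → β) (hφ : ∀ (c : C) (x : G), φ (c * x) = φ x)
    (hT : ∀ t ∈ T, ∀ t' ∈ T, t * t'⁻¹ ∈ C → t = t') (hs : ∀ x, φ x ≠ 0 → ∃ t ∈ T, x * t⁻¹ ∈ C) :
    ∑ᶠ q : Quotient (QuotientGroup.rightRel C), φ q.out = ∑ t ∈ T, φ t := by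
  classical
  set r : G → Quotient (QuotientGroup.rightRel C) :=
    fun g => Quotient.mk (QuotientGroup.rightRel C) g with hr
  have h1 : ∀ g : G, φ (r g).out = φ g := by
    intro g
    have e : (r g).out = ((⟨(r g).out * g⁻¹, out_mem C g⟩ : C) : G) * g := by
      change (r g).out = (r g).out * g⁻¹ * g
      rw [inv_mul_cancel_right]
    rw [e, hφ]
  have hinj : Set.InjOn r (T : Set G) := by
    intro t ht t' ht' h
    have h2 := (QuotientGroup.rightRel_apply).1 (Quotient.exact h)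
    exact (hT t' ht' t ht h2).symm
  have h3 : Function.support (fun q : Quotient (QuotientGroup.rightRel C) => φ q.out) ⊆
      ((T.image r : Finset _) : Set _) := by
    intro q hq
    obtain ⟨t, ht, hC⟩ := hs _ hq
    refine Finset.mem_coe.2 (Finset.mem_image.2 ⟨t, ht, ?_⟩)
    rw [← Quotient.out_eq q]
    exact Quotient.sound (QuotientGroup.rightRel_apply.2 hC)
  rw [finsum_eq_sum_of_support_subset _ h3, Finset.sum_image hinj]
  exact Finset.sum_congr rfl fun t _ => h1 t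

section unitary

variable {V : Type} [NormedAddCommGroup V] [InnerProductSpace ℂ V] (ρ : C →* (V ≃ₗᵢ[ℂ] V))

lemma nsq_eq (z : Fin m → G → V) (hz : ∀ (j : Fin m) (c : C) (x : G), z j (c * x) = ρ c (z j x))
    (hT : ∀ t ∈ T, ∀ t' ∈ T, t * t'⁻¹ ∈ C → t = t')
    (hs : ∀ (j : Fin m) (x : G), z j x ≠ 0 → ∃ t ∈ T, x * t⁻¹ ∈ C) :
    nsq C z = ∑ j, ∑ t ∈ T, ‖z j t‖ ^ 2 := by
  refine Finset.sum_congr rfl fun j _ => ?_
  refine finsum_cosets (fun x => ‖z j x‖ ^ 2) (fun c x => ?_) hT (fun x hx => hs j x ?_)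
  · rw [hz, LinearIsometryEquiv.norm_map]
  · intro h0
    apply hx
    change ‖z j x‖ ^ 2 = 0
    rw [h0, norm_zero]
    norm_num

lemma pairing_eq (z y : Fin m → G → V)
    (hz : ∀ (j : Fin m) (c : C) (x : G), z j (c * x) = ρ c (z j x))
    (hy : ∀ (j : Fin m) (c : C) (x : G), y j (c * x) = ρ c (y j x))
    (hT : ∀ t ∈ T, ∀ t' ∈ T, t * t'⁻¹ ∈ C → t = t')
    (hs : ∀ (j : Fin m) (x : G), z j x ≠ 0 → ∃ t ∈ T, x * t⁻¹ ∈ C) :
    pairing C z y = ∑ j, ∑ t ∈ T, inner ℂ (z j t) (y j t) := by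
  refine Finset.sum_congr rfl fun j _ => ?_
  refine finsum_cosets (fun x => inner ℂ (z j x) (y j x)) (fun c x => ?_) hT (fun x hx => hs j x ?_)
  · rw [hz, hy, LinearIsometryEquiv.inner_map_map]
  · intro h0
    apply hx
    change inner ℂ (z j x) (y j x) = 0
    rw [h0, inner_zero_left]

end unitary

lemma cobd_equi {V : Type} [NormedAddCommGroup V] [InnerProductSpace ℂ V]
    (ρ : C →* (V ≃ₗᵢ[ℂ] V)) (R : Matrix (Fin b) (Fin m) (MonoidAlgebra ℤ G)) (f : Fin m → G → V)
    (hf : ∀ (j : Fin m) (c : C) (x : G), f j (c * x) = ρ c (f j x)) (k : Fin b) (c : C) (x : G) :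
    cobd R f k (c * x) = ρ c (cobd R f k x) := by
  simp only [cobd, map_sum, map_zsmul]
  refine Finset.sum_congr rfl fun j _ => Finset.sum_congr rfl fun g _ => ?_
  rw [mul_assoc, hf]

/-- **the inequality for pairs of chains with values in a tempered representation** -/
theorem pair_ineq (P : Matrix (Fin m) (Fin a) (MonoidAlgebra ℤ G))
    (R : Matrix (Fin b) (Fin m) (MonoidAlgebra ℤ G)) (S' : Matrix (Fin a) (Fin m) (RedC G))
    (S : Matrix (Fin m) (Fin b) (RedC G))
    (h : P.map (toRed G) * S' + S * R.map (toRed G) = 1) :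
    ∃ K : ℝ, 0 ≤ K ∧ ∀ (C : Subgroup G) (V : Type) [NormedAddCommGroup V] [InnerProductSpace ℂ V]
      (π : URep C V), Tempered π → ∀ z y : Fin m → G → V, IsChn π z → IsChn π y →
      ∀ t : ℝ, 0 < t → 4 * (pairing C z y).re ≤
        K * (t * (nsq C z + nsq C y) + t⁻¹ * (nsq C (bd P z) + nsq C (cobd R y))) := by
  classical
  obtain ⟨K, hK0, hK⟩ := tempered_ineq P R S' S h
  refine ⟨K, hK0, ?_⟩
  intro C V _ _ π hπ z y hz hy t ht
  obtain ⟨hz1, Tz, hTz⟩ := hz
  obtain ⟨hy1, Ty, hTy⟩ := hy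
  obtain ⟨T, hT, hST⟩ := exists_reps C (Tz ∪ Ty)
  have hsz : ∀ (j : Fin m) (x : G), z j x ≠ 0 → ∃ t ∈ T, x * t⁻¹ ∈ C := by
    intro j x hx
    obtain ⟨s, hs, hsC⟩ := hTz j x hx
    obtain ⟨t, ht, htC⟩ := hST s (Finset.mem_union_left _ hs)
    refine ⟨t, ht, ?_⟩
    have e : x * t⁻¹ = (x * s⁻¹) * (s * t⁻¹) := by group
    rw [e]
    exact C.mul_mem hsC htC
  have hsy : ∀ (j : Fin m) (x : G), y j x ≠ 0 → ∃ t ∈ T, x * t⁻¹ ∈ C := by
    intro j x hx
    obtain ⟨s, hs, hsC⟩ := hTy j x hx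
    obtain ⟨t, ht, htC⟩ := hST s (Finset.mem_union_right _ hs)
    refine ⟨t, ht, ?_⟩
    have e : x * t⁻¹ = (x * s⁻¹) * (s * t⁻¹) := by group
    rw [e]
    exact C.mul_mem hsC htC
  obtain ⟨T1, hT1, hTT1⟩ := exists_reps_bd C T (lft P)
  obtain ⟨T2, hT2, hTT2⟩ := exists_reps_bd C T (rgt R)
  set f : Fin (m + m) → G → V := Fin.append z y with hfdef
  have hfl : ∀ j : Fin m, f (Fin.castAdd m j) = z j := fun j => Fin.append_left _ _ _
  have hfr : ∀ j : Fin m, f (Fin.natAdd m j) = y j := fun j => Fin.append_right _ _ _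
  have hf1 : ∀ (j : Fin (m + m)) (c : C) (x : G), f j (c * x) = π.hom c (f j x) := by
    intro j
    refine Fin.addCases (fun j c x => ?_) (fun j c x => ?_) j
    · rw [hfl]; exact hz1 j c x
    · rw [hfr]; exact hy1 j c x
  have hfs : ∀ (j : Fin (m + m)) (x : G), f j x ≠ 0 → ∃ t ∈ T, x * t⁻¹ ∈ C := by
    intro j
    refine Fin.addCases (fun j x => ?_) (fun j x => ?_) j
    · rw [hfl]; exact hsz j x
    · rw [hfr]; exact hsy j x
  have el : bd (lft P) f = bd P z := by
    funext k x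
    rw [bd_lft]
    simp only [hfl]
  have er : bd (rgt R) f = cobd R y := by
    funext k x
    rw [bd_rgt]
    simp only [hfr]
  have key := hK C V π hπ t ht T T1 T2 hT hT1 hT2 (fun f hf => hTT1 f hf) (fun f hf => hTT2 f hf)
    f hf1 hfs
  have e1 : nsq C (bd P z) = ∑ k, ∑ y ∈ T1, ‖bd (lft P) f k y‖ ^ 2 := by
    rw [← el]
    exact nsq_eq π.hom _ (Pool.Agent.TH98.ZT.bd_ext_equi π.hom (lft P) f hf1) hT1
      (hTT1 f hfs)
  have e2 : nsq C (cobd R y) = ∑ k, ∑ y ∈ T2, ‖bd (rgt R) f k y‖ ^ 2 := by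
    rw [← er]
    exact nsq_eq π.hom _ (Pool.Agent.TH98.ZT.bd_ext_equi π.hom (rgt R) f hf1) hT2
      (hTT2 f hfs)
  have e3 : nsq C z + nsq C y = ∑ j, ∑ y ∈ T, ‖f j y‖ ^ 2 := by
    rw [nsq_eq π.hom z hz1 hT hsz, nsq_eq π.hom y hy1 hT hsy, Fin.sum_univ_add]
    simp only [hfl, hfr]
  have e4 : 4 * (pairing C z y).re =
      (∑ k, ∑ y ∈ T, ‖bd (ep G m) f k y‖ ^ 2) - ∑ k, ∑ y ∈ T, ‖bd (em G m) f k y‖ ^ 2 := by
    rw [pairing_eq π.hom z y hz1 hy1 hT hsz, Complex.re_sum, Finset.mul_sum,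
      ← Finset.sum_sub_distrib]
    refine Finset.sum_congr rfl fun k _ => ?_
    rw [Complex.re_sum, Finset.mul_sum, ← Finset.sum_sub_distrib]
    refine Finset.sum_congr rfl fun x _ => ?_
    rw [bd_ep, bd_em, hfl, hfr, @norm_add_sq ℂ, @norm_sub_sq ℂ]
    simp only [RCLike.re_eq_complex_re]
    ring
  rw [e1, e2, e3, e4]
  exact key

end

end Pool.Agent.R807.IP
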