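import Pool.Agent.R807.IP4

set_option autoImplicit false
set_option linter.unusedSectionVars false

open scoped Matrix ENNReal

namespace Pool.Agent.R807.IP

open Pool.Agent.TH98.ZT (bd exists_reps URep Tempered IsChn cyc chains bdHom tempered_of_amenable)
open Pool.Agent.H919R4.ZS (FinRes RedC toRed)
open Pool.Agent.H496R3.ZS (IsAmenable)

noncomputable section

variable {G : Type} [Group G]

section

variable {C : Subgroup G} {V : Type} [NormedAddCommGroup V] [InnerProductSpace ℂ V] {m a b : ℕ}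

lemma isChn_smul {π : URep C V} {f : Fin m → G → V} (hf : IsChn π f) (c : ℂ) :
    IsChn π (fun j x => c • f j x) := by
  obtain ⟨h1, T, hT⟩ := hf
  refine ⟨fun j d x => ?_, T, fun j x hx => hT j x ?_⟩
  · change c • f j (d * x) = π.hom d (c • f j x)
    rw [h1, map_smul]
    rfl
  · intro h0
    apply hx
    change c • f j x = 0
    rw [h0, smul_zero]

lemma bd_smul (D : Matrix (Fin a) (Fin b) (MonoidAlgebra ℤ G)) (f : Fin a → G → V) (c : ℂ)
    (h : bd D f = 0) : bd D (fun j x => c • f j x) = 0 := by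
  funext k x
  have h1 : bd D f k x = 0 := by rw [h]; rfl
  have h2 : bd D (fun j x => c • f j x) k x = c • bd D f k x := by
    simp only [bd, Finset.smul_sum]
    refine Finset.sum_congr rfl fun j _ => Finset.sum_congr rfl fun g _ => ?_
    rw [smul_comm]
  rw [h2, h1, smul_zero]
  rfl

lemma pairing_smul {π : URep C V} {z y : Fin m → G → V} (hz : IsChn π z) (hy : IsChn π y) (c : ℂ) :
    pairing C (fun j x => c • z j x) y = (starRingEnd ℂ) c * pairing C z y := by
  obtain ⟨hz1, S, hS⟩ := hz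
  obtain ⟨T, hT, hST⟩ := exists_reps C S
  have hs : ∀ (j : Fin m) (x : G), z j x ≠ 0 → ∃ t ∈ T, x * t⁻¹ ∈ C := by
    intro j x hx
    obtain ⟨s, hs, hsC⟩ := hS j x hx
    obtain ⟨t, ht, htC⟩ := hST s hs
    refine ⟨t, ht, ?_⟩
    have e : x * t⁻¹ = (x * s⁻¹) * (s * t⁻¹) := by group
    rw [e]
    exact C.mul_mem hsC htC
  have h1 : IsChn π (fun j x => c • z j x) := isChn_smul ⟨hz1, S, hS⟩ c
  rw [pairing_eq π.hom z y hz1 hy.1 hT hs, pairing_eq π.hom (fun j x => c • z j x) y h1.1 hy.1 hT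
    (fun j x hx => hs j x (fun h0 => hx (by rw [h0, smul_zero])))]
  rw [Finset.mul_sum]
  refine Finset.sum_congr rfl fun j _ => ?_
  rw [Finset.mul_sum]
  refine Finset.sum_congr rfl fun t _ => ?_
  rw [inner_smul_left]

lemma nsq_zero : nsq C (0 : Fin m → G → V) = 0 := by
  rw [nsq]
  refine Finset.sum_eq_zero fun j _ => ?_
  have h : (fun q : Quotient (QuotientGroup.rightRel C) => ‖(0 : Fin m → G → V) j q.out‖ ^ 2) =
      fun _ => 0 := by
    funext q
    simp
  rw [h, finsum_zero]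

lemma nsq_nonneg (z : Fin m → G → V) : 0 ≤ nsq C z := by
  rw [nsq]
  exact Finset.sum_nonneg fun j _ => finsum_nonneg fun q => by positivity

lemma pairing_self {π : URep C V} {z : Fin m → G → V} (hz : IsChn π z) :
    (pairing C z z).re = nsq C z := by
  obtain ⟨hz1, S, hS⟩ := hz
  obtain ⟨T, hT, hST⟩ := exists_reps C S
  have hs : ∀ (j : Fin m) (x : G), z j x ≠ 0 → ∃ t ∈ T, x * t⁻¹ ∈ C := by
    intro j x hx
    obtain ⟨s, hs, hsC⟩ := hS j x hx
    obtain ⟨t, ht, htC⟩ := hST s hs
    refine ⟨t, ht, ?_⟩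
    have e : x * t⁻¹ = (x * s⁻¹) * (s * t⁻¹) := by group
    rw [e]
    exact C.mul_mem hsC htC
  rw [pairing_eq π.hom z z hz1 hz1 hT hs, nsq_eq π.hom z hz1 hT hs, Complex.re_sum]
  refine Finset.sum_congr rfl fun j _ => ?_
  rw [Complex.re_sum]
  refine Finset.sum_congr rfl fun t _ => ?_
  rw [inner_self_eq_norm_sq_to_K]
  norm_cast

end

/-- the consequences of a contraction -/
theorem of_contr {m a b : ℕ} (P : Matrix (Fin m) (Fin a) (MonoidAlgebra ℤ G))
    (R : Matrix (Fin b) (Fin m) (MonoidAlgebra ℤ G)) (S' : Matrix (Fin a) (Fin m) (RedC G))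
    (S : Matrix (Fin m) (Fin b) (RedC G))
    (h : P.map (toRed G) * S' + S * R.map (toRed G) = 1) (C : Subgroup G)
    (V : Type) [NormedAddCommGroup V] [InnerProductSpace ℂ V] (π : URep C V) (hπ : Tempered π) :
    (∀ z y : Fin m → G → V, IsChn π z → IsChn π y → bd P z = 0 → cobd R y = 0 →
      pairing C z y = 0) ∧
    ∃ K : ℝ, 0 < K ∧ ∀ z : Fin m → G → V, IsChn π z →
      nsq C z ≤ K * (nsq C (bd P z) + nsq C (cobd R z)) := by
  obtain ⟨K, hK0, hK⟩ := pair_ineq P R S' S h
  constructor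
  · intro z y hz hy hbz hcy
    set p : ℂ := pairing C z y with hp
    have hz' := isChn_smul hz p
    have h1 : ∀ t : ℝ, 0 < t → 4 * Complex.normSq p ≤
        K * (t * (nsq C (fun j x => p • z j x) + nsq C y)) := by
      intro t ht
      have h2 := hK C V π hπ _ y hz' hy t ht
      rw [pairing_smul hz hy, ← hp, bd_smul P z p hbz, hcy, nsq_zero, nsq_zero, add_zero, mul_zero,
        add_zero] at h2
      have h3 : ((starRingEnd ℂ) p * p).re = Complex.normSq p := by
        rw [mul_comm, Complex.mul_conj, Complex.ofReal_re]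
      rw [h3] at h2
      exact h2
    set A : ℝ := nsq C (fun j x => p • z j x) + nsq C y with hA
    have hA0 : 0 ≤ A := add_nonneg (nsq_nonneg _) (nsq_nonneg _)
    by_contra hne
    have hpos : 0 < Complex.normSq p := Complex.normSq_pos.2 hne
    have hKA : 0 ≤ K * A := mul_nonneg hK0 hA0
    have h4 := h1 (Complex.normSq p / (K * A + 1)) (by positivity)
    have h5 : K * (Complex.normSq p / (K * A + 1) * A) =
        Complex.normSq p * ((K * A) / (K * A + 1)) := by
      field_simp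
    have h6 : (K * A) / (K * A + 1) ≤ 1 := by
      rw [div_le_one (by positivity)]
      linarith
    rw [h5] at h4
    nlinarith
  · refine ⟨(K + 1) * (K + 1), by positivity, ?_⟩
    intro z hz
    have h1 := hK C V π hπ z z hz hz (K + 1)⁻¹ (by positivity)
    rw [pairing_self hz, inv_inv] at h1
    set N := nsq C z with hN
    set M := nsq C (bd P z) + nsq C (cobd R z) with hM
    have hN0 : 0 ≤ N := nsq_nonneg _
    have hM0 : 0 ≤ M := add_nonneg (nsq_nonneg _) (nsq_nonneg _)
    have h2 : K * ((K + 1)⁻¹ * (N + N)) ≤ 2 * N := by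
      have e : K * ((K + 1)⁻¹ * (N + N)) = (K / (K + 1)) * (2 * N) := by
        field_simp
        ring
      have h3 : K / (K + 1) ≤ 1 := by
        rw [div_le_one (by positivity)]
        linarith
      rw [e]
      exact mul_le_of_le_one_left (by positivity) h3
    have h4 : K * ((K + 1) * M) ≤ (K + 1) * (K + 1) * M := by
      have : 0 ≤ (K + 1) * M := by positivity
      nlinarith
    rw [mul_add] at h1
    have h5 : 0 ≤ (K + 1) * (K + 1) * M := by positivity
    linarith

theorem final (G : Type) [Group G] (X : FinRes G) (C : Subgroup G)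
    (V : Type) [NormedAddCommGroup V] [InnerProductSpace ℂ V] (π : URep C V)
    (hπ : IsAmenable C ∨ Tempered π) (i : ℕ)
    (h : (∃ z ∈ cyc X π i, ∃ y, IsCocyc X π i y ∧ pairing C z y ≠ 0) ∨ ZeroInSpec X π i) :
    ∃ j ≤ i, Nontrivial (X.homology (toRed G) j) := by
  by_contra hcon
  push Not at hcon
  have hs : ∀ k ≤ i, Subsingleton (X.homology (toRed G) k) := fun j hj =>
    not_nontrivial_iff_subsingleton.1 (by simpa using hcon j hj)
  have hT : Tempered π := by
    rcases hπ with hC | hT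
    · exact tempered_of_amenable hC π
    · exact hT
  obtain ⟨s, -, hsc⟩ := Pool.Agent.TH254.ZT.exists_contr X (toRed G) i hs
  cases i with
  | zero =>
    have h0 : (0 : Matrix (Fin (X.n 0)) (Fin 0) (MonoidAlgebra ℤ G)).map (toRed G) *
        (0 : Matrix (Fin 0) (Fin (X.n 0)) (RedC G)) + s * (X.d 0).map (toRed G) = 1 := by
      have h1 : s * (X.d 0).map (toRed G) = 1 := hsc
      have h2 : (0 : Matrix (Fin (X.n 0)) (Fin 0) (MonoidAlgebra ℤ G)).map (toRed G) *
          (0 : Matrix (Fin 0) (Fin (X.n 0)) (RedC G)) = 0 := by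
        refine funext fun j => funext fun k => ?_
        rw [Matrix.mul_apply, Finset.univ_eq_empty, Finset.sum_empty]
        rfl
      rw [h1, h2, zero_add]
    obtain ⟨hA, K, hK0, hK⟩ := of_contr _ _ _ _ h0 C V π hT
    rcases h with ⟨z, hz, y, ⟨hy1, hy2⟩, hne⟩ | hZ
    · exact hne (hA z y hz hy1 (by funext k; exact k.elim0) hy2)
    · obtain ⟨z, hz, hlt⟩ := hZ K⁻¹ (by positivity)
      have h2 := hK z hz
      have h3 : nsq C (bd (0 : Matrix (Fin (X.n 0)) (Fin 0) (MonoidAlgebra ℤ G)) z) = 0 := by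
        rw [nsq, Finset.univ_eq_empty, Finset.sum_empty]
      change 0 + nsq C (cobd (X.d 0) z) < K⁻¹ * nsq C z at hlt
      rw [h3] at h2
      have h4 : K * (0 + nsq C (cobd (X.d 0) z)) < K * (K⁻¹ * nsq C z) :=
        mul_lt_mul_of_pos_left hlt hK0
      rw [mul_inv_cancel_left₀ hK0.ne'] at h4
      exact absurd (h2.trans_lt h4) (lt_irrefl _)
  | succ i =>
    obtain ⟨s', hs'⟩ := hsc
    obtain ⟨hA, K, hK0, hK⟩ := of_contr _ _ _ _ hs' C V π hT
    rcases h with ⟨z, hz, y, ⟨hy1, hy2⟩, hne⟩ | hZ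
    · exact hne (hA z y hz.1 hy1 hz.2 hy2)
    · obtain ⟨z, hz, hlt⟩ := hZ K⁻¹ (by positivity)
      have h2 := hK z hz
      change nsq C (bd (X.d i) z) + nsq C (cobd (X.d (i + 1)) z) < K⁻¹ * nsq C z at hlt
      have h4 : K * (nsq C (bd (X.d i) z) + nsq C (cobd (X.d (i + 1)) z)) < K * (K⁻¹ * nsq C z) :=
        mul_lt_mul_of_pos_left hlt hK0
      rw [mul_inv_cancel_left₀ hK0.ne'] at h4
      exact absurd (h2.trans_lt h4) (lt_irrefl _)

end

end Pool.Agent.R807.IP
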