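import Pool.Agent.W709.QAT.Stm

/-!
Sums over the lists of a given length, and the sesquilinear pairing with the reversal of the strands.
-/

set_option autoImplicit false

namespace Pool.Agent.R807

open Finset

variable {N : ℕ}

/-- the sum of `F` over the lists of length `n` -/
noncomputable def sl (N : ℕ) : ℕ → (List (Fin N) → ℂ) → ℂ
  | 0, F => F []
  | n + 1, F => ∑ a : Fin N, sl N n (fun l => F (a :: l))

lemma sl_zero (F : List (Fin N) → ℂ) : sl N 0 F = F [] := rfl

lemma sl_succ (n : ℕ) (F : List (Fin N) → ℂ) :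
    sl N (n + 1) F = ∑ a : Fin N, sl N n (fun l => F (a :: l)) := rfl

lemma sl_congr {n : ℕ} {F G : List (Fin N) → ℂ} (h : ∀ l, l.length = n → F l = G l) :
    sl N n F = sl N n G := by
  induction n generalizing F G with
  | zero => exact h [] rfl
  | succ n ih =>
    rw [sl_succ, sl_succ]
    exact sum_congr rfl fun a _ => ih fun l hl => h _ (by simp [hl])

lemma sl_sum {ι : Type} (s : Finset ι) (n : ℕ) (F : ι → List (Fin N) → ℂ) :
    sl N n (fun l => ∑ i ∈ s, F i l) = ∑ i ∈ s, sl N n (F i) := by
  induction n generalizing F with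
  | zero => rfl
  | succ n ih =>
    simp only [sl_succ]
    rw [sum_comm]
    exact sum_congr rfl fun a _ => ih fun i l => F i (a :: l)

lemma sl_mul (n : ℕ) (c : ℂ) (F : List (Fin N) → ℂ) :
    sl N n (fun l => c * F l) = c * sl N n F := by
  induction n generalizing F with
  | zero => rfl
  | succ n ih =>
    simp only [sl_succ]
    rw [mul_sum]
    exact sum_congr rfl fun a _ => ih fun l => F (a :: l)

lemma sl_add (m n : ℕ) (F : List (Fin N) → ℂ) :
    sl N (m + n) F = sl N m (fun l => sl N n (fun r => F (l ++ r))) := by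
  induction m generalizing F with
  | zero => rw [Nat.zero_add, sl_zero]; rfl
  | succ m ih =>
    rw [Nat.add_right_comm, sl_succ, sl_succ]
    exact sum_congr rfl fun a _ => ih fun l => F (a :: l)

lemma sl_comm (m n : ℕ) (F : List (Fin N) → List (Fin N) → ℂ) :
    sl N m (fun l => sl N n (fun r => F l r)) = sl N n (fun r => sl N m (fun l => F l r)) := by
  induction m generalizing F with
  | zero => rfl
  | succ m ih =>
    simp only [sl_succ]
    rw [sl_sum]
    exact sum_congr rfl fun a _ => ih fun l => F (a :: l)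

lemma sl_one (F : List (Fin N) → ℂ) : sl N 1 F = ∑ a : Fin N, F [a] := rfl

lemma sl_rev (n : ℕ) (F : List (Fin N) → ℂ) :
    sl N n (fun l => F l.reverse) = sl N n F := by
  induction n generalizing F with
  | zero => rfl
  | succ n ih =>
    rw [sl_succ]
    simp only [List.reverse_cons]
    have h : ∀ a : Fin N, sl N n (fun l => F (l.reverse ++ [a])) = sl N n (fun l => F (l ++ [a])) :=
      fun a => ih fun l => F (l ++ [a])
    rw [sum_congr rfl fun a _ => h a, sl_add, ← sl_sum]
    rfl

/-- a middle part of two letters -/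
lemma sl_mid (i r : ℕ) (F : List (Fin N) → ℂ) :
    sl N (i + (2 + r)) F = sl N i (fun l => ∑ p : Fin N × Fin N,
      sl N r (fun t => F (l ++ p.1 :: p.2 :: t))) := by
  rw [sl_add]
  refine sl_congr fun l _ => ?_
  rw [sl_add, sl_succ, Fintype.sum_prod_type]
  rfl

/-- the pairing -/
noncomputable def Bf (n : ℕ) (g f : List (Fin N) → ℂ) : ℂ :=
  sl N n (fun s => (starRingEnd ℂ) (g s) * f s.reverse)

lemma Bf_congr {n : ℕ} {g g' f f' : List (Fin N) → ℂ} (hg : ∀ l, l.length = n → g l = g' l)
    (hf : ∀ l, l.length = n → f l = f' l) : Bf n g f = Bf n g' f' := by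
  refine sl_congr fun l hl => ?_
  rw [hg l hl, hf _ (by rw [List.length_reverse, hl])]

end Pool.Agent.R807
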