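import Pool.Agent.R807.Gram
import Pool.Agent.W715.VC.Racah

/-!
The matrices of the crossings on the highest weight vectors of weight `N - 1` on three strands: the
q-Pascal matrices.
-/

set_option autoImplicit false

namespace Pool.Agent.R807

open Finset Matrix Pool.Agent.W709.QAT Pool.Agent.H550R3.Jones
open Pool.Agent.W715.VC hiding kap
open Pool.Agent.H927R2.J.SanYB (brf_ne)

variable {N : ℕ}

/-- the binomial coefficient of sines -/
noncomputable def bc (N i j : ℕ) : ℝ := SS N i / (SS N j * SS N (i - j))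

/-- the entries of the matrix of the positive crossing on the strands 1, 2 -/
noncomputable def uu (N i j : ℕ) : ℂ :=
  if j ≤ i then -((-1) ^ j * rt N ^ ((1 : ℤ) + i + i * j) * (bc N i j : ℝ)) else 0

lemma sin_split (N : ℕ) (i a : ℤ) : ((sn N (i + a + 1) : ℝ) : ℂ) =
    (sn N (a + 1) : ℝ) * rt N ^ i + (sn N i : ℝ) * rt N ^ (-(a + 1)) := by
  have h1 := br_rt N (i + a + 1)
  have h2 := br_rt N (a + 1)
  have h3 := br_rt N i
  unfold br at h1 h2 h3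
  have hI : (2 * Complex.I) ≠ 0 := mul_ne_zero two_ne_zero Complex.I_ne_zero
  apply mul_left_cancel₀ hI
  rw [← h1]
  have e : 2 * Complex.I * ((sn N (a + 1) : ℝ) * rt N ^ i + (sn N i : ℝ) * rt N ^ (-(a + 1))) =
      (2 * Complex.I * (sn N (a + 1) : ℝ)) * rt N ^ i +
        (2 * Complex.I * (sn N i : ℝ)) * rt N ^ (-(a + 1)) := by ring
  rw [e, ← h2, ← h3]
  have h0 := rt_ne N
  have e1 : rt N ^ (i + a + 1) = rt N ^ i * rt N ^ (a + 1) := by
    rw [← zpow_add₀ h0]; congr 1; ring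
  have e2 : rt N ^ (-(i + a + 1)) = rt N ^ (-i) * rt N ^ (-(a + 1)) := by
    rw [← zpow_add₀ h0]; congr 1; ring
  rw [e1, e2]
  ring

lemma bc_succ_right {i a : ℕ} (hi : i < N) (ha : a + 1 ≤ i) :
    sn N ((a : ℤ) + 1) * bc N i (a + 1) = sn N ((i : ℤ) - a) * bc N i a := by
  unfold bc
  have e1 : i - a = (i - (a + 1)) + 1 := by omega
  have h1 := SS_succ N (i - (a + 1))
  rw [← e1] at h1
  have h2 := SS_succ N a
  have e2 : (((i - (a + 1) : ℕ)) : ℤ) + 1 = i - a := by omega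
  rw [e2] at h1
  rw [h1, h2]
  have p1 := (SS_pos (N := N) (j := a) (by omega)).ne'
  have p2 := (SS_pos (N := N) (j := i - (a + 1)) (by omega)).ne'
  have p3 : sn N ((a : ℤ) + 1) ≠ 0 := (sn_pos (by omega) (by omega)).ne'
  have p4 : sn N ((i : ℤ) - a) ≠ 0 := (sn_pos (by omega) (by omega)).ne'
  field_simp

lemma bc_succ_left {i a : ℕ} (hi : i + 1 < N) (ha : a ≤ i) :
    sn N ((i : ℤ) + 1) * bc N i a = sn N ((i : ℤ) + 1 - a) * bc N (i + 1) a := by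
  unfold bc
  have e1 : i + 1 - a = (i - a) + 1 := by omega
  have h1 := SS_succ N (i - a)
  rw [← e1] at h1
  have h2 := SS_succ N i
  have e2 : (((i - a : ℕ)) : ℤ) + 1 = i + 1 - a := by omega
  rw [e2] at h1
  rw [h1, h2]
  have p1 := (SS_pos (N := N) (j := a) (by omega)).ne'
  have p2 := (SS_pos (N := N) (j := i - a) (by omega)).ne'
  have p4 : sn N ((i : ℤ) + 1 - a) ≠ 0 := (sn_pos (by omega) (by omega)).ne'
  field_simp

lemma gg_top (hN : 0 < N) (a : ℤ) : gg N (N - 1) a = 4 * sn N a ^ 2 := by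
  unfold gg
  have h : sn N (((N - 1 : ℕ) : ℤ) + 1 - a) = sn N a := by
    have h2 := sn_sub_N hN (((N - 1 : ℕ) : ℤ) + 1 - a)
    have h3 : ((N - 1 : ℕ) : ℤ) + 1 - a - N = -a := by omega
    rw [h3, sn_neg] at h2
    linarith
  rw [h]; ring

/-- the recursion of the entries -/
lemma uu_rec {i a : ℕ} (hi : i + 1 < N) (ha : a + 1 < N) :
    ((4 * sn N ((a : ℤ) + 1) ^ 2 : ℝ) : ℂ) * uu N (i + 1) (a + 1) =
      (((th N ((i : ℤ) + 1) : ℝ) : ℂ) - ((th N a : ℝ) : ℂ)) * uu N (i + 1) a +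
        ((4 * sn N ((i : ℤ) + 1) ^ 2 : ℝ) : ℂ) * uu N i a := by
  have hth := th_sub N ((i : ℤ) + 1) a
  have hth' : ((th N ((i : ℤ) + 1) : ℝ) : ℂ) - ((th N a : ℝ) : ℂ) =
      ((-4 * (sn N ((i : ℤ) + 1 - a) * sn N ((i : ℤ) + 1 + a + 1)) : ℝ) : ℂ) := by
    rw [← Complex.ofReal_sub, hth]
  rw [hth']
  unfold uu
  rcases lt_trichotomy a (i + 1) with h | h | h
  · rcases Nat.lt_or_ge a i with h0 | h0
    · rw [if_pos (by omega), if_pos (by omega), if_pos (by omega)]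
      have b1 := bc_succ_right (N := N) (i := i + 1) (a := a) (by omega) (by omega)
      have b2 := bc_succ_left (N := N) (i := i) (a := a) hi (by omega)
      have s := sin_split N ((i : ℤ) + 1) a
      have h00 := rt_ne N
      have e1 : rt N ^ ((1 : ℤ) + ((i + 1 : ℕ) : ℤ) + ((i + 1 : ℕ) : ℤ) * ((a + 1 : ℕ) : ℤ)) =
          rt N ^ ((1 : ℤ) + ((i + 1 : ℕ) : ℤ) + ((i + 1 : ℕ) : ℤ) * (a : ℤ)) * rt N ^ ((i : ℤ) + 1) := by
        rw [← zpow_add₀ h00]; congr 1; push_cast; ring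
      have e2 : rt N ^ ((1 : ℤ) + (i : ℤ) + (i : ℤ) * (a : ℤ)) =
          rt N ^ ((1 : ℤ) + ((i + 1 : ℕ) : ℤ) + ((i + 1 : ℕ) : ℤ) * (a : ℤ)) *
            rt N ^ (-((a : ℤ) + 1)) := by
        rw [← zpow_add₀ h00]; congr 1; push_cast; ring
      rw [e1, e2]
      generalize rt N ^ ((1 : ℤ) + ((i + 1 : ℕ) : ℤ) + ((i + 1 : ℕ) : ℤ) * (a : ℤ)) = R at *
      generalize rt N ^ ((i : ℤ) + 1) = R1 at *
      generalize rt N ^ (-((a : ℤ) + 1)) = R2 at *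
      have b1' := congrArg (fun r : ℝ => (r : ℂ)) b1
      have b2' := congrArg (fun r : ℝ => (r : ℂ)) b2
      have e3 : sn N (((i + 1 : ℕ) : ℤ) - a) = sn N ((i : ℤ) + 1 - a) := by congr 1
      rw [e3] at b1'
      push_cast at b1' b2' ⊢
      generalize ((sn N ((i : ℤ) + 1 + a + 1) : ℝ) : ℂ) = s1 at *
      generalize ((sn N ((i : ℤ) + 1 - a) : ℝ) : ℂ) = s2 at *
      generalize ((sn N ((i : ℤ) + 1) : ℝ) : ℂ) = s3 at *
      generalize ((sn N ((a : ℤ) + 1) : ℝ) : ℂ) = s4 at *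
      generalize ((bc N (i + 1) (a + 1) : ℝ) : ℂ) = c1 at *
      generalize ((bc N (i + 1) a : ℝ) : ℂ) = c2 at *
      generalize ((bc N i a : ℝ) : ℂ) = c3 at *
      rw [s, pow_succ]
      linear_combination (4 * s4 * (-1) ^ a * R * R1) * b1' - (-4 * s3 * (-1) ^ a * R * R2) * b2'
    · have : a = i := by omega
      subst this
      rw [if_pos (by omega), if_pos (by omega), if_pos (by omega)]
      have b1 := bc_succ_right (N := N) (i := a + 1) (a := a) (by omega) (by omega)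
      have b2 := bc_succ_left (N := N) (i := a) (a := a) hi (by omega)
      have s := sin_split N ((a : ℤ) + 1) a
      have h00 := rt_ne N
      have e1 : rt N ^ ((1 : ℤ) + ((a + 1 : ℕ) : ℤ) + ((a + 1 : ℕ) : ℤ) * ((a + 1 : ℕ) : ℤ)) =
          rt N ^ ((1 : ℤ) + ((a + 1 : ℕ) : ℤ) + ((a + 1 : ℕ) : ℤ) * (a : ℤ)) * rt N ^ ((a : ℤ) + 1) := by
        rw [← zpow_add₀ h00]; congr 1; push_cast; ring
      have e2 : rt N ^ ((1 : ℤ) + (a : ℤ) + (a : ℤ) * (a : ℤ)) =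
          rt N ^ ((1 : ℤ) + ((a + 1 : ℕ) : ℤ) + ((a + 1 : ℕ) : ℤ) * (a : ℤ)) *
            rt N ^ (-((a : ℤ) + 1)) := by
        rw [← zpow_add₀ h00]; congr 1; push_cast; ring
      rw [e1, e2]
      generalize rt N ^ ((1 : ℤ) + ((a + 1 : ℕ) : ℤ) + ((a + 1 : ℕ) : ℤ) * (a : ℤ)) = R at *
      generalize rt N ^ ((a : ℤ) + 1) = R1 at *
      generalize rt N ^ (-((a : ℤ) + 1)) = R2 at *
      have b1' := congrArg (fun r : ℝ => (r : ℂ)) b1
      have b2' := congrArg (fun r : ℝ => (r : ℂ)) b2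
      have e3 : sn N (((a + 1 : ℕ) : ℤ) - a) = sn N ((a : ℤ) + 1 - a) := by congr 1
      rw [e3] at b1'
      push_cast at b1' b2' ⊢
      generalize ((sn N ((a : ℤ) + 1 + a + 1) : ℝ) : ℂ) = s1 at *
      generalize ((sn N ((a : ℤ) + 1 - a) : ℝ) : ℂ) = s2 at *
      generalize ((sn N ((a : ℤ) + 1) : ℝ) : ℂ) = s3 at *
      generalize ((bc N (a + 1) (a + 1) : ℝ) : ℂ) = c1 at *
      generalize ((bc N (a + 1) a : ℝ) : ℂ) = c2 at *
      generalize ((bc N a a : ℝ) : ℂ) = c3 at *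
      rw [s, pow_succ]
      linear_combination (4 * s3 * (-1) ^ a * R * R1) * b1' - (-4 * s3 * (-1) ^ a * R * R2) * b2'
  · subst h
    rw [if_neg (by omega), if_pos le_rfl, if_neg (by omega)]
    have : sn N ((i : ℤ) + 1 - ((i + 1 : ℕ) : ℤ)) = 0 := by
      have : (i : ℤ) + 1 - ((i + 1 : ℕ) : ℤ) = 0 := by push_cast; ring
      rw [this, sn_zero]
    rw [this]; simp
  · rw [if_neg (by omega), if_neg (by omega), if_neg (by omega)]
    simp

lemma uu_rec0 {a : ℕ} (ha : a + 1 < N) :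
    ((4 * sn N ((a : ℤ) + 1) ^ 2 : ℝ) : ℂ) * uu N 0 (a + 1) =
      (((th N ((0 : ℕ) : ℤ) : ℝ) : ℂ) - ((th N a : ℝ) : ℂ)) * uu N 0 a := by
  unfold uu
  rw [if_neg (by omega)]
  rcases Nat.eq_zero_or_pos a with h | h
  · subst h; simp
  · rw [if_neg (by omega)]; simp

/-! ### the operators -/

lemma yv0 (hN : 0 < N) : yv N (N - 1) 0 = vec3 (x0 N hN) := by
  refine InK_ext hN (yv_InK (by omega) 0) (x0_InK hN) fun a ha => ?_
  rw [tt_yv (by omega) (by omega), tt_x0 hN ha]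

lemma hat_on12_x0 (hN : 0 < N) (A : M2 N) {i : ℕ} (hi : i ≤ N - 1) :
    hat (on12 A *ᵥ vec3 (x0 N hN)) i 0 (N - 1 - i) =
      A (⟨i, by omega⟩, ⟨0, hN⟩) (⟨0, hN⟩, ⟨i, by omega⟩) *
        Pool.Agent.W709.QAT.kap N (rt N) i := by
  have h1 : i < N := by omega
  have h2 : N - 1 - i < N := by omega
  unfold hat
  rw [dif_pos ⟨h1, hN, h2⟩, on12_mulVec,
    sum_eq_single ((⟨0, hN⟩ : Fin N), (⟨i, h1⟩ : Fin N))]
  · congr 1
    simp only [vec3]
    rw [x0_val, if_pos rfl, mul_one]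
    unfold Pool.Agent.W709.QAT.cup
    simp only
    rw [if_pos (by omega)]
  · rintro ⟨a, b⟩ _ hp
    simp only [vec3]
    rw [x0_val]
    by_cases ha : a = ⟨0, hN⟩
    · unfold Pool.Agent.W709.QAT.cup
      simp only
      rw [if_neg]
      · simp
      · intro h
        apply hp
        rw [ha, Prod.mk.injEq]
        exact ⟨rfl, Fin.ext (by simp only; omega)⟩
    · rw [if_neg ha]; simp
  · intro h; exact absurd (mem_univ _) h

lemma PP_col (hN : 0 < N) {i : ℕ} (hi : i < N) :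
    PP N (⟨i, hi⟩, ⟨0, hN⟩) (⟨0, hN⟩, ⟨i, hi⟩) = rt N ^ (-((N : ℤ) - 1) * (1 + i)) := by
  unfold PP crossP
  have h1 : brf (rt N) i ≠ 0 := brf_ne (adm N) (by omega)
  simp only
  rw [if_pos ⟨by omega, le_rfl⟩, Nat.sub_self]
  simp only [Nat.zero_mul, Nat.zero_div, pow_zero, mul_one, range_zero, prod_empty]
  have h0 : brf (rt N) 0 = 1 := by simp [brf]
  rw [h0, mul_one, div_self h1, mul_one]
  congr 1
  push_cast; ring

lemma QQ_col (hN : 0 < N) {i : ℕ} (hi : i < N) :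
    QQ N (⟨i, hi⟩, ⟨0, hN⟩) (⟨0, hN⟩, ⟨i, hi⟩) = rt N ^ (((N : ℤ) - 1) * (1 + i)) := by
  unfold QQ crossN
  simp only
  rw [if_pos ⟨by omega, le_rfl⟩, Nat.sub_self]
  simp only [Nat.zero_mul, Nat.zero_div, pow_zero, range_zero, prod_empty]
  have h0 : brf (rt N) 0 = 1 := by simp [brf]
  rw [h0]
  simp only [mul_one, one_mul, div_one]
  congr 1
  push_cast; ring

lemma m1pow (hN : 0 < N) (i : ℕ) : (-1 : ℂ) ^ i = rt N ^ ((N : ℤ) * i) := by
  rw [_root_.zpow_mul, rt_zpow_N hN, zpow_natCast]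

lemma m1pow' (hN : 0 < N) (i : ℕ) : (-1 : ℂ) ^ i = rt N ^ (-((N : ℤ) * i)) := by
  rw [_root_.zpow_neg, ← m1pow hN]
  rcases Nat.even_or_odd i with h | h
  · rw [h.neg_one_pow]; norm_num
  · rw [h.neg_one_pow]; norm_num

lemma tt_P_x0 (hN : 0 < N) {i : ℕ} (hi : i ≤ N - 1) :
    tt N (N - 1) (on12 (PP N) *ᵥ vec3 (x0 N hN)) i = uu N i 0 := by
  unfold tt
  rw [hat_on12_x0 hN _ hi, PP_col hN (by omega), kap_rt (by omega)]
  unfold uu bc
  rw [if_pos (by omega), Nat.sub_zero, pow_zero, one_mul]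
  have p1 := (SS_pos (N := N) (j := i) (by omega)).ne'
  have h0 : SS N 0 = 1 := by simp [SS]
  rw [h0, one_mul, div_self p1, Complex.ofReal_one, mul_one, m1pow hN i]
  have e : -rt N ^ ((1 : ℤ) + i + i * ((0 : ℕ) : ℤ)) = (rt N ^ (N : ℤ))⁻¹ * rt N ^ ((1 : ℤ) + i) := by
    rw [rt_zpow_N hN]
    have : (1 : ℤ) + i + i * ((0 : ℕ) : ℤ) = 1 + i := by push_cast; ring
    rw [this]; norm_num
  rw [e, ← _root_.zpow_neg, ← zpow_add₀ (rt_ne N), ← zpow_add₀ (rt_ne N), ← zpow_add₀ (rt_ne N),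
    ← zpow_add₀ (rt_ne N)]
  congr 1
  have : ((N - 1 : ℕ) : ℤ) = (N : ℤ) - 1 := by omega
  rw [this]; ring

lemma tt_Q_x0 (hN : 0 < N) {i : ℕ} (hi : i ≤ N - 1) :
    tt N (N - 1) (on12 (QQ N) *ᵥ vec3 (x0 N hN)) i = (starRingEnd ℂ) (uu N i 0) := by
  unfold tt
  rw [hat_on12_x0 hN _ hi, QQ_col hN (by omega), kap_rt (by omega)]
  unfold uu bc
  rw [if_pos (by omega), Nat.sub_zero, pow_zero, one_mul]
  have p1 := (SS_pos (N := N) (j := i) (by omega)).ne'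
  have h0 : SS N 0 = 1 := by simp [SS]
  rw [h0, one_mul, div_self p1, Complex.ofReal_one, mul_one, m1pow' hN i, map_neg, conj_rt_zpow]
  have e : -rt N ^ (-((1 : ℤ) + i + i * ((0 : ℕ) : ℤ))) = rt N ^ (N : ℤ) * rt N ^ (-((1 : ℤ) + i)) := by
    rw [rt_zpow_N hN]
    have : (1 : ℤ) + i + i * ((0 : ℕ) : ℤ) = 1 + i := by push_cast; ring
    rw [this]; norm_num
  rw [e, ← zpow_add₀ (rt_ne N), ← zpow_add₀ (rt_ne N), ← zpow_add₀ (rt_ne N),
    ← zpow_add₀ (rt_ne N)]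
  congr 1
  have : ((N - 1 : ℕ) : ℤ) = (N : ℤ) - 1 := by omega
  rw [this]; ring

/-- an operator on the strands 1, 2 commuting with the Casimir operator is determined by its value
on the base vector -/
lemma tt_gen (hN : 0 < N) {A : M2 N} (hA : ∀ x : I3 N → ℂ, InK (N - 1) x →
      InK (N - 1) (on12 A *ᵥ x)) (hC : A * CC N = CC N * A) {w : ℕ → ℕ → ℂ}
    (h0 : ∀ i, i ≤ N - 1 → tt N (N - 1) (on12 A *ᵥ vec3 (x0 N hN)) i = w i 0)
    (hw : ∀ i a, i + 1 < N → a + 1 < N → ((4 * sn N ((a : ℤ) + 1) ^ 2 : ℝ) : ℂ) * w (i + 1) (a + 1) =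
      (((th N ((i : ℤ) + 1) : ℝ) : ℂ) - ((th N a : ℝ) : ℂ)) * w (i + 1) a +
        ((4 * sn N ((i : ℤ) + 1) ^ 2 : ℝ) : ℂ) * w i a)
    (hw0 : ∀ a, a + 1 < N → ((4 * sn N ((a : ℤ) + 1) ^ 2 : ℝ) : ℂ) * w 0 (a + 1) =
      (((th N ((0 : ℕ) : ℤ) : ℝ) : ℂ) - ((th N a : ℝ) : ℂ)) * w 0 a) (a : ℕ) (ha : a ≤ N - 1) :
    ∀ i, i ≤ N - 1 → tt N (N - 1) (on12 A *ᵥ yv N (N - 1) a) i = w i a := by
  have hm : N - 1 < N := by omega
  have hcast : (((N - 1 : ℕ) : ℕ) : ℤ) = (N : ℤ) - 1 := by omega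
  induction a with
  | zero => intro i hi; rw [yv0 hN]; exact h0 i hi
  | succ a ih =>
    intro i hi
    have ih' := ih (by omega)
    have hne : ((4 * sn N ((a : ℤ) + 1) ^ 2 : ℝ) : ℂ) ≠ 0 := by
      have := sn_pos (N := N) (k := (a : ℤ) + 1) (by omega) (by omega)
      have h4 : (4 * sn N ((a : ℤ) + 1) ^ 2 : ℝ) ≠ 0 := by positivity
      exact_mod_cast h4
    have hCy := C12_yv (N := N) (m := N - 1) (a := a) hm (by omega)
    have hcomm : on12 A *ᵥ (C12 N *ᵥ yv N (N - 1) a) = C12 N *ᵥ (on12 A *ᵥ yv N (N - 1) a) := by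
      rw [Matrix.mulVec_mulVec, Matrix.mulVec_mulVec, C12, on12_mul, on12_mul, hC]
    rw [hCy, Matrix.mulVec_add, Matrix.mulVec_smul, Matrix.mulVec_smul] at hcomm
    have h1 := congrArg (fun z => tt N (N - 1) z i) hcomm
    rw [tt_add, tt_smul, tt_smul, ih' i hi] at h1
    have hg : gg N (N - 1) ((a : ℤ) + 1) = 4 * sn N ((a : ℤ) + 1) ^ 2 := gg_top hN _
    rw [hg] at h1
    have hK := hA _ (yv_InK hm a)
    apply mul_left_cancel₀ hne
    rcases Nat.eq_zero_or_pos i with h | h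
    · subst h
      rw [tt_C12_zero hN, ih' 0 (by omega)] at h1
      rw [hw0 a (by omega)]
      push_cast at h1 ⊢
      linear_combination h1
    · obtain ⟨i, rfl⟩ : ∃ c, i = c + 1 := ⟨i - 1, by omega⟩
      rw [tt_C12_succ hN hK (by omega), ih' (i + 1) hi, ih' i (by omega), gg_top hN] at h1
      rw [hw i a (by omega) (by omega)]
      push_cast at h1 ⊢
      linear_combination h1

lemma tt_P_yv (hN : 0 < N) {a : ℕ} (ha : a ≤ N - 1) {i : ℕ} (hi : i ≤ N - 1) :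
    tt N (N - 1) (on12 (PP N) *ᵥ yv N (N - 1) a) i = uu N i a :=
  tt_gen hN (fun _ hx => P12_InK hx) PP_CC (fun _ hi => tt_P_x0 hN hi)
    (fun _ _ h1 h2 => uu_rec h1 h2) (fun _ h => uu_rec0 h) a ha i hi

lemma tt_Q_yv (hN : 0 < N) {a : ℕ} (ha : a ≤ N - 1) {i : ℕ} (hi : i ≤ N - 1) :
    tt N (N - 1) (on12 (QQ N) *ᵥ yv N (N - 1) a) i = (starRingEnd ℂ) (uu N i a) := by
  refine tt_gen hN (w := fun i a => (starRingEnd ℂ) (uu N i a)) (fun _ hx => Q12_InK hx) QQ_CC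
    (fun _ hi => tt_Q_x0 hN hi) (fun i a h1 h2 => ?_) (fun a h => ?_) a ha i hi
  · have := congrArg (starRingEnd ℂ) (uu_rec h1 h2)
    simpa only [map_mul, map_add, map_sub, Complex.conj_ofReal] using this
  · have := congrArg (starRingEnd ℂ) (uu_rec0 h)
    simpa only [map_mul, map_add, map_sub, Complex.conj_ofReal] using this

/-- the matrix of an operator -/
lemma tt_mat (hN : 0 < N) {A : M3 N} {w : ℕ → ℕ → ℂ}
    (hA : ∀ a, a ≤ N - 1 → ∀ i, i ≤ N - 1 → tt N (N - 1) (A *ᵥ yv N (N - 1) a) i = w i a)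
    {x : I3 N → ℂ} (hx : InK (N - 1) x) {i : ℕ} (hi : i ≤ N - 1) :
    tt N (N - 1) (A *ᵥ x) i = ∑ a ∈ range N, w i a * tt N (N - 1) x a := by
  have hm : N - 1 < N := by omega
  have e : N - 1 + 1 = N := by omega
  conv_lhs => rw [expand hm hx, e]
  rw [Matrix.mulVec_sum, tt_sum]
  refine sum_congr rfl fun a ha => ?_
  rw [mem_range] at ha
  rw [Matrix.mulVec_smul, tt_smul, hA a (by omega) i hi, mul_comm]

theorem tt_P (hN : 0 < N) {x : I3 N → ℂ} (hx : InK (N - 1) x) {i : ℕ} (hi : i ≤ N - 1) :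
    tt N (N - 1) (on12 (PP N) *ᵥ x) i = ∑ a ∈ range N, uu N i a * tt N (N - 1) x a :=
  tt_mat hN (fun _ ha _ hi => tt_P_yv hN ha hi) hx hi

theorem tt_Q (hN : 0 < N) {x : I3 N → ℂ} (hx : InK (N - 1) x) {i : ℕ} (hi : i ≤ N - 1) :
    tt N (N - 1) (on12 (QQ N) *ᵥ x) i =
      ∑ a ∈ range N, (starRingEnd ℂ) (uu N i a) * tt N (N - 1) x a :=
  tt_mat hN (w := fun i a => (starRingEnd ℂ) (uu N i a)) (fun _ ha _ hi => tt_Q_yv hN ha hi) hx hi

end Pool.Agent.R807
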