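import Pool.Agent.R807.Mat

/-!
The norms of the crossings on the highest weight vectors of weight `N - 1` on three strands, and the
invariants of tangles glued with a 3-braid in between.
-/

set_option autoImplicit false

namespace Pool.Agent.R807

open Finset Matrix Pool.Agent.W709.QAT Pool.Agent.H550R3.Jones
open Pool.Agent.W715.VC hiding kap

variable {N : ℕ}

/-- the square of the norm -/
noncomputable def nq (N : ℕ) (x : I3 N → ℂ) : ℝ := ∑ i ∈ range N, ‖tt N (N - 1) x i‖ ^ 2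

lemma nq_nonneg (x : I3 N → ℂ) : 0 ≤ nq N x := sum_nonneg fun _ _ => by positivity

lemma Hf_self (hN : 0 < N) {x : I3 N → ℂ} (hx : InK (N - 1) x) : Hf x x = ((nq N x : ℝ) : ℂ) := by
  rw [Hf_eq hN hx hx, nq, Complex.ofReal_sum]
  exact sum_congr rfl fun i _ => by rw [Complex.ofReal_pow, ← Complex.conj_mul']

lemma Hf_cs (hN : 0 < N) {x y : I3 N → ℂ} (hx : InK (N - 1) x) (hy : InK (N - 1) y) :
    ‖Hf x y‖ ^ 2 ≤ nq N x * nq N y := by
  rw [Hf_eq hN hx hy]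
  have h1 : ‖∑ i ∈ range N, (starRingEnd ℂ) (tt N (N - 1) x i) * tt N (N - 1) y i‖ ≤
      ∑ i ∈ range N, ‖tt N (N - 1) x i‖ * ‖tt N (N - 1) y i‖ := by
    refine (_root_.norm_sum_le _ _).trans (le_of_eq ?_)
    exact sum_congr rfl fun i _ => by rw [norm_mul, RCLike.norm_conj]
  exact (pow_le_pow_left₀ (norm_nonneg _) h1 2).trans (sum_mul_sq_le_sq_mul_sq _ _ _)

/-- the sum of the squares of the entries of the q-Pascal matrix -/
noncomputable def EN (N : ℕ) : ℝ := ∑ i ∈ range N, ∑ j ∈ range (i + 1), bc N i j ^ 2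

lemma EN_nonneg (N : ℕ) : 0 ≤ EN N := sum_nonneg fun _ _ => sum_nonneg fun _ _ => by positivity

lemma norm_uu {i j : ℕ} (h : j ≤ i) : ‖uu N i j‖ ^ 2 = bc N i j ^ 2 := by
  unfold uu
  rw [if_pos h, norm_neg, norm_mul, norm_mul, norm_rt_zpow, norm_pow, norm_neg, norm_one, one_pow,
    Complex.norm_real, one_mul, one_mul, Real.norm_eq_abs, sq_abs]

lemma sum_uu {i : ℕ} (hi : i < N) : ∑ a ∈ range N, ‖uu N i a‖ ^ 2 =
    ∑ j ∈ range (i + 1), bc N i j ^ 2 := by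
  have h : range (i + 1) ⊆ range N := by
    intro x hx
    rw [mem_range] at hx ⊢
    omega
  rw [← sum_subset h]
  · refine sum_congr rfl fun j hj => ?_
    rw [mem_range] at hj
    rw [norm_uu (by omega)]
  · intro a _ ha
    rw [mem_range] at ha
    unfold uu
    rw [if_neg (by omega)]; simp

lemma nq_mat (hN : 0 < N) {x y : I3 N → ℂ} {w : ℕ → ℕ → ℂ} (hw : ∀ i a, ‖w i a‖ = ‖uu N i a‖)
    (h : ∀ i, i ≤ N - 1 → tt N (N - 1) y i = ∑ a ∈ range N, w i a * tt N (N - 1) x a) :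
    nq N y ≤ EN N * nq N x := by
  unfold nq EN
  rw [sum_mul]
  refine sum_le_sum fun i hi => ?_
  rw [mem_range] at hi
  rw [h i (by omega), ← sum_uu hi]
  have h1 : ‖∑ a ∈ range N, w i a * tt N (N - 1) x a‖ ≤
      ∑ a ∈ range N, ‖uu N i a‖ * ‖tt N (N - 1) x a‖ := by
    refine (_root_.norm_sum_le _ _).trans (le_of_eq ?_)
    exact sum_congr rfl fun a _ => by rw [norm_mul, hw]
  exact (pow_le_pow_left₀ (norm_nonneg _) h1 2).trans (sum_mul_sq_le_sq_mul_sq _ _ _)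

lemma nq_P (hN : 0 < N) {x : I3 N → ℂ} (hx : InK (N - 1) x) :
    nq N (on12 (PP N) *ᵥ x) ≤ EN N * nq N x :=
  nq_mat hN (w := uu N) (fun _ _ => rfl) fun _ hi => tt_P hN hx hi

lemma nq_Q (hN : 0 < N) {x : I3 N → ℂ} (hx : InK (N - 1) x) :
    nq N (on12 (QQ N) *ᵥ x) ≤ EN N * nq N x :=
  nq_mat hN (w := fun i a => (starRingEnd ℂ) (uu N i a)) (fun _ _ => RCLike.norm_conj _)
    fun _ hi => tt_Q hN hx hi

/-- the norm of the adjoint -/
lemma nq_adj (hN : 0 < N) {A : M3 N} {E : ℝ} (hA : ∀ x : I3 N → ℂ, InK (N - 1) x →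
    InK (N - 1) (A *ᵥ x)) (hA' : ∀ x : I3 N → ℂ, InK (N - 1) x → InK (N - 1) (hadj A *ᵥ x))
    (h : ∀ x : I3 N → ℂ, InK (N - 1) x → nq N (A *ᵥ x) ≤ E * nq N x) {x : I3 N → ℂ}
    (hx : InK (N - 1) x) : nq N (hadj A *ᵥ x) ≤ E * nq N x := by
  have hy := hA' x hx
  have h1 : ((nq N (hadj A *ᵥ x) : ℝ) : ℂ) = Hf (A *ᵥ (hadj A *ᵥ x)) x := by
    rw [Hf_adj, Hf_self hN hy]
  have h2 := Hf_cs hN (hA _ hy) hx
  rw [← h1, Complex.norm_real, Real.norm_of_nonneg (nq_nonneg _)] at h2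
  have h3 := h _ hy
  have h4 := nq_nonneg (N := N) (hadj A *ᵥ x)
  have h5 := nq_nonneg (N := N) x
  rcases h4.eq_or_lt with h6 | h6
  · rw [← h6]
    by_cases hE : 0 ≤ E
    · positivity
    · have h7 := h x hx
      have h8 := nq_nonneg (N := N) (A *ᵥ x)
      linarith
  · have h7 : nq N (hadj A *ᵥ x) ^ 2 ≤ E * nq N (hadj A *ᵥ x) * nq N x :=
      h2.trans (mul_le_mul_of_nonneg_right h3 h5)
    have h8 : nq N (hadj A *ᵥ x) * nq N (hadj A *ᵥ x) ≤ nq N (hadj A *ᵥ x) * (E * nq N x) := by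
      nlinarith
    exact le_of_mul_le_mul_left h8 h6

lemma nq_P23 (hN : 0 < N) {x : I3 N → ℂ} (hx : InK (N - 1) x) :
    nq N (on23 (PP N) *ᵥ x) ≤ EN N * nq N x := by
  have e : hadj (on12 (QQ N)) = on23 (PP N) := by rw [hadj_on12, sh_QQ hN]
  rw [← e]
  exact nq_adj hN (fun _ h => Q12_InK h) (fun _ h => by rw [e]; exact P23_InK h)
    (fun _ h => nq_Q hN h) hx

lemma nq_Q23 (hN : 0 < N) {x : I3 N → ℂ} (hx : InK (N - 1) x) :
    nq N (on23 (QQ N) *ᵥ x) ≤ EN N * nq N x := by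
  have e : hadj (on12 (PP N)) = on23 (QQ N) := by rw [hadj_on12, sh_PP hN]
  rw [← e]
  exact nq_adj hN (fun _ h => P12_InK h) (fun _ h => by rw [e]; exact Q23_InK h)
    (fun _ h => nq_P hN h) hx

/-! ### pieces on three strands -/

lemma vec3_twist0 (σ : Bool) (m : ℕ) (f : List (Fin N) → ℂ) :
    vec3 ((Piece.twist 0 σ m).act N (rt N) f) = on12 (cr N σ ^ m) *ᵥ vec3 f := by
  funext p
  obtain ⟨a, b, c⟩ := p
  rw [on12_mulVec]
  exact act_twist 0 σ m f [] a b [c] rfl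

lemma vec3_twist1 (σ : Bool) (m : ℕ) (f : List (Fin N) → ℂ) :
    vec3 ((Piece.twist 1 σ m).act N (rt N) f) = on23 (cr N σ ^ m) *ᵥ vec3 f := by
  funext p
  obtain ⟨a, b, c⟩ := p
  rw [on23_mulVec]
  exact act_twist 1 σ m f [a] b c [] rfl

lemma on12_one : on12 (1 : M2 N) = 1 := by
  ext ⟨a, b, c⟩ ⟨a', b', c'⟩
  simp only [on12, Matrix.one_apply, Prod.mk.injEq]
  by_cases h : c = c' <;> simp [h]

lemma on23_one : on23 (1 : M2 N) = 1 := by
  ext ⟨a, b, c⟩ ⟨a', b', c'⟩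
  simp only [on23, Matrix.one_apply, Prod.mk.injEq]
  by_cases h : a = a' <;> simp [h]

lemma nq_cr0 (hN : 0 < N) (σ : Bool) (m : ℕ) {x : I3 N → ℂ} (hx : InK (N - 1) x) :
    InK (N - 1) (on12 (cr N σ ^ m) *ᵥ x) ∧
      nq N (on12 (cr N σ ^ m) *ᵥ x) ≤ EN N ^ m * nq N x := by
  induction m with
  | zero => rw [pow_zero, on12_one, Matrix.one_mulVec, pow_zero, one_mul]; exact ⟨hx, le_rfl⟩
  | succ m ih =>
    have e : on12 (cr N σ ^ (m + 1)) *ᵥ x = on12 (cr N σ) *ᵥ (on12 (cr N σ ^ m) *ᵥ x) := by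
      rw [Matrix.mulVec_mulVec, on12_mul, ← pow_succ']
    rw [e]
    have h1 : InK (N - 1) (on12 (cr N σ) *ᵥ (on12 (cr N σ ^ m) *ᵥ x)) ∧
        nq N (on12 (cr N σ) *ᵥ (on12 (cr N σ ^ m) *ᵥ x)) ≤
          EN N * nq N (on12 (cr N σ ^ m) *ᵥ x) := by
      cases σ
      · exact ⟨Q12_InK ih.1, nq_Q hN ih.1⟩
      · exact ⟨P12_InK ih.1, nq_P hN ih.1⟩
    refine ⟨h1.1, h1.2.trans ?_⟩
    rw [pow_succ']
    have := mul_le_mul_of_nonneg_left ih.2 (EN_nonneg N)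
    linarith

lemma nq_cr1 (hN : 0 < N) (σ : Bool) (m : ℕ) {x : I3 N → ℂ} (hx : InK (N - 1) x) :
    InK (N - 1) (on23 (cr N σ ^ m) *ᵥ x) ∧
      nq N (on23 (cr N σ ^ m) *ᵥ x) ≤ EN N ^ m * nq N x := by
  induction m with
  | zero => rw [pow_zero, on23_one, Matrix.one_mulVec, pow_zero, one_mul]; exact ⟨hx, le_rfl⟩
  | succ m ih =>
    have e : on23 (cr N σ ^ (m + 1)) *ᵥ x = on23 (cr N σ) *ᵥ (on23 (cr N σ ^ m) *ᵥ x) := by
      rw [Matrix.mulVec_mulVec, on23_mul, ← pow_succ']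
    rw [e]
    have h1 : InK (N - 1) (on23 (cr N σ) *ᵥ (on23 (cr N σ ^ m) *ᵥ x)) ∧
        nq N (on23 (cr N σ) *ᵥ (on23 (cr N σ ^ m) *ᵥ x)) ≤
          EN N * nq N (on23 (cr N σ ^ m) *ᵥ x) := by
      cases σ
      · exact ⟨Q23_InK ih.1, nq_Q23 hN ih.1⟩
      · exact ⟨P23_InK ih.1, nq_P23 hN ih.1⟩
    refine ⟨h1.1, h1.2.trans ?_⟩
    rw [pow_succ']
    have := mul_le_mul_of_nonneg_left ih.2 (EN_nonneg N)
    linarith

/-- a braid on three strands, as a diagram -/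
def IsBraid (w : Diag) : Prop := ∀ P ∈ w, ∃ σ m, P = Piece.twist 0 σ m ∨ P = Piece.twist 1 σ m

/-- the number of crossings -/
def cross (w : Diag) : ℕ := (w.filterMap Piece.size).sum

lemma nq_run (hN : 0 < N) (w : Diag) (hw : IsBraid w) (f : List (Fin N) → ℂ)
    (hf : InK (N - 1) (vec3 f)) : InK (N - 1) (vec3 (run N (rt N) w f)) ∧
      nq N (vec3 (run N (rt N) w f)) ≤ EN N ^ cross w * nq N (vec3 f) := by
  induction w generalizing f with
  | nil => exact ⟨hf, by simp [cross, run]⟩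
  | cons P w ih =>
    have e1 : run N (rt N) (P :: w) f = run N (rt N) w (P.act N (rt N) f) := rfl
    rw [e1]
    obtain ⟨σ, m, h⟩ := hw P (List.mem_cons_self ..)
    have hw' : IsBraid w := fun Q hQ => hw Q (List.mem_cons_of_mem _ hQ)
    have h2 : InK (N - 1) (vec3 (P.act N (rt N) f)) ∧
        nq N (vec3 (P.act N (rt N) f)) ≤ EN N ^ m * nq N (vec3 f) := by
      rcases h with rfl | rfl
      · rw [vec3_twist0]; exact nq_cr0 hN σ m hf
      · rw [vec3_twist1]; exact nq_cr1 hN σ m hf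
    have h3 := ih hw' _ h2.1
    have e2 : cross (P :: w) = cross w + m := by
      unfold cross
      rcases h with rfl | rfl <;> simp [Piece.size, add_comm]
    refine ⟨h3.1, h3.2.trans ?_⟩
    rw [e2, pow_add, mul_assoc]
    exact mul_le_mul_of_nonneg_left h2.2 (pow_nonneg (EN_nonneg N) _)

/-- **tangles glued with a braid in between** -/
theorem ins (hN : 0 < N) {S T w : Diag} (hS : Fits S 1 3) (hT : Fits T 1 3) (hB : IsBraid w) :
    ‖Pool.Agent.W709.QAT.jones N (T ++ w ++ adj S 1) (rt N)‖ ^ 2 ≤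
      EN N ^ cross w * (‖Pool.Agent.W709.QAT.jones N (S ++ adj S 1) (rt N)‖ *
        ‖Pool.Agent.W709.QAT.jones N (T ++ adj T 1) (rt N)‖) := by
  rw [jones_glue hN hS, jones_glue hN hS, jones_glue hN hT, Hf_self hN (xv_InK hN hS),
    Hf_self hN (xv_InK hN hT), Complex.norm_real, Complex.norm_real,
    Real.norm_of_nonneg (nq_nonneg _), Real.norm_of_nonneg (nq_nonneg _)]
  have e : xv hN (T ++ w) = vec3 (run N (rt N) w (run N (rt N) T (hw N hN))) := by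
    unfold xv
    rw [run_append]
  have h1 := nq_run hN w hB (run N (rt N) T (hw N hN)) (xv_InK hN hT)
  rw [e]
  refine (Hf_cs hN (xv_InK hN hS) h1.1).trans ?_
  have h2 := mul_le_mul_of_nonneg_left h1.2 (nq_nonneg (N := N) (xv hN S))
  refine h2.trans (le_of_eq ?_)
  unfold xv
  ring

end Pool.Agent.R807
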