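import Pool.Agent.R807.HolderLim

/-!
The Kashaev invariants of the closures of palindromic 3-braids with their axes are real up to an
explicit phase.
-/

set_option autoImplicit false

namespace Pool.Agent.R807.Phase

open Matrix Finset Filter Topology Pool.Agent.H550R3.Jones
open Pool.Agent.W715.VC
open Pool.Agent.W719.BX (uA)
open Pool.Agent.R807.Holder Pool.Agent.R807.HolderLim
open scoped Real

variable {N : ℕ}

lemma trace_hadj (A : M3 N) : (hadj A).trace = (starRingEnd ℂ) A.trace := by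
  unfold Matrix.trace
  rw [map_sum, ← Equiv.sum_comp (rvE N)]
  refine sum_congr rfl fun p _ => ?_
  simp only [Matrix.diag_apply, hadj]
  rfl

/-- the trace of a power of a palindromic braid is real and at least `-N³` -/
lemma trace_real (hN : 0 < N) {u : List (ℕ × Bool)} (hu : ∀ l ∈ u, l.1 < 2) (n : ℕ) :
    (((rep3 N (wpow (u ++ dual u) n)).trace.re : ℝ) : ℂ) = (rep3 N (wpow (u ++ dual u) n)).trace ∧
      (n ≠ 0 → -(N : ℝ) ^ 3 ≤ (rep3 N (wpow (u ++ dual u) n)).trace.re) := by
  constructor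
  · have h1 : hadj (rep3 N (u ++ dual u)) = rep3 N (u ++ dual u) := by
      rw [rep3_append, ← hadj_rep3 hN hu, hadj_mul, hadj_hadj]
    have h2 : hadj (rep3 N (wpow (u ++ dual u) n)) = rep3 N (wpow (u ++ dual u) n) := by
      rw [rep3_wpow, hadj_pow, h1]
    have h3 := trace_hadj (rep3 N (wpow (u ++ dual u) n))
    rw [h2] at h3
    exact Complex.conj_eq_iff_re.1 h3.symm
  · intro hn
    rw [rep3_wpow]
    set B := rep3 N (u ++ dual u) with hB
    rw [trace_pow B hn]
    have hcard : B.charpoly.roots.card = N ^ 3 := by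
      rw [card_roots' B]
      simp only [I3, Fintype.card_prod, Fintype.card_fin]
      ring
    have h := re_sum_ge B.charpoly.roots (fun a ha => by
      obtain ⟨m, hm⟩ := eig_of_root (good_rep3 _) ha
      exact eig_main hN hu hm) n
    rw [hcard] at h
    push_cast at h
    exact h

lemma rt_phase (hN : 0 < N) : rt N ^ (-3 * ((N : ℤ) - 1)) =
    -Complex.exp (3 * (Real.pi : ℂ) * Complex.I / N) := by
  have hNC : (N : ℂ) ≠ 0 := by exact_mod_cast hN.ne'
  have h1 : rt N ^ (-3 * ((N : ℤ) - 1)) =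
      Complex.exp (((-3 * ((N : ℤ) - 1) : ℤ) : ℂ) * (Real.pi * Complex.I / N)) := by
    rw [Complex.exp_int_mul]
    rfl
  rw [h1]
  have e : ((-3 * ((N : ℤ) - 1) : ℤ) : ℂ) * (Real.pi * Complex.I / N) =
      3 * (Real.pi : ℂ) * Complex.I / N + (-2 : ℤ) * (2 * Real.pi * Complex.I) +
        Real.pi * Complex.I := by
    push_cast
    field_simp
    ring
  rw [e, Complex.exp_add, Complex.exp_add, Complex.exp_int_mul_two_pi_mul_I, Complex.exp_pi_mul_I]
  ring

/-- the real number `t_N` -/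
noncomputable def tN (u : List (ℕ × Bool)) (n N : ℕ) : ℝ :=
  (rep3 N (wpow (u ++ dual u) n)).trace.re

theorem cjones_phase (hN : 0 < N) {u : List (ℕ × Bool)} (hu : ∀ l ∈ u, l.1 < 2) (n : ℕ) :
    cjones N 3 (axisClosure (wpow (u ++ dual u) n)) (rt N) =
      -Complex.exp (3 * (Real.pi : ℂ) * Complex.I / N) * ((tN u n N : ℝ) : ℂ) := by
  rw [cjones_axis hN, rt_phase hN]
  unfold tN
  rw [(trace_real hN hu n).1]

/-- the growth of the palindromic braids, for real numbers -/
theorem phase_main {u : List (ℕ × Bool)} (hu : ∀ l ∈ u, l.1 < 2) {n : ℕ} (hn : n ≠ 0) {V : ℝ}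
    (hV : 0 < V) (h : Tendsto (fun N : ℕ => 2 * Real.pi / N *
      Real.log ‖(rep3 N (wpow (u ++ dual u) n)).trace‖) atTop (𝓝 V)) :
    (∀ᶠ N : ℕ in atTop, 0 < tN u n N) ∧
    Tendsto (fun N : ℕ => 2 * Real.pi / N * Real.log (tN u n N)) atTop (𝓝 V) := by
  have hpi := Real.pi_pos
  have hnorm : ∀ N : ℕ, 0 < N → ‖(rep3 N (wpow (u ++ dual u) n)).trace‖ = |tN u n N| := by
    intro N hN
    have h1 := (trace_real hN hu n).1
    rw [← h1, Complex.norm_real, Real.norm_eq_abs]
    rfl
  have hpos : ∀ᶠ N : ℕ in atTop, 0 < tN u n N := by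
    filter_upwards [h.eventually (lt_mem_nhds (show V / 2 < V by linarith)),
      HolderLim.poly_le (ε := V / 2 / (2 * π)) (by positivity) 2 3, eventually_gt_atTop 0]
      with N h1 h2 hN
    rw [hnorm N hN] at h1
    have hNr : (0 : ℝ) < N := by exact_mod_cast hN
    have h3 : N * (V / 2 / (2 * π)) < Real.log |tN u n N| := by
      have h4 := mul_lt_mul_of_pos_left h1 (show 0 < (N : ℝ) / (2 * π) by positivity)
      have e : (N : ℝ) / (2 * π) * (2 * π / N * Real.log |tN u n N|) = Real.log |tN u n N| := by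
        field_simp
      rw [e] at h4
      refine lt_of_eq_of_lt ?_ h4
      ring
    have h5 : 0 < |tN u n N| := by
      rcases (abs_nonneg (tN u n N)).eq_or_lt with h6 | h6
      · rw [← h6, Real.log_zero] at h3
        have : 0 < N * (V / 2 / (2 * π)) := by positivity
        linarith
      · exact h6
    have h6 := (Real.lt_log_iff_exp_lt h5).1 h3
    have h7 := (trace_real hN hu n).2 hn
    have h8 : -(N : ℝ) ^ 3 ≤ tN u n N := h7
    by_contra hle
    push Not at hle
    rw [abs_of_nonpos hle] at h6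
    have h9 : (0 : ℝ) < (N : ℝ) ^ 3 := by positivity
    linarith
  refine ⟨hpos, h.congr' ?_⟩
  filter_upwards [hpos, eventually_gt_atTop 0] with N h1 hN
  rw [hnorm N hN, abs_of_pos h1]

/-! ### the family -/

lemma hu_uA (A : ℕ) : ∀ l ∈ uA A, l.1 < 2 := hu_rep (l := (0, true)) (by norm_num) A

/-- the volumes -/
theorem fam_one {n : ℕ} (hn : 1 ≤ n) : 0 < n * (8 * GapVol.lob (π / 6)) ∧
    Tendsto (fun N : ℕ => 2 * Real.pi / N *
      Real.log ‖(rep3 N (wpow (uA 1 ++ dual (uA 1)) n)).trace‖) atTop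
      (𝓝 (n * (8 * GapVol.lob (π / 6)))) := by
  have h6 := lob_six_pos
  have hn0 : (0 : ℝ) < n := by exact_mod_cast (show 0 < n by omega)
  refine ⟨by positivity, growth_pow (hu_uA 1) (by omega) (by linarith) ?_⟩
  refine (Pool.Agent.H112R4.VL.taskD Pool.Agent.H112R4.VL.taskB
    Pool.Agent.H8R3.VL.taskC).congr' ?_
  filter_upwards [eventually_gt_atTop 0] with N hN
  have h4 : uA 1 ++ dual (uA 1) = [(0, true), (1, false)] := rfl
  rw [h4, Pool.Agent.W715.VC.trace_base hN, Complex.norm_real, Real.norm_eq_abs, abs_of_nonneg]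
  exact Finset.sum_nonneg (fun n _ => by positivity)

theorem fam_two {n : ℕ} (hn : 1 ≤ n) : 0 < n * (16 * GapVol.lob (π / 4)) ∧
    Tendsto (fun N : ℕ => 2 * Real.pi / N *
      Real.log ‖(rep3 N (wpow (uA 2 ++ dual (uA 2)) n)).trace‖) atTop
      (𝓝 (n * (16 * GapVol.lob (π / 4)))) := by
  have h6 := Pool.Agent.R807.AxSq.vol_pos
  have hn0 : (0 : ℝ) < n := by exact_mod_cast (show 0 < n by omega)
  exact ⟨by positivity, Pool.Agent.R807.AxSq.main hn⟩

open Pool.Agent.W719.BX in
theorem fam_four {A n : ℕ} (hA : 4 ≤ A) (hn : 1 ≤ n) : ∃ V : ℝ,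
    IsGreatest {W : ℝ | ∃ w, bAngleN A n w ∧ bvolN A n w = W} V ∧ 0 < V ∧
    Tendsto (fun N : ℕ => 2 * Real.pi / N *
      Real.log ‖(rep3 N (wpow (uA A ++ dual (uA A)) n)).trace‖) atTop (𝓝 V) := by
  obtain ⟨V, h1, h2, h3⟩ := mainN hA hn
  have h4 := lob_six_pos
  have hn0 : (0 : ℝ) < n := by exact_mod_cast (show 0 < n by omega)
  have h5 : 0 < n * (20 * GapVol.lob (π / 6)) := by positivity
  exact ⟨V, h1, by linarith, h3⟩

end Pool.Agent.R807.Phase
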