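import Pool.Agent.R807.Fin

/-!
The Kashaev invariants of the palindromic two-bridge links are positive.
-/

set_option autoImplicit false

namespace Pool.Agent.R807

open Finset Matrix Pool.Agent.W709.QAT Pool.Agent.H550R3.Jones
open Pool.Agent.W715.VC hiding kap

variable {N : ℕ}

lemma cr_inv (σ : Bool) : cr N (!σ) * cr N σ = 1 := by
  cases σ
  · exact PP_QQ
  · exact QQ_PP

lemma cr_inv_pow (σ : Bool) (m : ℕ) : cr N (!σ) ^ m * cr N σ ^ m = 1 := by
  have h1 := cr_inv (N := N) σ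
  have h2 : cr N σ * cr N (!σ) = 1 := by
    have := cr_inv (N := N) (!σ)
    rwa [Bool.not_not] at this
  have hc : Commute (cr N (!σ)) (cr N σ) := by
    show _ * _ = _ * _
    rw [h1, h2]
  rw [← hc.mul_pow, h1, one_pow]

/-- braids have inverses -/
theorem inv_braid (w : Diag) (hw : IsBraid w) : ∃ w', IsBraid w' ∧
    ∀ f : List (Fin N) → ℂ, vec3 (run N (rt N) (w ++ w') f) = vec3 f := by
  induction w with
  | nil => exact ⟨[], by intro P hP; simp at hP, fun f => rfl⟩
  | cons P w ih =>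
    obtain ⟨w', h1, h2⟩ := ih (fun Q hQ => hw Q (List.mem_cons_of_mem _ hQ))
    obtain ⟨σ, m, h⟩ := hw P (List.mem_cons_self ..)
    have e : ∀ (P' : Piece) (f : List (Fin N) → ℂ), run N (rt N) (P :: w ++ (w' ++ [P'])) f =
        P'.act N (rt N) (run N (rt N) (w ++ w') (P.act N (rt N) f)) := by
      intro P' f
      rw [List.cons_append, ← List.append_assoc]
      have e1 : run N (rt N) (P :: (w ++ w' ++ [P'])) f =
          run N (rt N) (w ++ w' ++ [P']) (P.act N (rt N) f) := rfl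
      rw [e1, run_append]
      rfl
    rcases h with rfl | rfl
    · refine ⟨w' ++ [Piece.twist 0 (!σ) m], ?_, fun f => ?_⟩
      · intro Q hQ
        rcases List.mem_append.1 hQ with hQ | hQ
        · exact h1 Q hQ
        · rw [List.mem_singleton.1 hQ]
          exact ⟨!σ, m, Or.inl rfl⟩
      · rw [e, vec3_twist0, h2, vec3_twist0, Matrix.mulVec_mulVec, on12_mul, cr_inv_pow, on12_one,
          Matrix.one_mulVec]
    · refine ⟨w' ++ [Piece.twist 1 (!σ) m], ?_, fun f => ?_⟩
      · intro Q hQ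
        rcases List.mem_append.1 hQ with hQ | hQ
        · exact h1 Q hQ
        · rw [List.mem_singleton.1 hQ]
          exact ⟨!σ, m, Or.inr rfl⟩
      · rw [e, vec3_twist1, h2, vec3_twist1, Matrix.mulVec_mulVec, on23_mul, cr_inv_pow, on23_one,
          Matrix.one_mulVec]

lemma fits_braid {w : Diag} (hw : IsBraid w) : Fits w 3 3 := by
  induction w with
  | nil => rfl
  | cons P w ih =>
    obtain ⟨σ, m, h⟩ := hw P (List.mem_cons_self ..)
    refine fits_cons' ?_ (ih (fun Q hQ => hw Q (List.mem_cons_of_mem _ hQ)))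
    rcases h with rfl | rfl <;> rfl

lemma nq_cup1 (hN : 0 < N) : nq N (xv hN [.cup 1]) = 1 := by
  have h1 := Hf_self hN (xv_InK hN fits0)
  have h2 := jones_glue hN fits0 [.cup 1]
  rw [jones_one hN, h1] at h2
  exact_mod_cast h2.symm

/-- the vectors of the two-bridge tangles do not vanish -/
theorem nq_pos (hN : 0 < N) {w : Diag} (hw : IsBraid w) : 0 < nq N (xv hN (.cup 1 :: w)) := by
  obtain ⟨w', h1, h2⟩ := inv_braid (N := N) w hw
  have h3 : Fits (.cup 1 :: w) 1 3 := fits_cons' (P := .cup 1) (m := 3) rfl (fits_braid hw)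
  have h4 := nq_run hN w' h1 (run N (rt N) (.cup 1 :: w) (Pool.Agent.R807.hw N hN)) (xv_InK hN h3)
  have h5 : vec3 (run N (rt N) w' (run N (rt N) (.cup 1 :: w) (Pool.Agent.R807.hw N hN))) =
      xv hN [.cup 1] := by
    have h6 := h2 (run N (rt N) [.cup 1] (Pool.Agent.R807.hw N hN))
    rw [run_append] at h6
    exact h6
  rw [h5, nq_cup1] at h4
  by_contra h
  have h7 : nq N (xv hN (.cup 1 :: w)) = 0 := le_antisymm (not_lt.1 h) (nq_nonneg _)
  have h8 : nq N (vec3 (run N (rt N) (.cup 1 :: w) (Pool.Agent.R807.hw N hN))) = 0 := h7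
  rw [h8, mul_zero] at h4
  linarith [h4.2]

/-- **the Kashaev invariants of the palindromic two-bridge links are positive** -/
theorem jones_pos (hN : 0 < N) {w : Diag} (hw : IsBraid w) : ∃ x : ℝ, 0 < x ∧
    Pool.Agent.W709.QAT.jones N (.cup 1 :: w ++ adj (.cup 1 :: w) 1) (rt N) = (x : ℂ) := by
  have h3 : Fits (.cup 1 :: w) 1 3 := fits_cons' (P := .cup 1) (m := 3) rfl (fits_braid hw)
  refine ⟨_, nq_pos hN hw, ?_⟩
  rw [jones_glue hN h3, Hf_self hN (xv_InK hN h3)]

/-- the Kashaev invariant of `T* T` is nonnegative -/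
theorem jones_nonneg (hN : 0 < N) {T : Diag} (hT : Fits T 1 3) : ∃ x : ℝ, 0 ≤ x ∧
    Pool.Agent.W709.QAT.jones N (T ++ adj T 1) (rt N) = (x : ℂ) := by
  refine ⟨nq N (xv hN T), nq_nonneg _, ?_⟩
  rw [jones_glue hN hT, Hf_self hN (xv_InK hN hT)]

end Pool.Agent.R807
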