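import Pool.Agent.R807.TB
import Pool.Agent.R807.Pos

/-!
Lower bounds for the invariants of the two-bridge links `C(a, b, …, b, a)`.
-/

set_option autoImplicit false

namespace Pool.Agent.R807.Pow3

open Matrix Finset Filter Topology Pool.Agent.H550R3.Jones Pool.Agent.W709.QAT
open Pool.Agent.W715.VC hiding kap
open Pool.Agent.R807.Holder Pool.Agent.R807.HolderLim Pool.Agent.R807.TB
open scoped Real

variable {N : ℕ}

lemma merge_xv (hN : 0 < N) (T : Diag) (a b : ℕ) :
    xv hN (T ++ [.twist 0 true a] ++ [.twist 0 true b]) = xv hN (T ++ [.twist 0 true (a + b)]) := by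
  have e1 : xv hN (T ++ [.twist 0 true a] ++ [.twist 0 true b]) =
      vec3 ((Piece.twist 0 true b).act N (rt N) ((Piece.twist 0 true a).act N (rt N)
        (run N (rt N) T (hw N hN)))) := by
    unfold xv
    rw [run_append, run_append]
    rfl
  have e2 : xv hN (T ++ [.twist 0 true (a + b)]) =
      vec3 ((Piece.twist 0 true (a + b)).act N (rt N) (run N (rt N) T (hw N hN))) := by
    unfold xv
    rw [run_append]
    rfl
  rw [e1, e2, vec3_twist0, vec3_twist0, vec3_twist0, Matrix.mulVec_mulVec, on12_mul, ← pow_add,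
    add_comm b a]

/-- the basic inequality -/
theorem basic (hN : 0 < N) {T : Diag} (hT : Fits T 1 3) (c b : ℕ) :
    nq N (xv hN (T ++ [.twist 0 true (c + b)])) ^ 2 ≤
      nq N (xv hN (T ++ [.twist 0 true c])) *
        nq N (xv hN (T ++ [.twist 0 true (c + b)] ++ [.twist 1 false b])) := by
  have f1 : Fits (T ++ [.twist 0 true (c + b)]) 1 3 := fits_append hT rfl
  have f2 : Fits (T ++ [.twist 0 true c]) 1 3 := fits_append hT rfl
  have f3 : Fits [Piece.twist 1 false b] 3 3 := rfl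
  have f4 : Fits (T ++ [.twist 0 true (c + b)] ++ [.twist 1 false b]) 1 3 := fits_append f1 f3
  have f5 : Fits [Piece.twist 0 true b] 3 3 := rfl
  -- the inner product
  have h1 : star (cv hN (T ++ [.twist 0 true c])) ⬝ᵥ
      (AR N [.twist 1 false b] *ᵥ cv hN (T ++ [.twist 0 true (c + b)])) =
      star (cv hN (T ++ [.twist 0 true (c + b)])) ⬝ᵥ cv hN (T ++ [.twist 0 true (c + b)]) := by
    have e : AR N [Piece.twist 1 false b] = (AR N [Piece.twist 0 true b])ᴴ := by
      rw [← AR_adj hN f5]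
      rfl
    rw [e, Matrix.dotProduct_mulVec, ← Matrix.star_mulVec, ← cv_append hN f2 f5]
    congr 2
    unfold cv
    rw [merge_xv]
  have h2 : Pool.Agent.W709.QAT.jones N (T ++ [.twist 0 true (c + b)] ++ [.twist 1 false b] ++
      adj (T ++ [.twist 0 true c]) 1) (rt N) =
      Pool.Agent.W709.QAT.jones N (T ++ [.twist 0 true (c + b)] ++
        adj (T ++ [.twist 0 true (c + b)]) 1) (rt N) := by
    rw [jones_AR hN f2 f1 f3, h1, jones_inner hN f1 f1]
    rfl
  have h3 := Hf_cs hN (xv_InK hN f2) (xv_InK hN f4)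
  rw [← jones_glue hN f2, h2, norm_self hN f1] at h3
  exact h3

/-! ### `C(a, b, …, b, a)` -/

/-- the diagram -/
def pal (a b n : ℕ) : Diag :=
  .cup 1 :: syl true (a :: List.replicate (2 * n) b ++ [a]) ++ [.cap 0]

lemma syl_odd' (c m : ℕ) : syl false (List.replicate (2 * m) c) =
    pw [.twist 1 false c, .twist 0 true c] m := by
  induction m with
  | zero => rfl
  | succ n ih =>
    have e : List.replicate (2 * (n + 1)) c = List.replicate (2 * n) c ++ [c, c] := by
      have : [c, c] = List.replicate 2 c := rfl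
      rw [this, List.replicate_append_replicate]
      congr 1
    rw [e, syl_append, ih, pw, if_pos (by simp)]
    rfl

lemma pal_eq (a b n : ℕ) : pal a b n =
    Ta a ++ pw ([.twist 1 false b] ++ adj [.twist 1 false b] 3) n ++ adj (Ta a) 1 := by
  have e1 : adj [Piece.twist 1 false b] 3 = [.twist 0 true b] := rfl
  have e2 : adj (Ta a) 1 = [.twist 1 false a, .cap 0] := rfl
  have e3 : syl true (a :: List.replicate (2 * n) b ++ [a]) =
      .twist 0 true a :: (pw [.twist 1 false b, .twist 0 true b] n ++ [.twist 1 false a]) := by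
    rw [List.cons_append]
    simp only [Pool.Agent.R807.syl]
    rw [syl_append, syl_odd', if_pos (by simp)]
    rfl
  unfold pal
  rw [e1, e2, e3]
  simp [Ta]

/-- `J_N(C(a, a))` -/
noncomputable def X (N a : ℕ) : ℝ := if hN : 0 < N then nq N (xv hN (Ta a)) else 1

lemma X_eq (hN : 0 < N) (a : ℕ) : X N a = nq N (xv hN (Ta a)) := dif_pos hN

lemma X_pos (N a : ℕ) : 0 < X N a := by
  by_cases hN : 0 < N
  · rw [X_eq hN]
    exact nq_pos hN (w := [.twist 0 true a]) (fun P hP => by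
      rw [List.mem_singleton] at hP
      exact ⟨true, a, Or.inl hP⟩)
  · unfold X
    rw [dif_neg hN]
    exact one_pos

lemma X_zero (hN : 0 < N) : X N 0 = 1 := by
  rw [X_eq hN, ← nq_cup1 hN]
  congr 1
  have : xv hN (Ta 0) = vec3 ((Piece.twist 0 true 0).act N (rt N)
      (run N (rt N) [.cup 1] (hw N hN))) := rfl
  rw [this, vec3_twist0, pow_zero, Pool.Agent.R807.on12_one, Matrix.one_mulVec]
  rfl

/-- **the lower bound for `C(a, b, …, b, a)`** -/
theorem pal_lower (hN : 0 < N) (c b : ℕ) : ∃ x : ℕ → ℝ, (∀ n, 0 < x n ∧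
    Pool.Agent.W709.QAT.jones N (pal (c + b) b n) (rt N) = ((x n : ℝ) : ℂ)) ∧
    x 0 = X N (c + b) ∧ (∀ m n, x m * x n ≤ x 0 * x (m + n)) ∧
    ∀ n, X N (c + b) ^ (n + 1) ≤ x n * X N c ^ n := by
  obtain ⟨x, h1, h2, h3⟩ := super (N := N) hN (T := Ta (c + b)) (R := [.twist 1 false b])
    (fits_Ta _) rfl
  have hJ : ∀ n, Pool.Agent.W709.QAT.jones N (pal (c + b) b n) (rt N) = ((x n : ℝ) : ℂ) := by
    intro n
    rw [pal_eq]
    exact (h1 n).2
  have h0 : x 0 = X N (c + b) := by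
    have e := (h1 0).2
    have e2 : Ta (c + b) ++ pw ([.twist 1 false b] ++ adj [.twist 1 false b] 3) 0 ++
        adj (Ta (c + b)) 1 = Ta (c + b) ++ adj (Ta (c + b)) 1 := by
      rw [pw, List.append_nil]
    rw [e2, jones_glue hN (fits_Ta _), Hf_self hN (xv_InK hN (fits_Ta _)), ← X_eq] at e
    exact_mod_cast e.symm
  have h4 : x 1 = nq N (xv hN (Ta (c + b) ++ [.twist 1 false b])) := by
    have e := (h1 1).2
    have f4 : Fits (Ta (c + b) ++ [.twist 1 false b]) 1 3 := rfl
    have e2 : Ta (c + b) ++ pw ([.twist 1 false b] ++ adj [.twist 1 false b] 3) 1 ++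
        adj (Ta (c + b)) 1 = (Ta (c + b) ++ [.twist 1 false b]) ++
          adj (Ta (c + b) ++ [.twist 1 false b]) 1 := by
      rw [adj_append (n := 1) (m := 3) (D := Ta (c + b)) (E := [.twist 1 false b]) rfl]
      simp [pw]
    rw [e2, jones_glue hN f4, Hf_self hN (xv_InK hN f4)] at e
    exact_mod_cast e.symm
  have h5 : X N (c + b) ^ 2 ≤ X N c * x 1 := by
    have h := basic hN (T := [.cup 1]) rfl c b
    have e1 : ([.cup 1] ++ [.twist 0 true (c + b)] : Diag) = Ta (c + b) := rfl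
    have e2 : ([.cup 1] ++ [.twist 0 true c] : Diag) = Ta c := rfl
    rw [e1, e2, ← X_eq, ← X_eq, ← h4] at h
    exact h
  have hXa := X_pos N (c + b)
  have hXc := X_pos N c
  have h6 : ∀ n, X N (c + b) ^ (n + 1) ≤ x n * X N c ^ n := by
    intro n
    induction n with
    | zero => rw [h0]; simp
    | succ n ih =>
      have h7 := h2 n 1
      rw [h0] at h7
      -- x n * x 1 ≤ X * x (n+1)
      have h8 : X N (c + b) ^ (n + 1) * X N (c + b) ^ 2 ≤
          (x n * X N c ^ n) * (X N c * x 1) :=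
        mul_le_mul ih h5 (by positivity) ((pow_pos hXa _).le.trans ih)
      have h9 : (x n * X N c ^ n) * (X N c * x 1) = (x n * x 1) * X N c ^ (n + 1) := by ring
      have h10 : (x n * x 1) * X N c ^ (n + 1) ≤ (X N (c + b) * x (n + 1)) * X N c ^ (n + 1) :=
        mul_le_mul_of_nonneg_right h7 (by positivity)
      have h11 : X N (c + b) * X N (c + b) ^ (n + 1 + 1) ≤
          X N (c + b) * (x (n + 1) * X N c ^ (n + 1)) := by
        calc X N (c + b) * X N (c + b) ^ (n + 1 + 1) =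
            X N (c + b) ^ (n + 1) * X N (c + b) ^ 2 := by ring
          _ ≤ (x n * x 1) * X N c ^ (n + 1) := by rw [← h9]; exact h8
          _ ≤ (X N (c + b) * x (n + 1)) * X N c ^ (n + 1) := h10
          _ = X N (c + b) * (x (n + 1) * X N c ^ (n + 1)) := by ring
      exact le_of_mul_le_mul_left h11 hXa
  refine ⟨x, fun n => ⟨?_, hJ n⟩, h0, h2, h6⟩
  have h12 := (pow_pos hXa (n + 1)).trans_le (h6 n)
  by_contra hc
  have : x n * X N c ^ n ≤ 0 := mul_nonpos_of_nonpos_of_nonneg (not_lt.1 hc) (by positivity)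
  linarith

/-! ### the growth of `C(a, a)`, from below -/

/-- `C(a, a)` grows at least with the rate `L` -/
def EndGe (L : ℝ) (a : ℕ) : Prop := ∀ ε : ℝ, 0 < ε → ∀ᶠ N : ℕ in atTop,
  Real.exp (N * ((L - ε) / (2 * π))) ≤ X N a

lemma le_of_EndLe {L : ℝ} {a : ℕ} (h : EndLe L a) (ε : ℝ) (hε : 0 < ε) : ∀ᶠ N : ℕ in atTop,
    X N a ≤ Real.exp (N * ((L + ε) / (2 * π))) := by
  filter_upwards [h ε hε, eventually_gt_atTop 0] with N h1 hN
  rw [X_eq hN]
  exact h1 hN

lemma endGe_of {L : ℝ} {a : ℕ} (h : Tendsto (fun N : ℕ => 2 * Real.pi *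
    (Real.log ‖Pool.Agent.W709.RT.jt a N (EvenVol.v0 N)‖ / N)) atTop (𝓝 L)) : EndGe L a := by
  intro ε hε
  have hpi := Real.pi_pos
  filter_upwards [h.eventually (lt_mem_nhds (show L - ε < L by linarith)),
    eventually_gt_atTop 0] with N h1 hN
  have h0 := X_pos N a
  rw [X_eq hN, nq_jt hN] at h0 ⊢
  have hNr : (0 : ℝ) < N := by exact_mod_cast hN
  rw [← Real.le_log_iff_exp_le h0]
  have h7 := mul_le_mul_of_nonneg_left h1.le (show 0 ≤ (N : ℝ) / (2 * π) by positivity)
  refine le_trans (le_of_eq ?_) (h7.trans (le_of_eq ?_))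
  · ring
  · field_simp

lemma ge_zero : EndGe 0 0 := by
  intro ε hε
  have hpi := Real.pi_pos
  filter_upwards [eventually_gt_atTop 0] with N hN
  rw [X_zero hN]
  have h1 : (0 : ℝ) ≤ N := Nat.cast_nonneg N
  have h2 : (N : ℝ) * ((0 - ε) / (2 * π)) ≤ 0 := by
    apply mul_nonpos_of_nonneg_of_nonpos h1
    rw [zero_sub, neg_div]
    have : 0 < ε / (2 * π) := by positivity
    linarith
  calc Real.exp (N * ((0 - ε) / (2 * π))) ≤ Real.exp 0 := Real.exp_le_exp.2 h2
    _ = 1 := Real.exp_zero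

lemma le_zero : EndLe 0 0 := by
  intro ε hε
  have hpi := Real.pi_pos
  filter_upwards with N hN
  rw [← X_eq hN, X_zero hN]
  have h1 : (0 : ℝ) ≤ N := Nat.cast_nonneg N
  apply Real.one_le_exp
  positivity

lemma ge_one : EndGe 0 1 := by
  intro ε hε
  have hpi := Real.pi_pos
  filter_upwards [eventually_gt_atTop 0] with N hN
  have h2 : nq N (xv hN (Ta 1)) = N := by
    have h3 := hopf hN
    have h4 := norm_self hN (fits_Ta 1)
    have e : Ta 1 = [.cup 1, .twist 0 true 1] := rfl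
    rw [e] at h4 ⊢
    rw [← h4, h3, Complex.norm_real, Real.norm_of_nonneg (Nat.cast_nonneg N)]
  rw [X_eq hN, h2]
  have h1 : (0 : ℝ) ≤ N := Nat.cast_nonneg N
  have h3 : (1 : ℝ) ≤ N := by exact_mod_cast hN
  have h2 : (N : ℝ) * ((0 - ε) / (2 * π)) ≤ 0 := by
    apply mul_nonpos_of_nonneg_of_nonpos h1
    rw [zero_sub, neg_div]
    have : 0 < ε / (2 * π) := by positivity
    linarith
  calc Real.exp (N * ((0 - ε) / (2 * π))) ≤ Real.exp 0 := Real.exp_le_exp.2 h2
    _ = 1 := Real.exp_zero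
    _ ≤ N := h3

lemma ge_two : EndGe (4 * GapVol.lob (π / 6)) 2 := by
  intro ε hε
  have hpi := Real.pi_pos
  filter_upwards [SF_ge (ε := ε / (2 * π)) (by positivity), eventually_gt_atTop 0] with N h1 hN
  have e : Ta 2 = T0 := rfl
  rw [X_eq hN, e, nq_T0 hN]
  refine le_trans (le_of_eq ?_) h1
  congr 1
  field_simp
  ring

lemma ge_three : EndGe (8 * GapVol.lob (π / 6)) 3 := by
  refine endGe_of ?_
  have h := Pool.Agent.H112R4.VL.taskD Pool.Agent.H112R4.VL.taskB Pool.Agent.H8R3.VL.taskC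
  refine h.congr' ?_
  filter_upwards [eventually_ge_atTop 2] with N hN
  have h1 : Pool.Agent.W709.RT.jt 3 N (EvenVol.v0 N) = ((Pool.Agent.H112R4.VL.K N : ℝ) : ℂ) := by
    refine Pool.Agent.W709.RT.jt_v0 hN ?_
    have e : ((3 : ℕ) : ℤ) = 3 := rfl
    rw [e]
    exact Pool.Agent.H112R4.VL.taskA N hN
  have h4 : ‖((Pool.Agent.H112R4.VL.K N : ℝ) : ℂ)‖ = Pool.Agent.H112R4.VL.K N := by
    rw [Complex.norm_real, Real.norm_eq_abs, abs_of_nonneg]
    exact Finset.sum_nonneg (fun n _ => by positivity)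
  rw [h1, h4]
  ring

lemma both_four {a : ℕ} (ha : 4 ≤ a) : ∃ W : ℝ,
    IsGreatest {W : ℝ | ∃ w, Pool.Agent.W709.VC.IsAngle a a w ∧
      Pool.Agent.W709.VC.volw a a w = W} W ∧ EndLe W a ∧ EndGe W a := by
  obtain ⟨V, h1, h2⟩ := Pool.Agent.W709.RT.main ha
  exact ⟨V, h1, endLe_of h2, endGe_of h2⟩

/-! ### the two bounds -/

theorem two_sided {V : ℕ → ℝ} (hV : ∀ a, 1 ≤ a → GrowthLe (V a) a) {c b : ℕ} (hb : 1 ≤ b)
    {G Gc : ℝ} (h1 : EndLe G (c + b)) (h2 : EndGe G (c + b)) (h3 : EndLe Gc c) (n : ℕ)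
    {ε : ℝ} (hε : 0 < ε) : ∀ᶠ N : ℕ in atTop,
      Real.exp (N * (((n + 1) * G - n * Gc - ε) / (2 * π))) ≤
        ‖Pool.Agent.W709.QAT.jones N (pal (c + b) b n) (rt N)‖ ∧
      ‖Pool.Agent.W709.QAT.jones N (pal (c + b) b n) (rt N)‖ ≤
        Real.exp (N * ((G + n * V b + ε) / (2 * π))) := by
  have hpi := Real.pi_pos
  have hn : (0 : ℝ) < 2 * n + 1 := by positivity
  have hδ : 0 < ε / (2 * n + 1) := by positivity
  have h4 := tb_growth2 (V := V) hV (a := c + b) (l := List.replicate (2 * n) b) (b := c + b)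
    (fun m hm => by rw [List.eq_of_mem_replicate hm]; exact hb) h1 h1 hε
  filter_upwards [h2 _ hδ, le_of_EndLe h3 _ hδ, h4, eventually_gt_atTop 0] with N k1 k2 k3 hN
  obtain ⟨x, x1, -, -, x2⟩ := pal_lower hN c b
  obtain ⟨x3, x4⟩ := x1 n
  constructor
  · rw [x4, Complex.norm_real, Real.norm_of_nonneg x3.le]
    have k4 := pow_le_pow_left₀ (Real.exp_pos _).le k1 (n + 1)
    have k5 := pow_le_pow_left₀ (X_pos N c).le k2 n
    rw [← Real.exp_nat_mul] at k4 k5
    have k6 := (k4.trans (x2 n)).trans (mul_le_mul_of_nonneg_left k5 x3.le)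
    have e : Real.exp (N * (((n + 1) * G - n * Gc - ε) / (2 * π))) *
        Real.exp (n * (N * ((Gc + ε / (2 * n + 1)) / (2 * π)))) =
        Real.exp (((n + 1 : ℕ) : ℝ) * (N * ((G - ε / (2 * n + 1)) / (2 * π)))) := by
      rw [← Real.exp_add]
      congr 1
      push_cast
      field_simp
      ring
    rw [← e] at k6
    exact le_of_mul_le_mul_right k6 (Real.exp_pos _)
  · have e : pal (c + b) b n = tb2 (c + b) (List.replicate (2 * n) b) (c + b) := by
      unfold pal tb2
      rw [if_pos (by simp)]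
    rw [e]
    refine k3.trans (le_of_eq ?_)
    congr 2
    rw [List.map_replicate, List.sum_replicate, nsmul_eq_mul]
    push_cast
    ring

end Pool.Agent.R807.Pow3
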