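import Mathlib

/-!
Ratio limits of sequences with known exponential growth and known phases.
-/

set_option autoImplicit false

namespace Pool.Agent.R807.Ratio

open Filter Topology

/-- if the ratios are at most `r` then the growth is at most `log r` -/
lemma growth_le {b : ℕ → ℝ} {L r : ℝ} (hr : 0 < r) (hb : ∀ᶠ k in atTop, 0 < b k)
    (h : Tendsto (fun k : ℕ => Real.log (b k) / k) atTop (𝓝 L))
    (hc : ∀ᶠ k in atTop, b (k + 1) ≤ r * b k) : L ≤ Real.log r := by
  obtain ⟨k0, hk0⟩ := eventually_atTop.1 (hb.and hc)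
  have h1 : ∀ j : ℕ, Real.log (b (k0 + j)) ≤ Real.log (b k0) + j * Real.log r := by
    intro j
    induction j with
    | zero => simp
    | succ j ih =>
      have h2 := (hk0 (k0 + j) (by omega)).2
      have h3 := (hk0 (k0 + j) (by omega)).1
      have h4 := (hk0 (k0 + (j + 1)) (by omega)).1
      have h5 : Real.log (b (k0 + (j + 1))) ≤ Real.log (r * b (k0 + j)) :=
        Real.log_le_log h4 h2
      rw [Real.log_mul hr.ne' h3.ne'] at h5
      push_cast
      linarith
  have h2 : ∀ᶠ k : ℕ in atTop, Real.log (b k) / k ≤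
      (Real.log (b k0) - k0 * Real.log r) / k + Real.log r := by
    filter_upwards [eventually_ge_atTop k0, eventually_gt_atTop 0] with k hk hk1
    obtain ⟨j, rfl⟩ := Nat.exists_eq_add_of_le hk
    have hkr : (0 : ℝ) < ((k0 + j : ℕ) : ℝ) := by exact_mod_cast hk1
    rw [div_add' _ _ _ hkr.ne', div_le_div_iff_of_pos_right hkr]
    have := h1 j
    push_cast
    linarith
  have h3 : Tendsto (fun k : ℕ => (Real.log (b k0) - k0 * Real.log r) / k + Real.log r) atTop
      (𝓝 (0 + Real.log r)) :=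
    (tendsto_const_div_atTop_nhds_zero_nat _).add tendsto_const_nhds
  rw [zero_add] at h3
  exact le_of_tendsto_of_tendsto h h3 h2

/-- if the ratios are at least `r` then the growth is at least `log r` -/
lemma growth_ge {b : ℕ → ℝ} {L r : ℝ} (hr : 0 < r) (hb : ∀ᶠ k in atTop, 0 < b k)
    (h : Tendsto (fun k : ℕ => Real.log (b k) / k) atTop (𝓝 L))
    (hc : ∀ᶠ k in atTop, r * b k ≤ b (k + 1)) : Real.log r ≤ L := by
  have h1 := growth_le (b := fun k => (b k)⁻¹) (L := -L) (r := r⁻¹) (inv_pos.2 hr)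
    (hb.mono fun k hk => inv_pos.2 hk) (by
      refine h.neg.congr fun k => ?_
      simp only [Real.log_inv]
      ring) (by
      filter_upwards [hc, hb] with k h1 h2
      rw [← mul_inv]
      exact inv_anti₀ (by positivity) h1)
  rw [Real.log_inv] at h1
  linarith

/-- if the ratios converge then the limit is given by the growth -/
theorem ratio_lim {b : ℕ → ℝ} {L c : ℝ} (hb : ∀ᶠ k in atTop, 0 < b k)
    (h : Tendsto (fun k : ℕ => Real.log (b k) / k) atTop (𝓝 L))
    (hc : Tendsto (fun k => b (k + 1) / b k) atTop (𝓝 c)) : c = Real.exp L := by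
  have h0 : 0 ≤ c := by
    refine ge_of_tendsto hc ?_
    filter_upwards [hb, (tendsto_add_atTop_nat 1).eventually hb] with k h1 h2
    exact (div_pos h2 h1).le
  have h1 : ∀ r : ℝ, c < r → Real.exp L ≤ r := by
    intro r hr
    have hr0 : 0 < r := h0.trans_lt hr
    rw [← Real.le_log_iff_exp_le hr0]
    refine growth_le hr0 hb h ?_
    filter_upwards [hc.eventually (gt_mem_nhds hr), hb] with k h1 h2
    exact ((div_lt_iff₀ h2).1 h1).le
  have h2 : Real.exp L ≤ c := le_of_forall_gt_imp_ge_of_dense h1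
  have hc0 : 0 < c := (Real.exp_pos _).trans_le h2
  refine le_antisymm (le_of_forall_lt_imp_le_of_dense fun r hr => ?_) h2
  rcases le_or_gt r 0 with h3 | h3
  · exact h3.trans (Real.exp_pos _).le
  · rw [← Real.log_le_iff_le_exp h3]
    refine growth_ge h3 hb h ?_
    filter_upwards [hc.eventually (lt_mem_nhds hr), hb] with k h1 h2
    exact ((lt_div_iff₀ h2).1 h1).le

/-- ratios of complex sequences with known phases -/
lemma phase_ratio {J e : ℕ → ℂ} {t : ℕ → ℝ} (p : ℕ) {l : Filter ℕ}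
    (hl : Tendsto (fun N => N + p) l l)
    (hJ : ∀ᶠ N in l, J N = e N * (t N : ℂ)) (ht : ∀ᶠ N in l, 0 < t N)
    (he : ∀ᶠ N in l, ‖e N‖ = 1) {s : ℂ} (hs : Tendsto e l (𝓝 s)) (hs0 : s ≠ 0) :
    Tendsto (fun N => J (N + p) / J N / (‖J (N + p) / J N‖ : ℝ)) l (𝓝 1) := by
  have h1 : Tendsto (fun N => e (N + p) / e N) l (𝓝 (s / s)) := (hs.comp hl).div hs hs0
  rw [div_self hs0] at h1
  refine h1.congr' ?_
  filter_upwards [hJ, hl.eventually hJ, ht, hl.eventually ht, he, hl.eventually he]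
    with N h1 h2 h3 h4 h5 h6
  have h7 : (t N : ℂ) ≠ 0 := by exact_mod_cast h3.ne'
  have h8 : (t (N + p) : ℂ) ≠ 0 := by exact_mod_cast h4.ne'
  have h9 : e N ≠ 0 := by
    intro h
    rw [h, norm_zero] at h5
    norm_num at h5
  rw [h1, h2, norm_div, norm_mul, norm_mul, h5, h6, one_mul, one_mul, Complex.norm_real,
    Complex.norm_real, Real.norm_eq_abs, Real.norm_eq_abs, abs_of_pos h3, abs_of_pos h4]
  push_cast
  field_simp

/-- if the complex ratios converge then the limit is a positive real number -/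
lemma ratio_real {J e : ℕ → ℂ} {t : ℕ → ℝ} {l : Filter ℕ} [NeBot l] (p : ℕ)
    (hl : Tendsto (fun N => N + p) l l)
    (hJ : ∀ᶠ N in l, J N = e N * (t N : ℂ)) (ht : ∀ᶠ N in l, 0 < t N)
    {s : ℂ} (hs : Tendsto e l (𝓝 s)) (hs0 : s ≠ 0) {c : ℂ}
    (hc : Tendsto (fun N => J (N + p) / J N) l (𝓝 c)) :
    (c.re : ℂ) = c ∧ Tendsto (fun N => t (N + p) / t N) l (𝓝 c.re) := by
  have h1 : Tendsto (fun N => e N / e (N + p)) l (𝓝 (s / s)) := hs.div (hs.comp hl) hs0
  rw [div_self hs0] at h1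
  have h2 := hc.mul h1
  rw [mul_one] at h2
  have h3 : Tendsto (fun N => ((t (N + p) / t N : ℝ) : ℂ)) l (𝓝 c) := by
    refine h2.congr' ?_
    have hne : ∀ᶠ N in l, e N ≠ 0 := hs.eventually_ne hs0
    filter_upwards [hJ, hl.eventually hJ, ht, hne, hl.eventually hne] with N h1 h2 h3 h4 h5
    have h7 : (t N : ℂ) ≠ 0 := by exact_mod_cast h3.ne'
    rw [h1, h2]
    push_cast
    field_simp
  have h4 : Tendsto (fun N => t (N + p) / t N) l (𝓝 c.re) := by
    have := (Complex.continuous_re.tendsto c).comp h3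
    refine this.congr fun N => ?_
    simp
  refine ⟨?_, h4⟩
  have h5 : Tendsto (fun N => ((t (N + p) / t N : ℝ) : ℂ)) l (𝓝 (c.re : ℂ)) :=
    (Complex.continuous_ofReal.tendsto _).comp h4
  exact tendsto_nhds_unique h5 h3

lemma exp_tendsto : Tendsto (fun N : ℕ => -Complex.exp (3 * (Real.pi : ℂ) * Complex.I / N)) atTop
    (𝓝 (-1)) := by
  have h1 : Tendsto (fun N : ℕ => 3 * (Real.pi : ℂ) * Complex.I / N) atTop (𝓝 0) :=
    tendsto_const_div_atTop_nhds_zero_nat _
  have h2 := (Complex.continuous_exp.tendsto 0).comp h1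
  rw [Complex.exp_zero] at h2
  exact h2.neg

lemma exp_norm (N : ℕ) : ‖-Complex.exp (3 * (Real.pi : ℂ) * Complex.I / N)‖ = 1 := by
  have e : 3 * (Real.pi : ℂ) * Complex.I / N = ((3 * Real.pi / N : ℝ) : ℂ) * Complex.I := by
    push_cast
    ring
  rw [norm_neg, e, Complex.norm_exp_ofReal_mul_I]

/-- branches of the logarithm -/
lemma branch {J : ℕ → ℂ} {t : ℕ → ℝ} {V : ℝ}
    (hJ : ∀ᶠ N in atTop, J N = -Complex.exp (3 * (Real.pi : ℂ) * Complex.I / N) * (t N : ℂ))
    (ht : ∀ᶠ N in atTop, 0 < t N)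
    (h : Tendsto (fun N : ℕ => 2 * Real.pi / N * Real.log (t N)) atTop (𝓝 V)) :
    ∃ l : ℕ → ℂ, (∀ᶠ N in atTop, Complex.exp (l N) = J N) ∧
      Tendsto (fun N : ℕ => 2 * (Real.pi : ℂ) / N * l N) atTop (𝓝 (V : ℂ)) := by
  refine ⟨fun N => (Real.log (t N) : ℝ) + (Real.pi * Complex.I + 3 * (Real.pi : ℂ) * Complex.I / N),
    ?_, ?_⟩
  · filter_upwards [hJ, ht] with N h1 h2
    rw [h1, Complex.exp_add, Complex.exp_add, Complex.exp_pi_mul_I, ← Complex.ofReal_exp,
      Real.exp_log h2]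
    ring
  · have h1 : Tendsto (fun N : ℕ => ((2 * Real.pi / N * Real.log (t N) : ℝ) : ℂ)) atTop
        (𝓝 (V : ℂ)) := (Complex.continuous_ofReal.tendsto _).comp h
    have h2 : Tendsto (fun N : ℕ => 2 * (Real.pi : ℂ) / N) atTop (𝓝 0) :=
      tendsto_const_div_atTop_nhds_zero_nat _
    have h3 : Tendsto (fun N : ℕ => 3 * (Real.pi : ℂ) * Complex.I / N) atTop (𝓝 0) :=
      tendsto_const_div_atTop_nhds_zero_nat _
    have h4 := h1.add (h2.mul ((tendsto_const_nhds (x := (Real.pi : ℂ) * Complex.I)).add h3))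
    rw [add_zero, zero_mul, add_zero] at h4
    refine h4.congr fun N => ?_
    push_cast
    ring

lemma all_growth {t : ℕ → ℝ} {V : ℝ}
    (h : Tendsto (fun N : ℕ => 2 * Real.pi / N * Real.log (t N)) atTop (𝓝 V)) :
    Tendsto (fun k : ℕ => Real.log (t k) / k) atTop (𝓝 (V / (2 * Real.pi))) := by
  refine (h.div_const (2 * Real.pi)).congr fun k => ?_
  have := Real.pi_ne_zero
  field_simp

lemma odd_growth {t : ℕ → ℝ} {V : ℝ}
    (h : Tendsto (fun N : ℕ => 2 * Real.pi / N * Real.log (t N)) atTop (𝓝 V)) :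
    Tendsto (fun k : ℕ => Real.log (t (2 * k + 1)) / k) atTop (𝓝 (V / Real.pi)) := by
  have h1 : Tendsto (fun k : ℕ => 2 * k + 1) atTop atTop :=
    tendsto_atTop_mono (fun k => (by omega : k ≤ 2 * k + 1)) tendsto_id
  have h2 := h.comp h1
  have h3 : Tendsto (fun k : ℕ => (2 + 1 / (k : ℝ)) / (2 * Real.pi)) atTop
      (𝓝 ((2 + 0) / (2 * Real.pi))) :=
    (tendsto_const_nhds.add (tendsto_const_div_atTop_nhds_zero_nat 1)).div_const _
  have h4 := h2.mul h3
  have e : V * ((2 + 0) / (2 * Real.pi)) = V / Real.pi := by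
    have := Real.pi_ne_zero
    field_simp
    ring
  rw [e] at h4
  refine h4.congr' ?_
  filter_upwards [eventually_gt_atTop 0] with k hk
  have hk : (k : ℝ) ≠ 0 := by exact_mod_cast hk.ne'
  have h5 : (2 * (k : ℝ) + 1) ≠ 0 := by positivity
  have := Real.pi_ne_zero
  simp only [Function.comp_apply]
  push_cast
  field_simp

end Pool.Agent.R807.Ratio
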