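import Pool.Agent.R807.Ratio

/-!
Ratio limits of sequences of positive numbers, as complex sequences.
-/

set_option autoImplicit false

namespace Pool.Agent.R807.Ratio

open Filter Topology

/-- even integers -/
def evenF : Filter ℕ := atTop ⊓ 𝓟 {N | Even N}

/-- odd integers -/
def oddF : Filter ℕ := atTop ⊓ 𝓟 {N | Odd N}

lemma evenF_shift : Tendsto (fun N => N + 2) evenF evenF := by
  refine tendsto_inf.2 ⟨(tendsto_add_atTop_nat 2).mono_left inf_le_left, ?_⟩
  refine tendsto_inf_right ?_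
  refine tendsto_principal_principal.2 fun N hN => ?_
  exact hN.add (by decide)

lemma oddF_shift : Tendsto (fun N => N + 2) oddF oddF := by
  refine tendsto_inf.2 ⟨(tendsto_add_atTop_nat 2).mono_left inf_le_left, ?_⟩
  refine tendsto_inf_right ?_
  refine tendsto_principal_principal.2 fun N hN => ?_
  exact hN.add_even (by decide)

lemma oddF_sub : Tendsto (fun k : ℕ => 2 * k + 1) atTop oddF := by
  refine tendsto_inf.2 ⟨tendsto_atTop_mono (fun k => (by omega : k ≤ 2 * k + 1)) tendsto_id, ?_⟩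
  exact tendsto_principal.2 (Eventually.of_forall fun k => ⟨k, rfl⟩)

lemma evenF_sub : Tendsto (fun k : ℕ => 2 * k) atTop evenF := by
  refine tendsto_inf.2 ⟨tendsto_atTop_mono (fun k => (by omega : k ≤ 2 * k)) tendsto_id, ?_⟩
  exact tendsto_principal.2 (Eventually.of_forall fun k => ⟨k, by ring⟩)

instance : NeBot oddF := oddF_sub.neBot

instance : NeBot evenF := evenF_sub.neBot

lemma odd_growth' {t : ℕ → ℝ} {V : ℝ}
    (h : Tendsto (fun N : ℕ => 2 * Real.pi * (Real.log (t N) / N)) oddF (𝓝 V)) :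
    Tendsto (fun k : ℕ => Real.log (t (2 * k + 1)) / k) atTop (𝓝 (V / Real.pi)) := by
  have h2 := h.comp oddF_sub
  have h3 : Tendsto (fun k : ℕ => (2 + 1 / (k : ℝ)) / (2 * Real.pi)) atTop
      (𝓝 ((2 + 0) / (2 * Real.pi))) :=
    (tendsto_const_nhds.add (tendsto_const_div_atTop_nhds_zero_nat 1)).div_const _
  have h4 := h2.mul h3
  have e : V * ((2 + 0) / (2 * Real.pi)) = V / Real.pi := by
    have := Real.pi_ne_zero
    field_simp
    ring
  rw [e] at h4
  refine h4.congr' ?_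
  filter_upwards [eventually_gt_atTop 0] with k hk
  have hk : (k : ℝ) ≠ 0 := by exact_mod_cast hk.ne'
  have h5 : (2 * (k : ℝ) + 1) ≠ 0 := by positivity
  have := Real.pi_ne_zero
  simp only [Function.comp_apply]
  push_cast
  field_simp

lemma even_growth' {t : ℕ → ℝ} {V : ℝ}
    (h : Tendsto (fun N : ℕ => 2 * Real.pi * (Real.log (t N) / N)) evenF (𝓝 V)) :
    Tendsto (fun k : ℕ => Real.log (t (2 * k)) / k) atTop (𝓝 (V / Real.pi)) := by
  have h2 := (h.comp evenF_sub).div_const Real.pi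
  refine h2.congr' ?_
  filter_upwards [eventually_gt_atTop 0] with k hk
  have hk : (k : ℝ) ≠ 0 := by exact_mod_cast hk.ne'
  have := Real.pi_ne_zero
  simp only [Function.comp_apply]
  push_cast
  field_simp

/-- the limit of the ratios of positive numbers -/
lemma pos_ratio {J : ℕ → ℂ} (hJ : ∀ N, 1 ≤ N → ∃ x : ℝ, 0 < x ∧ J N = x) {l : Filter ℕ} [NeBot l]
    (hl : l ≤ atTop) (p : ℕ) (hp : Tendsto (fun N => N + p) l l) {c : ℂ}
    (hc : Tendsto (fun N => J (N + p) / J N) l (𝓝 c)) :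
    (c.re : ℂ) = c ∧ Tendsto (fun N => ‖J (N + p)‖ / ‖J N‖) l (𝓝 c.re) := by
  have h1 : ∀ᶠ N in l, J N = (fun _ => (1 : ℂ)) N * ((‖J N‖ : ℝ) : ℂ) := by
    filter_upwards [(eventually_ge_atTop 1).filter_mono hl] with N hN
    obtain ⟨x, hx, h⟩ := hJ N hN
    rw [h, Complex.norm_real, Real.norm_of_nonneg hx.le, one_mul]
  have h2 : ∀ᶠ N in l, 0 < ‖J N‖ := by
    filter_upwards [(eventually_ge_atTop 1).filter_mono hl] with N hN
    obtain ⟨x, hx, h⟩ := hJ N hN
    rw [h, Complex.norm_real, Real.norm_of_nonneg hx.le]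
    exact hx
  exact ratio_real (e := fun _ => 1) (t := fun N => ‖J N‖) p hp h1 h2 tendsto_const_nhds
    one_ne_zero hc

lemma pos_norm {J : ℕ → ℂ} (hJ : ∀ N, 1 ≤ N → ∃ x : ℝ, 0 < x ∧ J N = x) {N : ℕ} (hN : 1 ≤ N) :
    0 < ‖J N‖ ∧ J N = ((‖J N‖ : ℝ) : ℂ) := by
  obtain ⟨x, hx, h⟩ := hJ N hN
  rw [h, Complex.norm_real, Real.norm_of_nonneg hx.le]
  exact ⟨hx, rfl⟩

/-- all integers -/
theorem pos_all {J : ℕ → ℂ} (hJ : ∀ N, 1 ≤ N → ∃ x : ℝ, 0 < x ∧ J N = x) {V : ℝ}
    (h : Tendsto (fun N : ℕ => 2 * Real.pi * (Real.log ‖J N‖ / N)) atTop (𝓝 V)) :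
    Tendsto (fun N : ℕ => 2 * Real.pi * (Complex.log (J N) / N)) atTop (𝓝 (V : ℂ)) ∧
    ∀ c : ℂ, Tendsto (fun N => J (N + 1) / J N) atTop (𝓝 c) →
      c = Complex.exp (V / (2 * Real.pi)) := by
  constructor
  · have h1 := (Complex.continuous_ofReal.tendsto _).comp h
    refine h1.congr' ?_
    filter_upwards [eventually_ge_atTop 1] with N hN
    obtain ⟨h2, h3⟩ := pos_norm hJ hN
    rw [h3, ← Complex.ofReal_log h2.le]
    simp
  · intro c hc
    obtain ⟨c1, c2⟩ := pos_ratio hJ le_rfl 1 (tendsto_add_atTop_nat 1) hc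
    have h3 : Tendsto (fun N : ℕ => 2 * Real.pi / N * Real.log ‖J N‖) atTop (𝓝 V) :=
      h.congr fun N => by ring
    have c3 := ratio_lim (b := fun k => ‖J k‖) (c := c.re)
      ((eventually_ge_atTop 1).mono fun N hN => (pos_norm hJ hN).1) (all_growth h3) c2
    rw [← c1, c3, Complex.ofReal_exp]
    push_cast
    rfl

/-- odd integers -/
theorem pos_odd {J : ℕ → ℂ} (hJ : ∀ N, 1 ≤ N → ∃ x : ℝ, 0 < x ∧ J N = x) {V : ℝ}
    (h : Tendsto (fun N : ℕ => 2 * Real.pi * (Real.log ‖J N‖ / N)) oddF (𝓝 V)) :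
    ∀ c : ℂ, Tendsto (fun N => J (N + 2) / J N) oddF (𝓝 c) →
      c = Complex.exp (V / Real.pi) := by
  intro c hc
  obtain ⟨c1, c2⟩ := pos_ratio (l := oddF) hJ inf_le_left 2 oddF_shift hc
  have hpos : ∀ᶠ k : ℕ in atTop, 0 < ‖J (2 * k + 1)‖ :=
    Eventually.of_forall fun k => (pos_norm hJ (by omega)).1
  have c3 := ratio_lim (b := fun k => ‖J (2 * k + 1)‖) (c := c.re)
    hpos (odd_growth' (t := fun N => ‖J N‖) h) (by
      refine (c2.comp oddF_sub).congr fun k => ?_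
      rfl)
  rw [← c1, c3, Complex.ofReal_exp]
  push_cast
  rfl

/-- even integers -/
theorem pos_even {J : ℕ → ℂ} (hJ : ∀ N, 1 ≤ N → ∃ x : ℝ, 0 < x ∧ J N = x) {V : ℝ}
    (h : Tendsto (fun N : ℕ => 2 * Real.pi * (Real.log ‖J N‖ / N)) evenF (𝓝 V)) :
    Tendsto (fun N : ℕ => 2 * Real.pi * (Complex.log (J N) / N)) evenF (𝓝 (V : ℂ)) ∧
    ∀ c : ℂ, Tendsto (fun N => J (N + 2) / J N) evenF (𝓝 c) →
      c = Complex.exp (V / Real.pi) := by
  constructor
  · have h1 := (Complex.continuous_ofReal.tendsto _).comp h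
    refine h1.congr' ?_
    filter_upwards [(eventually_ge_atTop 1).filter_mono inf_le_left] with N hN
    obtain ⟨h2, h3⟩ := pos_norm hJ hN
    rw [h3, ← Complex.ofReal_log h2.le]
    simp
  · intro c hc
    obtain ⟨c1, c2⟩ := pos_ratio (l := evenF) hJ inf_le_left 2 evenF_shift hc
    have hpos : ∀ᶠ k : ℕ in atTop, 0 < ‖J (2 * k)‖ := by
      filter_upwards [eventually_ge_atTop 1] with k hk
      exact (pos_norm hJ (by omega)).1
    have c3 := ratio_lim (b := fun k => ‖J (2 * k)‖) (c := c.re)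
      hpos (even_growth' (t := fun N => ‖J N‖) h) (by
        refine (c2.comp evenF_sub).congr fun k => ?_
        rfl)
    rw [← c1, c3, Complex.ofReal_exp]
    push_cast
    rfl

end Pool.Agent.R807.Ratio
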