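import Pool.Agent.R807.Square

/-!
Norms of double crossings; the vectors of the two clasps.
-/

set_option autoImplicit false

namespace Pool.Agent.R807

open Finset Matrix Pool.Agent.W709.QAT Pool.Agent.H550R3.Jones
open Pool.Agent.W715.VC hiding kap

variable {N : ℕ}

/-- the entries of the square of the q-Pascal matrix -/
noncomputable def u2 (N i k : ℕ) : ℂ := ∑ j ∈ range N, uu N i j * uu N j k

lemma u2_zero {i k : ℕ} (h : i < k) : u2 N i k = 0 := by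
  unfold u2
  refine sum_eq_zero fun j _ => ?_
  by_cases hj : j ≤ i
  · have : uu N j k = 0 := by unfold uu; rw [if_neg (by omega)]
    rw [this, mul_zero]
  · have : uu N i j = 0 := by unfold uu; rw [if_neg (by omega)]
    rw [this, zero_mul]

/-- the absolute values of the entries of the square of the q-Pascal matrix -/
noncomputable def b2 (N i k : ℕ) : ℝ := bc N i k * (Fa N i / Fa N k)

lemma norm_u2 {i k : ℕ} (hi : i < N) (hk : k ≤ i) : ‖u2 N i k‖ = b2 N i k := norm_sq hi hk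

/-- the sum of the squares of the entries of the square of the q-Pascal matrix -/
noncomputable def E2 (N : ℕ) : ℝ := ∑ i ∈ range N, ∑ j ∈ range (i + 1), b2 N i j ^ 2

lemma E2_nonneg (N : ℕ) : 0 ≤ E2 N := sum_nonneg fun _ _ => sum_nonneg fun _ _ => by positivity

lemma sum_u2 {i : ℕ} (hi : i < N) : ∑ a ∈ range N, ‖u2 N i a‖ ^ 2 =
    ∑ j ∈ range (i + 1), b2 N i j ^ 2 := by
  have h : range (i + 1) ⊆ range N := by
    intro x hx
    rw [mem_range] at hx ⊢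
    omega
  rw [← sum_subset h]
  · refine sum_congr rfl fun j hj => ?_
    rw [mem_range] at hj
    rw [norm_u2 hi (by omega)]
  · intro a _ ha
    rw [mem_range] at ha
    rw [u2_zero (by omega)]; simp

lemma tt_P2 (hN : 0 < N) {x : I3 N → ℂ} (hx : InK (N - 1) x) {i : ℕ} (hi : i ≤ N - 1) :
    tt N (N - 1) (on12 (PP N ^ 2) *ᵥ x) i = ∑ a ∈ range N, u2 N i a * tt N (N - 1) x a := by
  have e : on12 (PP N ^ 2) *ᵥ x = on12 (PP N) *ᵥ (on12 (PP N) *ᵥ x) := by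
    rw [Matrix.mulVec_mulVec, on12_mul, pow_two]
  rw [e, tt_P hN (P12_InK hx) hi]
  unfold u2
  have h1 : ∀ j ∈ range N, uu N i j * tt N (N - 1) (on12 (PP N) *ᵥ x) j =
      ∑ a ∈ range N, uu N i j * uu N j a * tt N (N - 1) x a := by
    intro j hj
    rw [mem_range] at hj
    rw [tt_P hN hx (by omega), mul_sum]
    exact sum_congr rfl fun a _ => by ring
  rw [sum_congr rfl h1, sum_comm]
  exact sum_congr rfl fun a _ => by rw [sum_mul]

lemma tt_Q2 (hN : 0 < N) {x : I3 N → ℂ} (hx : InK (N - 1) x) {i : ℕ} (hi : i ≤ N - 1) :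
    tt N (N - 1) (on12 (QQ N ^ 2) *ᵥ x) i =
      ∑ a ∈ range N, (starRingEnd ℂ) (u2 N i a) * tt N (N - 1) x a := by
  have e : on12 (QQ N ^ 2) *ᵥ x = on12 (QQ N) *ᵥ (on12 (QQ N) *ᵥ x) := by
    rw [Matrix.mulVec_mulVec, on12_mul, pow_two]
  rw [e, tt_Q hN (Q12_InK hx) hi]
  unfold u2
  have h1 : ∀ j ∈ range N, (starRingEnd ℂ) (uu N i j) * tt N (N - 1) (on12 (QQ N) *ᵥ x) j =
      ∑ a ∈ range N, (starRingEnd ℂ) (uu N i j * uu N j a) * tt N (N - 1) x a := by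
    intro j hj
    rw [mem_range] at hj
    rw [tt_Q hN hx (by omega), mul_sum]
    exact sum_congr rfl fun a _ => by rw [map_mul]; ring
  rw [sum_congr rfl h1, sum_comm]
  exact sum_congr rfl fun a _ => by rw [map_sum, sum_mul]

/-- the norm of an operator with a given matrix -/
lemma nq_matrix (hN : 0 < N) {x y : I3 N → ℂ} {w : ℕ → ℕ → ℂ} {E : ℝ}
    (hE : ∑ i ∈ range N, ∑ a ∈ range N, ‖w i a‖ ^ 2 = E)
    (h : ∀ i, i ≤ N - 1 → tt N (N - 1) y i = ∑ a ∈ range N, w i a * tt N (N - 1) x a) :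
    nq N y ≤ E * nq N x := by
  unfold nq
  rw [← hE, sum_mul]
  refine sum_le_sum fun i hi => ?_
  rw [mem_range] at hi
  rw [h i (by omega)]
  have h1 : ‖∑ a ∈ range N, w i a * tt N (N - 1) x a‖ ≤
      ∑ a ∈ range N, ‖w i a‖ * ‖tt N (N - 1) x a‖ := by
    refine (_root_.norm_sum_le _ _).trans (le_of_eq ?_)
    exact sum_congr rfl fun a _ => by rw [norm_mul]
  exact (pow_le_pow_left₀ (norm_nonneg _) h1 2).trans (sum_mul_sq_le_sq_mul_sq _ _ _)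

lemma E2_eq (N : ℕ) : ∑ i ∈ range N, ∑ a ∈ range N, ‖u2 N i a‖ ^ 2 = E2 N :=
  sum_congr rfl fun i hi => sum_u2 (mem_range.1 hi)

lemma nq_P2 (hN : 0 < N) {x : I3 N → ℂ} (hx : InK (N - 1) x) :
    nq N (on12 (PP N ^ 2) *ᵥ x) ≤ E2 N * nq N x :=
  nq_matrix hN (E2_eq N) fun _ hi => tt_P2 hN hx hi

lemma nq_Q2 (hN : 0 < N) {x : I3 N → ℂ} (hx : InK (N - 1) x) :
    nq N (on12 (QQ N ^ 2) *ᵥ x) ≤ E2 N * nq N x := by
  refine nq_matrix (w := fun i a => (starRingEnd ℂ) (u2 N i a)) hN ?_ fun _ hi => tt_Q2 hN hx hi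
  rw [← E2_eq]
  exact sum_congr rfl fun i _ => sum_congr rfl fun a _ => by rw [RCLike.norm_conj]

lemma P12sq_InK {x : I3 N → ℂ} (hx : InK (N - 1) x) : InK (N - 1) (on12 (PP N ^ 2) *ᵥ x) := by
  have e : on12 (PP N ^ 2) *ᵥ x = on12 (PP N) *ᵥ (on12 (PP N) *ᵥ x) := by
    rw [Matrix.mulVec_mulVec, on12_mul, pow_two]
  rw [e]; exact P12_InK (P12_InK hx)

lemma Q12sq_InK {x : I3 N → ℂ} (hx : InK (N - 1) x) : InK (N - 1) (on12 (QQ N ^ 2) *ᵥ x) := by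
  have e : on12 (QQ N ^ 2) *ᵥ x = on12 (QQ N) *ᵥ (on12 (QQ N) *ᵥ x) := by
    rw [Matrix.mulVec_mulVec, on12_mul, pow_two]
  rw [e]; exact Q12_InK (Q12_InK hx)

lemma P23sq_InK {x : I3 N → ℂ} (hx : InK (N - 1) x) : InK (N - 1) (on23 (PP N ^ 2) *ᵥ x) := by
  have e : on23 (PP N ^ 2) *ᵥ x = on23 (PP N) *ᵥ (on23 (PP N) *ᵥ x) := by
    rw [Matrix.mulVec_mulVec, on23_mul, pow_two]
  rw [e]; exact P23_InK (P23_InK hx)

lemma Q23sq_InK {x : I3 N → ℂ} (hx : InK (N - 1) x) : InK (N - 1) (on23 (QQ N ^ 2) *ᵥ x) := by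
  have e : on23 (QQ N ^ 2) *ᵥ x = on23 (QQ N) *ᵥ (on23 (QQ N) *ᵥ x) := by
    rw [Matrix.mulVec_mulVec, on23_mul, pow_two]
  rw [e]; exact Q23_InK (Q23_InK hx)

lemma hadj_Q2 (hN : 0 < N) : hadj (on12 (QQ N ^ 2)) = on23 (PP N ^ 2) := by
  rw [hadj_on12, sh_pow, sh_QQ hN]

lemma hadj_P2 (hN : 0 < N) : hadj (on12 (PP N ^ 2)) = on23 (QQ N ^ 2) := by
  rw [hadj_on12, sh_pow, sh_PP hN]

lemma nq_P23sq (hN : 0 < N) {x : I3 N → ℂ} (hx : InK (N - 1) x) :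
    nq N (on23 (PP N ^ 2) *ᵥ x) ≤ E2 N * nq N x := by
  rw [← hadj_Q2 hN]
  exact nq_adj hN (fun _ h => Q12sq_InK h) (fun _ h => by rw [hadj_Q2 hN]; exact P23sq_InK h)
    (fun _ h => nq_Q2 hN h) hx

lemma nq_Q23sq (hN : 0 < N) {x : I3 N → ℂ} (hx : InK (N - 1) x) :
    nq N (on23 (QQ N ^ 2) *ᵥ x) ≤ E2 N * nq N x := by
  rw [← hadj_P2 hN]
  exact nq_adj hN (fun _ h => P12sq_InK h) (fun _ h => by rw [hadj_P2 hN]; exact Q23sq_InK h)
    (fun _ h => nq_P2 hN h) hx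

/-- the bound for the square of the norm of `m` crossings -/
noncomputable def EE' (N m : ℕ) : ℝ := E2 N ^ (m / 2) * EN N ^ (m % 2)

lemma EE'_nonneg (N m : ℕ) : 0 ≤ EE' N m :=
  mul_nonneg (pow_nonneg (E2_nonneg N) _) (pow_nonneg (EN_nonneg N) _)

lemma nq_sq0 (hN : 0 < N) (σ : Bool) (k : ℕ) {x : I3 N → ℂ} (hx : InK (N - 1) x) :
    InK (N - 1) (on12 ((cr N σ ^ 2) ^ k) *ᵥ x) ∧
      nq N (on12 ((cr N σ ^ 2) ^ k) *ᵥ x) ≤ E2 N ^ k * nq N x := by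
  induction k with
  | zero => rw [pow_zero, on12_one, Matrix.one_mulVec, pow_zero, one_mul]; exact ⟨hx, le_rfl⟩
  | succ m ih =>
    have e : on12 ((cr N σ ^ 2) ^ (m + 1)) *ᵥ x =
        on12 (cr N σ ^ 2) *ᵥ (on12 ((cr N σ ^ 2) ^ m) *ᵥ x) := by
      rw [Matrix.mulVec_mulVec, on12_mul, ← pow_succ']
    rw [e]
    have h1 : InK (N - 1) (on12 (cr N σ ^ 2) *ᵥ (on12 ((cr N σ ^ 2) ^ m) *ᵥ x)) ∧
        nq N (on12 (cr N σ ^ 2) *ᵥ (on12 ((cr N σ ^ 2) ^ m) *ᵥ x)) ≤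
          E2 N * nq N (on12 ((cr N σ ^ 2) ^ m) *ᵥ x) := by
      cases σ
      · exact ⟨Q12sq_InK ih.1, nq_Q2 hN ih.1⟩
      · exact ⟨P12sq_InK ih.1, nq_P2 hN ih.1⟩
    refine ⟨h1.1, h1.2.trans ?_⟩
    rw [pow_succ' (E2 N)]
    have := mul_le_mul_of_nonneg_left ih.2 (E2_nonneg N)
    linarith

lemma nq_sq1 (hN : 0 < N) (σ : Bool) (k : ℕ) {x : I3 N → ℂ} (hx : InK (N - 1) x) :
    InK (N - 1) (on23 ((cr N σ ^ 2) ^ k) *ᵥ x) ∧
      nq N (on23 ((cr N σ ^ 2) ^ k) *ᵥ x) ≤ E2 N ^ k * nq N x := by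
  induction k with
  | zero => rw [pow_zero, on23_one, Matrix.one_mulVec, pow_zero, one_mul]; exact ⟨hx, le_rfl⟩
  | succ m ih =>
    have e : on23 ((cr N σ ^ 2) ^ (m + 1)) *ᵥ x =
        on23 (cr N σ ^ 2) *ᵥ (on23 ((cr N σ ^ 2) ^ m) *ᵥ x) := by
      rw [Matrix.mulVec_mulVec, on23_mul, ← pow_succ']
    rw [e]
    have h1 : InK (N - 1) (on23 (cr N σ ^ 2) *ᵥ (on23 ((cr N σ ^ 2) ^ m) *ᵥ x)) ∧
        nq N (on23 (cr N σ ^ 2) *ᵥ (on23 ((cr N σ ^ 2) ^ m) *ᵥ x)) ≤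
          E2 N * nq N (on23 ((cr N σ ^ 2) ^ m) *ᵥ x) := by
      cases σ
      · exact ⟨Q23sq_InK ih.1, nq_Q23sq hN ih.1⟩
      · exact ⟨P23sq_InK ih.1, nq_P23sq hN ih.1⟩
    refine ⟨h1.1, h1.2.trans ?_⟩
    rw [pow_succ' (E2 N)]
    have := mul_le_mul_of_nonneg_left ih.2 (E2_nonneg N)
    linarith

lemma pow_split (σ : Bool) (m : ℕ) : cr N σ ^ m = cr N σ ^ (m % 2) * (cr N σ ^ 2) ^ (m / 2) := by
  rw [← pow_mul, ← pow_add]
  congr 1
  omega

/-- the norm of `m` crossings on the strands 1, 2 -/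
lemma nq_tw0 (hN : 0 < N) (σ : Bool) (m : ℕ) {x : I3 N → ℂ} (hx : InK (N - 1) x) :
    InK (N - 1) (on12 (cr N σ ^ m) *ᵥ x) ∧
      nq N (on12 (cr N σ ^ m) *ᵥ x) ≤ EE' N m * nq N x := by
  have e : on12 (cr N σ ^ m) *ᵥ x =
      on12 (cr N σ ^ (m % 2)) *ᵥ (on12 ((cr N σ ^ 2) ^ (m / 2)) *ᵥ x) := by
    rw [Matrix.mulVec_mulVec, on12_mul, ← pow_split]
  rw [e]
  have h1 := nq_sq0 hN σ (m / 2) hx
  have h2 := nq_cr0 hN σ (m % 2) h1.1
  refine ⟨h2.1, h2.2.trans ?_⟩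
  have := mul_le_mul_of_nonneg_left h1.2 (pow_nonneg (EN_nonneg N) (m % 2))
  unfold EE'
  linarith

/-- the norm of `m` crossings on the strands 2, 3 -/
lemma nq_tw1 (hN : 0 < N) (σ : Bool) (m : ℕ) {x : I3 N → ℂ} (hx : InK (N - 1) x) :
    InK (N - 1) (on23 (cr N σ ^ m) *ᵥ x) ∧
      nq N (on23 (cr N σ ^ m) *ᵥ x) ≤ EE' N m * nq N x := by
  have e : on23 (cr N σ ^ m) *ᵥ x =
      on23 (cr N σ ^ (m % 2)) *ᵥ (on23 ((cr N σ ^ 2) ^ (m / 2)) *ᵥ x) := by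
    rw [Matrix.mulVec_mulVec, on23_mul, ← pow_split]
  rw [e]
  have h1 := nq_sq1 hN σ (m / 2) hx
  have h2 := nq_cr1 hN σ (m % 2) h1.1
  refine ⟨h2.1, h2.2.trans ?_⟩
  have := mul_le_mul_of_nonneg_left h1.2 (pow_nonneg (EN_nonneg N) (m % 2))
  unfold EE'
  linarith

/-- the bound for a braid -/
noncomputable def cost (N : ℕ) (w : Diag) : ℝ := ((w.filterMap Piece.size).map (EE' N)).prod

lemma cost_nonneg (N : ℕ) (w : Diag) : 0 ≤ cost N w := by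
  unfold cost
  refine List.prod_nonneg fun x hx => ?_
  obtain ⟨m, -, rfl⟩ := List.mem_map.1 hx
  exact EE'_nonneg N m

lemma nq_run2 (hN : 0 < N) (w : Diag) (hw : IsBraid w) (f : List (Fin N) → ℂ)
    (hf : InK (N - 1) (vec3 f)) : InK (N - 1) (vec3 (run N (rt N) w f)) ∧
      nq N (vec3 (run N (rt N) w f)) ≤ cost N w * nq N (vec3 f) := by
  induction w generalizing f with
  | nil => exact ⟨hf, by simp [cost, run]⟩
  | cons P w ih =>
    have e1 : run N (rt N) (P :: w) f = run N (rt N) w (P.act N (rt N) f) := rfl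
    rw [e1]
    obtain ⟨σ, m, h⟩ := hw P (List.mem_cons_self ..)
    have hw' : IsBraid w := fun Q hQ => hw Q (List.mem_cons_of_mem _ hQ)
    have h2 : InK (N - 1) (vec3 (P.act N (rt N) f)) ∧
        nq N (vec3 (P.act N (rt N) f)) ≤ EE' N m * nq N (vec3 f) := by
      rcases h with rfl | rfl
      · rw [vec3_twist0]; exact nq_tw0 hN σ m hf
      · rw [vec3_twist1]; exact nq_tw1 hN σ m hf
    have h3 := ih hw' _ h2.1
    have e2 : cost N (P :: w) = cost N w * EE' N m := by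
      unfold cost
      rcases h with rfl | rfl <;> simp [Piece.size, mul_comm]
    refine ⟨h3.1, h3.2.trans ?_⟩
    rw [e2, mul_assoc]
    exact mul_le_mul_of_nonneg_left h2.2 (cost_nonneg N _)

/-- **tangles glued with a braid in between** -/
theorem ins2 (hN : 0 < N) {S T w : Diag} (hS : Fits S 1 3) (hT : Fits T 1 3) (hB : IsBraid w) :
    ‖Pool.Agent.W709.QAT.jones N (T ++ w ++ adj S 1) (rt N)‖ ^ 2 ≤
      cost N w * (‖Pool.Agent.W709.QAT.jones N (S ++ adj S 1) (rt N)‖ *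
        ‖Pool.Agent.W709.QAT.jones N (T ++ adj T 1) (rt N)‖) := by
  rw [jones_glue hN hS, jones_glue hN hS, jones_glue hN hT, Hf_self hN (xv_InK hN hS),
    Hf_self hN (xv_InK hN hT), Complex.norm_real, Complex.norm_real,
    Real.norm_of_nonneg (nq_nonneg _), Real.norm_of_nonneg (nq_nonneg _)]
  have e : xv hN (T ++ w) = vec3 (run N (rt N) w (run N (rt N) T (hw N hN))) := by
    unfold xv
    rw [run_append]
  have h1 := nq_run2 hN w hB (run N (rt N) T (hw N hN)) (xv_InK hN hT)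
  rw [e]
  refine (Hf_cs hN (xv_InK hN hS) h1.1).trans ?_
  have h2 := mul_le_mul_of_nonneg_left h1.2 (nq_nonneg (N := N) (xv hN S))
  refine h2.trans (le_of_eq ?_)
  unfold xv
  ring

/-! ### the two clasps -/

/-- the first clasp -/
def T0 : Diag := [.cup 1, .twist 0 true 2]
/-- the second clasp -/
def S0 : Diag := [.cup 0, .twist 1 false 2]

lemma fits_T0 : Fits T0 1 3 := rfl
lemma fits_S0 : Fits S0 1 3 := rfl

lemma Fa_zero : Fa N 0 = 1 := by simp [Fa, brf]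

lemma xv_T0 (hN : 0 < N) {i : ℕ} (hi : i ≤ N - 1) : tt N (N - 1) (xv hN T0) i = u2 N i 0 := by
  have e : xv hN T0 = on12 (PP N ^ 2) *ᵥ vec3 (x0 N hN) := vec3_twist0 true 2 (x0 N hN)
  rw [e, tt_P2 hN (x0_InK hN) hi, sum_eq_single 0]
  · rw [tt_x0 hN (by omega), if_pos rfl, mul_one]
  · intro a ha h
    rw [mem_range] at ha
    rw [tt_x0 hN (by omega), if_neg h, mul_zero]
  · intro h; exact absurd (mem_range.2 hN) h

lemma nq_T0 (hN : 0 < N) : nq N (xv hN T0) = ∑ i ∈ range N, Fa N i ^ 2 := by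
  unfold nq
  refine sum_congr rfl fun i hi => ?_
  rw [mem_range] at hi
  rw [xv_T0 hN (by omega), norm_u2 hi (by omega), b2, bc_zero_right hi, one_mul, Fa_zero, div_one]

/-- the cup to the left of a strand -/
noncomputable def x1 (N : ℕ) (hN : 0 < N) : List (Fin N) → ℂ :=
  run N (rt N) [Piece.cup 0] (hw N hN)

lemma fits1 : Fits [Piece.cup 0] 1 3 := rfl

lemma x1_val (hN : 0 < N) (a b c : Fin N) :
    x1 N hN [a, b, c] = Pool.Agent.W709.QAT.cup N (rt N) (a, b) * (if c = ⟨0, hN⟩ then 1 else 0) := by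
  have h : x1 N hN [a, b, c] = (Piece.cup 0).act N (rt N) (hw N hN) ([] ++ a :: b :: [c]) := rfl
  rw [h, act_cup (rt N) 0 (hw N hN) [] a b [c] rfl]
  congr 1
  unfold hw
  simp

lemma x1_InK (hN : 0 < N) : InK (N - 1) (vec3 (x1 N hN)) :=
  vec3_InK hN (Inv_run hN _ fits1 (Inv_hw hN))

lemma tt_x1 (hN : 0 < N) {a : ℕ} (ha : a < N - 1) : tt N (N - 1) (vec3 (x1 N hN)) a = 0 := by
  unfold tt
  have ha' : a < N := by omega
  have hc : N - 1 - a < N := by omega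
  rw [hat_vec3 _ ha' hN hc, x1_val, if_neg, mul_zero, mul_zero]
  intro h
  have := congrArg Fin.val h
  simp only at this
  omega

lemma norm_kap {k : ℕ} (hk : k < N) : ‖Pool.Agent.W709.QAT.kap N (rt N) k‖ = 1 := by
  rw [kap_rt hk, norm_mul, norm_pow, norm_neg, norm_one, one_pow, norm_rt_zpow, one_mul]

lemma norm_tt_x1 (hN : 0 < N) : ‖tt N (N - 1) (vec3 (x1 N hN)) (N - 1)‖ = 1 := by
  unfold tt
  have ha' : N - 1 < N := by omega
  rw [norm_mul, norm_rt_zpow, one_mul, hat_vec3 _ ha' hN (by omega), x1_val, if_pos, mul_one]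
  · unfold Pool.Agent.W709.QAT.cup
    simp only
    rw [if_pos (by omega), norm_kap ha']
  · apply Fin.ext
    simp

/-- the coordinates of the adjoint operator -/
lemma tt_hadj (hN : 0 < N) {A : M3 N} {w : ℕ → ℕ → ℂ}
    (hA : ∀ x : I3 N → ℂ, InK (N - 1) x → InK (N - 1) (A *ᵥ x))
    (hA' : ∀ x : I3 N → ℂ, InK (N - 1) x → InK (N - 1) (hadj A *ᵥ x))
    (h : ∀ x : I3 N → ℂ, InK (N - 1) x → ∀ i, i ≤ N - 1 →
      tt N (N - 1) (A *ᵥ x) i = ∑ a ∈ range N, w i a * tt N (N - 1) x a)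
    {x : I3 N → ℂ} (hx : InK (N - 1) x) {i : ℕ} (hi : i ≤ N - 1) :
    tt N (N - 1) (hadj A *ᵥ x) i =
      ∑ a ∈ range N, (starRingEnd ℂ) (w a i) * tt N (N - 1) x a := by
  have hm : N - 1 < N := by omega
  have hy : InK (N - 1) (yv N (N - 1) i) := yv_InK hm i
  have h1 := Hf_adj A (yv N (N - 1) i) x
  rw [Hf_eq hN (hA _ hy) hx, Hf_eq hN hy (hA' _ hx)] at h1
  have h2 : ∑ j ∈ range N, (starRingEnd ℂ) (tt N (N - 1) (yv N (N - 1) i) j) *
      tt N (N - 1) (hadj A *ᵥ x) j = tt N (N - 1) (hadj A *ᵥ x) i := by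
    rw [sum_eq_single i]
    · rw [tt_yv hm hi, if_pos rfl, map_one, one_mul]
    · intro j _ hj
      rw [tt_yv hm hi, if_neg hj, map_zero, zero_mul]
    · intro h; exact absurd (mem_range.2 (by omega)) h
  rw [h2] at h1
  rw [← h1]
  refine sum_congr rfl fun a ha => ?_
  rw [mem_range] at ha
  congr 2
  rw [h _ hy a (by omega), sum_eq_single i]
  · rw [tt_yv hm hi, if_pos rfl, mul_one]
  · intro j _ hj
    rw [tt_yv hm hi, if_neg hj, mul_zero]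
  · intro h; exact absurd (mem_range.2 (by omega)) h

lemma Fa_refl {k : ℕ} (hk : k < N) : Fa N k * Fa N (N - 1 - k) = Fa N (N - 1) := by
  unfold Fa
  rw [← norm_mul, brf_mul hk]

lemma b2_top {i : ℕ} (hi : i < N) : b2 N (N - 1) i = Fa N (N - 1 - i) := by
  unfold b2
  have h1 := Fa_refl hi
  have p1 := Fa_pos (N := N) (k := i) hi
  have p2 := Fa_pos (N := N) (k := N - 1 - i) (by omega)
  rw [bc_Fa (by omega) (by omega), ← h1]
  field_simp

lemma nq_S0 (hN : 0 < N) : nq N (xv hN S0) = ∑ i ∈ range N, Fa N i ^ 2 := by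
  have e : xv hN S0 = hadj (on12 (PP N ^ 2)) *ᵥ vec3 (x1 N hN) := by
    rw [hadj_P2 hN]
    exact vec3_twist1 false 2 (x1 N hN)
  unfold nq
  rw [← sum_range_reflect (fun i => Fa N i ^ 2) N]
  refine sum_congr rfl fun i hi => ?_
  rw [mem_range] at hi
  rw [e, tt_hadj hN (fun _ h => P12sq_InK h) (fun _ h => by rw [hadj_P2 hN]; exact Q23sq_InK h)
    (fun _ h _ hi => tt_P2 hN h hi) (x1_InK hN) (by omega), sum_eq_single (N - 1)]
  · rw [norm_mul, RCLike.norm_conj, norm_tt_x1 hN, mul_one, norm_u2 (by omega) (by omega),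
      b2_top hi]
  · intro a ha h
    rw [mem_range] at ha
    rw [tt_x1 hN (by omega), mul_zero]
  · intro h; exact absurd (mem_range.2 (by omega)) h

end Pool.Agent.R807
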