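import Pool.Agent.R807.Norm

/-!
The square of the q-Pascal matrix, and the figure eight knot.
-/

set_option autoImplicit false

namespace Pool.Agent.R807

open Finset Matrix Pool.Agent.W709.QAT Pool.Agent.H550R3.Jones
open Pool.Agent.W715.VC hiding kap

variable {N : ℕ}

lemma norm_br {k : ℤ} (h0 : 0 < k) (h1 : k < N) : ‖br (rt N) k‖ = 2 * sn N k := by
  rw [br_rt, norm_mul, norm_mul, Complex.norm_I, Complex.norm_real,
    Real.norm_of_nonneg (sn_pos h0 h1).le]
  simp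

lemma Fa_eq {k : ℕ} (hk : k < N) : Fa N k = 2 ^ k * SS N k := by
  unfold Fa
  induction k with
  | zero => simp [brf, SS]
  | succ k ih =>
    rw [brf_succ', norm_mul, ih (by omega), SS_succ, norm_br (by omega) (by omega), pow_succ]
    ring

lemma Fa_pos {k : ℕ} (hk : k < N) : 0 < Fa N k := by
  rw [Fa_eq hk]
  have := SS_pos hk
  positivity

lemma bc_Fa {i j : ℕ} (hi : i < N) (hj : j ≤ i) : bc N i j = Fa N i / (Fa N j * Fa N (i - j)) := by
  rw [Fa_eq hi, Fa_eq (by omega), Fa_eq (by omega), bc]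
  have p1 := (SS_pos (N := N) (j := i) hi).ne'
  have p2 := (SS_pos (N := N) (j := j) (by omega)).ne'
  have p3 := (SS_pos (N := N) (j := i - j) (by omega)).ne'
  have e : (2 : ℝ) ^ i = 2 ^ j * 2 ^ (i - j) := by rw [← pow_add]; congr 1; omega
  rw [e]
  field_simp

lemma bc_pos {i j : ℕ} (hi : i < N) (hj : j ≤ i) : 0 < bc N i j := by
  rw [bc_Fa hi hj]
  have := Fa_pos (N := N) (k := i) hi
  have := Fa_pos (N := N) (k := j) (by omega)
  have := Fa_pos (N := N) (k := i - j) (by omega)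
  positivity

lemma bc_zero_right {i : ℕ} (hi : i < N) : bc N i 0 = 1 := by
  unfold bc
  have p1 := (SS_pos (N := N) (j := i) hi).ne'
  have p0 : SS N 0 = 1 := by simp [SS]
  rw [Nat.sub_zero, p0, one_mul]
  exact div_self p1

lemma bc_self {i : ℕ} (hi : i < N) : bc N i i = 1 := by
  unfold bc
  have p1 := (SS_pos (N := N) (j := i) hi).ne'
  have p0 : SS N 0 = 1 := by simp [SS]
  rw [Nat.sub_self, p0, mul_one]
  exact div_self p1

/-- the q-Pascal rule -/
lemma pascal {i j : ℕ} (hi : i + 1 < N) (hj : j + 1 ≤ i) : ((bc N (i + 1) (j + 1) : ℝ) : ℂ) =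
    rt N ^ ((j : ℤ) + 1) * (bc N i (j + 1) : ℝ) + rt N ^ (-((i : ℤ) - j)) * (bc N i j : ℝ) := by
  have b1 := bc_succ_left (N := N) (i := i) (a := j + 1) hi hj
  have b2 := bc_succ_right (N := N) (i := i) (a := j) (by omega) hj
  have s := sin_split N ((j : ℤ) + 1) ((i : ℤ) - j - 1)
  have e1 : (j : ℤ) + 1 + ((i : ℤ) - j - 1) + 1 = i + 1 := by ring
  have e2 : (i : ℤ) - j - 1 + 1 = i - j := by ring
  have e3 : (i : ℤ) + 1 - ((j + 1 : ℕ) : ℤ) = i - j := by push_cast; ring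
  rw [e1, e2] at s
  rw [e3] at b1
  have h1 : ((sn N ((i : ℤ) - j) : ℝ) : ℂ) ≠ 0 := by
    exact_mod_cast (sn_pos (N := N) (k := (i : ℤ) - j) (by omega) (by omega)).ne'
  have b1' := congrArg (fun r : ℝ => (r : ℂ)) b1
  have b2' := congrArg (fun r : ℝ => (r : ℂ)) b2
  push_cast at b1' b2'
  generalize ((sn N ((i : ℤ) - j) : ℝ) : ℂ) = s1 at *
  generalize ((sn N ((i : ℤ) + 1) : ℝ) : ℂ) = s2 at *
  generalize ((sn N ((j : ℤ) + 1) : ℝ) : ℂ) = s3 at *
  generalize ((bc N (i + 1) (j + 1) : ℝ) : ℂ) = c1 at *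
  generalize ((bc N i (j + 1) : ℝ) : ℂ) = c2 at *
  generalize ((bc N i j : ℝ) : ℂ) = c3 at *
  apply mul_left_cancel₀ h1
  linear_combination -b1' + c2 * s + rt N ^ (-((i : ℤ) - j)) * b2'

/-- the q-binomial theorem -/
lemma qbin {i : ℕ} (hi : i < N) (t : ℂ) : ∑ j ∈ range (i + 1), ((bc N i j : ℝ) : ℂ) * t ^ j =
    ∏ s ∈ range i, (1 + rt N ^ (2 * (s : ℤ) - i + 1) * t) := by
  induction i generalizing t with
  | zero => simp [bc_self hi]
  | succ i ih =>
    have h0 := rt_ne N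
    have hA : ∑ j ∈ range (i + 1), ((bc N i j : ℝ) : ℂ) * (rt N * t) ^ j =
        ∏ s ∈ range i, (1 + rt N ^ (2 * (s : ℤ) - i + 1) * (rt N * t)) := ih (by omega) _
    have key : ∑ j ∈ range (i + 1 + 1), ((bc N (i + 1) j : ℝ) : ℂ) * t ^ j =
        (1 + rt N ^ (-(i : ℤ)) * t) * ∑ j ∈ range (i + 1), ((bc N i j : ℝ) : ℂ) * (rt N * t) ^ j := by
      rw [add_mul, one_mul, mul_sum, sum_range_succ' (fun j => ((bc N (i + 1) j : ℝ) : ℂ) * t ^ j),
        sum_range_succ (fun j => ((bc N (i + 1) (j + 1) : ℝ) : ℂ) * t ^ (j + 1)),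
        sum_range_succ' (fun j => ((bc N i j : ℝ) : ℂ) * (rt N * t) ^ j),
        sum_range_succ (fun j => rt N ^ (-(i : ℤ)) * t * (((bc N i j : ℝ) : ℂ) * (rt N * t) ^ j)),
        bc_self hi, bc_zero_right hi, bc_zero_right (by omega), bc_self (by omega)]
      have e : ∀ j ∈ range i, ((bc N (i + 1) (j + 1) : ℝ) : ℂ) * t ^ (j + 1) =
          ((bc N i (j + 1) : ℝ) : ℂ) * (rt N * t) ^ (j + 1) +
            rt N ^ (-(i : ℤ)) * t * (((bc N i j : ℝ) : ℂ) * (rt N * t) ^ j) := by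
        intro j hj
        rw [mem_range] at hj
        rw [pascal hi (by omega), mul_pow, mul_pow]
        have e1 : rt N ^ (-((i : ℤ) - j)) = rt N ^ (-(i : ℤ)) * rt N ^ j := by
          rw [← zpow_natCast, ← zpow_add₀ h0]; congr 1; ring
        have e2 : rt N ^ ((j : ℤ) + 1) = rt N ^ (j + 1) := by
          rw [← zpow_natCast]; push_cast; rfl
        rw [e1, e2, pow_succ t]
        ring
      rw [sum_congr rfl e, sum_add_distrib]
      have e3 : rt N ^ (-(i : ℤ)) * t * (((1 : ℝ) : ℂ) * (rt N * t) ^ i) = t ^ (i + 1) := by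
        rw [mul_pow, Complex.ofReal_one, one_mul, pow_succ]
        have : rt N ^ (-(i : ℤ)) * rt N ^ i = 1 := by
          rw [← zpow_natCast, ← zpow_add₀ h0]; simp
        linear_combination t ^ i * t * this
      rw [e3]
      simp only [Complex.ofReal_one, pow_zero, mul_one, one_mul]
      ring
    rw [key, hA, prod_range_succ' (fun s => (1 + rt N ^ (2 * (s : ℤ) - ((i + 1 : ℕ) : ℤ) + 1) * t)) i,
      mul_comm]
    congr 1
    · refine prod_congr rfl fun s _ => ?_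
      have : rt N ^ (2 * (s : ℤ) - i + 1) * (rt N * t) =
          rt N ^ (2 * ((s + 1 : ℕ) : ℤ) - ((i + 1 : ℕ) : ℤ) + 1) * t := by
        rw [← mul_assoc, ← zpow_add_one₀ h0]
        congr 2
        push_cast; ring
      rw [this]
    · congr 3
      push_cast; ring

lemma bc_mul {i k m : ℕ} (hi : i < N) (hk : k ≤ i) (hm : m ≤ i - k) :
    bc N i (k + m) * bc N (k + m) k = bc N i k * bc N (i - k) m := by
  rw [bc_Fa hi (by omega), bc_Fa (by omega) (by omega), bc_Fa hi hk, bc_Fa (by omega) hm]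
  have e1 : k + m - k = m := by omega
  have e2 : i - (k + m) = i - k - m := by omega
  rw [e1, e2]
  have p1 := (Fa_pos (N := N) (k := i) hi).ne'
  have p2 := (Fa_pos (N := N) (k := k) (by omega)).ne'
  have p3 := (Fa_pos (N := N) (k := m) (by omega)).ne'
  have p4 := (Fa_pos (N := N) (k := k + m) (by omega)).ne'
  have p5 := (Fa_pos (N := N) (k := i - k) (by omega)).ne'
  have p6 := (Fa_pos (N := N) (k := i - k - m) (by omega)).ne'
  field_simp

/-- the entries of the square of the q-Pascal matrix -/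
theorem norm_sq {i k : ℕ} (hi : i < N) (hk : k ≤ i) :
    ‖∑ j ∈ range N, uu N i j * uu N j k‖ = bc N i k * (Fa N i / Fa N k) := by
  have h0 := rt_ne N
  have e1 : ∑ j ∈ range N, uu N i j * uu N j k =
      ∑ m ∈ range (i - k + 1), uu N i (k + m) * uu N (k + m) k := by
    have hN : range N = range (k + (i - k + 1) + (N - 1 - i)) := congrArg range (by omega)
    rw [hN, sum_range_add, sum_range_add]
    have z1 : ∑ x ∈ range k, uu N i x * uu N x k = 0 := by
      refine sum_eq_zero fun x hx => ?_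
      rw [mem_range] at hx
      have : uu N x k = 0 := by unfold uu; rw [if_neg (by omega)]
      rw [this, mul_zero]
    have z2 : ∑ x ∈ range (N - 1 - i), uu N i (k + (i - k + 1) + x) * uu N (k + (i - k + 1) + x) k
        = 0 := by
      refine sum_eq_zero fun x hx => ?_
      have : uu N i (k + (i - k + 1) + x) = 0 := by unfold uu; rw [if_neg (by omega)]
      rw [this, zero_mul]
    rw [z1, z2, zero_add, add_zero]
  have e2 : ∀ m ∈ range (i - k + 1), uu N i (k + m) * uu N (k + m) k =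
      rt N ^ ((2 : ℤ) + i + i * k + k + k * k) * ((bc N i k : ℝ) : ℂ) *
        (((bc N (i - k) m : ℝ) : ℂ) * (-(rt N ^ ((i : ℤ) + k + 1))) ^ m) := by
    intro m hm
    rw [mem_range] at hm
    unfold uu
    rw [if_pos (by omega), if_pos (by omega)]
    have b := congrArg (fun r : ℝ => (r : ℂ)) (bc_mul (N := N) (m := m) hi hk (by omega))
    push_cast at b
    have e3 : (-1 : ℂ) ^ (k + m) * (-1) ^ k = (-1) ^ m := by
      have h2 : (-1 : ℂ) ^ k * (-1) ^ k = 1 := by
        rw [← mul_pow]; norm_num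
      rw [pow_add]
      linear_combination (-1) ^ m * h2
    have e4 : rt N ^ ((1 : ℤ) + i + i * ((k + m : ℕ) : ℤ)) *
        rt N ^ ((1 : ℤ) + ((k + m : ℕ) : ℤ) + ((k + m : ℕ) : ℤ) * k) =
        rt N ^ ((2 : ℤ) + i + i * k + k + k * k) * (rt N ^ ((i : ℤ) + k + 1)) ^ m := by
      rw [← zpow_natCast (rt N ^ ((i : ℤ) + k + 1)) m, ← _root_.zpow_mul, ← zpow_add₀ h0,
        ← zpow_add₀ h0]
      congr 1
      push_cast; ring
    rw [neg_pow (rt N ^ ((i : ℤ) + k + 1))]
    calc _ = ((-1 : ℂ) ^ (k + m) * (-1) ^ k) *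
          (rt N ^ ((1 : ℤ) + i + i * ((k + m : ℕ) : ℤ)) *
            rt N ^ ((1 : ℤ) + ((k + m : ℕ) : ℤ) + ((k + m : ℕ) : ℤ) * k)) *
          (((bc N i (k + m) : ℝ) : ℂ) * ((bc N (k + m) k : ℝ) : ℂ)) := by ring
      _ = _ := by rw [e3, e4, b]; ring
  rw [e1, sum_congr rfl e2, ← mul_sum, qbin (by omega), norm_mul, norm_mul, norm_rt_zpow, one_mul,
    Complex.norm_real, Real.norm_of_nonneg (bc_pos hi hk).le, norm_prod]
  congr 1
  have e5 : ∀ s ∈ range (i - k), ‖1 + rt N ^ (2 * (s : ℤ) - ((i - k : ℕ) : ℤ) + 1) *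
      -(rt N ^ ((i : ℤ) + k + 1))‖ = ‖br (rt N) (((k + s : ℕ) : ℤ) + 1)‖ := by
    intro s _
    have e6 : 1 + rt N ^ (2 * (s : ℤ) - ((i - k : ℕ) : ℤ) + 1) * -(rt N ^ ((i : ℤ) + k + 1)) =
        -(rt N ^ (((k + s : ℕ) : ℤ) + 1) * br (rt N) (((k + s : ℕ) : ℤ) + 1)) := by
      unfold br
      have e7 : ((i - k : ℕ) : ℤ) = (i : ℤ) - k := by omega
      rw [mul_neg, mul_sub, ← zpow_add₀ h0, ← zpow_add₀ h0, ← zpow_add₀ h0, add_neg_cancel,
        zpow_zero, e7]
      have e8 : 2 * (s : ℤ) - ((i : ℤ) - k) + 1 + ((i : ℤ) + k + 1) =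
          ((k + s : ℕ) : ℤ) + 1 + (((k + s : ℕ) : ℤ) + 1) := by push_cast; ring
      rw [e8]; ring
    rw [e6, norm_neg, norm_mul, norm_rt_zpow, one_mul]
  rw [prod_congr rfl e5]
  have p := (Fa_pos (N := N) (k := k) (by omega)).ne'
  rw [eq_div_iff p]
  have e9 : Fa N i = Fa N (k + (i - k)) := by congr 1; omega
  rw [e9]
  unfold Fa brf
  rw [norm_prod, norm_prod, prod_range_add]
  ring

end Pool.Agent.R807
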