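import Pool.Agent.R807.Sq2

/-!
Tangles with six ends act by matrices; the adjoint tangle acts by the adjoint matrix.
-/

set_option autoImplicit false

namespace Pool.Agent.R807

open Finset Matrix Pool.Agent.W709.QAT Pool.Agent.H550R3.Jones
open Pool.Agent.W715.VC hiding kap

variable {N : ℕ}

/-! ### the adjoint diagram -/

lemma padj_strands {P : Piece} {n k : ℕ} (h : P.strands n = some k) :
    (padj P n).strands k = some n := by
  cases P with
  | cup i =>
    simp only [Piece.strands] at h
    split_ifs at h with hi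
    cases h
    simp only [padj, Piece.strands]
    rw [if_pos (by omega)]
    congr 1
  | cap i =>
    simp only [Piece.strands] at h
    split_ifs at h with hi
    cases h
    simp only [padj, Piece.strands]
    rw [if_pos (by omega)]
    congr 1
    omega
  | twist i σ m =>
    simp only [Piece.strands] at h
    split_ifs at h with hi
    cases h
    simp only [padj, Piece.strands]
    rw [if_pos (by omega)]

lemma padj_padj {P : Piece} {n k : ℕ} (h : P.strands n = some k) : padj (padj P n) k = P := by
  cases P with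
  | cup i =>
    simp only [Piece.strands] at h
    split_ifs at h with hi
    cases h
    simp only [padj]
    congr 1
    omega
  | cap i =>
    simp only [Piece.strands] at h
    split_ifs at h with hi
    cases h
    simp only [padj]
    congr 1
    omega
  | twist i σ m =>
    simp only [Piece.strands] at h
    split_ifs at h with hi
    cases h
    simp only [padj, Bool.not_not]
    congr 1
    omega

lemma fits_nil (n : ℕ) : Fits [] n n := rfl

lemma fits_cons' {P : Piece} {D : Diag} {n m k : ℕ} (h : P.strands n = some m)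
    (hD : Fits D m k) : Fits (P :: D) n k := by
  unfold Fits
  rw [List.foldl_cons]
  change List.foldl (fun n P => n.bind P.strands) (P.strands n) D = some k
  rw [h]
  exact hD

lemma fits_append {D E : Diag} {n m k : ℕ} (hD : Fits D n m) (hE : Fits E m k) :
    Fits (D ++ E) n k := by
  unfold Fits at *
  rw [List.foldl_append, hD]
  exact hE

lemma adj_fits {D : Diag} {n k : ℕ} (h : Fits D n k) : Fits (adj D n) k n := by
  induction D generalizing n with
  | nil =>
    simp only [Fits, List.foldl_nil, Option.some.injEq] at h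
    subst h
    rfl
  | cons P D ih =>
    obtain ⟨m, h1, h2⟩ := fits_cons h
    have e : adj (P :: D) n = adj D m ++ [padj P n] := by
      simp only [adj]
      rw [h1, Option.getD_some]
    rw [e]
    exact fits_append (ih h2) (fits_cons' (padj_strands h1) (fits_nil n))

lemma adj_append {D E : Diag} {n m : ℕ} (h : Fits D n m) : adj (D ++ E) n = adj E m ++ adj D n := by
  induction D generalizing n with
  | nil =>
    simp only [Fits, List.foldl_nil, Option.some.injEq] at h
    subst h
    simp [adj]
  | cons P D ih =>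
    obtain ⟨l, h1, h2⟩ := fits_cons h
    simp only [List.cons_append, adj]
    rw [h1, Option.getD_some, ih h2, List.append_assoc]

lemma adj_adj {D : Diag} {n k : ℕ} (h : Fits D n k) : adj (adj D n) k = D := by
  induction D generalizing n with
  | nil => rfl
  | cons P D ih =>
    obtain ⟨l, h1, h2⟩ := fits_cons h
    have e : adj (P :: D) n = adj D l ++ [padj P n] := by
      simp only [adj]
      rw [h1, Option.getD_some]
    rw [e, adj_append (adj_fits h2), ih h2]
    simp only [adj]
    rw [padj_padj h1]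
    rfl

/-! ### linearity -/

lemma act_lin (v : ℂ) (P : Piece) {ι : Type} (S : Finset ι) (c : ι → ℂ) (f : ι → List (Fin N) → ℂ) :
    P.act N v (fun s => ∑ j ∈ S, c j * f j s) = fun s => ∑ j ∈ S, c j * P.act N v (f j) s := by
  cases P with
  | cup i =>
    funext s
    simp only [Piece.act]
    rcases s.drop i with _ | ⟨a, _ | ⟨b, r⟩⟩
    · simp
    · simp
    · simp only [mul_sum]
      exact sum_congr rfl fun j _ => by ring
  | cap i =>
    funext s
    simp only [Piece.act]
    simp only [mul_sum]
    rw [sum_comm]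
    exact sum_congr rfl fun j _ => sum_congr rfl fun p _ => by ring
  | twist i σ m =>
    funext s
    simp only [Piece.act]
    rcases s.drop i with _ | ⟨a, _ | ⟨b, r⟩⟩
    · simp
    · simp
    · simp only [mul_sum]
      rw [sum_comm]
      exact sum_congr rfl fun j _ => sum_congr rfl fun p _ => by ring

lemma run_lin (v : ℂ) (D : Diag) {ι : Type} (S : Finset ι) (c : ι → ℂ)
    (f : ι → List (Fin N) → ℂ) :
    run N v D (fun s => ∑ j ∈ S, c j * f j s) = fun s => ∑ j ∈ S, c j * run N v D (f j) s := by
  induction D generalizing f with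
  | nil => rfl
  | cons P D ih =>
    have e : ∀ g : List (Fin N) → ℂ, run N v (P :: D) g = run N v D (P.act N v g) := fun _ => rfl
    simp only [e]
    rw [act_lin, ih]

/-! ### locality -/

lemma act_local (P : Piece) {n k : ℕ} (hP : P.strands n = some k) {f g : List (Fin N) → ℂ}
    (h : ∀ s, s.length = n → f s = g s) :
    ∀ s, s.length = k → P.act N (rt N) f s = P.act N (rt N) g s := by
  cases P with
  | cup i =>
    simp only [Piece.strands] at hP
    split_ifs at hP with hi
    cases hP
    intro s hs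
    obtain ⟨l, a, b, r, rfl, hl⟩ := exists_mid hs (i := i) (by omega)
    rw [act_cup _ _ _ _ _ _ _ hl, act_cup _ _ _ _ _ _ _ hl, h]
    simp only [List.length_append, List.length_cons] at hs ⊢
    omega
  | cap i =>
    simp only [Piece.strands] at hP
    split_ifs at hP with hi
    cases hP
    intro s hs
    have e : s = s.take i ++ s.drop i := (List.take_append_drop i s).symm
    rw [e, act_cap _ _ _ _ _ (by rw [List.length_take]; omega),
      act_cap _ _ _ _ _ (by rw [List.length_take]; omega)]
    refine sum_congr rfl fun p _ => ?_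
    rw [h]
    simp only [List.length_append, List.length_cons, List.length_take, List.length_drop]
    omega
  | twist i σ m =>
    simp only [Piece.strands] at hP
    split_ifs at hP with hi
    cases hP
    intro s hs
    obtain ⟨l, a, b, r, rfl, hl⟩ := exists_mid hs (i := i) (by omega)
    rw [act_twist _ _ _ _ _ _ _ _ hl, act_twist _ _ _ _ _ _ _ _ hl]
    refine sum_congr rfl fun p _ => ?_
    rw [h]
    simp only [List.length_append, List.length_cons] at hs ⊢
    omega

lemma run_local (D : Diag) {n k : ℕ} (hD : Fits D n k) {f g : List (Fin N) → ℂ}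
    (h : ∀ s, s.length = n → f s = g s) :
    ∀ s, s.length = k → run N (rt N) D f s = run N (rt N) D g s := by
  induction D generalizing n f g with
  | nil =>
    simp only [Fits, List.foldl_nil, Option.some.injEq] at hD
    subst hD
    exact h
  | cons P D ih =>
    obtain ⟨m, h1, h2⟩ := fits_cons hD
    exact ih h2 (act_local P h1 h)

/-! ### the vectors as functions on lists -/

/-- the function on lists of a vector on three strands -/
def lift (x : I3 N → ℂ) : List (Fin N) → ℂ
  | [a, b, c] => x (a, b, c)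
  | _ => 0

lemma vec3_lift (x : I3 N → ℂ) : vec3 (lift x) = x := rfl

lemma list3 {s : List (Fin N)} (h : s.length = 3) : ∃ a b c, s = [a, b, c] := by
  rcases s with _ | ⟨a, _ | ⟨b, _ | ⟨c, _ | ⟨d, r⟩⟩⟩⟩ <;> simp at h
  exact ⟨a, b, c, rfl⟩

lemma Inv_lift (hN : 0 < N) {x : I3 N → ℂ} (hx : InK (N - 1) x) : Inv 3 (lift x) := by
  constructor
  · intro s hs
    obtain ⟨a, b, c, rfl⟩ := list3 hs
    have ha := a.2
    have hb := b.2
    have hc := c.2
    simp only [El, kf_cons, kf_nil, mul_one, one_mul, add_zero]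
    have q1 := Eo_sum hN a.1 ha (fun a' : Fin N => lift x [a', b, c])
    have q2 := Eo_sum hN b.1 hb (fun b' : Fin N => lift x [a, b', c])
    have q3 := Eo_sum hN c.1 hc (fun c' : Fin N => lift x [a, b, c'])
    simp only [Fin.eta] at q1 q2 q3
    rw [q1, q2, q3]
    have h := rel hN hx (a : ℕ) (b : ℕ) (c : ℕ)
    have e1 : hat x ((a : ℕ) + 1) b c =
        if h : (a : ℕ) + 1 < N then lift x [⟨a + 1, h⟩, b, c] else 0 := by
      split_ifs with h2
      · exact hat_vec3 (lift x) h2 hb hc
      · exact hat_out _ (by omega)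
    have e2 : hat x (a : ℕ) (b + 1) c =
        if h : (b : ℕ) + 1 < N then lift x [a, ⟨b + 1, h⟩, c] else 0 := by
      split_ifs with h2
      · exact hat_vec3 (lift x) ha h2 hc
      · exact hat_out _ (by omega)
    have e3 : hat x (a : ℕ) b (c + 1) =
        if h : (c : ℕ) + 1 < N then lift x [a, b, ⟨c + 1, h⟩] else 0 := by
      split_ifs with h2
      · exact hat_vec3 (lift x) ha hb h2
      · exact hat_out _ (by omega)
    have e4 : rt N ^ (2 * (N : ℤ) - 2 - 2 * (b : ℕ) - 2 * (c : ℕ)) =
        rt N ^ ((N : ℤ) - 1 - 2 * (b : ℕ)) * rt N ^ ((N : ℤ) - 1 - 2 * (c : ℕ)) := by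
      rw [← zpow_add₀ (rt_ne N)]; congr 1; ring
    rw [e1, e2, e3, e4] at h
    linear_combination h
  · intro s hs h
    obtain ⟨a, b, c, rfl⟩ := list3 hs
    have h1 : hat x (a : ℕ) (b : ℕ) (c : ℕ) ≠ 0 := by
      unfold hat
      rw [dif_pos ⟨a.2, b.2, c.2⟩]
      exact h
    have := hx.1 _ _ _ h1
    simp only [List.map_cons, List.map_nil, List.sum_cons, List.sum_nil]
    omega

/-! ### the matrix of a tangle with six ends -/

/-- the matrix of a diagram with three strands at the bottom and three at the top -/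
noncomputable def AR (N : ℕ) (R : Diag) : Matrix (Fin N) (Fin N) ℂ :=
  fun i a => tt N (N - 1) (vec3 (run N (rt N) R (lift (yv N (N - 1) a)))) i

lemma run_InK (hN : 0 < N) {R : Diag} (hR : Fits R 3 3) {f : List (Fin N) → ℂ}
    (hf : InK (N - 1) (vec3 f)) : InK (N - 1) (vec3 (run N (rt N) R f)) := by
  have h1 : ∀ s : List (Fin N), s.length = 3 → f s = lift (vec3 f) s := by
    intro s hs
    obtain ⟨a, b, c, rfl⟩ := list3 hs
    rfl
  have h2 : vec3 (run N (rt N) R f) = vec3 (run N (rt N) R (lift (vec3 f))) := by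
    funext p
    exact run_local R hR h1 _ rfl
  rw [h2]
  exact vec3_InK hN (Inv_run hN R hR (Inv_lift hN hf))

lemma tt_run (hN : 0 < N) {R : Diag} (hR : Fits R 3 3) {f : List (Fin N) → ℂ}
    (hf : InK (N - 1) (vec3 f)) (i : Fin N) :
    tt N (N - 1) (vec3 (run N (rt N) R f)) i =
      ∑ a : Fin N, AR N R i a * tt N (N - 1) (vec3 f) a := by
  have hm : N - 1 < N := by omega
  have e : N - 1 + 1 = N := by omega
  have h0 := expand hm hf
  rw [e] at h0
  have h1 : ∀ s : List (Fin N), s.length = 3 → f s =
      ∑ a ∈ range N, tt N (N - 1) (vec3 f) a * lift (yv N (N - 1) a) s := by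
    intro s hs
    obtain ⟨a, b, c, rfl⟩ := list3 hs
    have := congrFun h0 (a, b, c)
    simp only [Finset.sum_apply, Pi.smul_apply, smul_eq_mul] at this
    exact this
  have h2 : vec3 (run N (rt N) R f) = ∑ a ∈ range N, tt N (N - 1) (vec3 f) a •
      vec3 (run N (rt N) R (lift (yv N (N - 1) a))) := by
    funext p
    have h3 := run_local R hR h1 [p.1, p.2.1, p.2.2] rfl
    rw [run_lin] at h3
    simp only [Finset.sum_apply, Pi.smul_apply, smul_eq_mul]
    exact h3
  rw [h2, tt_sum, ← Fin.sum_univ_eq_sum_range]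
  exact sum_congr rfl fun a _ => by rw [tt_smul, AR, mul_comm]

/-- the vector of a tangle glued to a tangle with six ends -/
lemma cv_append (hN : 0 < N) {T R : Diag} (hT : Fits T 1 3) (hR : Fits R 3 3) :
    cv hN (T ++ R) = AR N R *ᵥ cv hN T := by
  funext i
  unfold cv xv
  rw [run_append, tt_run hN hR (xv_InK hN hT)]
  rfl

lemma AR_nil (hN : 0 < N) : AR N [] = 1 := by
  ext i a
  have h : AR N [] i a = tt N (N - 1) (yv N (N - 1) a) i := rfl
  rw [h, tt_yv (by omega) (by omega), Matrix.one_apply]
  simp [Fin.ext_iff]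

lemma AR_append (hN : 0 < N) {R R' : Diag} (hR : Fits R 3 3) (hR' : Fits R' 3 3) :
    AR N (R ++ R') = AR N R' * AR N R := by
  ext i a
  have hy : InK (N - 1) (vec3 (lift (yv N (N - 1) (a : ℕ)))) := by
    rw [vec3_lift]; exact yv_InK (by omega) _
  rw [Matrix.mul_apply]
  have h : AR N (R ++ R') i a =
      tt N (N - 1) (vec3 (run N (rt N) R' (run N (rt N) R (lift (yv N (N - 1) (a : ℕ)))))) i := by
    unfold AR
    rw [run_append]
  rw [h, tt_run hN hR' (run_InK hN hR hy)]
  rfl

/-- **the adjoint tangle acts by the adjoint matrix** -/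
lemma AR_adj (hN : 0 < N) {R : Diag} (hR : Fits R 3 3) : AR N (adj R 3) = (AR N R)ᴴ := by
  ext i a
  rw [Matrix.conjTranspose_apply]
  have hm : N - 1 < N := by omega
  have hyi : InK (N - 1) (vec3 (lift (yv N (N - 1) (i : ℕ)))) := by
    rw [vec3_lift]; exact yv_InK hm _
  have hya : InK (N - 1) (vec3 (lift (yv N (N - 1) (a : ℕ)))) := by
    rw [vec3_lift]; exact yv_InK hm _
  have h := adj_spec hN R hR (lift (yv N (N - 1) (i : ℕ))) (lift (yv N (N - 1) (a : ℕ)))
  rw [← Hf_vec3, ← Hf_vec3, Hf_eq hN (run_InK hN hR hyi) hya,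
    Hf_eq hN hyi (run_InK hN (adj_fits hR) hya)] at h
  rw [sum_eq_single (a : ℕ), sum_eq_single (i : ℕ)] at h
  · rw [vec3_lift, vec3_lift, tt_yv hm (by omega), tt_yv hm (by omega), if_pos rfl, if_pos rfl,
      map_one, one_mul, mul_one] at h
    exact h.symm
  · intro j _ hj
    rw [vec3_lift, tt_yv hm (by omega), if_neg hj, map_zero, zero_mul]
  · intro h'; exact absurd (mem_range.2 i.2) h'
  · intro j _ hj
    rw [vec3_lift, tt_yv hm (by omega), if_neg hj, mul_zero]
  · intro h'; exact absurd (mem_range.2 a.2) h'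

/-- the power of a diagram -/
def pw (W : Diag) : ℕ → Diag
  | 0 => []
  | n + 1 => pw W n ++ W

lemma fits_pw {W : Diag} {m : ℕ} (hW : Fits W m m) (n : ℕ) : Fits (pw W n) m m := by
  induction n with
  | zero => rfl
  | succ n ih => exact fits_append ih hW

lemma AR_pw (hN : 0 < N) {W : Diag} (hW : Fits W 3 3) (n : ℕ) : AR N (pw W n) = AR N W ^ n := by
  induction n with
  | zero => rw [pw, AR_nil hN, pow_zero]
  | succ n ih => rw [pw, AR_append hN (fits_pw hW n) hW, ih, pow_succ']

/-- the matrices and the vectors give all the invariants -/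
lemma jones_AR (hN : 0 < N) {S T R : Diag} (hS : Fits S 1 3) (hT : Fits T 1 3) (hR : Fits R 3 3) :
    Pool.Agent.W709.QAT.jones N (T ++ R ++ adj S 1) (rt N) =
      star (cv hN S) ⬝ᵥ (AR N R *ᵥ cv hN T) := by
  rw [jones_inner hN hS (fits_append hT hR), cv_append hN hT hR]
  rfl

open scoped ComplexOrder in
/-- **the moment property** -/
theorem moment (hN : 0 < N) {R : Diag} (hR : Fits R 3 3) : ∃ μ : Fin N → ℝ, (∀ k, 0 ≤ μ k) ∧
    ∃ τ : Diag → Fin N → ℂ, ∀ S T : Diag, Fits S 1 3 → Fits T 1 3 → ∀ n : ℕ,
      Pool.Agent.W709.QAT.jones N (T ++ pw (R ++ adj R 3) n ++ adj S 1) (rt N) =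
        ∑ k, ((μ k : ℝ) : ℂ) ^ n * ((starRingEnd ℂ) (τ S k) * τ T k) := by
  have hW : Fits (R ++ adj R 3) 3 3 := fits_append hR (adj_fits hR)
  have hM : AR N (R ++ adj R 3) = (AR N R)ᴴ * AR N R := by
    rw [AR_append hN hR (adj_fits hR), AR_adj hN hR]
  have hP : (AR N (R ++ adj R 3)).PosSemidef := by
    rw [hM]; exact Matrix.posSemidef_conjTranspose_mul_self _
  have hH := hP.isHermitian
  set A := AR N (R ++ adj R 3) with hA
  let V : Matrix (Fin N) (Fin N) ℂ := (hH.eigenvectorUnitary : Matrix (Fin N) (Fin N) ℂ)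
  have hVV : V * Vᴴ = 1 := (Matrix.mem_unitaryGroup_iff).1 hH.eigenvectorUnitary.2
  have hV'V : Vᴴ * V = 1 := (Matrix.mem_unitaryGroup_iff').1 hH.eigenvectorUnitary.2
  let Dm : Matrix (Fin N) (Fin N) ℂ := diagonal fun k => ((hH.eigenvalues k : ℝ) : ℂ)
  have hspec : A = V * Dm * Vᴴ := by
    have := hH.spectral_theorem
    rw [Unitary.conjStarAlgAut_apply] at this
    exact this
  have hpow : ∀ n : ℕ, A ^ n = V * (diagonal fun k => ((hH.eigenvalues k : ℝ) : ℂ) ^ n) * Vᴴ := by
    intro n
    induction n with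
    | zero =>
      have : (diagonal fun k => ((hH.eigenvalues k : ℝ) : ℂ) ^ 0) =
          (1 : Matrix (Fin N) (Fin N) ℂ) := by
        simp
      rw [this, mul_one, hVV, pow_zero]
    | succ n ih =>
      rw [pow_succ, ih]
      nth_rewrite 2 [hspec]
      have : V * (diagonal fun k => ((hH.eigenvalues k : ℝ) : ℂ) ^ n) * Vᴴ * (V * Dm * Vᴴ) =
          V * (diagonal fun k => ((hH.eigenvalues k : ℝ) : ℂ) ^ n) * (Vᴴ * V) * Dm * Vᴴ := by
        simp only [Matrix.mul_assoc]
      rw [this, hV'V, Matrix.mul_one, Matrix.mul_assoc V, Matrix.diagonal_mul_diagonal]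
      congr 2
  refine ⟨fun k => hH.eigenvalues k, fun k => hP.eigenvalues_nonneg k,
    fun T => Vᴴ *ᵥ cv hN T, fun S T hS hT n => ?_⟩
  rw [jones_AR hN hS hT (fits_pw hW n), AR_pw hN hW, ← hA, hpow]
  rw [← Matrix.mulVec_mulVec, ← Matrix.mulVec_mulVec, Matrix.dotProduct_mulVec]
  have e1 : star (cv hN S) ᵥ* V = star (Vᴴ *ᵥ cv hN S) := by
    rw [Matrix.star_mulVec, Matrix.conjTranspose_conjTranspose]
  rw [e1, dotProduct]
  refine sum_congr rfl fun k _ => ?_
  rw [Matrix.mulVec_diagonal]
  simp only [Pi.star_apply, RCLike.star_def]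
  ring

end Pool.Agent.R807
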