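import Pool.Agent.R807.HolderLim
import Pool.Agent.R807.Fin
import Pool.Agent.R807.Fam
import Pool.Agent.W709.RT.Full
import Pool.Agent.H112R4.VL.A2
import Pool.Agent.W193.QAT.R1
import Pool.Agent.W683.QAT.Slide

/-!
Tangles glued with a 3-braid in between: the syllables are bounded by volumes.  Two-bridge links.
-/

set_option autoImplicit false

namespace Pool.Agent.R807.TB

open Matrix Finset Filter Topology Pool.Agent.H550R3.Jones Pool.Agent.W709.QAT
open Pool.Agent.W715.VC hiding kap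
open Pool.Agent.R807.Holder Pool.Agent.R807.HolderLim
open Pool.Agent.W719.BX (uA)
open scoped Real

variable {N : ℕ}

lemma on12_pow' (A : M2 N) (n : ℕ) : on12 A ^ n = on12 (A ^ n) := by
  induction n with
  | zero => rw [pow_zero, pow_zero, Pool.Agent.R807.on12_one]
  | succ n ih => rw [pow_succ, pow_succ, ih, on12_mul]

lemma on23_pow' (A : M2 N) (n : ℕ) : on23 A ^ n = on23 (A ^ n) := by
  induction n with
  | zero => rw [pow_zero, pow_zero, Pool.Agent.R807.on23_one]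
  | succ n ih => rw [pow_succ, pow_succ, ih, on23_mul]

lemma rep3_zero (σ : Bool) (a : ℕ) : rep3 N (List.replicate a (0, σ)) = on12 (cr N σ ^ a) := by
  rw [rep3_replicate, ← on12_pow']
  rfl

lemma rep3_one (σ : Bool) (a : ℕ) : rep3 N (List.replicate a (1, σ)) = on23 (cr N σ ^ a) := by
  rw [rep3_replicate, ← on23_pow']
  rfl

/-- the norm of a 3-braid on the highest weight vectors of weight `N - 1` -/
lemma step_nq (hN : 0 < N) {w : List (ℕ × Bool)} (hw : ∀ l ∈ w, l.1 < 2) {x : I3 N → ℂ}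
    (hx : InK (N - 1) x) : nq N (rep3 N w *ᵥ x) ≤ tau N w * nq N x := by
  have h := step hN hw (m := N - 1) (by omega) (by omega) hx
  rwa [Hf_self hN ((good_rep3 (N := N) w).InK hx), Hf_self hN hx, Complex.norm_real,
    Complex.norm_real, Real.norm_of_nonneg (nq_nonneg _), Real.norm_of_nonneg (nq_nonneg _)] at h

lemma nq_s0 (hN : 0 < N) (σ : Bool) (m : ℕ) {x : I3 N → ℂ} (hx : InK (N - 1) x) :
    InK (N - 1) (on12 (cr N σ ^ m) *ᵥ x) ∧
      nq N (on12 (cr N σ ^ m) *ᵥ x) ≤ tau N (uA m) * nq N x := by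
  refine ⟨(nq_tw0 hN σ m hx).1, ?_⟩
  have h := step_nq hN (hu_rep (l := (0, σ)) (by norm_num) m) hx
  rwa [rep3_zero, tau_syl (l := (0, σ)) (by norm_num)] at h

lemma nq_s1 (hN : 0 < N) (σ : Bool) (m : ℕ) {x : I3 N → ℂ} (hx : InK (N - 1) x) :
    InK (N - 1) (on23 (cr N σ ^ m) *ᵥ x) ∧
      nq N (on23 (cr N σ ^ m) *ᵥ x) ≤ tau N (uA m) * nq N x := by
  refine ⟨(nq_tw1 hN σ m hx).1, ?_⟩
  have h := step_nq hN (hu_rep (l := (1, σ)) (by norm_num) m) hx
  rwa [rep3_one, tau_syl (l := (1, σ)) (by norm_num)] at h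

/-- the bound for a braid -/
noncomputable def costS (N : ℕ) (w : Diag) : ℝ :=
  ((w.filterMap Piece.size).map fun m => tau N (uA m)).prod

lemma costS_nonneg (N : ℕ) (w : Diag) : 0 ≤ costS N w := by
  unfold costS
  refine List.prod_nonneg fun x hx => ?_
  obtain ⟨m, -, rfl⟩ := List.mem_map.1 hx
  exact tau_nonneg _

lemma nq_runS (hN : 0 < N) (w : Diag) (hw : IsBraid w) (f : List (Fin N) → ℂ)
    (hf : InK (N - 1) (vec3 f)) : InK (N - 1) (vec3 (run N (rt N) w f)) ∧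
      nq N (vec3 (run N (rt N) w f)) ≤ costS N w * nq N (vec3 f) := by
  induction w generalizing f with
  | nil => exact ⟨hf, by simp [costS, run]⟩
  | cons P w ih =>
    have e1 : run N (rt N) (P :: w) f = run N (rt N) w (P.act N (rt N) f) := rfl
    rw [e1]
    obtain ⟨σ, m, h⟩ := hw P (List.mem_cons_self ..)
    have hw' : IsBraid w := fun Q hQ => hw Q (List.mem_cons_of_mem _ hQ)
    have h2 : InK (N - 1) (vec3 (P.act N (rt N) f)) ∧
        nq N (vec3 (P.act N (rt N) f)) ≤ tau N (uA m) * nq N (vec3 f) := by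
      rcases h with rfl | rfl
      · rw [vec3_twist0]; exact nq_s0 hN σ m hf
      · rw [vec3_twist1]; exact nq_s1 hN σ m hf
    have h3 := ih hw' _ h2.1
    have e2 : costS N (P :: w) = costS N w * tau N (uA m) := by
      unfold costS
      rcases h with rfl | rfl <;> simp [Piece.size, mul_comm]
    refine ⟨h3.1, h3.2.trans ?_⟩
    rw [e2, mul_assoc]
    exact mul_le_mul_of_nonneg_left h2.2 (costS_nonneg N _)

/-- **tangles glued with a braid in between** -/
theorem insS (hN : 0 < N) {S T w : Diag} (hS : Fits S 1 3) (hT : Fits T 1 3) (hB : IsBraid w) :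
    ‖Pool.Agent.W709.QAT.jones N (T ++ w ++ adj S 1) (rt N)‖ ^ 2 ≤
      costS N w * (nq N (xv hN S) * nq N (xv hN T)) := by
  rw [jones_glue hN hS]
  have e : xv hN (T ++ w) = vec3 (run N (rt N) w (run N (rt N) T (hw N hN))) := by
    unfold xv
    rw [run_append]
  have h1 := nq_runS hN w hB (run N (rt N) T (hw N hN)) (xv_InK hN hT)
  rw [e]
  refine (Hf_cs hN (xv_InK hN hS) h1.1).trans ?_
  have h2 := mul_le_mul_of_nonneg_left h1.2 (nq_nonneg (N := N) (xv hN S))
  refine h2.trans (le_of_eq ?_)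
  unfold xv
  ring

lemma norm_self (hN : 0 < N) {T : Diag} (hT : Fits T 1 3) :
    ‖Pool.Agent.W709.QAT.jones N (T ++ adj T 1) (rt N)‖ = nq N (xv hN T) := by
  rw [jones_glue hN hT, Hf_self hN (xv_InK hN hT), Complex.norm_real,
    Real.norm_of_nonneg (nq_nonneg _)]

/-! ### the two kinds of ends -/

/-- the first end -/
def Ta (a : ℕ) : Diag := [.cup 1, .twist 0 true a]
/-- the last end -/
def Sa (a : ℕ) : Diag := [.cup 0, .twist 1 false a]

lemma fits_Ta (a : ℕ) : Fits (Ta a) 1 3 := rfl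
lemma fits_Sa (a : ℕ) : Fits (Sa a) 1 3 := rfl

lemma conj_pow (hN : 0 < N) (m : ℕ) : InK (N - 1) (on12 (cr N true ^ m) *ᵥ vec3 (x0 N hN)) ∧
    InK (N - 1) (on12 (cr N false ^ m) *ᵥ vec3 (x0 N hN)) ∧
    ∀ i, i ≤ N - 1 → tt N (N - 1) (on12 (cr N false ^ m) *ᵥ vec3 (x0 N hN)) i =
      (starRingEnd ℂ) (tt N (N - 1) (on12 (cr N true ^ m) *ᵥ vec3 (x0 N hN)) i) := by
  induction m with
  | zero =>
    rw [pow_zero, pow_zero, Pool.Agent.R807.on12_one, Matrix.one_mulVec]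
    refine ⟨x0_InK hN, x0_InK hN, fun i hi => ?_⟩
    rw [tt_x0 hN hi]
    split_ifs <;> simp
  | succ m ih =>
    obtain ⟨h1, h2, h3⟩ := ih
    have e : ∀ σ, on12 (cr N σ ^ (m + 1)) *ᵥ vec3 (x0 N hN) =
        on12 (cr N σ) *ᵥ (on12 (cr N σ ^ m) *ᵥ vec3 (x0 N hN)) := by
      intro σ
      rw [Matrix.mulVec_mulVec, on12_mul, ← pow_succ']
    rw [e, e]
    refine ⟨P12_InK h1, Q12_InK h2, fun i hi => ?_⟩
    have e1 : on12 (cr N true) = on12 (PP N) := rfl
    have e2 : on12 (cr N false) = on12 (QQ N) := rfl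
    rw [e1, e2, tt_P hN h1 hi, tt_Q hN h2 hi, map_sum]
    refine sum_congr rfl fun a ha => ?_
    rw [mem_range] at ha
    rw [map_mul, h3 a (by omega)]

lemma nq_conj (hN : 0 < N) (m : ℕ) : nq N (on12 (cr N false ^ m) *ᵥ vec3 (x0 N hN)) =
    nq N (on12 (cr N true ^ m) *ᵥ vec3 (x0 N hN)) := by
  unfold nq
  refine sum_congr rfl fun i hi => ?_
  rw [mem_range] at hi
  rw [(conj_pow hN m).2.2 i (by omega), RCLike.norm_conj]

lemma nq_smul (hN : 0 < N) {x : I3 N → ℂ} (hx : InK (N - 1) x) {c : ℂ} (hc : ‖c‖ = 1) :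
    nq N (c • x) = nq N x := by
  have h1 : InK (N - 1) (c • x) := InK_smul hx c
  have h2 : ((nq N (c • x) : ℝ) : ℂ) = ((nq N x : ℝ) : ℂ) := by
    rw [← Hf_self hN h1, Hf_smul_left, Hf_smul_right, Hf_self hN hx, ← mul_assoc,
      Complex.conj_mul', hc]
    simp
  exact_mod_cast h2

lemma nq_Dl (hN : 0 < N) {x : I3 N → ℂ} (hx : InK (N - 1) x) : nq N (Dl N *ᵥ x) = nq N x := by
  have e : Dl N = rep3 N (htw 1) := by
    have e1 : htw 1 = [((0, true) : ℕ × Bool), (1, true), (0, true)] := rfl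
    rw [e1]
    simp only [rep3_cons, rep3_nil, mul_one, g3, if_true, one_ne_zero, if_false, Dl]
    noncomm_ring
  have h1 : InK (N - 1) (Dl N *ᵥ x) := by rw [e]; exact (good_rep3 _).InK hx
  have h2 : ((nq N (Dl N *ᵥ x) : ℝ) : ℂ) = ((nq N x : ℝ) : ℂ) := by
    rw [← Hf_self hN h1, ← Hf_self hN hx, e, unit_htw hN]
  exact_mod_cast h2

lemma rt_adm (N : ℕ) : ∀ k : ℕ, 0 < k → k < N → br (rt N) k ≠ 0 := (adm N).2

/-- the cup on the left is the half twist of the cup on the right -/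
lemma x1_eq (hN : 0 < N) : ∃ c : ℂ, ‖c‖ = 1 ∧ Dl N *ᵥ vec3 (x0 N hN) = c • vec3 (x1 N hN) := by
  set c1 : ℂ := rt N ^ (-((N : ℤ) ^ 2 - 1)) with hc1
  set c2 : ℂ := (-1) ^ (N - 1) * rt N ^ (-((N : ℤ) ^ 2 - 1)) with hc2
  have hn1 : ‖c1‖ = 1 := norm_rt_zpow N _
  have hn2 : ‖c2‖ = 1 := by rw [hc2, norm_mul, norm_rt_zpow, norm_pow, norm_neg, norm_one, one_pow,
    mul_one]
  have h1 : on23 (PP N) *ᵥ (on12 (PP N) *ᵥ vec3 (x0 N hN)) = c1 • vec3 (x1 N hN) := by
    have e0 : vec3 ((Piece.twist 1 true 1).act N (rt N) ((Piece.twist 0 true 1).act N (rt N)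
        (x0 N hN))) = on23 (cr N true ^ 1) *ᵥ (on12 (cr N true ^ 1) *ᵥ vec3 (x0 N hN)) := by
      rw [vec3_twist1, vec3_twist0]
    rw [pow_one] at e0
    have e1 : on12 (cr N true) = on12 (PP N) := rfl
    have e2 : on23 (cr N true) = on23 (PP N) := rfl
    rw [e1, e2] at e0
    rw [← e0]
    funext p
    have h := (Pool.Agent.W683.QAT.slide N (rt N) (rt_ne N) (rt_adm N) (hw N hN) 0
      [p.1, p.2.1, p.2.2] (by simp)).1
    exact h
  have h2 : on12 (PP N) *ᵥ vec3 (x1 N hN) = c2 • vec3 (x1 N hN) := by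
    have e0 : vec3 ((Piece.twist 0 true 1).act N (rt N) (x1 N hN)) =
        on12 (cr N true ^ 1) *ᵥ vec3 (x1 N hN) := vec3_twist0 true 1 _
    rw [pow_one] at e0
    have e1 : on12 (cr N true) = on12 (PP N) := rfl
    rw [e1] at e0
    rw [← e0]
    funext p
    have h := Pool.Agent.W193.QAT.r1 N (rt N) (rt_ne N) (rt_adm N) hN (hw N hN) 0
      [p.1, p.2.1, p.2.2] (by simp)
    exact h
  refine ⟨c1 * c2, by rw [norm_mul, hn1, hn2, mul_one], ?_⟩
  unfold Dl
  rw [← Matrix.mulVec_mulVec, ← Matrix.mulVec_mulVec, Matrix.mulVec_mulVec _ (on12 (PP N)),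
    ← Matrix.mulVec_mulVec, h1, Matrix.mulVec_smul, h2, smul_smul]

lemma nq_ends (hN : 0 < N) (a : ℕ) : nq N (xv hN (Sa a)) = nq N (xv hN (Ta a)) := by
  have e1 : xv hN (Ta a) = on12 (cr N true ^ a) *ᵥ vec3 (x0 N hN) := vec3_twist0 true a (x0 N hN)
  have e2 : xv hN (Sa a) = on23 (cr N false ^ a) *ᵥ vec3 (x1 N hN) := vec3_twist1 false a (x1 N hN)
  obtain ⟨c, hc, h⟩ := x1_eq hN
  have h1 : on23 (cr N false ^ a) *ᵥ (c • vec3 (x1 N hN)) =
      Dl N *ᵥ (on12 (cr N false ^ a) *ᵥ vec3 (x0 N hN)) := by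
    have h2 := semiconj_pow (D := Dl N) (Dl_Q12 (N := N)) a
    rw [on12_pow', on23_pow'] at h2
    rw [← h, Matrix.mulVec_mulVec, Matrix.mulVec_mulVec]
    exact congrArg (fun M : M3 N => M *ᵥ vec3 (x0 N hN)) h2.symm
  rw [Matrix.mulVec_smul] at h1
  have h3 := congrArg (nq N) h1
  rw [nq_smul hN (nq_s1 hN false a (x1_InK hN)).1 hc, nq_Dl hN (conj_pow hN a).2.1, nq_conj] at h3
  rw [e1, e2, h3]

/-! ### the growth of `C(a, a)` -/

/-- the invariant of `C(a, a)` from the R-matrix -/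
lemma nq_jt (hN : 0 < N) (a : ℕ) : nq N (xv hN (Ta a)) =
    ‖Pool.Agent.W709.RT.jt a N (EvenVol.v0 N)‖ := by
  have hv : EvenVol.v0 N = rt N := rfl
  rw [← norm_self hN (fits_Ta a), hv]
  congr 1
  unfold Pool.Agent.W709.RT.jt
  rw [dif_pos hN]
  have e0 : Ta a ++ adj (Ta a) 1 = [.cup 1, .twist 0 true a, .twist 1 false a, .cap 0] := rfl
  set g : List (Fin N) → ℂ := run N (rt N) [.cup 1, .twist 0 true a, .twist 1 false a] (hw N hN)
    with hg
  have e1 : Pool.Agent.W709.QAT.jones N (Ta a ++ adj (Ta a) 1) (rt N) =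
      (Piece.cap 0).act N (rt N) g [⟨0, hN⟩] := by
    unfold Pool.Agent.W709.QAT.jones
    rw [dif_pos hN, e0]
    rfl
  have e2 : vec3 g = rep3 N (Pool.Agent.W709.RT.word a) *ᵥ vec3 (x0 N hN) := by
    have e3 : vec3 g = on23 (cr N false ^ a) *ᵥ (on12 (cr N true ^ a) *ᵥ vec3 (x0 N hN)) := by
      have e4 : g = (Piece.twist 1 false a).act N (rt N) ((Piece.twist 0 true a).act N (rt N)
        (x0 N hN)) := rfl
      rw [e4, vec3_twist1, vec3_twist0]
    rw [e3]
    unfold Pool.Agent.W709.RT.word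
    rw [rep3_append, rep3_zero, rep3_one, Matrix.mulVec_mulVec]
  rw [e1]
  have e3 := act_cap (rt N) 0 g [] [⟨0, hN⟩] rfl
  simp only [List.nil_append] at e3
  rw [e3]
  unfold Pool.Agent.W709.RT.tang
  refine sum_congr rfl fun p _ => ?_
  have e4 : g (p.1 :: p.2 :: [⟨0, hN⟩]) = vec3 g (p.1, (p.2, ⟨0, hN⟩)) := rfl
  rw [e4, e2]
  simp only [Matrix.mulVec, dotProduct]
  rw [Fintype.sum_prod_type, sum_eq_single (⟨0, hN⟩ : Fin N)]
  · rw [mul_sum]
    refine sum_congr rfl fun q _ => ?_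
    rw [rep_rep3]
    have e5 : vec3 (x0 N hN) (⟨0, hN⟩, q) = Pool.Agent.W709.QAT.cup N (rt N) q := by
      have := x0_val hN ⟨0, hN⟩ q.1 q.2
      rw [if_pos rfl, mul_one] at this
      exact this
    rw [e5]
    have e6 : (rep3 N (Pool.Agent.W709.RT.word a)).submatrix
        (Pool.Agent.H927R2.J.SanYB.e3 (Fin N)) (Pool.Agent.H927R2.J.SanYB.e3 (Fin N))
        ![p.1, p.2, ⟨0, hN⟩] ![⟨0, hN⟩, q.1, q.2] =
        rep3 N (Pool.Agent.W709.RT.word a) (p.1, (p.2, ⟨0, hN⟩)) (⟨0, hN⟩, q) := rfl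
    rw [e6]
    have e7 : Pool.Agent.W709.RT.cap N (rt N) p = Pool.Agent.W709.QAT.cap N (rt N) p := rfl
    have e8 : Pool.Agent.W709.RT.cup N (rt N) q = Pool.Agent.W709.QAT.cup N (rt N) q := rfl
    rw [e7, e8]
    ring
  · intro b _ hb
    refine sum_eq_zero fun q _ => ?_
    have : vec3 (x0 N hN) (b, q) = 0 := by
      have := x0_val hN b q.1 q.2
      rw [if_neg hb, mul_zero] at this
      exact this
    rw [this, mul_zero]
  · intro h; exact absurd (mem_univ _) h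

/-- `C(a, a)` grows at most with the rate `L` -/
def EndLe (L : ℝ) (a : ℕ) : Prop := ∀ ε : ℝ, 0 < ε → ∀ᶠ N : ℕ in atTop, ∀ hN : 0 < N,
  nq N (xv hN (Ta a)) ≤ Real.exp (N * ((L + ε) / (2 * π)))

lemma endLe_of {L : ℝ} {a : ℕ} (h : Tendsto (fun N : ℕ => 2 * Real.pi *
    (Real.log ‖Pool.Agent.W709.RT.jt a N (EvenVol.v0 N)‖ / N)) atTop (𝓝 L)) : EndLe L a := by
  intro ε hε
  have hpi := Real.pi_pos
  filter_upwards [h.eventually (gt_mem_nhds (show L < L + ε by linarith)),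
    eventually_gt_atTop 0] with N h1 h2 hN
  rw [nq_jt hN]
  have hNr : (0 : ℝ) < N := by exact_mod_cast hN
  rcases (norm_nonneg (Pool.Agent.W709.RT.jt a N (EvenVol.v0 N))).eq_or_lt with h6 | h6
  · rw [← h6]; exact (Real.exp_pos _).le
  · rw [← Real.log_le_iff_le_exp h6]
    have h7 := mul_le_mul_of_nonneg_left h1.le (show 0 ≤ (N : ℝ) / (2 * π) by positivity)
    refine le_trans (le_of_eq ?_) (h7.trans (le_of_eq ?_))
    · field_simp
    · ring

lemma end_one : EndLe 0 1 := by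
  intro ε hε
  have hpi := Real.pi_pos
  filter_upwards [HolderLim.poly_le (ε := ε / (2 * π)) (by positivity) 1 1] with N h1 hN
  have h2 : nq N (xv hN (Ta 1)) = N := by
    have h3 := hopf hN
    have h4 := norm_self hN (fits_Ta 1)
    have e : Ta 1 = [.cup 1, .twist 0 true 1] := rfl
    rw [e] at h4 ⊢
    rw [← h4, h3, Complex.norm_real, Real.norm_of_nonneg (Nat.cast_nonneg N)]
  rw [h2]
  rw [one_mul, pow_one] at h1
  refine h1.trans (le_of_eq ?_)
  congr 1
  ring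

lemma end_two : EndLe (4 * GapVol.lob (π / 6)) 2 := by
  intro ε hε
  have hpi := Real.pi_pos
  filter_upwards [SF_le (ε := ε / (2 * π)) (by positivity)] with N h1 hN
  have e : Ta 2 = T0 := rfl
  rw [e, nq_T0 hN]
  refine h1.trans (le_of_eq ?_)
  congr 1
  field_simp
  ring

lemma end_three : EndLe (8 * GapVol.lob (π / 6)) 3 := by
  refine endLe_of ?_
  have h := Pool.Agent.H112R4.VL.taskD Pool.Agent.H112R4.VL.taskB Pool.Agent.H8R3.VL.taskC
  refine h.congr' ?_
  filter_upwards [eventually_ge_atTop 2] with N hN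
  have h1 : Pool.Agent.W709.RT.jt 3 N (EvenVol.v0 N) = ((Pool.Agent.H112R4.VL.K N : ℝ) : ℂ) := by
    refine Pool.Agent.W709.RT.jt_v0 hN ?_
    have e : ((3 : ℕ) : ℤ) = 3 := rfl
    rw [e]
    exact Pool.Agent.H112R4.VL.taskA N hN
  have h4 : ‖((Pool.Agent.H112R4.VL.K N : ℝ) : ℂ)‖ = Pool.Agent.H112R4.VL.K N := by
    rw [Complex.norm_real, Real.norm_eq_abs, abs_of_nonneg]
    exact Finset.sum_nonneg (fun n _ => by positivity)
  rw [h1, h4]
  ring

lemma end_four {a : ℕ} (ha : 4 ≤ a) : ∃ W : ℝ,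
    IsGreatest {W : ℝ | ∃ w, Pool.Agent.W709.VC.IsAngle a a w ∧
      Pool.Agent.W709.VC.volw a a w = W} W ∧ EndLe W a := by
  obtain ⟨V, h1, h2⟩ := Pool.Agent.W709.RT.main ha
  exact ⟨V, h1, endLe_of h2⟩

/-! ### the growth of tangles glued with a braid -/

lemma costS_le {V : ℕ → ℝ} (hV : ∀ a, 1 ≤ a → GrowthLe (V a) a) (w : Diag)
    (hw : ∀ m ∈ w.filterMap Piece.size, 1 ≤ m) {ε : ℝ} (hε : 0 < ε) :
    ∀ᶠ N : ℕ in atTop, costS N w ≤ Real.exp (N * ((((w.filterMap Piece.size).map V).sum +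
      (w.filterMap Piece.size).length * ε) / (2 * π))) := by
  unfold costS
  revert hw
  generalize w.filterMap Piece.size = l
  intro hw
  induction l with
  | nil => simp
  | cons x s ih =>
    have h1 := ih fun y hy => hw y (List.mem_cons_of_mem _ hy)
    filter_upwards [h1, hV _ (hw x List.mem_cons_self) ε hε] with N h4 h5
    have e2 : Real.exp (N * ((((x :: s).map V).sum + (x :: s).length * ε) / (2 * π))) =
        Real.exp (N * ((V x + ε) / (2 * π))) *
        Real.exp (N * (((s.map V).sum + s.length * ε) / (2 * π))) := by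
      rw [← Real.exp_add]
      congr 1
      rw [List.map_cons, List.sum_cons, List.length_cons]
      push_cast
      ring
    rw [List.map_cons, List.prod_cons, e2]
    refine mul_le_mul h5 h4 ?_ (Real.exp_pos _).le
    refine List.prod_nonneg fun y hy => ?_
    rw [List.mem_map] at hy
    obtain ⟨w, -, rfl⟩ := hy
    exact tau_nonneg _

/-- **insertion of a 3-braid** -/
theorem ins_growth {V : ℕ → ℝ} (hV : ∀ a, 1 ≤ a → GrowthLe (V a) a) {S T w : Diag}
    (hS : Fits S 1 3) (hT : Fits T 1 3) (hB : IsBraid w)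
    (hw : ∀ m ∈ w.filterMap Piece.size, 1 ≤ m) {A B : ℝ}
    (hA : ∀ ε : ℝ, 0 < ε → ∀ᶠ N : ℕ in atTop, ∀ hN : 0 < N,
      nq N (xv hN S) ≤ Real.exp (N * ((A + ε) / (2 * π))))
    (hB' : ∀ ε : ℝ, 0 < ε → ∀ᶠ N : ℕ in atTop, ∀ hN : 0 < N,
      nq N (xv hN T) ≤ Real.exp (N * ((B + ε) / (2 * π)))) {ε : ℝ} (hε : 0 < ε) :
    ∀ᶠ N : ℕ in atTop, ‖Pool.Agent.W709.QAT.jones N (T ++ w ++ adj S 1) (rt N)‖ ≤
      Real.exp (N * (((A + B + ((w.filterMap Piece.size).map V).sum) / 2 + ε) / (2 * π))) := by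
  have hpi := Real.pi_pos
  set n : ℝ := ((w.filterMap Piece.size).length : ℝ) + 2 with hn
  have hn0 : 0 < n := by positivity
  have hδ : 0 < 2 * ε / n := by positivity
  filter_upwards [costS_le hV w hw hδ, hA _ hδ, hB' _ hδ, eventually_gt_atTop 0] with N h1 h2 h3 h4
  have h5 := insS h4 hS hT hB
  have h6 := h5.trans (mul_le_mul h1 (mul_le_mul (h2 h4) (h3 h4) (nq_nonneg _) (Real.exp_pos _).le)
    (mul_nonneg (nq_nonneg _) (nq_nonneg _)) (Real.exp_pos _).le)
  rw [← Real.exp_add, ← Real.exp_add] at h6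
  refine le_of_sq_le_sq (h6.trans (le_of_eq ?_)) (Real.exp_pos _).le
  rw [← Real.exp_nat_mul]
  congr 1
  have e : ((w.filterMap Piece.size).length : ℝ) * (2 * ε / n) + 2 * ε / n + 2 * ε / n = 2 * ε := by
    have : ((w.filterMap Piece.size).length : ℝ) * (2 * ε / n) + 2 * ε / n + 2 * ε / n =
        2 * ε / n * n := by rw [hn]; ring
    rw [this]
    field_simp
  push_cast
  linear_combination (N : ℝ) / (2 * π) * e

/-! ### two-bridge links -/

/-- the two-bridge link with the twist regions `a`, `l`, `b` -/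
def tb2 (a : ℕ) (l : List ℕ) (b : ℕ) : Diag :=
  .cup 1 :: syl true (a :: l ++ [b]) ++ [if Even l.length then .cap 0 else .cap 1]

lemma tb2_eq (a : ℕ) (l : List ℕ) (b : ℕ) : ∃ S : Diag, (S = Ta b ∨ S = Sa b) ∧
    tb2 a l b = Ta a ++ Pool.Agent.R807.syl false l ++ adj S 1 := by
  have e : Pool.Agent.R807.syl true (a :: l ++ [b]) =
      .twist 0 true a :: (Pool.Agent.R807.syl false l ++
        [if Even l.length then .twist 1 false b else .twist 0 true b]) := by
    rw [List.cons_append]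
    simp only [Pool.Agent.R807.syl]
    rw [syl_append]
    by_cases h : Even l.length <;> simp [h, Pool.Agent.R807.syl]
  unfold tb2
  by_cases h : Even l.length
  · refine ⟨Ta b, Or.inl rfl, ?_⟩
    have e1 : Pool.Agent.R807.TB.tb2 a l b = Piece.cup 1 ::
        Pool.Agent.R807.syl true (a :: l ++ [b]) ++
          [if Even l.length then .cap 0 else .cap 1] := rfl
    rw [show (Piece.cup 1 :: Pool.Agent.R807.syl true (a :: l ++ [b]) ++
          [if Even l.length then Piece.cap 0 else Piece.cap 1]) = _ from by rw [e]]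
    simp [h, adj, padj, Piece.strands, Ta]
  · refine ⟨Sa b, Or.inr rfl, ?_⟩
    rw [show (Piece.cup 1 :: Pool.Agent.R807.syl true (a :: l ++ [b]) ++
          [if Even l.length then Piece.cap 0 else Piece.cap 1]) = _ from by rw [e]]
    simp [h, adj, padj, Piece.strands, Ta, Sa]

lemma syl_size (b : Bool) (l : List ℕ) :
    (Pool.Agent.R807.syl b l).filterMap Piece.size = l := by
  induction l generalizing b with
  | nil => cases b <;> rfl
  | cons a l ih =>
    cases b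
    · simp only [Pool.Agent.R807.syl]
      rw [List.filterMap_cons_some (f := Piece.size) (b := a) rfl, ih]
    · simp only [Pool.Agent.R807.syl]
      rw [List.filterMap_cons_some (f := Piece.size) (b := a) rfl, ih]

/-- **the growth of the invariants of two-bridge links** -/
theorem tb_growth2 {V : ℕ → ℝ} (hV : ∀ a, 1 ≤ a → GrowthLe (V a) a) {a : ℕ} {l : List ℕ} {b : ℕ}
    (hl : ∀ m ∈ l, 1 ≤ m) {A B : ℝ} (hA : EndLe A a) (hB : EndLe B b) {ε : ℝ} (hε : 0 < ε) :
    ∀ᶠ N : ℕ in atTop, ‖Pool.Agent.W709.QAT.jones N (tb2 a l b) (rt N)‖ ≤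
      Real.exp (N * (((A + B + (l.map V).sum) / 2 + ε) / (2 * π))) := by
  obtain ⟨S, hS, e⟩ := tb2_eq a l b
  have hS1 : Fits S 1 3 := by rcases hS with rfl | rfl <;> rfl
  have hS2 : ∀ ε : ℝ, 0 < ε → ∀ᶠ N : ℕ in atTop, ∀ hN : 0 < N,
      nq N (xv hN S) ≤ Real.exp (N * ((B + ε) / (2 * π))) := by
    intro ε hε
    filter_upwards [hB ε hε] with N h hN
    rcases hS with rfl | rfl
    · exact h hN
    · rw [nq_ends]; exact h hN
  have h := ins_growth hV hS1 (fits_Ta a) (syl_braid false l)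
    (by rw [syl_size]; exact hl) hS2 hA hε
  rw [syl_size] at h
  filter_upwards [h] with N hN
  rw [e]
  refine hN.trans (le_of_eq ?_)
  congr 2
  ring

end Pool.Agent.R807.TB
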