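import Pool.Agent.R807.ZK1

/-!
Rational acyclicity of the kernel, and the conclusions.
-/

set_option autoImplicit false
set_option linter.unusedSectionVars false

open scoped Matrix

namespace Pool.Agent.R807.ZK

open Pool.Agent.H919R4.ZS MonoidAlgebra Pool.Agent.TH38.ZT
open Pool.Agent.H496R3.ZS (IsAmenable)

/-- `ℤ[Q] → ℚ[Q]` -/
noncomputable def rat (Q : Type) [Group Q] : MonoidAlgebra ℤ Q →+* MonoidAlgebra ℚ Q :=
  MonoidAlgebra.mapRingHom Q (Int.castRingHom ℚ)

section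

variable {G Q : Type} [Group G] [Group Q]

lemma rat_single (q : Q) (c : ℤ) : rat Q (single q c) = single q (c : ℚ) := by
  rw [rat, MonoidAlgebra.mapRingHom_single]
  rfl

lemma rat_inj : Function.Injective (rat Q) := by
  intro x y h
  ext q
  have h1 := congrArg (fun z : MonoidAlgebra ℚ Q => z.coeff q) h
  simp only [rat, MonoidAlgebra.coeff_mapRingHom] at h1
  exact Int.cast_injective (α := ℚ) h1

lemma clear1 (y : MonoidAlgebra ℚ Q) : ∃ c : ℤ, c ≠ 0 ∧ ∃ y' : MonoidAlgebra ℤ Q,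
    rat Q y' = c • y := by
  refine induction_linear y ?_ ?_ ?_
  · exact ⟨1, one_ne_zero, 0, by rw [map_zero, smul_zero]⟩
  · rintro x y ⟨c, hc, x', hx⟩ ⟨d, hd, y', hy⟩
    refine ⟨c * d, mul_ne_zero hc hd, d • x' + c • y', ?_⟩
    rw [map_add, map_zsmul, map_zsmul, hx, hy, smul_add, smul_smul, smul_smul, mul_comm d c]
  · intro q r
    refine ⟨r.den, by exact_mod_cast r.den_ne_zero, single q r.num, ?_⟩
    rw [rat_single, smul_single, zsmul_eq_mul]
    congr 1
    rw [mul_comm]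
    exact_mod_cast (Rat.mul_den_eq_num r).symm

lemma clear {n : ℕ} (y : Fin n → MonoidAlgebra ℚ Q) : ∃ c : ℤ, c ≠ 0 ∧
    ∃ y' : Fin n → MonoidAlgebra ℤ Q, ∀ k, rat Q (y' k) = c • y k := by
  choose c hc y' hy using fun k => clear1 (y k)
  refine ⟨∏ k, c k, Finset.prod_ne_zero_iff.2 fun k _ => hc k,
    fun k => (∏ l ∈ Finset.univ.erase k, c l) • y' k, fun k => ?_⟩
  rw [map_zsmul, hy, smul_smul, Finset.prod_erase_mul _ _ (Finset.mem_univ k)]

lemma tor_of_rat (X : FinRes G) (π : MonoidAlgebra ℤ G →+* MonoidAlgebra ℤ Q) (q : ℕ)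
    (h : ExAt X ((rat Q).comp π) (q + 1)) : TorAt X π q := by
  intro x hx
  have mm : ∀ {a b : ℕ} (M : Matrix (Fin a) (Fin b) (MonoidAlgebra ℤ G)),
      M.map ((rat Q).comp π) = (M.map π).map (rat Q) := fun M => rfl
  have vv : ∀ {a b : ℕ} (z : Fin a → MonoidAlgebra ℤ Q)
      (M : Matrix (Fin a) (Fin b) (MonoidAlgebra ℤ Q)) (j : Fin b),
      rat Q ((z ᵥ* M) j) = ((fun k => rat Q (z k)) ᵥ* M.map (rat Q)) j := by
    intro a b z M j
    simp [Matrix.vecMul, dotProduct, map_sum]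
  obtain ⟨y, hy⟩ := h (fun k => rat Q (x k)) (by
    rw [mm]
    funext j
    rw [← vv, hx]
    exact map_zero _)
  obtain ⟨c, hc, y', hy'⟩ := clear y
  refine ⟨c, hc, y', ?_⟩
  funext j
  refine rat_inj ?_
  rw [vv, funext hy']
  rw [mm] at hy
  have h1 : (fun k => c • y k) = c • y := rfl
  rw [h1, Matrix.smul_vecMul, hy]
  change c • rat Q (x j) = rat Q (c • x j)
  rw [map_zsmul]

end

section

variable {G : Type} [Group G] (N : Subgroup G) [N.Normal]

/-- the homomorphism `ℤ[G] → ℚ[G/N]` -/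
noncomputable def toRat : MonoidAlgebra ℤ G →+* MonoidAlgebra ℚ (G ⧸ N) :=
  (rat (G ⧸ N)).comp (gmap (QuotientGroup.mk' N))

theorem principle (hN : IsAmenable N) (X : FinRes G) (i : ℕ)
    (h : Nontrivial (X.homology (toQuot N) i)) :
    ∃ j ≤ i, Nontrivial (X.homology (toRed G) j) := by
  by_contra hcon
  push Not at hcon
  have h3 := coeff N hN X i (fun j hj => (exAt_iff X _ j).2
    (hcon j hj))
  exact not_nontrivial_iff_subsingleton.2 ((exAt_iff X _ i).1 (h3 i le_rfl)) h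

theorem extension (hN : IsAmenable N) (X : FinRes G) (Y : FinRes (G ⧸ N)) (i : ℕ)
    (h : Nontrivial (Y.homology (toRed (G ⧸ N)) i))
    (hs : (∃ s : G ⧸ N →* G, ∀ q, (QuotientGroup.mk (s q) : G ⧸ N) = q) ∨
      ∀ q, 1 ≤ q → q < i → Subsingleton (X.homology (toRat N) q)) :
    ∃ j ≤ i, Nontrivial (X.homology (toRed G) j) := by
  have hB : Back X Y (gmap (QuotientGroup.mk' N)) i := by
    rcases hs with ⟨s, hs⟩ | hs
    · exact back_section X Y _ s (MonoidHom.ext fun q => hs q) i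
    · refine back_acyclic X Y _ (QuotientGroup.mk'_surjective N) i fun q hq => ?_
      exact tor_of_rat X _ q ((exAt_iff X _ (q + 1)).2 (hs (q + 1) (by omega) hq))
  by_contra hcon
  push Not at hcon
  have h3 := quot N hN X Y i hB (fun j hj => (exAt_iff X _ j).2
    (hcon j hj))
  exact not_nontrivial_iff_subsingleton.2 ((exAt_iff Y _ i).1 h3) h

end

end Pool.Agent.R807.ZK
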